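import Pool.Agent.Lib.MP_5591bc_ag.Cu.Set

/-! Coefficients of algebraic series are algebraic. -/

namespace Pool.Agent.Lib.MP_5591bc_ag.Cu

open Polynomial Set Filter Topology Matrix Complex Asymptotics G M
open scoped Polynomial.Bivariate

noncomputable section

theorem algf_const {k : Type} [CommRing k] (ι : k →+* ℂ)
    (hk : ∀ (q : k[X]) (x : ℂ), q ≠ 0 → q.eval₂ ι x = 0 → x ∈ Set.range ι)
    {p : k[X][Y]} (p0 : p ≠ 0) {s : PowerSeries ℂ}
    (h : p.eval₂ (coeToPowerSeries.ringHom.comp (mapRingHom ι)) s = 0) :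
    PowerSeries.constantCoeff s ∈ Set.range ι := by
  classical
  have hex : ∃ e, ∃ i, (p.coeff i).coeff e ≠ 0 := by
    by_contra hn
    push Not at hn
    exact p0 (Polynomial.ext fun i => Polynomial.ext fun e => by simpa using hn e i)
  obtain ⟨i, hi⟩ := Nat.find_spec hex
  have hd : (C (X ^ Nat.find hex) : k[X][Y]) ∣ p := by
    rw [C_dvd_iff_dvd_coeff]
    intro j
    rw [Polynomial.X_pow_dvd_iff]
    intro d hd
    by_contra hne
    exact Nat.find_min hex hd ⟨j, hne⟩
  obtain ⟨p1, hp1⟩ := hd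
  generalize Nat.find hex = e at hi hp1
  subst hp1
  rw [eval₂_mul, eval₂_C] at h
  have hX : (coeToPowerSeries.ringHom.comp (mapRingHom ι)) (X ^ e : k[X]) =
      (PowerSeries.X : PowerSeries ℂ) ^ e := by
    simp
  rw [hX] at h
  have h1 := (mul_eq_zero.mp h).resolve_left (pow_ne_zero _ PowerSeries.X_ne_zero)
  have h2 := congrArg (PowerSeries.constantCoeff (R := ℂ)) h1
  rw [Polynomial.hom_eval₂, map_zero] at h2
  have hc : (PowerSeries.constantCoeff (R := ℂ)).comp
      (coeToPowerSeries.ringHom.comp (mapRingHom ι)) = ι.comp Polynomial.constantCoeff := by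
    refine RingHom.ext fun a => ?_
    simp [← PowerSeries.coeff_zero_eq_constantCoeff_apply]
  rw [hc, ← eval₂_map] at h2
  refine hk _ _ (fun h0 => hi ?_) h2
  have h3 := congrArg (fun q => Polynomial.coeff q i) h0
  simp only [coeff_map, coeff_zero, constantCoeff_apply] at h3
  have h4 := coeff_X_pow_mul (p1.coeff i) e 0
  rw [zero_add] at h4
  rw [coeff_C_mul, h4, h3]

theorem algf_gen {k : Type} [CommRing k] [IsDomain k] (ι : k →+* ℂ)
    (hk : ∀ (q : k[X]) (x : ℂ), q ≠ 0 → q.eval₂ ι x = 0 → x ∈ Set.range ι) (n : ℕ) :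
    ∀ {p : k[X][Y]}, p ≠ 0 → ∀ {s : PowerSeries ℂ},
      p.eval₂ (coeToPowerSeries.ringHom.comp (mapRingHom ι)) s = 0 →
      PowerSeries.coeff n s ∈ Set.range ι := by
  induction n with
  | zero =>
    intro p p0 s h
    simpa using algf_const ι hk p0 h
  | succ n ih =>
    intro p p0 s h
    obtain ⟨c, hc⟩ := algf_const ι hk p0 h
    have hq : p.comp (C X * Y + C (C c)) ≠ 0 := by
      rw [Ne, comp_eq_zero_iff]
      rintro (h0 | ⟨-, h0⟩)
      · exact p0 h0
      · have h1 := congrArg (fun q => Polynomial.coeff q 1) h0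
        simp [coeff_C] at h1
    have h2 := ih hq (s := PowerSeries.mk fun j => PowerSeries.coeff (j + 1) s) (by
      have h3 : (C X * Y + C (C c) : k[X][Y]).eval₂
          (coeToPowerSeries.ringHom.comp (mapRingHom ι))
          (PowerSeries.mk fun j => PowerSeries.coeff (j + 1) s) = s := by
        conv_rhs => rw [PowerSeries.eq_X_mul_shift_add_const s, ← hc]
        simp
      rw [eval₂_comp, h3, h])
    simpa using h2

theorem algf {R : Subring ℂ} {p : ℂ[X][Y]} (hp : ∀ i j, IsAlgebraic R ((p.coeff i).coeff j))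
    (p0 : p ≠ 0) {s : PowerSeries ℂ} (h : p.eval₂ coeToPowerSeries.ringHom s = 0) (n : ℕ) :
    IsAlgebraic R (PowerSeries.coeff n s) := by
  let k := Subalgebra.algebraicClosure R ℂ
  have hl : p ∈ lifts (mapRingHom (algebraMap k ℂ)) := by
    rw [lifts_iff_coeff_lifts]
    intro i
    have h1 : p.coeff i ∈ lifts (algebraMap k ℂ) := by
      rw [lifts_iff_coeff_lifts]
      intro j
      exact ⟨⟨_, hp i j⟩, rfl⟩
    exact h1
  obtain ⟨q, rfl⟩ := hl
  have q0 : q ≠ 0 := by
    rintro rfl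
    exact p0 (map_zero _)
  rw [coe_mapRingHom, eval₂_map] at h
  obtain ⟨c, hc⟩ := algf_gen (algebraMap k ℂ) (fun u x u0 hu => by
    have h1 : IsAlgebraic k x := ⟨u, u0, hu⟩
    exact ⟨⟨x, h1.restrictScalars R⟩, rfl⟩) n q0 h
  rw [← hc]
  exact c.2

end

end Pool.Agent.Lib.MP_5591bc_ag.Cu
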