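import Pool.Agent.Lib.MP_5591bc_ag.Cu.Geo

/-! Residues and primitives on a punctured disc. -/

namespace Pool.Agent.Lib.MP_5591bc_ag.Cu

open Polynomial Set Filter Topology Matrix Complex Asymptotics G M
open scoped Polynomial.Bivariate

noncomputable section

variable {f : ℂ[X][Y]} {d : ℂ[X]} {S S1 : Set ℂ} {Z Z' : Finset ℂ} {x : ℂ} {β : ℂ → ℂ}
  {a a' b b' G H H' W W' Φ Φ' Γ η φ ψ : ℂ × ℂ → ℂ} {F F' Ψ : ℂ → ℂ} {s t u v r ρ : ℝ} {L : ℂ}
  {μ : ℝ → ℝ → ℝ → ℝ → ℂ} {𝒞 : AddSubmonoid ℂ} {ν : Type*} [Fintype ν]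

variable {o : Option ℂ} {ε N m : ℕ} {y : Fin N → ℂ → ℂ} {w : ℂ} {j : Fin N}


/-- removable singularity after one more factor -/
theorem laur_an {k : ℕ} (h : ∀ᶠ w in 𝓝[≠] (0 : ℂ), DifferentiableAt ℂ F w)
    (hb : (fun w => w ^ k * F w) =O[𝓝[≠] 0] fun _ => (1 : ℝ)) :
    AnalyticAt ℂ (fun w => w ^ (k + 1) * F w) 0 := by
  refine analyticAt_of_differentiable_on_punctured_nhds_of_continuousAt
    (h.mono fun w hw => by fun_prop) ?_
  rw [← continuousWithinAt_compl_self]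
  have h1 : (fun w : ℂ => w) =o[𝓝[≠] 0] fun _ => (1 : ℝ) :=
    (isLittleO_one_iff ℝ).2 (tendsto_id.mono_left nhdsWithin_le_nhds)
  have h2 := h1.mul_isBigO hb
  simp only [mul_one] at h2
  have h3 := (isLittleO_one_iff ℝ).1 h2
  simp only [ContinuousWithinAt, zero_pow k.succ_ne_zero, zero_mul]
  exact h3.congr fun w => by ring

theorem mer_of_bd {k : ℕ} (h : ∀ᶠ w in 𝓝[≠] (0 : ℂ), DifferentiableAt ℂ F w)
    (hb : (fun w => w ^ k * F w) =O[𝓝[≠] 0] fun _ => (1 : ℝ)) : MeromorphicAt F 0 :=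
  ⟨k + 1, by simpa using laur_an h hb⟩

theorem laur_zero {A : ℂ → ℂ} (h0 : 0 < r) (h : DifferentiableOn ℂ A (Metric.ball 0 r)) :
    ∃ Ψ : ℂ → ℂ, (∀ w ∈ Metric.ball (0 : ℂ) r, HasDerivAt Ψ (A w) w) ∧ AnalyticAt ℂ Ψ 0 := by
  obtain ⟨Ψ, hΨ⟩ := h.isExactOn_ball
  exact ⟨Ψ, hΨ, DifferentiableOn.analyticAt
    (fun w hw => (hΨ w hw).differentiableAt.differentiableWithinAt) (Metric.ball_mem_nhds 0 h0)⟩

theorem laur_ind (h0 : 0 < r) (n : ℕ) : ∀ {A : ℂ → ℂ}, DifferentiableOn ℂ A (Metric.ball 0 r) →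
    ∃ (c : ℂ) (Ψ : ℂ → ℂ), (∀ w ∈ Metric.ball (0 : ℂ) r, w ≠ 0 →
      HasDerivAt Ψ (A w / w ^ n - c / w) w) ∧ MeromorphicAt Ψ 0 := by
  induction n with
  | zero =>
    intro A h
    obtain ⟨Ψ, h1, h2⟩ := laur_zero h0 h
    exact ⟨0, Ψ, fun w hw _ => by simpa using h1 w hw, h2.meromorphicAt⟩
  | succ n ih =>
    intro A h
    obtain ⟨c, Ψ, h1, h2⟩ := ih ((differentiableOn_dslope (Metric.ball_mem_nhds 0 h0)).2 h)
    have e : ∀ w : ℂ, w ≠ 0 → dslope A 0 w = (A w - A 0) / w := fun w hw => by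
      rw [dslope_of_ne _ hw, slope_def_field, sub_zero]
    cases n with
    | zero =>
      refine ⟨c + A 0, Ψ, fun w hw w0 => (h1 w hw w0).congr_deriv ?_, h2⟩
      rw [e w w0]
      field_simp
      ring
    | succ n =>
      have hn : ((n + 1 : ℕ) : ℂ) ≠ 0 := Nat.cast_ne_zero.2 n.succ_ne_zero
      refine ⟨c, fun w => Ψ w - A 0 / (n + 1 : ℕ) * (w ^ (n + 1))⁻¹, fun w hw w0 => ?_, ?_⟩
      · refine ((h1 w hw w0).fun_sub (((hasDerivAt_pow (n + 1) w).fun_inv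
          (pow_ne_zero _ w0)).const_mul (A 0 / (n + 1 : ℕ)))).congr_deriv ?_
        rw [e w w0, Nat.add_sub_cancel]
        field_simp
        ring
      · exact h2.fun_sub (by fun_prop)

theorem laur (hε : 0 < ε) (h0 : 0 < ρ) (h : ∀ w ∈ Wu ε ρ, AnalyticAt ℂ F w)
    (hm : MeromorphicAt F 0) : ∃ (c : ℂ) (Ψ : ℂ → ℂ),
      (∀ w ∈ Wu ε ρ, HasDerivAt Ψ (F w - c / w) w) ∧ MeromorphicAt Ψ 0 ∧
      (F =O[𝓝[≠] 0] (fun _ => (1 : ℝ)) → c = 0 ∧ Ψ =O[𝓝[≠] 0] fun _ => (1 : ℝ)) := by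
  have hd := (wu_ev hε h0).mono fun w hw => (h w hw).differentiableAt
  obtain ⟨r, hr, e⟩ := wu_eq hε h0
  rw [e] at h ⊢
  have key : ∀ n : ℕ, AnalyticAt ℂ (fun w => w ^ n * F w) 0 →
      DifferentiableOn ℂ (fun w => w ^ n * F w) (Metric.ball 0 r) := fun n hn w hw => by
    by_cases w0 : w = 0
    · subst w0; exact hn.differentiableAt.differentiableWithinAt
    · have := (h w ⟨hw, w0⟩).differentiableAt
      exact DifferentiableAt.differentiableWithinAt (by fun_prop)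
  by_cases hb : F =O[𝓝[≠] 0] (fun _ => (1 : ℝ))
  · obtain ⟨Ψ, h1, h2⟩ := laur_zero hr ((differentiableOn_dslope (Metric.ball_mem_nhds 0 hr)).2
      (key _ (laur_an (k := 0) hd (by simpa using hb))))
    refine ⟨0, Ψ, fun w hw => (h1 w hw.1).congr_deriv ?_, h2.meromorphicAt, fun _ => ⟨rfl,
      (h2.continuousAt.tendsto.mono_left nhdsWithin_le_nhds).isBigO_one ℝ⟩⟩
    have w0 : w ≠ 0 := hw.2
    rw [dslope_of_ne _ w0, slope_def_field]
    simp [w0]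
  · obtain ⟨n, hn⟩ := hm
    obtain ⟨c, Ψ, h1, h2⟩ := laur_ind hr n (key n (by simpa using hn))
    refine ⟨c, Ψ, fun w hw => (h1 w hw.1 hw.2).congr_deriv ?_, h2, fun h => absurd h hb⟩
    have w0 : w ≠ 0 := hw.2
    field_simp

theorem IsRes.uniq {c c' : ℂ} (h : IsRes F c) (h' : IsRes F c') : c = c' := by
  obtain ⟨p, hp⟩ := h
  obtain ⟨q, hq⟩ := h'
  obtain ⟨r, hr, hs⟩ := (nhdsWithin_hasBasis Metric.nhds_basis_closedBall _).eventually_iff.1
    (hp.and hq)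
  have h1 : (∮ z in C(0, r), (c - c') * (z - 0)⁻¹) = 0 :=
    circleIntegral.integral_eq_zero_of_hasDerivWithinAt (f := fun z => q z - p z) hr.le
      fun z hz => by
        have z0 : z ≠ 0 := Metric.ne_of_mem_sphere hz hr.ne'
        have := hs ⟨Metric.sphere_subset_closedBall hz, z0⟩
        refine ((this.2.fun_sub this.1).congr_deriv ?_).hasDerivWithinAt
        rw [sub_zero]
        field_simp
        ring
  rw [circleIntegral.integral_const_mul, circleIntegral.integral_sub_center_inv _ hr.ne'] at h1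
  exact sub_eq_zero.1 ((mul_eq_zero.1 h1).resolve_right two_pi_I_ne_zero)

theorem IsRes.congr {c : ℂ} (h : IsRes F c) (e : F =ᶠ[𝓝[≠] 0] F') : IsRes F' c := by
  obtain ⟨p, hp⟩ := h
  exact ⟨p, by filter_upwards [hp, e] with u h1 h2 using h2 ▸ h1⟩

theorem isRes_sum {ι : Type*} (I : Finset ι) {F : ι → ℂ → ℂ} {c : ι → ℂ} (q : ι → ℂ)
    (h : ∀ i ∈ I, IsRes (F i) (c i)) :
    IsRes (fun w => ∑ i ∈ I, q i * F i w) (∑ i ∈ I, q i * c i) := by
  choose! p hp using h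
  refine ⟨fun w => ∑ i ∈ I, q i * p i w, ?_⟩
  filter_upwards [(Finset.eventually_all I).2 hp] with u hu
  refine (HasDerivAt.fun_sum fun i hi => (hu i hi).const_mul (q i)).congr_deriv ?_
  rw [Finset.sum_div, ← Finset.sum_sub_distrib]
  exact Finset.sum_congr rfl fun i _ => by ring

end

end Pool.Agent.Lib.MP_5591bc_ag.Cu
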