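import Pool.Agent.Lib.MP_5591bc_ag.Cu.Efld
import Pool.Agent.Lib.MP_5591bc_ag.Cu.Laur

/-! Denominators of residues. -/

namespace Pool.Agent.Lib.MP_5591bc_ag.Cu

open Polynomial Set Filter Topology Matrix Complex Asymptotics G M
open scoped Polynomial.Bivariate

noncomputable section

variable {σ : Type*} [Fintype σ] [DecidableEq σ] {R : Subring ℂ} {b b' : ℂ} {g g' : Gm}

/-- a function with derivative zero near a puncture is constant there -/
theorem ari_cst {D : ℂ → ℂ} (h : ∀ᶠ u in 𝓝[≠] (0 : ℂ), HasDerivAt D 0 u) :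
    ∃ K, ∀ᶠ u in 𝓝[≠] (0 : ℂ), D u = K := by
  obtain ⟨r, hr, hs⟩ := (nhdsWithin_hasBasis Metric.nhds_basis_ball _).eventually_iff.1 h
  have hd : ∀ w ∈ {w : ℂ | w.re < Real.log r}, HasDerivAt (fun w => D (exp w)) 0 w :=
    fun w hw => by
      have h1 : exp w ∈ Metric.ball (0 : ℂ) r := by
        rw [mem_ball_zero_iff, norm_exp]
        exact (Real.lt_log_iff_exp_lt hr).1 hw
      exact ((hs ⟨h1, exp_ne_zero w⟩).comp w (Complex.hasDerivAt_exp w)).congr_deriv (zero_mul _)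
  obtain ⟨K, hK⟩ := (isOpen_lt continuous_re continuous_const).exists_is_const_of_deriv_eq_zero
    (convex_halfSpace_re_lt (Real.log r)).isPreconnected
    (fun w hw => (hd w hw).differentiableAt.differentiableWithinAt) fun w hw => (hd w hw).deriv
  refine ⟨K, ?_⟩
  filter_upwards [self_mem_nhdsWithin, nhdsWithin_le_nhds (Metric.ball_mem_nhds (0 : ℂ) hr)]
    with u u0 hu
  have h1 := hK (log u) (by
    change (log u).re < _
    rw [log_re]
    exact Real.log_lt_log (norm_pos_iff.2 u0) (mem_ball_zero_iff.1 hu))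
  rwa [exp_log u0] at h1

theorem ari_X {h : ℂ → ℂ} (hh : AnalyticAt ℂ h 0) :
    tay (fun u => u * h u) 0 = PowerSeries.X * tay h 0 := by
  simpa using tay_pow_mul hh 1

/-- the numerator of a primitive of `h / u ^ (m + 1)` -/
theorem ari_num (m : ℕ) : ∀ {h : ℂ → ℂ}, AnalyticAt ℂ h 0 → ∃ H : ℂ → ℂ, AnalyticAt ℂ H 0 ∧
    ∀ᶠ u in 𝓝 (0 : ℂ), u * deriv H u - m * H u =
      h u - PowerSeries.coeff m (tay h 0) * u ^ m := by
  have sl : ∀ {h : ℂ → ℂ}, AnalyticAt ℂ h 0 → ∃ k : ℂ → ℂ, AnalyticAt ℂ k 0 ∧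
      ∀ u, h u = h 0 + u * k u := fun {h} hh => by
    obtain ⟨p, hp⟩ := hh
    refine ⟨dslope h 0, ⟨_, hp.has_fpower_series_dslope_fslope⟩, fun u => ?_⟩
    have := sub_smul_dslope h 0 u
    rw [sub_zero, smul_eq_mul] at this
    rw [this]
    ring
  induction m with
  | zero =>
    intro h hh
    obtain ⟨k, hk, e⟩ := sl hh
    obtain ⟨r, hr, hs⟩ := Metric.nhds_basis_ball.eventually_iff.1 hk.eventually_analyticAt
    obtain ⟨H, hH⟩ := DifferentiableOn.isExactOn_ball (f := k) (c := 0) (r := r)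
      fun w hw => (hs hw).differentiableAt.differentiableWithinAt
    refine ⟨H, DifferentiableOn.analyticAt (fun w hw =>
      (hH w hw).differentiableAt.differentiableWithinAt) (Metric.ball_mem_nhds 0 hr), ?_⟩
    filter_upwards [Metric.ball_mem_nhds (0 : ℂ) hr] with u hu
    rw [(hH u hu).deriv, e u, coeff_tay]
    simp
  | succ m ih =>
    intro h hh
    obtain ⟨k, hk, e⟩ := sl hh
    obtain ⟨H, hH, e1⟩ := ih hk
    have hm : ((m + 1 : ℕ) : ℂ) ≠ 0 := Nat.cast_ne_zero.2 m.succ_ne_zero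
    have ec : PowerSeries.coeff (m + 1) (tay h 0) = PowerSeries.coeff m (tay k 0) := by
      have : tay h 0 = tay (fun u => h 0 + u * k u) 0 := congrArg (tay · 0) (funext e)
      rw [this, tay_add analyticAt_const (h := fun u => u * k u) (by fun_prop), tay_const,
        ari_X hk, map_add, PowerSeries.coeff_succ_X_mul, PowerSeries.coeff_C, 
        if_neg m.succ_ne_zero, zero_add]
    refine ⟨fun u => u * H u - h 0 / (m + 1 : ℕ), by fun_prop, ?_⟩
    filter_upwards [e1, hH.eventually_analyticAt] with u h1 h2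
    have hd := (((hasDerivAt_id' u).fun_mul h2.differentiableAt.hasDerivAt).sub_const
      (h 0 / (m + 1 : ℕ))).deriv
    have h3 : ((m + 1 : ℕ) : ℂ) * (h 0 / (m + 1 : ℕ)) = h 0 := mul_div_cancel₀ _ hm
    rw [hd, ec, e u]
    push_cast at h3 ⊢
    linear_combination u * h1 + h3

theorem ari_der {H : ℂ → ℂ} {u : ℂ} (hH : DifferentiableAt ℂ H u) (u0 : u ≠ 0) (m : ℕ) :
    HasDerivAt (fun u => H u / u ^ m) ((u * deriv H u - m * H u) / u ^ (m + 1)) u := by
  refine (hH.hasDerivAt.fun_div (hasDerivAt_pow m u) (pow_ne_zero _ u0)).congr_deriv ?_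
  cases m with
  | zero => field_simp; simp
  | succ m =>
    rw [Nat.add_sub_cancel]
    field_simp
    ring

theorem ari_res {h : ℂ → ℂ} (hh : AnalyticAt ℂ h 0) (m : ℕ) :
    IsRes (fun u => h u / u ^ (m + 1)) (PowerSeries.coeff m (tay h 0)) := by
  obtain ⟨H, hH, e⟩ := ari_num m hh
  refine ⟨fun u => H u / u ^ m, ?_⟩
  filter_upwards [self_mem_nhdsWithin, nhdsWithin_le_nhds e,
    nhdsWithin_le_nhds hH.eventually_analyticAt] with u u0 h1 h2
  have u0 : u ≠ 0 := u0
  refine (ari_der h2.differentiableAt u0 m).congr_deriv ?_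
  rw [h1]
  field_simp
  ring

/-- the numerator of a germ with bounded denominators -/
theorem ari_top (hb : b ∈ R) (b0 : b ≠ 0) {F : ℂ → ℂ} {c : ℕ}
    (hF : InO R b (bu b ^ c * (F : Gm))) : ∃ h : ℂ → ℂ, AnalyticAt ℂ h 0 ∧
      (∀ᶠ u in 𝓝[≠] (0 : ℂ), F u = h u / u ^ (c + 1)) ∧
      ∀ k, IsIntegral R (b ^ (c + k) * PowerSeries.coeff k (tay h 0)) := by
  obtain ⟨h, hh, e, hi⟩ := hF
  have e1 : (fun u => (b * u) ^ c * F u) =ᶠ[𝓝[≠] (0 : ℂ)] h := Germ.coe_eq.1 e
  refine ⟨fun u => (b ^ c)⁻¹ * (u * h u), by fun_prop, ?_, fun k => ?_⟩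
  · filter_upwards [self_mem_nhdsWithin, e1] with u u0 h1
    have u0 : u ≠ 0 := u0
    rw [← h1]
    field_simp
    ring
  · rw [tay_cmul (g := fun u => u * h u) (by fun_prop), ari_X hh, PowerSeries.coeff_C_mul]
    cases k with
    | zero => simpa using isIntegral_zero
    | succ k =>
      rw [PowerSeries.coeff_succ_X_mul]
      have h1 : IsIntegral R b := isIntegral_algebraMap (R := R) (A := ℂ) (x := ⟨b, hb⟩)
      have h2 : b ^ (c + (k + 1)) * ((b ^ c)⁻¹ * PowerSeries.coeff k (tay h 0)) =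
          b * (b ^ k * PowerSeries.coeff k (tay h 0)) := by
        field_simp
        ring
      exact h2 ▸ h1.mul (hi k)

theorem ari (hb : b ∈ R) (b0 : b ≠ 0) {F F' Ψ : ℂ → ℂ} {c n : ℕ} (hF : InO R b (bu b ^ c * (F : Gm)))
    (hF' : InO R b (bu b ^ n * (F' : Gm))) (hΨ : ∀ᶠ u in 𝓝[≠] (0 : ℂ), HasDerivAt Ψ (F u) u)
    (h0 : IsRes F' 0) : ∃ C, IsRes (fun u => Ψ u * F' u) C ∧
      MeromorphicAt (fun u => Ψ u * F' u) 0 ∧
      IsIntegral R ((Nat.lcmUpto (c + n) : ℂ) * b ^ (2 * (c + n)) * C) := by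
  obtain ⟨h, hh, e, hi⟩ := ari_top hb b0 hF
  obtain ⟨h', hh', e', hi'⟩ := ari_top hb b0 hF'
  have z : PowerSeries.coeff c (tay h 0) = 0 :=
    ((ari_res hh c).congr (e.mono fun u hu => hu.symm)).uniq
      ⟨Ψ, hΨ.mono fun u hu => by simpa using hu⟩
  have z' : PowerSeries.coeff n (tay h' 0) = 0 :=
    ((ari_res hh' n).congr (e'.mono fun u hu => hu.symm)).uniq h0
  obtain ⟨H, hH, e1⟩ := ari_num c hh
  obtain ⟨K, hK⟩ : ∃ K, ∀ᶠ u in 𝓝[≠] (0 : ℂ), Ψ u - H u / u ^ c = K := by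
    refine ari_cst ?_
    filter_upwards [self_mem_nhdsWithin, nhdsWithin_le_nhds e1,
      nhdsWithin_le_nhds hH.eventually_analyticAt, hΨ, e] with u u0 h1 h2 h3 h4
    refine (h3.fun_sub (ari_der h2.differentiableAt u0 c)).congr_deriv ?_
    rw [h1, z, h4, zero_mul, sub_zero, sub_self]
  have hA : AnalyticAt ℂ (fun u => H u * h' u + K * (u ^ c * h' u)) 0 := by fun_prop
  have e2 : (fun u => (H u * h' u + K * (u ^ c * h' u)) / u ^ (c + n + 1)) =ᶠ[𝓝[≠] (0 : ℂ)]
      fun u => Ψ u * F' u := by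
    filter_upwards [self_mem_nhdsWithin, hK, e'] with u u0 h1 h2
    have u0 : u ≠ 0 := u0
    rw [h2, ← h1]
    field_simp
    ring
  refine ⟨_, (ari_res hA (c + n)).congr e2,
    (hA.meromorphicAt.fun_div (by fun_prop)).congr e2, ?_⟩
  have e3 : tay (fun u => u ^ c * h' u) 0 = PowerSeries.X ^ c * tay h' 0 := by
    simpa using tay_pow_mul hh' c
  have e4 : ∀ k : ℕ, ((k : ℂ) - c) * PowerSeries.coeff k (tay H 0) =
      PowerSeries.coeff k (tay h 0) := fun k => by
    have h1 : tay (fun u => u * deriv H u - c * H u) 0 = tay h 0 :=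
      tay_congr (e1.mono fun u hu => hu.trans (by rw [z, zero_mul, sub_zero]))
    have h2 := hH.deriv
    rw [← h1, tay_sub (g := fun u => u * deriv H u) (by fun_prop) (analyticAt_const.fun_mul hH),
      ari_X hH.deriv, tay_cmul hH, tay_deriv, map_sub, PowerSeries.coeff_C_mul]
    cases k with
    | zero => simp
    | succ k =>
      rw [PowerSeries.coeff_succ_X_mul, PowerSeries.coeff_derivative]
      push_cast
      ring
  rw [tay_add (hH.fun_mul hh') (by fun_prop), tay_cmul (by fun_prop), e3, tay_mul hH hh', map_add,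
    PowerSeries.coeff_C_mul, add_comm c n, PowerSeries.coeff_X_pow_mul, z', mul_zero, add_zero,
    PowerSeries.coeff_mul, Finset.mul_sum]
  refine IsIntegral.sum _ fun p hp => ?_
  have hp : p.1 + p.2 = n + c := by simpa using hp
  by_cases hc : p.1 = c
  · have : p.2 = n := by omega
    rw [this, z', mul_zero, mul_zero]
    exact isIntegral_zero
  · have hd : ((p.1 : ℤ) - c) ∣ (Nat.lcmUpto (n + c) : ℤ) := by
      rw [← Int.natAbs_dvd, Int.natCast_dvd_natCast]
      have h1 : 1 ≤ ((p.1 : ℤ) - c).natAbs := by omega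
      have h2 : ((p.1 : ℤ) - c).natAbs ≤ n + c := by omega
      exact Finset.dvd_lcm (f := id) (Finset.mem_Icc.2 ⟨h1, h2⟩)
    obtain ⟨q, hq⟩ := hd
    have hq' : (Nat.lcmUpto (n + c) : ℂ) = ((p.1 : ℂ) - c) * q := by exact_mod_cast hq
    have h1 : IsIntegral R (q : ℂ) := by
      simpa using isIntegral_algebraMap (R := R) (A := ℂ) (x := (q : R))
    convert h1.mul ((hi p.1).mul (hi' p.2)) using 1
    rw [hq', ← e4 p.1, show 2 * (n + c) = c + p.1 + (n + p.2) by omega, pow_add b (c + p.1)]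
    ring

end

end Pool.Agent.Lib.MP_5591bc_ag.Cu
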