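import Pool.Agent.Lib.MP_5591bc_ag.Cu.Set

/-! Integrals over boundaries of rectangles. -/

namespace Pool.Agent.Lib.MP_5591bc_ag.Cu

open Polynomial Set Filter Topology Matrix Complex Asymptotics G M
open scoped Polynomial.Bivariate

noncomputable section

variable {f : ℂ[X][Y]} {d : ℂ[X]} {S S1 : Set ℂ} {Z Z' : Finset ℂ} {x : ℂ} {β : ℂ → ℂ}
  {a a' b b' G H H' W W' Φ Φ' Γ η φ ψ : ℂ × ℂ → ℂ} {F F' Ψ : ℂ → ℂ} {s t u v r ρ : ℝ} {L : ℂ}
  {μ : ℝ → ℝ → ℝ → ℝ → ℂ} {𝒞 : AddSubmonoid ℂ} {ν : Type*} [Fintype ν]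

theorem Bx_mH (hu : u ≤ v) {c y : ℝ} (hc : c = u ∨ c = v) (hy : y ∈ Icc s t) :
    (y : ℂ) + c * I ∈ frx s t u v := by
  have h1 : ((y : ℂ) + c * I).re = y := by simp
  have h2 : ((y : ℂ) + c * I).im = c := by simp
  refine ⟨⟨by rw [h1]; exact hy, ?_⟩, Or.inr (Or.inr (by rw [h2]; exact hc))⟩
  rw [h2]
  rcases hc with rfl | rfl
  · exact ⟨le_rfl, hu⟩
  · exact ⟨hu, le_rfl⟩

theorem Bx_mV (hs : s ≤ t) {c y : ℝ} (hc : c = s ∨ c = t) (hy : y ∈ Icc u v) :
    (c : ℂ) + y * I ∈ frx s t u v := by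
  have h1 : ((c : ℂ) + y * I).re = c := by simp
  have h2 : ((c : ℂ) + y * I).im = y := by simp
  refine ⟨⟨?_, by rw [h2]; exact hy⟩, ?_⟩
  · rw [h1]
    rcases hc with rfl | rfl
    · exact ⟨le_rfl, hs⟩
    · exact ⟨hs, le_rfl⟩
  · rw [h1]
    rcases hc with h | h
    · exact Or.inl h
    · exact Or.inr (Or.inl h)

theorem Bx_cH (hs : s ≤ t) (hu : u ≤ v) (hF : ContinuousOn F (frx s t u v)) {c : ℝ}
    (hc : c = u ∨ c = v) : ContinuousOn (fun y : ℝ => F (y + c * I)) (uIcc s t) := by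
  rw [uIcc_of_le hs]
  exact hF.comp (by fun_prop) fun y hy => Bx_mH hu hc hy

theorem Bx_cV (hs : s ≤ t) (hu : u ≤ v) (hF : ContinuousOn F (frx s t u v)) {c : ℝ}
    (hc : c = s ∨ c = t) : ContinuousOn (fun y : ℝ => F (c + y * I)) (uIcc u v) := by
  rw [uIcc_of_le hu]
  exact hF.comp (by fun_prop) fun y hy => Bx_mV hs hc hy

theorem Bx_iH (hs : s ≤ t) (hu : u ≤ v) (hF : ContinuousOn F (frx s t u v)) {c : ℝ}
    (hc : c = u ∨ c = v) :
    IntervalIntegrable (fun y : ℝ => F (y + c * I)) MeasureTheory.volume s t :=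
  (Bx_cH hs hu hF hc).intervalIntegrable

theorem Bx_iV (hs : s ≤ t) (hu : u ≤ v) (hF : ContinuousOn F (frx s t u v)) {c : ℝ}
    (hc : c = s ∨ c = t) :
    IntervalIntegrable (fun y : ℝ => F (c + y * I)) MeasureTheory.volume u v :=
  (Bx_cV hs hu hF hc).intervalIntegrable

theorem Bx_shift {p w D : ℂ} {y : ℝ}
    (h : HasDerivAt (fun τ : ℝ => Ψ (p + y * w + τ * w)) D 0) :
    HasDerivAt (fun τ : ℝ => Ψ (p + τ * w)) D y := by
  have h0 : HasDerivAt (fun τ : ℝ => Ψ (p + y * w + τ * w)) D (y - y) := by rwa [sub_self]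
  have h1 := h0.comp_sub_const y y
  refine h1.congr_of_eventuallyEq (Eventually.of_forall fun τ => ?_)
  show Ψ (p + τ * w) = Ψ (p + y * w + ((τ - y : ℝ) : ℂ) * w)
  congr 1
  push_cast
  ring

theorem Bx_side {A B : ℝ → ℂ} {p w : ℂ} {c e : ℝ} (hA : ContinuousOn A (uIcc c e))
    (hB : ContinuousOn B (uIcc c e)) (h : ∀ y ∈ uIcc c e,
      HasDerivAt (fun τ : ℝ => Ψ (p + y * w + τ * w)) (A y * w + star (B y * w)) 0) :
    w * (∫ y in c..e, A y) + star (w * ∫ y in c..e, B y) = Ψ (p + e * w) - Ψ (p + c * w) := by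
  have h1 : ContinuousOn (fun y => A y * w) (uIcc c e) := hA.mul continuousOn_const
  have h2 : ContinuousOn (fun y => star (B y * w)) (uIcc c e) :=
    (hB.mul continuousOn_const).star
  have h3 := intervalIntegral.integral_eq_sub_of_hasDerivAt (f := fun τ : ℝ => Ψ (p + τ * w))
    (fun y hy => Bx_shift (h y hy)) (h1.add h2).intervalIntegrable
  rw [← h3, intervalIntegral.integral_add h1.intervalIntegrable h2.intervalIntegrable]
  have h4 : (∫ y in c..e, star (B y * w)) = star (∫ y in c..e, B y * w) :=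
    intervalIntegral.intervalIntegral_conj (f := fun y => B y * w)
  rw [h4, intervalIntegral.integral_mul_const, intervalIntegral.integral_mul_const, mul_comm w,
    mul_comm w]

theorem Bx_atan (hr : 0 < r) (c : ℝ) :
    (∫ y : ℝ in (c - r)..(c + r), ((r / (r ^ 2 + (y - c) ^ 2) : ℝ) : ℂ)) = Real.pi / 2 := by
  rw [intervalIntegral.integral_ofReal,
    intervalIntegral.integral_comp_sub_right (fun y => r / (r ^ 2 + y ^ 2)) c,
    integral_div_sq_add_sq]
  have h1 : (c + r - c) / r = 1 := by field_simp; ring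
  have h2 : (c - r - c) / r = -1 := by field_simp; ring
  rw [h1, h2, Real.arctan_neg, Real.arctan_one]
  push_cast
  ring

theorem bx_addv (hF : ContinuousOn F S) : Addv (bx F) S := by
  refine ⟨fun s m t a b h1 h2 h3 k1 k2 => ?_, fun s t a m b h1 h2 h3 k1 k2 => ?_⟩
  · have e1 := intervalIntegral.integral_add_adjacent_intervals
      (Bx_iH h1 h3 (hF.mono k1) (Or.inl rfl)) (Bx_iH h2 h3 (hF.mono k2) (Or.inl rfl))
    have e2 := intervalIntegral.integral_add_adjacent_intervals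
      (Bx_iH h1 h3 (hF.mono k1) (Or.inr rfl)) (Bx_iH h2 h3 (hF.mono k2) (Or.inr rfl))
    unfold bx
    rw [← e1, ← e2]
    ring
  · have e1 := intervalIntegral.integral_add_adjacent_intervals
      (Bx_iV h1 h2 (hF.mono k1) (Or.inl rfl)) (Bx_iV h1 h3 (hF.mono k2) (Or.inl rfl))
    have e2 := intervalIntegral.integral_add_adjacent_intervals
      (Bx_iV h1 h2 (hF.mono k1) (Or.inr rfl)) (Bx_iV h1 h3 (hF.mono k2) (Or.inr rfl))
    unfold bx
    rw [← e1, ← e2]
    ring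

theorem bx_der2 (hs : s ≤ t) (hu : u ≤ v) (hF : ContinuousOn F (frx s t u v))
    (hF' : ContinuousOn F' (frx s t u v)) (h : ∀ z ∈ frx s t u v, ∀ w : ℂ,
      HasDerivAt (fun τ : ℝ => Ψ (z + τ * w)) (F z * w + star (F' z * w)) 0) :
    bx F s t u v + star (bx F' s t u v) = 0 := by
  have eH : ∀ c : ℝ, c = u ∨ c = v → (∫ y : ℝ in s..t, F (y + c * I)) +
      star (∫ y : ℝ in s..t, F' (y + c * I)) = Ψ (t + c * I) - Ψ (s + c * I) := by
    intro c hc
    have := Bx_side (Ψ := Ψ) (p := c * I) (w := 1) (Bx_cH hs hu hF hc) (Bx_cH hs hu hF' hc)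
      fun y hy => by
        have h1 := h _ (Bx_mH hu hc (by rwa [uIcc_of_le hs] at hy)) 1
        have e : (c : ℂ) * I + y * 1 = y + c * I := by ring
        rw [e]
        exact h1
    simpa only [one_mul, mul_one, add_comm ((c : ℂ) * I)] using this
  have eV : ∀ c : ℝ, c = s ∨ c = t → I * (∫ y : ℝ in u..v, F (c + y * I)) +
      star (I * ∫ y : ℝ in u..v, F' (c + y * I)) = Ψ (c + v * I) - Ψ (c + u * I) := by
    intro c hc
    exact Bx_side (Ψ := Ψ) (p := c) (w := I) (Bx_cV hs hu hF hc) (Bx_cV hs hu hF' hc)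
      fun y hy => h _ (Bx_mV hs hc (by rwa [uIcc_of_le hu] at hy)) I
  have e1 := eH u (Or.inl rfl)
  have e2 := eH v (Or.inr rfl)
  have e3 := eV s (Or.inl rfl)
  have e4 := eV t (Or.inr rfl)
  unfold bx
  rw [star_sub, star_add, star_sub]
  linear_combination e1 - e2 + e4 - e3

theorem bx_der (hs : s ≤ t) (hu : u ≤ v) (hF : ContinuousOn F (frx s t u v))
    (h : ∀ z ∈ frx s t u v, HasDerivAt Ψ (F z) z) : bx F s t u v = 0 := by
  have h0 : bx (fun _ => 0) s t u v = 0 := by simp [bx]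
  have := bx_der2 (Ψ := Ψ) (F' := fun _ => 0) hs hu hF continuousOn_const fun z hz w => by
    have h1 : HasDerivAt (fun τ : ℂ => z + τ * w) w ((0 : ℝ) : ℂ) := by
      simpa using ((hasDerivAt_id ((0 : ℝ) : ℂ)).mul_const w).const_add z
    have h2 : HasDerivAt Ψ (F z) (z + ((0 : ℝ) : ℂ) * w) := by simpa using h z hz
    have h3 := (HasDerivAt.comp (h₂ := Ψ) (h := fun τ : ℂ => z + τ * w) _ h2 h1).comp_ofReal
    simpa [Function.comp_def] using h3
  rwa [h0, star_zero, add_zero] at this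

theorem bx_hol (hs : s ≤ t) (hu : u ≤ v) (h : ∀ z ∈ rc s t u v, DifferentiableAt ℂ F z) :
    bx F s t u v = 0 := by
  have := integral_boundary_rect_eq_zero_of_differentiableOn F ⟨s, u⟩ ⟨t, v⟩ fun z hz => by
    refine (h z ?_).differentiableWithinAt
    rw [mem_reProdIm] at hz
    simp only [uIcc_of_le hs, uIcc_of_le hu] at hz
    exact hz
  simpa only [bx, smul_eq_mul] using this

theorem bx_le (hs : s ≤ t) (hu : u ≤ v) {c : ℝ} (h : ∀ z ∈ frx s t u v, ‖F z‖ ≤ c) :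
    ‖bx F s t u v‖ ≤ 2 * ((t - s) + (v - u)) * c := by
  have eH : ∀ k : ℝ, k = u ∨ k = v → ‖∫ y : ℝ in s..t, F (y + k * I)‖ ≤ c * (t - s) := by
    intro k hk
    have := intervalIntegral.norm_integral_le_of_norm_le_const (a := s) (b := t) (C := c)
      (f := fun y : ℝ => F (y + k * I)) fun y hy =>
        h _ (Bx_mH hu hk (by rw [uIoc_of_le hs] at hy; exact Ioc_subset_Icc_self hy))
    rwa [abs_of_nonneg (sub_nonneg.2 hs)] at this
  have eV : ∀ k : ℝ, k = s ∨ k = t → ‖I * ∫ y : ℝ in u..v, F (k + y * I)‖ ≤ c * (v - u) := by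
    intro k hk
    have := intervalIntegral.norm_integral_le_of_norm_le_const (a := u) (b := v) (C := c)
      (f := fun y : ℝ => F (k + y * I)) fun y hy =>
        h _ (Bx_mV hs hk (by rw [uIoc_of_le hu] at hy; exact Ioc_subset_Icc_self hy))
    rwa [abs_of_nonneg (sub_nonneg.2 hu), ← one_mul ‖_‖, ← norm_I, ← norm_mul] at this
  have e1 := eH u (Or.inl rfl)
  have e2 := eH v (Or.inr rfl)
  have e3 := eV s (Or.inl rfl)
  have e4 := eV t (Or.inr rfl)
  unfold bx
  refine (norm_sub_le _ _).trans ?_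
  refine (add_le_add_left (norm_add_le _ _) _).trans ?_
  refine (add_le_add_left (add_le_add_left (norm_sub_le _ _) _) _).trans ?_
  linarith

theorem bx_congr (hs : s ≤ t) (hu : u ≤ v) (h : ∀ z ∈ frx s t u v, F z = F' z) :
    bx F s t u v = bx F' s t u v := by
  have eH : ∀ k : ℝ, k = u ∨ k = v →
      (∫ y : ℝ in s..t, F (y + k * I)) = ∫ y : ℝ in s..t, F' (y + k * I) := fun k hk =>
    intervalIntegral.integral_congr fun y hy =>
      h _ (Bx_mH hu hk (by rwa [uIcc_of_le hs] at hy))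
  have eV : ∀ k : ℝ, k = s ∨ k = t →
      (∫ y : ℝ in u..v, F (k + y * I)) = ∫ y : ℝ in u..v, F' (k + y * I) := fun k hk =>
    intervalIntegral.integral_congr fun y hy =>
      h _ (Bx_mV hs hk (by rwa [uIcc_of_le hu] at hy))
  unfold bx
  rw [eH u (Or.inl rfl), eH v (Or.inr rfl), eV s (Or.inl rfl), eV t (Or.inr rfl)]

theorem bx_add (hs : s ≤ t) (hu : u ≤ v) (hF : ContinuousOn F (frx s t u v))
    (hF' : ContinuousOn F' (frx s t u v)) :
    bx (fun z => F z + F' z) s t u v = bx F s t u v + bx F' s t u v := by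
  unfold bx
  rw [intervalIntegral.integral_add (Bx_iH hs hu hF (Or.inl rfl)) (Bx_iH hs hu hF' (Or.inl rfl)),
    intervalIntegral.integral_add (Bx_iH hs hu hF (Or.inr rfl)) (Bx_iH hs hu hF' (Or.inr rfl)),
    intervalIntegral.integral_add (Bx_iV hs hu hF (Or.inl rfl)) (Bx_iV hs hu hF' (Or.inl rfl)),
    intervalIntegral.integral_add (Bx_iV hs hu hF (Or.inr rfl)) (Bx_iV hs hu hF' (Or.inr rfl))]
  ring

theorem bx_cmul (c : ℂ) : bx (fun z => c * F z) s t u v = c * bx F s t u v := by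
  unfold bx
  simp only [intervalIntegral.integral_const_mul]
  ring

theorem bx_sum {ι : Type*} (hs : s ≤ t) (hu : u ≤ v) (I : Finset ι) {F : ι → ℂ → ℂ}
    (hF : ∀ i ∈ I, ContinuousOn (F i) (frx s t u v)) :
    bx (fun z => ∑ i ∈ I, F i z) s t u v = ∑ i ∈ I, bx (F i) s t u v := by
  unfold bx
  rw [intervalIntegral.integral_finsetSum fun i hi => Bx_iH hs hu (hF i hi) (Or.inl rfl),
    intervalIntegral.integral_finsetSum fun i hi => Bx_iH hs hu (hF i hi) (Or.inr rfl),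
    intervalIntegral.integral_finsetSum fun i hi => Bx_iV hs hu (hF i hi) (Or.inl rfl),
    intervalIntegral.integral_finsetSum fun i hi => Bx_iV hs hu (hF i hi) (Or.inr rfl)]
  simp only [Finset.sum_sub_distrib, Finset.sum_add_distrib, Finset.mul_sum]

theorem bx_inv (e : ℂ) (hr : 0 < r) : sq (bx fun z => (z - e)⁻¹) e r = 2 * Real.pi * I := by
  have hs : e.re - r ≤ e.re + r := by linarith
  have hu : e.im - r ≤ e.im + r := by linarith
  have hF : ContinuousOn (fun z : ℂ => (z - e)⁻¹) (frx (e.re - r) (e.re + r) (e.im - r)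
      (e.im + r)) := by
    refine (continuousOn_id.sub continuousOn_const).inv₀ fun z hz h0 => ?_
    have hz' : z = e := sub_eq_zero.1 h0
    subst hz'
    rcases hz.2 with h | h | h | h <;> linarith
  have key : ∀ (p q : ℝ), p ^ 2 + q ^ 2 ≠ 0 → ((p : ℂ) + q * I)⁻¹ =
      (p - q * I) / ((p ^ 2 + q ^ 2 : ℝ) : ℂ) := by
    intro p q h0
    have h1 : ((p ^ 2 + q ^ 2 : ℝ) : ℂ) ≠ 0 := ofReal_ne_zero.2 h0
    refine inv_eq_of_mul_eq_one_right ?_
    rw [← mul_div_assoc, div_eq_one_iff_eq h1]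
    push_cast
    linear_combination (-(q : ℂ) ^ 2) * I_sq
  have eH : (∫ y : ℝ in (e.re - r)..(e.re + r), ((y : ℂ) + (e.im - r : ℝ) * I - e)⁻¹) -
      (∫ y : ℝ in (e.re - r)..(e.re + r), ((y : ℂ) + (e.im + r : ℝ) * I - e)⁻¹) =
      2 * I * (Real.pi / 2) := by
    rw [← intervalIntegral.integral_sub (Bx_iH hs hu hF (Or.inl rfl)) (Bx_iH hs hu hF (Or.inr rfl)),
      ← Bx_atan hr e.re, ← intervalIntegral.integral_const_mul]
    refine intervalIntegral.integral_congr fun y _ => ?_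
    have a1 : (y : ℂ) + (e.im - r : ℝ) * I - e = (y - e.re : ℝ) + (-r : ℝ) * I := by
      apply Complex.ext <;> simp
    have a2 : (y : ℂ) + (e.im + r : ℝ) * I - e = (y - e.re : ℝ) + (r : ℝ) * I := by
      apply Complex.ext <;> simp
    have p2 : (y - e.re) ^ 2 + r ^ 2 ≠ 0 := by positivity
    have p1 : (y - e.re) ^ 2 + (-r) ^ 2 ≠ 0 := by rwa [neg_sq]
    show ((y : ℂ) + (e.im - r : ℝ) * I - e)⁻¹ - ((y : ℂ) + (e.im + r : ℝ) * I - e)⁻¹ = _
    rw [a1, a2, key _ _ p1, key _ _ p2, neg_sq, add_comm (r ^ 2), ofReal_div]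
    push_cast
    ring
  have eV : (∫ y : ℝ in (e.im - r)..(e.im + r), (((e.re + r : ℝ) : ℂ) + y * I - e)⁻¹) -
      (∫ y : ℝ in (e.im - r)..(e.im + r), (((e.re - r : ℝ) : ℂ) + y * I - e)⁻¹) =
      2 * (Real.pi / 2) := by
    rw [← intervalIntegral.integral_sub (Bx_iV hs hu hF (Or.inr rfl)) (Bx_iV hs hu hF (Or.inl rfl)),
      ← Bx_atan hr e.im, ← intervalIntegral.integral_const_mul]
    refine intervalIntegral.integral_congr fun y _ => ?_
    have a1 : ((e.re + r : ℝ) : ℂ) + y * I - e = (r : ℝ) + (y - e.im : ℝ) * I := by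
      apply Complex.ext <;> simp
    have a2 : ((e.re - r : ℝ) : ℂ) + y * I - e = (-r : ℝ) + (y - e.im : ℝ) * I := by
      apply Complex.ext <;> simp
    have p1 : r ^ 2 + (y - e.im) ^ 2 ≠ 0 := by positivity
    have p2 : (-r) ^ 2 + (y - e.im) ^ 2 ≠ 0 := by rwa [neg_sq]
    show (((e.re + r : ℝ) : ℂ) + y * I - e)⁻¹ - (((e.re - r : ℝ) : ℂ) + y * I - e)⁻¹ = _
    rw [a1, a2, key _ _ p1, key _ _ p2, neg_sq, ofReal_div]
    push_cast
    ring
  show bx _ _ _ _ _ = _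
  unfold bx
  linear_combination eH + I * eV

end

end Pool.Agent.Lib.MP_5591bc_ag.Cu
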