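import Pool.Agent.Lib.MP_5591bc_ag.Cu.Prim

/-! Periods of transported cycles. -/

namespace Pool.Agent.Lib.MP_5591bc_ag.Cu

open Polynomial Set Filter Topology Matrix Complex Asymptotics G M
open scoped Polynomial.Bivariate

noncomputable section

variable {σ 𝓡 ν : Type*} [Fintype σ] [DecidableEq σ] [CommRing 𝓡] [Fintype ν] [DecidableEq ν]
  {φ : (σ → ℂ) → 𝓡 →+* ℂ} {f : 𝓡[X][Y]} {d : 𝓡[X]} {m : ℕ} {A : ν → 𝓡[X][Y]} {w : ν → ℕ}
  {Q : (σ → ℂ) → Matrix ν ν ℂ} {s : σ → ℂ} {D : Set (ℂ × ℂ)} {p : ℂ × ℂ} {Λ : Matrix ν ν ℂ}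
  {R : Subring ℂ}

variable [CompactSpace D] {y : (σ → ℂ) → C(D, ℂ)} {E : ν → (σ → ℂ) → C(D, ℂ)}


theorem ex_cont (F : C(D, ℂ)) : ContinuousOn (ex F) D := by
  rw [continuousOn_iff_continuous_restrict]
  have : D.domRestrict (ex F) = F := by
    funext q
    exact dif_pos q.2
  rw [this]
  exact F.continuous

theorem ex_add26 (F F' : C(D, ℂ)) (q : ℂ × ℂ) : ex (F + F') q = ex F q + ex F' q := by
  by_cases h : q ∈ D <;> simp [ex, h]

theorem ex_smul26 (k : ℂ) (F : C(D, ℂ)) (q : ℂ × ℂ) : ex (k • F) q = k * ex F q := by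
  by_cases h : q ∈ D <;> simp [ex, h]

theorem ex_norm26 (F : C(D, ℂ)) (q : ℂ × ℂ) : ‖ex F q‖ ≤ ‖F‖ := by
  by_cases h : q ∈ D
  · simpa [ex, h] using F.norm_coe_le_norm ⟨q, h⟩
  · simp [ex, h]

theorem arc_clm26 {γ : ℝ → ℂ × ℂ} (h : Arc D γ) : ∃ l : C(D, ℂ) →L[ℂ] ℂ, ∀ F,
    l F = ∫ u in (0 : ℝ)..1, ex F (γ u) * deriv (fun u => (γ u).1) u := by
  have hd : Continuous (deriv fun u => (γ u).1) := h.1.continuous_deriv le_rfl
  have hi : ∀ F : C(D, ℂ), IntervalIntegrable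
      (fun u => ex F (γ u) * deriv (fun u => (γ u).1) u) MeasureTheory.volume 0 1 := fun F => by
    apply ContinuousOn.intervalIntegrable
    rw [uIcc_of_le zero_le_one]
    exact ((ex_cont F).comp h.2.1 h.2.2).mul hd.continuousOn
  obtain ⟨C, hC⟩ := (isCompact_Icc (a := (0 : ℝ)) (b := 1)).exists_bound_of_continuousOn
    hd.continuousOn
  let L : C(D, ℂ) →ₗ[ℂ] ℂ :=
    { toFun := fun F => ∫ u in (0 : ℝ)..1, ex F (γ u) * deriv (fun u => (γ u).1) u
      map_add' := fun F F' => by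
        rw [← intervalIntegral.integral_add (hi F) (hi F')]
        simp only [ex_add26, add_mul]
      map_smul' := fun k F => by
        simp only [ex_smul26, mul_assoc, RingHom.id_apply, smul_eq_mul]
        exact intervalIntegral.integral_const_mul _ _ }
  refine ⟨L.mkContinuous C fun F => ?_, fun F => rfl⟩
  have := intervalIntegral.norm_integral_le_of_norm_le_const (a := (0 : ℝ)) (b := 1)
    (f := fun u => ex F (γ u) * deriv (fun u => (γ u).1) u) (C := ‖F‖ * C) fun u hu => by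
      rw [uIoc_of_le zero_le_one] at hu
      rw [norm_mul]
      exact mul_le_mul (ex_norm26 F _) (hC u (Ioc_subset_Icc_self hu)) (norm_nonneg _)
        (norm_nonneg _)
  rw [sub_zero, abs_one, mul_one, mul_comm] at this
  exact this

theorem per_clm {c : (ℝ → ℂ × ℂ) →₀ ℤ} (hc : Cyc D c) :
    ∃ l : C(D, ℂ) →L[ℂ] ℂ, ∀ F, l F = per (ex F) c := by
  have h := fun γ (hγ : γ ∈ c.support) => arc_clm26 (hc.1 γ hγ)
  choose! L hL using h
  refine ⟨∑ γ ∈ c.support, (c γ : ℂ) • L γ, fun F => ?_⟩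
  rw [ContinuousLinearMap.sum_apply, per, Finsupp.sum]
  exact Finset.sum_congr rfl fun γ hγ => by
    rw [ContinuousLinearMap.smul_apply, hL γ hγ, smul_eq_mul]

theorem cyc_move26 {c : (ℝ → ℂ × ℂ) →₀ ℤ} (hc : Cyc D c) (z : C(D, ℂ)) {S : Set (ℂ × ℂ)}
    (hS : ∀ q ∈ D, (q.1, ex z q) ∈ S) :
    ∃ c', Cyc S c' ∧ ∀ a, per a c' = per (fun q => a (q.1, ex z q)) c := by
  classical
  let ρ : ℂ × ℂ → ℂ × ℂ := fun q => (q.1, ex z q)
  refine ⟨c.mapDomain fun γ => ρ ∘ γ, ⟨fun γ' hγ' => ?_, ?_⟩, fun a => ?_⟩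
  · obtain ⟨γ, hγ, rfl⟩ := Finset.mem_image.1 (Finsupp.mapDomain_support hγ')
    obtain ⟨h1, h2, h3⟩ := hc.1 γ hγ
    exact ⟨h1, h2.fst.prodMk ((ex_cont z).comp h2 h3), fun u hu => hS _ (h3 u hu)⟩
  · have e : ∀ u : ℝ, (c.mapDomain fun γ => ρ ∘ γ).mapDomain (· u) =
        (c.mapDomain (· u)).mapDomain ρ := fun u => by
      rw [← Finsupp.mapDomain_comp, ← Finsupp.mapDomain_comp]
      rfl
    rw [e 0, e 1, hc.2]
  · rw [per, Finsupp.sum_mapDomain_index (by simp) (by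
      intro γ k k'
      rw [Int.cast_add, add_mul])]
    rfl

theorem int_const26 {V : Set (σ → ℂ)} (hV : IsPreconnected V) {k : (σ → ℂ) → ℂ}
    (hk : ContinuousOn k V) (hz : ∀ t ∈ V, ∃ n : ℤ, k t = n) {t t' : σ → ℂ} (ht : t ∈ V)
    (ht' : t' ∈ V) : k t = k t' := by
  have hd : IsDiscrete (range ((↑) : ℤ → ℂ)) :=
    ⟨Complex.isClosedEmbedding_intCast.1.toHomeomorph.discreteTopology⟩
  exact hV.constant_of_mapsTo hd hk (fun u hu => (hz u hu).imp fun _ e => e.symm) ht ht'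

theorem LF.cyc (h : LF φ f d m A w Q s) (ht : Trn φ f d m A s D y E) :
    ∀ᶠ t in 𝓝 s, ∀ c, Cyc D c → (fun i => per (ex (E i t)) c) = (Q t * (Q s)⁻¹) *ᵥ
      fun i => per (frm (sp (φ s) (A i)) (d.map (φ s)) m) c := by
  have e1 : ∀ᶠ t in 𝓝 s, ∀ i, ContinuousAt (E i) t :=
    eventually_all.2 fun i => (ht.anE i).eventually_continuousAt
  have e2 : ∀ᶠ t in 𝓝 s, ∀ i j, ContinuousAt (fun t => Q t i j) t :=
    eventually_all.2 fun i => eventually_all.2 fun j => (h.anQ i j).eventually_continuousAt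
  obtain ⟨r, hr, hb⟩ := Metric.eventually_nhds_iff_ball.1 (e1.and (e2.and (h.ev.and ht.ev)))
  have hs : s ∈ Metric.ball s r := Metric.mem_ball_self hr
  filter_upwards [Metric.ball_mem_nhds s hr] with t htb c hc
  obtain ⟨l, hl⟩ := per_clm hc
  have hdet : ∀ u ∈ Metric.ball s r, IsUnit (Q u).det := fun u hu =>
    (hb u hu).2.2.1.fb.2.2.2.1.isUnit
  have hint : ∀ u ∈ Metric.ball s r, ∃ k : ν → ℤ,
      (fun i => l (E i u)) = Q u *ᵥ fun j => (k j : ℂ) := fun u hu => by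
    obtain ⟨c', hc', hp⟩ := cyc_move26 hc (y u) fun q hq => ((hb u hu).2.2.2 q hq).1
    refine ((hb u hu).2.2.1.fb.2.2.2.2 _).1 ⟨c', hc', funext fun i => ?_⟩
    rw [hl, hp]
    exact per_congr hc fun q hq => ((hb u hu).2.2.2 q hq).2 i
  have hQ : ContinuousOn Q (Metric.ball s r) :=
    continuousOn_pi.2 fun i => continuousOn_pi.2 fun j u hu =>
      ((hb u hu).2.1 i j).continuousWithinAt
  have hQi : ContinuousOn (fun u => (Q u)⁻¹) (Metric.ball s r) := fun u hu => by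
    have := (hdet u hu)
    refine ContinuousAt.comp_continuousWithinAt (g := Inv.inv) ?_ (hQ u hu)
    apply continuousAt_matrix_inv
    obtain ⟨v, hv⟩ := this
    rw [← hv]
    exact NormedRing.inverse_continuousAt v
  have hk : (Q t)⁻¹ *ᵥ (fun i => l (E i t)) = (Q s)⁻¹ *ᵥ fun i => l (E i s) := by
    funext j
    refine int_const26 (k := fun u => ((Q u)⁻¹ *ᵥ fun i => l (E i u)) j)
      (convex_ball s r).isPreconnected ?_ (fun u hu => ?_) htb hs
    · simp only [mulVec, dotProduct]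
      refine continuousOn_finsetSum _ fun i _ => ContinuousOn.mul ?_ fun u hu => ?_
      · exact continuousOn_pi.1 (continuousOn_pi.1 hQi j) i
      · exact (l.continuous.continuousAt.comp ((hb u hu).1 i)).continuousWithinAt
    · obtain ⟨k, hk⟩ := hint u hu
      refine ⟨k j, ?_⟩
      rw [hk, mulVec_mulVec, nonsing_inv_mul _ (hdet u hu), one_mulVec]
  have e0 : (fun i => per (frm (sp (φ s) (A i)) (d.map (φ s)) m) c) = fun i => l (E i s) := by
    funext i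
    rw [hl]
    refine per_congr hc fun q hq => ?_
    rw [((hb s hs).2.2.2 q hq).2 i, ht.base q hq]
  rw [e0, ← mulVec_mulVec, ← hk, mulVec_mulVec, mul_nonsing_inv _ (hdet t htb), one_mulVec]
  funext i
  rw [hl]

end

end Pool.Agent.Lib.MP_5591bc_ag.Cu
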