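import Pool.Agent.Lib.MP_5591bc_ag.M.Defs

/-! Families of plane curves, their cycles, periods and forms of the first kind. -/

namespace Pool.Agent.Lib.MP_5591bc_ag.Cu

open Polynomial Set Filter Topology Asymptotics Matrix M
open scoped Polynomial.Bivariate

noncomputable section

/-- the points `(x, y)` of the curve `f = 0` with `d(x) ≠ 0` -/
def Cur (f : ℂ[X][Y]) (d : ℂ[X]) : Set (ℂ × ℂ) := {p | f.evalEval p.1 p.2 = 0 ∧ d.eval p.1 ≠ 0}

/-- the coefficient of the form `A(x, y) dx / d(x) ^ m` -/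
def frm (A : ℂ[X][Y]) (d : ℂ[X]) (m : ℕ) (p : ℂ × ℂ) : ℂ := A.evalEval p.1 p.2 / d.eval p.1 ^ m

/-- `γ` on `[0, 1]` is an arc in `S` with continuously differentiable first coordinate -/
def Arc (S : Set (ℂ × ℂ)) (γ : ℝ → ℂ × ℂ) : Prop :=
  ContDiff ℝ 1 (fun u => (γ u).1) ∧ ContinuousOn γ (Icc 0 1) ∧ ∀ u ∈ Icc (0 : ℝ) 1, γ u ∈ S

/-- `c` is a cycle in `S`: an integral combination of arcs with boundary zero -/
def Cyc (S : Set (ℂ × ℂ)) (c : (ℝ → ℂ × ℂ) →₀ ℤ) : Prop :=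
  (∀ γ ∈ c.support, Arc S γ) ∧ c.mapDomain (· 0) = c.mapDomain (· 1)

/-- the integral of `a dx` over the chain `c` -/
def per (a : ℂ × ℂ → ℂ) (c : (ℝ → ℂ × ℂ) →₀ ℤ) : ℂ :=
  c.sum fun γ k => k * ∫ u in (0 : ℝ)..1, a (γ u) * deriv (fun u => (γ u).1) u

/-- the columns of `M` are a basis of the lattice of the periods of the forms `a i dx` -/
def Lat {ν : Type*} [Fintype ν] [DecidableEq ν] (S : Set (ℂ × ℂ)) (a : ν → ℂ × ℂ → ℂ)
    (M : Matrix ν ν ℂ) : Prop :=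
  M.det ≠ 0 ∧ ∀ v, (∃ c, Cyc S c ∧ v = fun i => per (a i) c) ↔
    ∃ k : ν → ℤ, v = M *ᵥ fun j => (k j : ℂ)

/-- `a dx` is of the first kind: bounded in every meromorphic parametrisation of a puncture -/
def Hol (S : Set (ℂ × ℂ)) (a : ℂ × ℂ → ℂ) : Prop :=
  ∀ x y : ℂ → ℂ, MeromorphicAt x 0 → MeromorphicAt y 0 → (∀ᶠ u in 𝓝[≠] 0, (x u, y u) ∈ S) →
    (fun u => a (x u, y u) * deriv x u) =O[𝓝[≠] 0] fun _ => (1 : ℝ)

/-- The curve `f = 0` is unramified over the complement of the simple roots of `d`, the forms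
`A i dx / d ^ m` with `w i = 1` are of the first kind, and `M` is a period matrix. -/
def Fib {ν : Type*} [Fintype ν] [DecidableEq ν] (f : ℂ[X][Y]) (d : ℂ[X]) (m : ℕ)
    (A : ν → ℂ[X][Y]) (w : ν → ℕ) (M : Matrix ν ν ℂ) : Prop :=
  d.Separable ∧ (∀ x, d.eval x ≠ 0 → (f.map (evalRingHom x)).Separable) ∧
    (∀ i, w i = 1 → Hol (Cur f d) (frm (A i) d m)) ∧ Lat (Cur f d) (fun i => frm (A i) d m) M

variable {K σ ν : Type*} [Field K] [Algebra K ℂ] [Fintype σ] [DecidableEq σ] [Fintype ν]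
  [DecidableEq ν]

/-- evaluation of the parameters at `t` -/
abbrev evt (t : σ → ℂ) : MvPolynomial σ K →+* ℂ :=
  (MvPolynomial.aeval t : MvPolynomial σ K →ₐ[K] ℂ)

/-- `P` is a branch over `U` of the period matrix of the forms `A i dx / d ^ m` on the curves
`f(t, x, y) = 0`, and a solution of the system `T ∂_l P = B l * P` -/
def PerM (T : MvPolynomial σ K) (B : σ → Matrix ν ν (MvPolynomial σ K))
    (f : (MvPolynomial σ K)[X][Y]) (d : (MvPolynomial σ K)[X]) (m : ℕ)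
    (A : ν → (MvPolynomial σ K)[X][Y]) (w : ν → ℕ) (U : Set (σ → ℂ))
    (P : (σ → ℂ) → Matrix ν ν ℂ) : Prop :=
  FundM T B U P ∧ ∀ t ∈ U, Fib (f.map (mapRingHom (evt t))) (d.map (evt t)) m
    (fun i => (A i).map (mapRingHom (evt t))) w (P t)

end

end Pool.Agent.Lib.MP_5591bc_ag.Cu
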