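import Pool.Agent.Lib.MP_5591bc_ag.Cu.Set

/-! Primitives descend from the branches to the curve. -/

namespace Pool.Agent.Lib.MP_5591bc_ag.Cu

open Polynomial Set Filter Topology Matrix Complex Asymptotics G M
open scoped Polynomial.Bivariate

noncomputable section

variable {f : ℂ[X][Y]} {d : ℂ[X]} {S S1 : Set ℂ} {Z Z' : Finset ℂ} {x : ℂ} {β : ℂ → ℂ}
  {a a' b b' G H H' W W' Φ Φ' Γ η φ ψ : ℂ × ℂ → ℂ} {F F' Ψ : ℂ → ℂ} {s t u v r ρ : ℝ} {L : ℂ}
  {μ : ℝ → ℝ → ℝ → ℝ → ℂ} {𝒞 : AddSubmonoid ℂ} {ν : Type*} [Fintype ν]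

variable {o : Option ℂ} {ε N m : ℕ} {y : Fin N → ℂ → ℂ} {w : ℂ} {j : Fin N}

/-- the inverse of the parameter at a puncture -/
def desc_inv : Option ℂ → ℂ → ℂ
  | some e, x => x - e
  | none, x => x⁻¹

theorem desc_inv_mem (h0 : 0 < ρ) (hx : x ∈ Dn o ρ) :
    desc_inv o x ≠ 0 ∧ ‖desc_inv o x‖ < ρ ∧ ξo o (desc_inv o x) = x ∧
      DifferentiableAt ℂ (desc_inv o) x := by
  cases o with
  | some e =>
    obtain ⟨h1, h2⟩ : x ≠ e ∧ ‖x - e‖ < ρ := hx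
    refine ⟨sub_ne_zero.2 h1, h2, ?_, ?_⟩
    · show e + (x - e) = x
      ring
    · exact differentiableAt_id.sub_const e
  | none =>
    have h1 : ρ⁻¹ < ‖x‖ := hx
    have h2 : 0 < ‖x‖ := (inv_pos.2 h0).trans h1
    have h3 : x ≠ 0 := norm_pos_iff.1 h2
    refine ⟨inv_ne_zero h3, ?_, inv_inv x, ?_⟩
    · show ‖x⁻¹‖ < ρ
      rw [norm_inv]
      exact (inv_lt_comm₀ h2 h0).2 h1
    · exact differentiableAt_inv h3

theorem desc_mono {ρ' : ℝ} (h0 : 0 < ρ') (h : ρ' ≤ ρ) : Dn o ρ' ⊆ Dn o ρ := by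
  intro x hx
  cases o with
  | some e => exact ⟨hx.1, lt_of_lt_of_le hx.2 h⟩
  | none => exact lt_of_le_of_lt (inv_anti₀ h0 h) hx

theorem desc_root (h0 : 0 < ρ) (hx : x ∈ Dn o ρ) (hw : w ^ ε = desc_inv o x) (hε : 0 < ε) :
    w ∈ Wu ε ρ ∧ xo o ε w = x := by
  obtain ⟨h1, h2, h3, -⟩ := desc_inv_mem h0 hx
  refine ⟨⟨?_, ?_⟩, ?_⟩
  · rintro rfl
    rw [zero_pow hε.ne'] at hw
    exact h1 hw.symm
  · rw [← norm_pow, hw]
    exact h2
  · show ξo o (w ^ ε) = x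
    rw [hw, h3]

theorem desc_xo (hw : w ≠ 0) : DifferentiableAt ℂ (xo o ε) w := by
  cases o with
  | some e => exact (differentiableAt_id.pow ε).const_add e
  | none => exact (differentiableAt_id.pow ε).inv (pow_ne_zero ε hw)

theorem desc_ex (hf : f.Monic) (hy : Pu f o ρ ε N y) (hw : w ∈ Wu ε ρ) {c : ℂ}
    (hc : f.evalEval (xo o ε w) c = 0) : ∃ j, y j w = c := by
  have h1 : c ∈ (fib f (xo o ε w)).roots := by
    rw [mem_roots (hf.map _).ne_zero, IsRoot, map_evalRingHom_eval]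
    exact hc
  rw [hy.rt w hw] at h1
  obtain ⟨j, -, hj⟩ := Multiset.mem_map.1 h1
  exact ⟨j, hj⟩

theorem desc_inj (hy : Pu f o ρ ε N y) (hw : w ∈ Wu ε ρ) (hs : (fib f (xo o ε w)).Separable)
    {i j : Fin N} (h : y i w = y j w) : i = j := by
  have h1 := nodup_roots hs
  rw [hy.rt w hw] at h1
  exact Multiset.inj_on_of_nodup_map h1 i (Finset.mem_univ_val i) j (Finset.mem_univ_val j) h

open Classical in
/-- the value of `g` on the branch through `c` -/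
def desc_val (y g : Fin N → ℂ → ℂ) (w c : ℂ) : ℂ := ∑ j, if y j w = c then g j w else 0

theorem desc_val_eq {g : Fin N → ℂ → ℂ} {c : ℂ} (hj : y j w = c) (h : ∀ i, y i w = c → i = j) :
    desc_val y g w c = g j w := by
  unfold desc_val
  rw [Finset.sum_eq_single j]
  · rw [if_pos hj]
  · intro i _ hi
    rw [if_neg fun e => hi (h i e)]
  · intro h'
    exact absurd (Finset.mem_univ j) h'

/-- a holomorphic root near `x` -/
theorem desc_loc (h0 : 0 < ρ) (hx : x ∈ Dn o ρ) (hε : 0 < ε) :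
    ∃ ω : ℂ → ℂ, DifferentiableAt ℂ ω x ∧ ∀ᶠ z in 𝓝 x, ω z ^ ε = desc_inv o z := by
  obtain ⟨h1, -, -, h4⟩ := desc_inv_mem h0 hx
  obtain ⟨α, hα⟩ := IsAlgClosed.exists_pow_nat_eq (desc_inv o x) hε
  have hq : DifferentiableAt ℂ (fun z => desc_inv o z / desc_inv o x) x := h4.div_const _
  refine ⟨fun z => α * (desc_inv o z / desc_inv o x) ^ ((ε : ℂ)⁻¹), ?_, ?_⟩
  · refine DifferentiableAt.const_mul (hq.cpow_const ?_) α
    rw [div_self h1]
    exact one_mem_slitPlane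
  · refine Eventually.of_forall fun z => ?_
    rw [mul_pow, cpow_nat_inv_pow _ hε.ne', hα]
    field_simp

theorem desc_one (hf : Sep f (Dn o ρ)) (h0 : 0 < ρ) (hy : Pu f o ρ ε N y) {g : Fin N → ℂ → ℂ}
    (hg : ∀ j, ∀ w ∈ Wu ε ρ, HasDerivAt (g j) (pb o ε (y j) a w) w) (hx : x ∈ Dn o ρ)
    (hβ : Br f β x) {ω : ℂ → ℂ} (hω : DifferentiableAt ℂ ω x)
    (he : ∀ᶠ z in 𝓝 x, ω z ^ ε = desc_inv o z) :
    HasDerivAt (fun z => desc_val y g (ω z) (β z)) (a (x, β x)) x := by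
  have hD : ∀ᶠ z in 𝓝 x, ω z ∈ Wu ε ρ ∧ xo o ε (ω z) = z := by
    filter_upwards [he, hf.op.mem_nhds hx] with z h1 h2 using desc_root h0 h2 h1 hy.pos
  obtain ⟨hw, hxo⟩ := hD.self_of_nhds
  obtain ⟨j, hj⟩ := desc_ex hf.mon hy hw (c := β x) (by rw [hxo]; exact hβ.2.self_of_nhds)
  have hne : ∀ i, ∀ᶠ z in 𝓝 x, i ≠ j → y i (ω z) ≠ β z := by
    intro i
    by_cases hi : i = j
    · exact Eventually.of_forall fun z h => absurd hi h
    · have h1 : y i (ω x) - β x ≠ 0 := fun e =>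
        hi (desc_inj hy hw (by rw [hxo]; exact hf.sep x hx) ((sub_eq_zero.1 e).trans hj.symm))
      have h2 : ContinuousAt (fun z => y i (ω z) - β z) x :=
        (ContinuousAt.comp (hy.an i _ hw).continuousAt hω.continuousAt).sub hβ.1.continuousAt
      filter_upwards [h2.eventually_ne h1] with z hz _ using sub_ne_zero.1 hz
  have hev : (fun z => desc_val y g (ω z) (β z)) =ᶠ[𝓝 x] fun z => g j (ω z) := by
    filter_upwards [hD, eventually_all.2 hne, hβ.2] with z h1 h2 h3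
    have h4 : ∀ i, y i (ω z) = β z → i = j := fun i e => by
      by_contra hi
      exact h2 i hi e
    obtain ⟨i, hi⟩ := desc_ex hf.mon hy h1.1 (c := β z) (by rw [h1.2]; exact h3)
    exact desc_val_eq (h4 i hi ▸ hi) h4
  have h5 : deriv (xo o ε) (ω x) * deriv ω x = 1 := by
    have h6 := HasDerivAt.comp x (desc_xo (o := o) (ε := ε) hw.1).hasDerivAt hω.hasDerivAt
    have h7 : (xo o ε ∘ ω) =ᶠ[𝓝 x] id := hD.mono fun z hz => hz.2
    exact (h6.congr_of_eventuallyEq h7.symm).unique (hasDerivAt_id x)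
  have h8 := (HasDerivAt.comp x (hg j _ hw) hω.hasDerivAt).congr_of_eventuallyEq hev
  have h9 : pb o ε (y j) a (ω x) * deriv ω x = a (x, β x) := by
    rw [pb, mul_assoc, h5, mul_one, hxo, hj]
  rwa [h9] at h8

theorem desc (hf : Sep f (Dn o ρ)) (h0 : 0 < ρ) (hy : Pu f o ρ ε N y) {g : Fin N → ℂ → ℂ}
    (hg : ∀ j, ∀ w ∈ Wu ε ρ, HasDerivAt (g j) (pb o ε (y j) a w) w) :
    ∃ G, Pr f G a (Dn o ρ) ∧ ∀ ρ' > 0, ρ' ≤ ρ → ∀ C : ℝ, (∀ j, ∀ w ∈ Wu ε ρ', ‖g j w‖ ≤ C) →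
      ∀ p ∈ Ov f (Dn o ρ'), ‖G p‖ ≤ C := by
  have hε := hy.pos
  have hζ := isPrimitiveRoot_exp ε hε.ne'
  set ζ := cexp (2 * Real.pi * I / ε)
  have hε' : (ε : ℂ) ≠ 0 := Nat.cast_ne_zero.2 hε.ne'
  have hp : ∀ (k : ℕ) (α : ℂ), (ζ ^ k * α) ^ ε = α ^ ε := fun k α => by
    rw [mul_pow, ← pow_mul, mul_comm k, pow_mul, hζ.pow_eq_one, one_pow, one_mul]
  have hG : ∀ (z c α : ℂ), α ^ ε = desc_inv o z →
      ((nthRoots ε (desc_inv o z)).map fun w => desc_val y g w c).sum =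
        ∑ k ∈ Finset.range ε, desc_val y g (ζ ^ k * α) c := fun z c α h => by
    rw [hζ.nthRoots_eq h, Multiset.map_map]
    rfl
  refine ⟨fun p => (ε : ℂ)⁻¹ * ((nthRoots ε (desc_inv o p.1)).map fun w =>
    desc_val y g w p.2).sum, fun x hx β hβ => ?_, fun ρ' h1 h2 C hC p hp' => ?_⟩
  · obtain ⟨ω, hω, he⟩ := desc_loc h0 hx hε
    have h1 : HasDerivAt (fun z => ∑ k ∈ Finset.range ε, desc_val y g (ζ ^ k * ω z) (β z))
        (∑ _k ∈ Finset.range ε, a (x, β x)) x :=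
      HasDerivAt.fun_sum fun k _ => desc_one hf h0 hy hg hx hβ (hω.const_mul (ζ ^ k))
        (he.mono fun z hz => (hp k _).trans hz)
    have h2 := (h1.const_mul (ε : ℂ)⁻¹).congr_of_eventuallyEq
      (f₁ := fun z => (ε : ℂ)⁻¹ * ((nthRoots ε (desc_inv o z)).map fun w =>
        desc_val y g w (β z)).sum) (he.mono fun z hz => congrArg ((ε : ℂ)⁻¹ * ·) (hG z _ _ hz))
    rwa [Finset.sum_const, Finset.card_range, nsmul_eq_mul, inv_mul_cancel_left₀ hε'] at h2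
  · obtain ⟨α, hα⟩ := IsAlgClosed.exists_pow_nat_eq (desc_inv o p.1) hε
    have h3 : ∀ k ∈ Finset.range ε, ‖desc_val y g (ζ ^ k * α) p.2‖ ≤ C := fun k _ => by
      obtain ⟨hw', hxo⟩ := desc_root h1 hp'.2 ((hp k α).trans hα) hε
      have hx := desc_mono h1 h2 hp'.2
      have hw := (desc_root h0 hx ((hp k α).trans hα) hε).1
      obtain ⟨j, hj⟩ := desc_ex hf.mon hy hw (c := p.2) (by rw [hxo]; exact hp'.1)
      rw [desc_val_eq hj fun i e =>
        desc_inj hy hw (by rw [hxo]; exact hf.sep _ hx) (e.trans hj.symm)]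
      exact hC j _ hw'
    have h4 := (norm_sum_le _ _).trans (Finset.sum_le_sum h3)
    rw [Finset.sum_const, Finset.card_range, nsmul_eq_mul] at h4
    have h5 : (0 : ℝ) < ε := Nat.cast_pos.2 hε
    show ‖(ε : ℂ)⁻¹ * _‖ ≤ C
    rw [hG _ _ α hα, norm_mul, norm_inv, Complex.norm_natCast, inv_mul_le_iff₀ h5]
    exact h4

end

end Pool.Agent.Lib.MP_5591bc_ag.Cu
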