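import Pool.Agent.Lib.MP_5591bc_ag.Cu.Set
import Pool.Agent.Lib.MP_5591bc_ag.F.Mon
import Pool.Agent.Lib.MP_5591bc_ag.B.Defs
import Pool.Agent.Lib.MP_5591bc_ag.E.Loc

/-! Properties that persist under continuation. -/

namespace Pool.Agent.Lib.MP_5591bc_ag.Cu

open Polynomial Set Filter Topology Matrix Complex Asymptotics G M E Z F
open scoped Polynomial.Bivariate

noncomputable section

variable {σ K ν : Type*} [Fintype σ] [DecidableEq σ] [Field K] [NumberField K] [Algebra K ℂ]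
  [Fintype ν] [DecidableEq ν] {T : MvPolynomial σ K} {B : σ → Matrix ν ν (MvPolynomial σ K)}
  {U U' V : Set (σ → ℂ)} {P P' Q : (σ → ℂ) → Matrix ν ν ℂ} {s t : σ → ℂ}


omit [Fintype σ] [DecidableEq σ] [NumberField K] in
theorem mono_D (T0 : T ≠ 0) : ∃ D : MvPolynomial σ ℂ, D ≠ 0 ∧
    ∀ z, MvPolynomial.eval z D = MvPolynomial.aeval z T :=
  ⟨MvPolynomial.map (algebraMap K ℂ) T,
    (map_ne_zero_iff _ (MvPolynomial.map_injective _ (algebraMap K ℂ).injective)).2 T0,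
    fun z => by rw [MvPolynomial.eval_map, ← MvPolynomial.aeval_def]⟩

omit [DecidableEq σ] [NumberField K] in
theorem mono_freq (T0 : T ≠ 0) (t : σ → ℂ) : ∃ᶠ z in 𝓝 t, MvPolynomial.aeval z T ≠ 0 := by
  obtain ⟨D, D0, hD⟩ := mono_D T0
  simpa only [hD] using off_freq D0 t

omit [DecidableEq σ] [NumberField K] in
theorem mono_ind (T0 : T ≠ 0) (ho : IsOpen U) (hU : IsPreconnected U) {I : (σ → ℂ) → Prop}
    (hI : ∀ t ∈ U, MvPolynomial.aeval t T ≠ 0 → ∀ᶠ z in 𝓝 t, I z ↔ I t) (hs : s ∈ U) (ht : t ∈ U)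
    (s0 : MvPolynomial.aeval s T ≠ 0) (t0 : MvPolynomial.aeval t T ≠ 0) (h : I s) : I t := by
  obtain ⟨D, -, hD⟩ := mono_D T0
  exact off_ind (D := D) ho hU (fun t ht t0 => hI t ht (hD t ▸ t0)) hs ht ((hD s).symm ▸ s0)
    ((hD t).symm ▸ t0) h

theorem mono_inv (T0 : T ≠ 0) (ho : IsOpen U) (hU : IsPreconnected U) (hP : FundM T B U P)
    {I : (σ → ℂ) → Matrix ν ν ℂ → Prop} (hI : ∀ t, MvPolynomial.aeval t T ≠ 0 →
      ∃ V Q, IsOpen V ∧ t ∈ V ∧ FundM T B V Q ∧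
        ∀ C, ∀ᶠ z in 𝓝 t, (I z (Q z * C) ↔ I t (Q t * C)))
    (hs : s ∈ U) (s0 : MvPolynomial.aeval s T ≠ 0) (h : I s (P s)) (k : ContM U P U' P')
    (ht : t ∈ U') (t0 : MvPolynomial.aeval t T ≠ 0) : I t (P' t) := by
  have an := fun i j t ht => ((hP t ht).2 i j).1
  have go : ∀ {U1 P1}, ContM U P U1 P1 → ∀ {a b}, a ∈ U1 → b ∈ U1 →
      MvPolynomial.aeval a T ≠ 0 → MvPolynomial.aeval b T ≠ 0 → I a (P1 a) → I b (P1 b) := by
    intro U1 P1 k a b ha hb a0 b0 h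
    obtain ⟨o1, c1, -⟩ := cont_dom ho hU an k
    refine mono_ind (I := fun t => I t (P1 t)) T0 o1 c1 (fun t ht t0 => ?_) ha hb a0 b0 h
    obtain ⟨V, v1, -, v2, -, v3⟩ := cont_fund T0 ho hU hP k ht t0
    obtain ⟨V', Q, w1, w2, w3, w4⟩ := hI t t0
    have e := fund_uniq v1 w1 v3 w3 v2 w2 t0
    filter_upwards [e, w4 ((Q t)⁻¹ * P1 t)] with z e1 e2
    rw [e1, e2, ← e.self_of_nhds]
  induction k generalizing t with
  | base => exact go .base hs ht s0 t0 h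
  | step U1 U2 P1 P2 s' h1 o2 c2 d2 s1 s2 e ih =>
    have o1 := (cont_dom ho hU an h1).1
    obtain ⟨z, z0, ⟨z1, z2⟩, z3⟩ := ((mono_freq T0 s').and_eventually
      ((Eventually.and (o1.mem_nhds s1) (o2.mem_nhds s2)).and e)).exists
    exact go (.step _ _ _ _ s' h1 o2 c2 d2 s1 s2 e) z2 ht z0 t0 (z3 ▸ ih z1 z0)

theorem mono_two (T0 : T ≠ 0) (ho : IsOpen U) (hU : IsPreconnected U) (hP : FundM T B U P)
    {𝒢 : Set (Matrix ν ν ℂ)} {U₁ U₂ : Set (σ → ℂ)} {P₁ P₂ : (σ → ℂ) → Matrix ν ν ℂ}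
    (k₁ : ContM U P U₁ P₁) (k₂ : ContM U P U₂ P₂) (h : ∀ z ∈ U₁, z ∈ U₂ →
      MvPolynomial.aeval z T ≠ 0 → ∃ γ ∈ 𝒢, P₂ z = P₁ z * γ) (t1 : t ∈ U₁) (t2 : t ∈ U₂) :
    ∃ γ ∈ 𝒢, ∀ᶠ z in 𝓝 t, P₂ z = P₁ z * γ := by
  have an := fun i j t ht => ((hP t ht).2 i j).1
  obtain ⟨o1, -, d1⟩ := cont_dom ho hU an k₁
  obtain ⟨o2, -, d2⟩ := cont_dom ho hU an k₂
  obtain ⟨r, r0, hr⟩ := Metric.mem_nhds_iff.1 ((o1.inter o2).mem_nhds ⟨t1, t2⟩)
  obtain ⟨z, z0, z1⟩ := ((mono_freq T0 t).and_eventually (Metric.ball_mem_nhds t r0)).exists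
  obtain ⟨V, v1, -, v2, -, v3⟩ := cont_fund T0 ho hU hP k₁ (hr z1).1 z0
  obtain ⟨V', w1, -, w2, -, w3⟩ := cont_fund T0 ho hU hP k₂ (hr z1).2 z0
  obtain ⟨γ, γ0, e3⟩ := h z (hr z1).1 (hr z1).2 z0
  have e4 := fund_uniq w1 v1 w3 v3 w2 v2 z0
  rw [e3, ← Matrix.mul_assoc, Matrix.nonsing_inv_mul _ (v3 z v2).1.isUnit, Matrix.one_mul] at e4
  refine ⟨γ, γ0, mem_of_superset (Metric.ball_mem_nhds t r0) fun w hw =>
    Matrix.ext fun i j => ?_⟩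
  exact AnalyticOnNhd.eqOn_of_preconnected_of_eventuallyEq (𝕜 := ℂ) (f := fun w => P₂ w i j)
    (g := fun w => (P₁ w * γ) i j) (fun w hw => d2 i j w (hr hw).2) (fun w hw => by
      simp only [Matrix.mul_apply]
      exact Finset.analyticAt_fun_sum _ fun a _ =>
        (d1 i a w (hr hw).1).fun_mul analyticAt_const) (convex_ball t r).isPreconnected z1
    (e4.mono fun w hw => by simp only [hw]) hw

theorem reach (T0 : T ≠ 0) (ho : IsOpen U) (hU : IsPreconnected U) (hne : U.Nonempty)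
    (hP : FundM T B U P) (t0 : MvPolynomial.aeval t T ≠ 0) :
    ∃ U' P', ContM U P U' P' ∧ t ∈ U' := by
  obtain ⟨s, hs⟩ := id hne
  obtain ⟨a, a0, a1⟩ := ((mono_freq T0 s).and_eventually (ho.mem_nhds hs)).exists
  refine mono_ind (I := fun t => ∃ V Q, ContM U P V Q ∧ t ∈ V) T0 isOpen_univ isPreconnected_univ
    (fun z _ z0 => ?_) (mem_univ a) (mem_univ t) a0 t0 ⟨U, P, .base, a1⟩
  obtain ⟨r, r0, G, hY, -, hT⟩ := locM ho hne hP z0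
  have k : ∀ {v w}, v ∈ Metric.ball z r → w ∈ Metric.ball z r → (∃ V Q, ContM U P V Q ∧ v ∈ V) →
      ∃ V Q, ContM U P V Q ∧ w ∈ V := by
    rintro v w hv hw ⟨V, Q, k, m⟩
    obtain ⟨V', v1, -, v2, -, v3⟩ := cont_fund T0 ho hU hP k m (hT v hv)
    exact ⟨_, _, .step _ _ _ _ v k Metric.isOpen_ball (convex_ball z r).isPreconnected
      (fun i j x hx => serG_ana hY _ hx i j) m hv
      (fund_uniq v1 Metric.isOpen_ball v3 hY v2 hv (hT v hv)), hw⟩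
  exact mem_of_superset (Metric.ball_mem_nhds z r0) fun w hw =>
    ⟨k hw (Metric.mem_ball_self r0), k (Metric.mem_ball_self r0) hw⟩

end

end Pool.Agent.Lib.MP_5591bc_ag.Cu
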