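import Pool.Agent.Lib.MP_5591bc_ag.Cu.Gauss
import Pool.Agent.Lib.MP_5591bc_ag.Cu.Mono

/-! The determinant of the period matrix. -/

namespace Pool.Agent.Lib.MP_5591bc_ag.Cu

open Polynomial Set Filter Topology Matrix Complex Asymptotics G M E Z F
open scoped Polynomial.Bivariate

noncomputable section

variable {σ K ν : Type*} [Fintype σ] [DecidableEq σ] [Field K] [NumberField K] [Algebra K ℂ]
  [Fintype ν] [DecidableEq ν] {T : MvPolynomial σ K} {B : σ → Matrix ν ν (MvPolynomial σ K)}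
  {U U' V : Set (σ → ℂ)} {P P' Q : (σ → ℂ) → Matrix ν ν ℂ} {s t : σ → ℂ}

omit [DecidableEq σ] in
theorem cdet_ev (p : MvPolynomial σ ℂ) (V : Set (σ → ℂ)) :
    AnalyticOnNhd ℂ (fun t => MvPolynomial.eval t p) V :=
  fun t _ => AnalyticOnNhd.eval_mvPolynomial p t trivial

omit [DecidableEq σ] in
theorem cdet_an (h : ∀ t ∈ U, ∀ i j, AnalyticAt ℂ (fun z => P z i j) t) :
    AnalyticOnNhd ℂ (fun z => (P z).det) U := fun t ht => by
  simp only [det_apply']
  exact Finset.analyticAt_fun_sum _ fun π _ => analyticAt_const.fun_mul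
    (Finset.analyticAt_fun_prod _ fun i _ => h t ht _ _)

omit [DecidableEq σ] in
/-- a rational expression of the determinant persists under continuation -/
theorem cdet_cont (ho : IsOpen U) {a b : MvPolynomial σ ℂ}
    (h : ∀ t ∈ U, MvPolynomial.eval t b * (P t).det = MvPolynomial.eval t a)
    (k : ContM U P U' P') :
    IsOpen U' ∧ ∀ t ∈ U', MvPolynomial.eval t b * (P' t).det = MvPolynomial.eval t a := by
  induction k with
  | base => exact ⟨ho, h⟩
  | step V V' Q Q' s _ o c an s1 s2 e ih =>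
    refine ⟨o, ((cdet_ev b V').mul (cdet_an fun t ht i j =>
      an i j t ht)).eqOn_of_preconnected_of_eventuallyEq (cdet_ev a V') c s2 ?_⟩
    filter_upwards [e, ih.1.mem_nhds s1] with z h1 h2
    rw [← ih.2 z h2, h1]

theorem det_alg (K : Type*) [Field K] [NumberField K] [Algebra K ℂ] (ho : IsOpen V)
    (hV : IsPreconnected V) {g : (σ → ℂ) → ℂ} (hg : AnalyticOnNhd ℂ g V)
    (h : ∀ t ∈ V, Gen K t → IsAlgebraic (Rt t) (g t)) :
    ∃ (n : ℕ) (p : ℕ → MvPolynomial σ ℂ), (∃ j ≤ n, p j ≠ 0) ∧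
      ∀ t ∈ V, ∑ j ∈ Finset.range (n + 1), MvPolynomial.eval t (p j) * g t ^ j = 0 := by
  rcases V.eq_empty_or_nonempty with rfl | ⟨s, hs⟩
  · exact ⟨0, fun _ => 1, ⟨0, le_rfl, one_ne_zero⟩, fun _ h => h.elim⟩
  have : Countable K := (Module.finBasis ℚ K).repr.injective.countable
  have : Countable (MvPolynomial σ K) := (MvPolynomial.basisMonomials σ K).repr.injective.countable
  have : Countable (MvPolynomial σ K)[X] :=
    (Polynomial.basisMonomials (MvPolynomial σ K)).repr.injective.countable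
  have := ho.baireSpace
  have : Nonempty V := ⟨⟨s, hs⟩⟩
  have ev : ∀ (F : (MvPolynomial σ K)[X]) t, ∑ j ∈ Finset.range (F.natDegree + 1),
      MvPolynomial.eval t ((F.coeff j).map (algebraMap K ℂ)) * g t ^ j = F.eval₂ (evt t) (g t) :=
    fun F t => by
      rw [eval₂_eq_sum_range]
      exact Finset.sum_congr rfl fun j _ => by rw [MvPolynomial.eval_map]; rfl
  have an : ∀ F : (MvPolynomial σ K)[X], AnalyticOnNhd ℂ (fun t => F.eval₂ (evt t) (g t)) V :=
    fun F t ht => by
      simp only [← ev]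
      exact Finset.analyticAt_fun_sum _ fun j _ => (cdet_ev _ V t ht).fun_mul ((hg t ht).fun_pow j)
  obtain ⟨⟨F, F0⟩, u, hu⟩ := nonempty_interior_of_iUnion_of_closed
    (f := fun F : {F : (MvPolynomial σ K)[X] // F ≠ 0} => {u : V | F.1.eval₂ (evt u.1) (g u) = 0})
    (fun F => isClosed_eq (an F.1).continuousOn.domRestrict continuous_const)
    (Set.eq_univ_of_forall fun u => by
      by_cases hu : Gen K u.1
      · obtain ⟨p, p0, hp⟩ := h u u.2 hu
        obtain ⟨ψ, s1, s2⟩ : ∃ ψ : MvPolynomial σ ℤ →+* Rt u.1, Function.Surjective ψ ∧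
            (algebraMap (Rt u.1) ℂ).comp ψ = MvPolynomial.eval₂Hom (Int.castRingHom ℂ) u.1 :=
          ⟨_, (MvPolynomial.eval₂Hom (Int.castRingHom ℂ) u.1).rangeRestrict_surjective, rfl⟩
        obtain ⟨F, rfl⟩ := Polynomial.map_surjective ψ s1 p
        refine Set.mem_iUnion.2 ⟨⟨F.map (MvPolynomial.map (Int.castRingHom K)),
          (Polynomial.map_ne_zero_iff (MvPolynomial.map_injective _ Int.cast_injective)).2
            fun e => p0 (by rw [e, Polynomial.map_zero])⟩, ?_⟩
        rw [aeval_def, eval₂_map, s2] at hp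
        change eval₂ _ _ (F.map _) = 0
        rw [eval₂_map, ← hp]
        congr 1
        refine MvPolynomial.ringHom_ext' (RingHom.ext_int _ _) fun i => ?_
        simp
      · obtain ⟨q, hq⟩ := not_forall.1 hu
        obtain ⟨q1, q0⟩ := Classical.not_imp.1 hq
        exact Set.mem_iUnion.2 ⟨⟨C q, C_ne_zero.2 q0⟩, (eval₂_C _ _).trans q1⟩)
  refine ⟨F.natDegree, fun j => (F.coeff j).map (algebraMap K ℂ), ⟨_, le_rfl, fun e =>
    leadingCoeff_ne_zero.2 F0 (MvPolynomial.map_injective _ (algebraMap K ℂ).injective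
      (e.trans (map_zero _).symm))⟩, fun t ht => (ev F t).trans ?_⟩
  refine (an F).eqOn_zero_of_preconnected_of_eventuallyEq_zero hV u.2 ?_ ht
  have e := mem_interior_iff_mem_nhds.1 hu
  rw [← ho.isOpenEmbedding_subtypeVal.map_nhds_eq u]
  exact e

theorem tpow (T0 : T ≠ 0) (ho : IsOpen U) (hU : IsPreconnected U) (hP : FundM T B U P)
    {a b : MvPolynomial σ ℂ} (b0 : b ≠ 0)
    (h : ∀ t ∈ U, MvPolynomial.eval t b * (P t).det = MvPolynomial.eval t a) :
    ∃ (N : ℕ) (q : MvPolynomial σ ℂ), ∀ t ∈ U,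
      MvPolynomial.aeval t T ^ N * (P t).det = MvPolynomial.eval t q := by
  rcases U.eq_empty_or_nonempty with rfl | ⟨s, hs⟩
  · exact ⟨0, 0, fun _ h => h.elim⟩
  obtain ⟨a, b, c, cop, rfl, rfl⟩ := UniqueFactorizationMonoid.exists_reduced_factors' a b b0
  have an := cdet_an fun t ht i j => ((hP t ht).2 i j).1
  have h1 : ∀ t ∈ U, MvPolynomial.eval t b * (P t).det = MvPolynomial.eval t a := by
    refine ((cdet_ev b U).mul an).eqOn_of_preconnected_of_eventuallyEq (cdet_ev a U) hU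
      (z₀ := ((off_freq (left_ne_zero_of_mul b0) s).and_eventually (ho.mem_nhds hs)).exists.choose)
      ((off_freq (left_ne_zero_of_mul b0) s).and_eventually
        (ho.mem_nhds hs)).exists.choose_spec.2 ?_
    obtain ⟨z0, z1⟩ :=
      ((off_freq (left_ne_zero_of_mul b0) s).and_eventually (ho.mem_nhds hs)).exists.choose_spec
    filter_upwards [mon_ev _ z0, ho.mem_nhds z1] with z k1 k2
    refine mul_left_cancel₀ k1 ?_
    have := h z k2
    rwa [map_mul, map_mul, mul_assoc] at this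
  have h2 : T.map (algebraMap K ℂ) * a ∈ (Ideal.span {b}).radical := by
    rw [← MvPolynomial.vanishingIdeal_zeroLocus_eq_radical (K := ℂ)]
    intro z hz
    have b1 : MvPolynomial.eval z b = 0 := hz b (Ideal.subset_span rfl)
    rw [map_mul, MvPolynomial.aeval_map_algebraMap, mul_eq_zero, or_iff_not_imp_left]
    intro t0
    obtain ⟨U', P', k, hz'⟩ := reach T0 ho hU ⟨s, hs⟩ hP t0
    have := (cdet_cont ho h1 k).2 z hz'
    rw [b1, zero_mul] at this
    exact this.symm
  obtain ⟨N, hN⟩ := h2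
  rw [Ideal.mem_span_singleton, mul_pow] at hN
  obtain ⟨q, hq⟩ := (cop.symm.pow_right (n := N)).dvd_of_dvd_mul_right hN
  refine ⟨N, q * a, fun t ht => ?_⟩
  have e := congrArg (MvPolynomial.eval t) hq
  rw [map_pow, MvPolynomial.eval_map, map_mul] at e
  rw [map_mul, ← h1 t ht, ← mul_assoc, mul_comm (MvPolynomial.eval t q), ← e]
  rfl

theorem det_pol (T0 : T ≠ 0) (ho : IsOpen U) (hU : IsPreconnected U) (hP : FundM T B U P)
    (hC : ConnM U P) {c : ℂ} (c0 : c ≠ 0)
    (h : ∀ t ∈ U, Gen K t → IsAlgebraic (Rt t) (c * (P t).det ^ 2)) :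
    ∃ (N : ℕ) (q : MvPolynomial σ ℂ), ∀ t ∈ U,
      MvPolynomial.aeval t T ^ N * (P t).det = MvPolynomial.eval t q := by
  rcases U.eq_empty_or_nonempty with rfl | ⟨s, hs⟩
  · exact ⟨0, 0, fun _ h => h.elim⟩
  obtain ⟨n, p, p0, hp⟩ := det_alg K ho hU (g := fun t => c * (P t).det ^ 2) (fun t ht =>
    analyticAt_const.fun_mul ((cdet_an (fun t ht i j => ((hP t ht).2 i j).1) t ht).fun_pow 2)) h
  obtain ⟨u, hu⟩ : ∃ u, ∀ t, valM P u t = (P t).det :=
    ⟨(of fun i j => MvPolynomial.X (i, j)).det, fun t => by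
      refine ((MvPolynomial.eval₂Hom (MvPolynomial.eval t)
        fun a : ν × ν => P t a.1 a.2).map_det _).trans ?_
      congr 1
      ext i j
      simp⟩
  have h1 : ∀ t, valM P 1 t = 1 := fun t => MvPolynomial.eval₂_one _ _
  have h2 : ∀ t, valM P (MvPolynomial.C (MvPolynomial.C c) * u ^ 2) t = c * (P t).det ^ 2 :=
    fun t => by simp [← hu, valM]
  have h3 : ∃ t ∈ U, valM P 1 t ≠ 0 := ⟨s, hs, h1 s ▸ one_ne_zero⟩
  obtain ⟨a, b, b0, e⟩ := hC (MvPolynomial.C (MvPolynomial.C c) * u ^ 2) 1 n p h3 p0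
    fun t ht => by simpa only [h1, h2, one_pow, mul_one] using hp t ht
  obtain ⟨a', b', b1, e'⟩ := hC u 1 2 (fun j => if j = 2 then MvPolynomial.C c * b else
    if j = 0 then -a else 0) h3 ⟨2, le_rfl, by simp [c0, b0]⟩ fun t ht => by
      have := e t ht
      simp only [h1, h2, mul_one] at this
      simp [Finset.sum_range_succ, h1, hu, ← this]
      ring
  exact tpow T0 ho hU hP b1 (a := a') fun t ht => by simpa only [h1, hu, mul_one] using e' t ht

end

end Pool.Agent.Lib.MP_5591bc_ag.Cu
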