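import Pool.Agent.Lib.MP_5591bc_ag.Cu.Hens

/-! Germs with Eisenstein denominators. -/

namespace Pool.Agent.Lib.MP_5591bc_ag.Cu

open Polynomial Set Filter Topology Matrix Complex Asymptotics G M
open scoped Polynomial.Bivariate

noncomputable section

variable {σ : Type*} [Fintype σ] [DecidableEq σ] {R : Subring ℂ} {b b' : ℂ} {g g' : Gm}


theorem efld_int {x : ℂ} (hx : x ∈ R) : IsIntegral R x :=
  isIntegral_algebraMap (x := (⟨x, hx⟩ : R))

theorem efld_const (b : ℂ) {c : ℂ} (hc : IsIntegral R c) :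
    InO R b (↑(fun _ : ℂ => c) : Gm) := by
  refine ⟨fun _ => c, analyticAt_const, rfl, fun n => ?_⟩
  rw [tay_const, PowerSeries.coeff_C]
  split_ifs with h
  · subst h; simpa using hc
  · simpa using isIntegral_zero

theorem efld_mul (h : InO R b g) (h' : InO R b g') : InO R b (g * g') := by
  obtain ⟨u, hu, rfl, iu⟩ := h
  obtain ⟨v, hv, rfl, iv⟩ := h'
  refine ⟨fun t => u t * v t, hu.fun_mul hv, rfl, fun n => ?_⟩
  rw [tay_mul hu hv, PowerSeries.coeff_mul, Finset.mul_sum]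
  refine IsIntegral.sum _ fun p hp => ?_
  have e : b ^ n * (PowerSeries.coeff p.1 (tay u 0) * PowerSeries.coeff p.2 (tay v 0)) =
      b ^ p.1 * PowerSeries.coeff p.1 (tay u 0) * (b ^ p.2 * PowerSeries.coeff p.2 (tay v 0)) := by
    rw [← Finset.HasAntidiagonal.mem_antidiagonal.1 hp, pow_add]; ring
  rw [e]
  exact (iu _).mul (iv _)

theorem efld_add (h : InO R b g) (h' : InO R b g') : InO R b (g + g') := by
  obtain ⟨u, hu, rfl, iu⟩ := h
  obtain ⟨v, hv, rfl, iv⟩ := h'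
  refine ⟨fun t => u t + v t, hu.fun_add hv, rfl, fun n => ?_⟩
  rw [tay_add hu hv, map_add, mul_add]
  exact (iu _).add (iv _)

theorem efld_neg (h : InO R b g) : InO R b (-g) := by
  have e : -g = (↑(fun _ : ℂ => (-1 : ℂ)) : Gm) * g := by
    have : (↑(fun _ : ℂ => (-1 : ℂ)) : Gm) = -1 := rfl
    rw [this, neg_one_mul]
  rw [e]
  exact efld_mul (efld_const b isIntegral_one.neg) h

theorem efld_id (hb : b ∈ R) : InO R b (↑(fun u : ℂ => u) : Gm) := by
  refine ⟨fun u => u, analyticAt_id, rfl, fun n => ?_⟩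
  have e : tay (fun u : ℂ => u) 0 = PowerSeries.X := by simpa using tay_id (p := 0)
  rw [e, PowerSeries.coeff_X]
  split_ifs with h
  · simpa using (efld_int hb).pow n
  · simpa using isIntegral_zero

theorem efld_bu (b : ℂ) : bu b = (↑(fun _ : ℂ => b) : Gm) * (↑(fun u : ℂ => u) : Gm) := rfl

theorem efld_bu_mul (b b' : ℂ) : bu (b * b') = (↑(fun _ : ℂ => b') : Gm) * bu b := by
  have e : (fun u : ℂ => b * b' * u) = (fun _ : ℂ => b') * fun u : ℂ => b * u := by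
    funext u; simp only [Pi.mul_apply]; ring
  unfold bu
  rw [e, Germ.coe_mul]

theorem efld_pow_const (b a : ℂ) (k : ℕ) : bu b ^ k * (↑(fun _ : ℂ => a) : Gm) =
    (↑(fun u : ℂ => u) : Gm) ^ k * (↑(fun _ : ℂ => b ^ k * a) : Gm) := by
  unfold bu
  rw [← Germ.coe_pow, ← Germ.coe_pow, ← Germ.coe_mul, ← Germ.coe_mul]
  congr 1
  funext u
  simp only [Pi.mul_apply, Pi.pow_apply]
  ring

theorem ino_ex (R : Subring ℂ) (b : ℂ) : ∃ O : Subring Gm, ∀ g, g ∈ O ↔ InO R b g := by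
  exact ⟨{ carrier := {g | InO R b g}
           mul_mem' := efld_mul
           one_mem' := efld_const b isIntegral_one
           add_mem' := efld_add
           zero_mem' := efld_const b isIntegral_zero
           neg_mem' := efld_neg }, fun _ => Iff.rfl⟩

theorem InO.mono (h : InO R b g) (hb : b' ∈ R) : InO R (b * b') g := by
  obtain ⟨u, hu, rfl, iu⟩ := h
  refine ⟨u, hu, rfl, fun n => ?_⟩
  have e : (b * b') ^ n * PowerSeries.coeff n (tay u 0) =
      b' ^ n * (b ^ n * PowerSeries.coeff n (tay u 0)) := by rw [mul_pow]; ring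
  rw [e]
  exact ((efld_int hb).pow n).mul (iu n)

theorem inO_bu (hb : b ∈ R) : InO R b (bu b) := by
  rw [efld_bu]
  exact efld_mul (efld_const b (efld_int hb)) (efld_id hb)

theorem inO_const {c : ℂ} (hc : IsIntegral R c) : InO R b (↑(fun _ : ℂ => c) : Gm) := by
  exact efld_const b hc

theorem bu_unit (hb : b ≠ 0) : IsUnit (bu b) := by
  refine IsUnit.of_mul_eq_one (↑(fun u : ℂ => (b * u)⁻¹) : Gm) ?_
  unfold bu
  rw [← Germ.coe_mul, ← Germ.coe_one, Germ.coe_eq]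
  filter_upwards [self_mem_nhdsWithin] with u hu
  exact mul_inv_cancel₀ (mul_ne_zero hb hu)

theorem efld_pow (h : InO R b g) (k : ℕ) : InO R b (g ^ k) := by
  obtain ⟨O, hO⟩ := ino_ex R b
  exact (hO _).1 (O.pow_mem ((hO _).2 h) k)

theorem InO.up {k k' : ℕ} (hb : b ∈ R) (hb' : b' ∈ R) (hk : k ≤ k')
    (h : InO R b (bu b ^ k * g)) : InO R (b * b') (bu (b * b') ^ k' * g) := by
  obtain ⟨j, rfl⟩ := Nat.exists_eq_add_of_le hk
  have e : bu (b * b') ^ (k + j) * g =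
      bu (b * b') ^ j * ((↑(fun _ : ℂ => b') : Gm) ^ k * (bu b ^ k * g)) := by
    rw [pow_add, mul_comm (bu (b * b') ^ k), mul_assoc]
    congr 1
    rw [efld_bu_mul, mul_pow, mul_assoc]
  rw [e]
  exact efld_mul (efld_pow (inO_bu (R.mul_mem hb hb')) j)
    (efld_mul (efld_pow (efld_const _ (efld_int hb')) k) (h.mono hb'))

theorem efld_fin {ι : Type*} [Fintype ι] {S : ι → MvPowerSeries σ Gm} (h : ∀ i, InT R (S i)) :
    ∃ b ∈ R, b ≠ 0 ∧ ∃ c : ℕ, ∀ i (κ : σ →₀ ℕ),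
      InO R b (bu b ^ (c * (κ.degree + 1)) * MvPowerSeries.coeff κ (S i)) := by
  classical
  choose β hβ h0 c hc using h
  refine ⟨∏ i, β i, R.prod_mem fun i _ => hβ i, Finset.prod_ne_zero_iff.2 fun i _ => h0 i,
    ∑ i, c i, fun i κ => ?_⟩
  rw [← Finset.mul_prod_erase _ β (Finset.mem_univ i)]
  exact InO.up (hβ i) (R.prod_mem fun j _ => hβ j) (Nat.mul_le_mul_right _
    (Finset.single_le_sum (f := c) (fun _ _ => Nat.zero_le _) (Finset.mem_univ i))) (hc i κ)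

theorem efld_tb (σ : Type*) [Fintype σ] [DecidableEq σ] (hb : b ∈ R) (h0 : b ≠ 0) :
    ∃ 𝓣 : Subring (MvPowerSeries σ Gm), HC 𝓣 ∧ ∀ S, S ∈ 𝓣 ↔ ∃ c : ℕ, ∀ κ : σ →₀ ℕ,
      InO R b (bu b ^ (c * (κ.degree + 1)) * MvPowerSeries.coeff κ S) := by
  obtain ⟨O, hO⟩ := ino_ex R b
  obtain ⟨𝓣, hT, hm⟩ := ts_ex (σ := σ) O ((hO _).2 (inO_bu hb)) (bu_unit h0)
  exact ⟨𝓣, hT, fun S => by simp only [hm, hO]⟩

theorem efld_com {ι : Type*} [Fintype ι] {S : ι → MvPowerSeries σ Gm} (h : ∀ i, InT R (S i)) :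
    ∃ 𝓣 : Subring (MvPowerSeries σ Gm), HC 𝓣 ∧ (∀ i, S i ∈ 𝓣) ∧ ∀ z ∈ 𝓣, InT R z := by
  obtain ⟨b, hb, h0, c, hc⟩ := efld_fin h
  obtain ⟨𝓣, hT, hm⟩ := efld_tb σ hb h0
  exact ⟨𝓣, hT, fun i => (hm _).2 ⟨c, hc i⟩, fun z hz => ⟨b, hb, h0, (hm z).1 hz⟩⟩

theorem efld_two {S S' : MvPowerSeries σ Gm} (h : InT R S) (h' : InT R S') :
    ∃ 𝓣 : Subring (MvPowerSeries σ Gm), S ∈ 𝓣 ∧ S' ∈ 𝓣 ∧ ∀ z ∈ 𝓣, InT R z := by
  obtain ⟨𝓣, -, hm, hz⟩ := efld_com (R := R) (ι := Bool) (S := fun i => cond i S S')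
    (fun i => by cases i; exacts [h', h])
  exact ⟨𝓣, hm true, hm false, hz⟩

theorem int_ex (σ : Type*) [Fintype σ] [DecidableEq σ] (R : Subring ℂ) :
    ∃ 𝓣 : Subring (MvPowerSeries σ Gm), HC 𝓣 ∧ ∀ S, S ∈ 𝓣 ↔ InT R S := by
  obtain ⟨𝓣₀, -, -, h₀⟩ := efld_com (σ := σ) (R := R) (ι := Empty) (S := fun i => i.elim)
    (fun i => i.elim)
  refine ⟨{ carrier := {S | InT R S}
            mul_mem' := fun h h' => ?_
            one_mem' := h₀ _ 𝓣₀.one_mem
            add_mem' := fun h h' => ?_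
            zero_mem' := h₀ _ 𝓣₀.zero_mem
            neg_mem' := fun h => ?_ }, ?_, fun _ => Iff.rfl⟩
  · obtain ⟨𝓣, a, a', hz⟩ := efld_two h h'
    exact hz _ (𝓣.mul_mem a a')
  · obtain ⟨𝓣, a, a', hz⟩ := efld_two h h'
    exact hz _ (𝓣.add_mem a a')
  · obtain ⟨𝓣, a, -, hz⟩ := efld_two h h
    exact hz _ (𝓣.neg_mem a)
  · intro p hp p0 p1 z z0 hz
    obtain ⟨𝓣, hT, hm, hin⟩ := efld_com (R := R) (ι := Fin (p.natDegree + 1))
      (S := fun i => p.coeff i) (fun i => hp i)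
    refine hin z (hT p (fun j => ?_) p0 p1 z z0 hz)
    by_cases hj : j < p.natDegree + 1
    · exact hm ⟨j, hj⟩
    · rw [coeff_eq_zero_of_natDegree_lt (by omega)]
      exact 𝓣.zero_mem

theorem ine_ex (R : Subring ℂ) : ∃ O : Subring Gm, ∀ g, g ∈ O ↔ InE R g := by
  refine ⟨{ carrier := {g | InE R g}
            mul_mem' := fun {g g'} h h' => ?_
            one_mem' := ⟨1, R.one_mem, one_ne_zero, 0, ?_⟩
            add_mem' := fun {g g'} h h' => ?_
            zero_mem' := ⟨1, R.one_mem, one_ne_zero, 0, ?_⟩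
            neg_mem' := fun {g} h => ?_ }, fun _ => Iff.rfl⟩
  · obtain ⟨b, hb, h0, c, hc⟩ := h
    obtain ⟨b', hb', h0', c', hc'⟩ := h'
    refine ⟨b * b', R.mul_mem hb hb', mul_ne_zero h0 h0', c + c', ?_⟩
    have e : bu (b * b') ^ (c + c') * (g * g') =
        bu (b * b') ^ c * g * (bu (b * b') ^ c' * g') := by rw [pow_add]; ring
    rw [e]
    refine efld_mul (InO.up hb hb' le_rfl hc) ?_
    rw [mul_comm b b']
    exact InO.up hb' hb le_rfl hc'
  · rw [pow_zero, one_mul]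
    exact efld_const 1 isIntegral_one
  · obtain ⟨b, hb, h0, c, hc⟩ := h
    obtain ⟨b', hb', h0', c', hc'⟩ := h'
    refine ⟨b * b', R.mul_mem hb hb', mul_ne_zero h0 h0', c + c', ?_⟩
    rw [mul_add]
    refine efld_add (InO.up hb hb' (Nat.le_add_right _ _) hc) ?_
    rw [mul_comm b b']
    exact InO.up hb' hb (Nat.le_add_left _ _) hc'
  · rw [pow_zero, one_mul]
    exact efld_const 1 isIntegral_zero
  · obtain ⟨b, hb, h0, c, hc⟩ := h
    refine ⟨b, hb, h0, c, ?_⟩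
    rw [mul_neg]
    exact efld_neg hc

theorem InE.inT (h : InE R g) : InT R (MvPowerSeries.C g : MvPowerSeries σ Gm) := by
  obtain ⟨b, hb, h0, c, hc⟩ := h
  refine ⟨b, hb, h0, c, fun κ => ?_⟩
  rw [MvPowerSeries.coeff_C]
  split_ifs with hκ
  · subst hκ
    simpa using hc
  · rw [mul_zero]
    exact efld_const b isIntegral_zero

theorem Tame.inT {S : MvPowerSeries σ ℂ} (h : Tame R S) : InT R (gs (𝓝[≠] 0) fun _ : ℂ => S) := by
  obtain ⟨b, hb, h0, hc⟩ := h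
  refine ⟨b, hb, h0, 1, fun κ => ?_⟩
  have e : MvPowerSeries.coeff κ (gs (𝓝[≠] (0 : ℂ)) fun _ : ℂ => S) =
      (↑(fun _ : ℂ => MvPowerSeries.coeff κ S) : Gm) := rfl
  rw [e, one_mul, efld_pow_const]
  exact efld_mul (efld_pow (efld_id hb) _) (efld_const b (hc κ))

theorem inE_const {c : ℂ} (hc : IsAlgebraic R c) : InE R (↑(fun _ : ℂ => c) : Gm) := by
  obtain ⟨y, hy, hi⟩ := hc.exists_integral_multiple
  refine ⟨y, y.2, fun h => hy (Subtype.ext h), 1, ?_⟩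
  rw [efld_pow_const, pow_one, pow_one]
  exact efld_mul (efld_id y.2) (efld_const _ hi)

theorem inE_id : InE R (↑(fun u : ℂ => u) : Gm) := by
  refine ⟨1, R.one_mem, one_ne_zero, 0, ?_⟩
  rw [pow_zero, one_mul]
  exact efld_id R.one_mem

/-- one scale for finitely many series -/
theorem inT_fin {ι : Type*} [Fintype ι] {S : ι → MvPowerSeries σ Gm} (h : ∀ i, InT R (S i)) :
    ∃ b ∈ R, b ≠ 0 ∧ ∃ c : ℕ, ∀ i (κ : σ →₀ ℕ),
      InO R b (bu b ^ (c * (κ.degree + 1)) * MvPowerSeries.coeff κ (S i)) := by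
  exact efld_fin h

end

end Pool.Agent.Lib.MP_5591bc_ag.Cu
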