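import Pool.Agent.Lib.MP_5591bc_ag.Cu.Efld

/-! Inverses of germs with Eisenstein denominators. -/

namespace Pool.Agent.Lib.MP_5591bc_ag.Cu

open Polynomial Set Filter Topology Matrix Complex Asymptotics G M
open scoped Polynomial.Bivariate

noncomputable section

variable {σ : Type*} [Fintype σ] [DecidableEq σ] {R : Subring ℂ} {b b' : ℂ} {g g' : Gm}

/-- the inverse of a series with constant term one keeps the denominators -/
theorem einv_ser {S S' : PowerSeries ℂ} (h0 : PowerSeries.coeff 0 S = 1) (e : S * S' = 1)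
    (h : ∀ n, IsIntegral R (b ^ n * PowerSeries.coeff n S)) (n : ℕ) :
    IsIntegral R (b ^ n * PowerSeries.coeff n S') := by
  let T : PowerSeries (integralClosure R ℂ) := PowerSeries.mk fun k => ⟨_, h k⟩
  let ι : integralClosure R ℂ →+* ℂ := (integralClosure R ℂ).val
  have hT : PowerSeries.map ι T = PowerSeries.rescale b S := by
    ext k; simp [T, ι, PowerSeries.coeff_rescale]
  have c0 : PowerSeries.constantCoeff T = ((1 : (integralClosure R ℂ)ˣ) : integralClosure R ℂ) := by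
    apply Subtype.ext
    rw [← PowerSeries.coeff_zero_eq_constantCoeff_apply]
    simp only [T, PowerSeries.coeff_mk, h0]
    simp
  have e1 := congrArg (PowerSeries.map ι) (PowerSeries.mul_invOfUnit T 1 c0)
  rw [map_mul, map_one, hT] at e1
  have e2 := congrArg (PowerSeries.rescale b) e
  rw [map_mul, map_one] at e2
  have e3 : PowerSeries.rescale b S' = PowerSeries.map ι (T.invOfUnit 1) :=
    left_inv_eq_right_inv (by rw [mul_comm]; exact e2) e1
  rw [← PowerSeries.coeff_rescale, e3, PowerSeries.coeff_map]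
  exact (PowerSeries.coeff n (T.invOfUnit 1)).2

theorem einv_ofO (hb : b ∈ R) (h0 : b ≠ 0) (h : InO R b g) : InE R g :=
  ⟨b, hb, h0, 0, by simpa using h⟩

/-- the germ of `1 / u` -/
theorem einv_u : InE R (↑(fun u : ℂ => u⁻¹) : Gm) := by
  refine ⟨1, R.one_mem, one_ne_zero, 1, ?_⟩
  have e : bu 1 ^ 1 * (↑(fun u : ℂ => u⁻¹) : Gm) = (↑(fun _ : ℂ => (1 : ℂ)) : Gm) := by
    rw [pow_one, bu, ← Germ.coe_mul, Germ.coe_eq]
    filter_upwards [self_mem_nhdsWithin] with u hu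
    simp [mul_inv_cancel₀ (show u ≠ 0 from hu)]
  rw [e]
  exact inO_const isIntegral_one

theorem InE.inv (h : InE R g) (e : g * g' = 1) : InE R g' := by
  obtain ⟨b, hb, hb0, c, h, ha, eh, hi⟩ := h
  obtain ⟨O, hO⟩ := ine_ex R
  have e1 : (h : Gm) * g' = bu b ^ c := by rw [← eh, mul_assoc, e, mul_one]
  have hn : ¬ ∀ᶠ u in 𝓝 (0 : ℂ), h u = 0 := by
    intro hz
    have : (h : Gm) = 0 := Germ.coe_eq.2 (hz.filter_mono nhdsWithin_le_nhds)
    rw [this, zero_mul] at e1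
    exact ((bu_unit hb0).pow c).ne_zero e1.symm
  obtain ⟨k, v, hv, hv0, ev⟩ := ha.exists_eventuallyEq_pow_smul_nonzero_iff.mpr hn
  have et : tay h 0 = PowerSeries.X ^ k * tay v 0 := by
    rw [tay_congr (h := fun t => (t - 0) ^ k * v t) ev, tay_pow_mul hv]
  have hc : ∀ n, IsIntegral R (b ^ (n + k) * PowerSeries.coeff n (tay v 0)) := fun n => by
    have := hi (n + k)
    rwa [et, PowerSeries.coeff_X_pow_mul] at this
  have hα : IsIntegral R (b ^ k * v 0) := by simpa using hc 0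
  obtain ⟨r, hr0, hβ⟩ := hα.isAlgebraic.inv.exists_integral_multiple
  have hr : (r : ℂ) ≠ 0 := fun z => hr0 (Subtype.ext z)
  have hβ' : IsIntegral R ((r : ℂ) * (b ^ k * v 0)⁻¹) := hβ
  have hR : ∀ x ∈ R, IsIntegral R x := fun x hx => isIntegral_algebraMap (x := (⟨x, hx⟩ : R))
  have a1 : AnalyticAt ℂ (fun u => (v 0)⁻¹ * v u) 0 := analyticAt_const.mul hv
  have a2 : AnalyticAt ℂ (fun u => v 0 * (v u)⁻¹) 0 := analyticAt_const.mul (hv.inv hv0)
  have hne : ∀ᶠ u in 𝓝 (0 : ℂ), v u ≠ 0 := hv.continuousAt.eventually_ne hv0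
  have e2 : tay (fun u => (v 0)⁻¹ * v u) 0 * tay (fun u => v 0 * (v u)⁻¹) 0 = 1 := by
    rw [← tay_mul a1 a2, tay_congr (h := fun _ => 1), tay_const, map_one]
    filter_upwards [hne] with u hu
    field_simp
  have hw : InO R (b * r) (↑(fun u => v 0 * (v u)⁻¹) : Gm) := by
    refine ⟨_, a2, rfl, einv_ser (by simp [hv0]) e2 fun n => ?_⟩
    cases n with
    | zero => simpa [hv0] using isIntegral_one
    | succ n =>
      have := ((hc (n + 1)).mul hβ').mul ((hR r r.2).pow n)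
      rw [tay_cmul hv, PowerSeries.coeff_C_mul]
      generalize PowerSeries.coeff (n + 1) (tay v 0) = z at this ⊢
      have e5 : (b * r) ^ (n + 1) * ((v 0)⁻¹ * z) =
          b ^ (n + 1 + k) * z * (r * (b ^ k * v 0)⁻¹) * r ^ n := by
        field_simp
        ring
      rwa [e5]
  have hal : IsAlgebraic R (v 0)⁻¹ := by
    have := ((hR b hb).pow k).isAlgebraic.mul hα.isAlgebraic.inv
    have e5 : (v 0)⁻¹ = b ^ k * (b ^ k * v 0)⁻¹ := by field_simp
    rwa [e5]
  have e3 : (↑(fun u : ℂ => u⁻¹) : Gm) ^ k * (↑(fun _ : ℂ => (v 0)⁻¹) : Gm) *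
      (↑(fun u => v 0 * (v u)⁻¹) : Gm) * (h : Gm) = 1 := by
    rw [← Germ.coe_pow, ← Germ.coe_mul, ← Germ.coe_mul, ← Germ.coe_mul, ← Germ.coe_one,
      Germ.coe_eq]
    filter_upwards [self_mem_nhdsWithin, hne.filter_mono nhdsWithin_le_nhds,
      ev.filter_mono nhdsWithin_le_nhds] with u hu h1 h2
    have hu' : u ≠ 0 := hu
    simp only [Pi.mul_apply, Pi.pow_apply, Pi.one_apply, h2, sub_zero, smul_eq_mul, inv_pow]
    field_simp
  have e4 : g' = (↑(fun u : ℂ => u⁻¹) : Gm) ^ k * (↑(fun _ : ℂ => (v 0)⁻¹) : Gm) *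
      (↑(fun u => v 0 * (v u)⁻¹) : Gm) * bu b ^ c := by
    rw [← e1, ← mul_assoc, e3, one_mul]
  rw [← hO, e4]
  exact O.mul_mem (O.mul_mem (O.mul_mem (O.pow_mem ((hO _).2 einv_u) k) ((hO _).2 (inE_const hal)))
    ((hO _).2 (einv_ofO (R.mul_mem hb r.2) (mul_ne_zero hb0 hr) hw)))
    (O.pow_mem ((hO _).2 (einv_ofO hb hb0 (inO_bu hb))) c)

end

end Pool.Agent.Lib.MP_5591bc_ag.Cu
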