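import Pool.Agent.Lib.MP_5591bc_ag.Cu.Set

/-! Discs and squares around the punctures. -/

namespace Pool.Agent.Lib.MP_5591bc_ag.Cu

open Polynomial Set Filter Topology Matrix Complex Asymptotics G M
open scoped Polynomial.Bivariate

noncomputable section

variable {f : ℂ[X][Y]} {d : ℂ[X]} {S S1 : Set ℂ} {Z Z' : Finset ℂ} {x : ℂ} {β : ℂ → ℂ}
  {a a' b b' G H H' W W' Φ Φ' Γ η φ ψ : ℂ × ℂ → ℂ} {F F' Ψ : ℂ → ℂ} {s t u v r ρ : ℝ} {L : ℂ}
  {μ : ℝ → ℝ → ℝ → ℝ → ℂ} {𝒞 : AddSubmonoid ℂ} {ν : Type*} [Fintype ν]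


theorem dn_open (o : Option ℂ) (ρ : ℝ) : IsOpen (Dn o ρ) := by
  cases o with
  | none => exact isOpen_lt continuous_const continuous_norm
  | some e =>
    have h1 : IsOpen {x : ℂ | ‖x - e‖ < ρ} := isOpen_lt (by fun_prop) continuous_const
    exact (isOpen_ne (x := e)).inter h1

theorem dn_mono (o : Option ℂ) {ρ' : ℝ} (h0 : 0 < ρ') (h : ρ' ≤ ρ) : Dn o ρ' ⊆ Dn o ρ := by
  cases o with
  | none => exact fun x hx => lt_of_le_of_lt (inv_anti₀ h0 h) hx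
  | some e => exact fun x hx => ⟨hx.1, hx.2.trans_le h⟩

theorem col_open (Z : Finset ℂ) (ρ : ℝ) : IsOpen (col Z ρ) := by
  have : col Z ρ = ⋃ o ∈ Finset.insertNone Z, Dn o ρ := by
    ext x; simp only [col, mem_ofPred_eq, mem_iUnion, exists_prop]
  rw [this]
  exact isOpen_biUnion fun o _ => dn_open o ρ

theorem col_mono {ρ' : ℝ} (h0 : 0 < ρ') (h : ρ' ≤ ρ) : col Z ρ' ⊆ col Z ρ := by
  rintro x ⟨o, ho, hx⟩
  exact ⟨o, ho, dn_mono o h0 h hx⟩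

theorem dn_col {o : Option ℂ} (ho : o ∈ Finset.insertNone Z) : Dn o ρ ⊆ col Z ρ := by
  exact fun x hx => ⟨o, ho, hx⟩

theorem Adm.sub (h : Adm Z ρ) : col Z ρ ⊆ (Z : Set ℂ)ᶜ := by
  rintro x ⟨o, ho, hx⟩ hz
  have hz' : x ∈ Z := hz
  cases o with
  | none =>
    have h1 := h.2.2 x hz'
    have h2 : ρ⁻¹ < ‖x‖ := hx
    linarith [h.1]
  | some e =>
    have he : e ∈ Z := Finset.some_mem_insertNone.1 ho
    have h1 := h.2.1 x hz' e he hx.1
    linarith [h.1, hx.2]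

theorem Adm.disj (h : Adm Z ρ) {o o' : Option ℂ} (ho : o ∈ Finset.insertNone Z)
    (ho' : o' ∈ Finset.insertNone Z) (hx : x ∈ Dn o ρ) (hx' : x ∈ Dn o' ρ) : o = o' := by
  have key : ∀ e ∈ Z, x ∈ Dn (some e) ρ → x ∈ Dn none ρ → False := by
    intro e he h1 h2
    have h3 := h.2.2 e he
    have h4 : ρ⁻¹ < ‖x‖ := h2
    have h5 : ‖x‖ ≤ ‖e‖ + ‖x - e‖ := by simpa using norm_add_le e (x - e)
    linarith [h1.2]
  cases o with
  | none =>
    cases o' with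
    | none => rfl
    | some e' => exact (key e' (Finset.some_mem_insertNone.1 ho') hx' hx).elim
  | some e =>
    cases o' with
    | none => exact (key e (Finset.some_mem_insertNone.1 ho) hx hx').elim
    | some e' =>
      by_contra hne
      have h1 := h.2.1 e (Finset.some_mem_insertNone.1 ho) e' (Finset.some_mem_insertNone.1 ho')
        fun c => hne (by rw [c])
      have h2 : ‖e - e'‖ ≤ ‖x - e'‖ + ‖x - e‖ := by
        have := norm_sub_le (x - e') (x - e)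
        rwa [show x - e' - (x - e) = e - e' by ring] at this
      linarith [hx.2, hx'.2]

theorem Adm.mono (h : Adm Z ρ) {ρ' : ℝ} (h0 : 0 < ρ') (h1 : ρ' ≤ ρ) : Adm Z ρ' := by
  refine ⟨h0, fun e he e' he' hne => ?_, fun e he => ?_⟩
  · linarith [h.2.1 e he e' he' hne]
  · linarith [h.2.2 e he, inv_anti₀ h0 h1]

theorem adm_ex (Z : Finset ℂ) : ∀ᶠ ρ in 𝓝[>] (0 : ℝ), Adm Z ρ := by
  have hz : Tendsto (fun ρ : ℝ => ρ) (𝓝[>] 0) (𝓝 0) := tendsto_nhdsWithin_of_tendsto_nhds tendsto_id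
  have h1 : ∀ᶠ ρ in 𝓝[>] (0 : ℝ), ∀ e ∈ Z, ∀ e' ∈ Z, e ≠ e' → 2 * ρ ≤ ‖e - e'‖ := by
    refine (Finset.eventually_all Z).2 fun e _ => (Finset.eventually_all Z).2 fun e' _ => ?_
    by_cases hne : e = e'
    · exact Eventually.of_forall fun _ c => (c hne).elim
    · have hp : 0 < ‖e - e'‖ / 2 := by
        have := norm_pos_iff.2 (sub_ne_zero.2 hne)
        positivity
      filter_upwards [hz.eventually (eventually_lt_nhds hp)] with ρ hρ _
      linarith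
  have h2 : ∀ᶠ ρ in 𝓝[>] (0 : ℝ), ∀ e ∈ Z, ‖e‖ + ρ ≤ ρ⁻¹ := by
    refine (Finset.eventually_all Z).2 fun e _ => ?_
    filter_upwards [hz.eventually (eventually_lt_nhds one_pos),
      tendsto_inv_nhdsGT_zero.eventually (eventually_ge_atTop (‖e‖ + 1))] with ρ a1 a2
    linarith
  filter_upwards [h1, h2, self_mem_nhdsWithin] with ρ a1 a2 a0
  exact ⟨a0, a1, a2⟩

theorem fr_col (h0 : 0 < ρ) : ∀ᶠ r in 𝓝[>] (0 : ℝ), FR Z r ⊆ col Z ρ := by
  have hz : Tendsto (fun r : ℝ => r) (𝓝[>] 0) (𝓝 0) := tendsto_nhdsWithin_of_tendsto_nhds tendsto_id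
  filter_upwards [hz.eventually (eventually_lt_nhds (half_pos h0)), self_mem_nhdsWithin] with r a1 a0
  have a0' : 0 < r := a0
  rintro z (⟨e, he, ⟨⟨h1, h2⟩, h3, h4⟩, h5⟩ | ⟨_, h5⟩)
  · refine ⟨some e, Finset.some_mem_insertNone.2 he, ?_, ?_⟩
    · rintro rfl
      rcases h5 with c | c | c | c <;> linarith
    · have b1 : |(z - e).re| ≤ r := by rw [Complex.sub_re, abs_le]; constructor <;> linarith
      have b2 : |(z - e).im| ≤ r := by rw [Complex.sub_im, abs_le]; constructor <;> linarith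
      linarith [Complex.norm_le_abs_re_add_abs_im (z - e)]
  · refine ⟨none, Finset.none_mem_insertNone, ?_⟩
    have b0 : ρ⁻¹ < r⁻¹ := inv_strictAnti₀ a0' (by linarith)
    have b1 := abs_le.1 (Complex.abs_re_le_norm z)
    have b2 := abs_le.1 (Complex.abs_im_le_norm z)
    show ρ⁻¹ < ‖z‖
    simp only [Complex.zero_re, Complex.zero_im] at h5
    rcases h5 with c | c | c | c <;> linarith [b1.1, b1.2, b2.1, b2.2]

theorem pf_sub (hr : 0 < r) : Pf Z r ⊆ (Z : Set ℂ)ᶜ := by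
  intro z hz hZ
  have := hz.2 z hZ
  simp only [sub_self, abs_zero, or_self] at this
  linarith

theorem pf_cpt (Z : Finset ℂ) (r : ℝ) : IsCompact (Pf Z r) := by
  have h1 : IsCompact (sq rc 0 r⁻¹) :=
    (isCompact_Icc.reProdIm isCompact_Icc :
      IsCompact (Icc ((0 : ℂ).re - r⁻¹) ((0 : ℂ).re + r⁻¹) ×ℂ Icc ((0 : ℂ).im - r⁻¹) ((0 : ℂ).im + r⁻¹)))
  have h2 : IsClosed {z : ℂ | ∀ e ∈ Z, r ≤ |z.re - e.re| ∨ r ≤ |z.im - e.im|} := by
    simp only [ofPred_forall]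
    refine isClosed_iInter fun e => isClosed_iInter fun _ => ?_
    have b1 : IsClosed {z : ℂ | r ≤ |z.re - e.re|} := isClosed_le continuous_const (by fun_prop)
    have b2 : IsClosed {z : ℂ | r ≤ |z.im - e.im|} := isClosed_le continuous_const (by fun_prop)
    exact b1.union b2
  exact h1.inter_right h2

theorem bb_eq (Z : Finset ℂ) (r : ℝ) (F : ℂ → ℂ) :
    BB Z r F = ∑ o ∈ Finset.insertNone Z, sqo F o r := by
  rw [Finset.sum_insertNone]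
  simp only [BB, BM, sqo]
  ring

theorem mov_adm (h : Adm Z ρ) {e : ℂ → ℂ} (he : BijOn e Z Z') (hn : ∀ z ∈ Z, ‖e z - z‖ ≤ ρ / 4) :
    Adm Z' (ρ / 2) := by
  have h0 := h.1
  refine ⟨half_pos h0, fun a ha a' ha' hne => ?_, fun a ha => ?_⟩
  · obtain ⟨z, hz, rfl⟩ := he.surjOn ha
    obtain ⟨z', hz', rfl⟩ := he.surjOn ha'
    have h1 := h.2.1 z hz z' hz' fun c => hne (by rw [c])
    have h2 : ‖z - z'‖ ≤ ‖e z - e z'‖ + ‖e z - z‖ + ‖e z' - z'‖ := by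
      have b1 := norm_add_le (e z - e z' - (e z - z)) (e z' - z')
      have b2 := norm_sub_le (e z - e z') (e z - z)
      rw [show e z - e z' - (e z - z) + (e z' - z') = z - z' by ring] at b1
      linarith
    linarith [hn z hz, hn z' hz']
  · obtain ⟨z, hz, rfl⟩ := he.surjOn ha
    have h1 := h.2.2 z hz
    have h2 : ‖e z‖ ≤ ‖z‖ + ‖e z - z‖ := by simpa using norm_add_le z (e z - z)
    have h3 : (ρ / 2)⁻¹ = 2 * ρ⁻¹ := by field_simp
    have h4 : 0 < ρ⁻¹ := inv_pos.2 h0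
    linarith [hn z hz]

variable {o : Option ℂ} {ε : ℕ} {w : ℂ}

theorem wu_open (ε : ℕ) (ρ : ℝ) : IsOpen (Wu ε ρ) := by
  have h1 : IsOpen {w : ℂ | ‖w‖ ^ ε < ρ} := isOpen_lt (by fun_prop) continuous_const
  exact (isOpen_ne (x := (0 : ℂ))).inter h1

theorem wu_ev (hε : 0 < ε) (h0 : 0 < ρ) : ∀ᶠ w in 𝓝[≠] (0 : ℂ), w ∈ Wu ε ρ := by
  have h1 : ∀ᶠ w in 𝓝 (0 : ℂ), ‖w‖ ^ ε < ρ := by
    refine (isOpen_lt (by fun_prop) continuous_const :
      IsOpen {w : ℂ | ‖w‖ ^ ε < ρ}).mem_nhds ?_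
    simpa [hε.ne'] using h0
  filter_upwards [h1.filter_mono nhdsWithin_le_nhds, self_mem_nhdsWithin] with w a1 a0
  exact ⟨a0, a1⟩

theorem wu_eq (hε : 0 < ε) (h0 : 0 < ρ) : ∃ R > (0 : ℝ), Wu ε ρ = Metric.ball 0 R \ {0} := by
  have hR : 0 < ρ ^ ((ε : ℝ)⁻¹) := Real.rpow_pos_of_pos h0 _
  refine ⟨_, hR, ?_⟩
  ext w
  have h1 : ‖w‖ ^ ε < ρ ↔ ‖w‖ < ρ ^ ((ε : ℝ)⁻¹) := by
    rw [← pow_lt_pow_iff_left₀ (norm_nonneg w) hR.le hε.ne', Real.rpow_inv_natCast_pow h0.le hε.ne']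
  simp only [Wu, mem_ofPred_eq, Set.mem_sdiff, mem_ball_zero_iff, mem_singleton_iff, h1]
  exact and_comm

theorem xo_mem (hε : 0 < ε) (h0 : 0 < ρ) : xo o ε w ∈ Dn o ρ ↔ w ∈ Wu ε ρ := by
  cases o with
  | none =>
    show ρ⁻¹ < ‖(w ^ ε)⁻¹‖ ↔ w ≠ 0 ∧ ‖w‖ ^ ε < ρ
    rw [norm_inv, norm_pow]
    by_cases hw : w = 0
    · simp [hw, hε.ne', h0.le]
    · have hp : 0 < ‖w‖ ^ ε := pow_pos (norm_pos_iff.2 hw) _
      rw [inv_lt_inv₀ h0 hp]
      simp [hw]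
  | some e =>
    show (e + w ^ ε ≠ e ∧ ‖e + w ^ ε - e‖ < ρ) ↔ w ≠ 0 ∧ ‖w‖ ^ ε < ρ
    simp [hε.ne']

theorem xo_surj (hε : 0 < ε) (o : Option ℂ) (x : ℂ) : ∃ w, xo o ε w = x := by
  cases o with
  | none =>
    obtain ⟨w, hw⟩ := IsAlgClosed.exists_pow_nat_eq x⁻¹ hε
    exact ⟨w, by show (w ^ ε)⁻¹ = x; rw [hw, inv_inv]⟩
  | some e =>
    obtain ⟨w, hw⟩ := IsAlgClosed.exists_pow_nat_eq (x - e) hε
    exact ⟨w, by show e + w ^ ε = x; rw [hw]; ring⟩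

theorem xo_an (hw : w ≠ 0) : AnalyticAt ℂ (xo o ε) w := by
  cases o with
  | none => exact (analyticAt_id.pow ε).inv (pow_ne_zero _ hw)
  | some e => exact analyticAt_const.add (analyticAt_id.pow ε)

theorem xo_der (hε : 0 < ε) (hw : w ≠ 0) : deriv (xo o ε) w ≠ 0 := by
  have h1 : HasDerivAt (fun u : ℂ => u ^ ε) (ε * w ^ (ε - 1)) w := by
    simpa using hasDerivAt_pow ε w
  have h2 : (ε : ℂ) * w ^ (ε - 1) ≠ 0 :=
    mul_ne_zero (Nat.cast_ne_zero.2 hε.ne') (pow_ne_zero _ hw)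
  cases o with
  | none =>
    have h3 : HasDerivAt (xo none ε) (-(ε * w ^ (ε - 1)) / (w ^ ε) ^ 2) w :=
      h1.inv (pow_ne_zero _ hw)
    rw [h3.deriv]
    exact div_ne_zero (neg_ne_zero.2 h2) (pow_ne_zero _ (pow_ne_zero _ hw))
  | some e =>
    have h3 : HasDerivAt (xo (some e) ε) (ε * w ^ (ε - 1)) w := h1.const_add e
    rw [h3.deriv]
    exact h2

theorem xo_mer (o : Option ℂ) (ε : ℕ) : MeromorphicAt (xo o ε) 0 := by
  cases o with
  | none => exact (analyticAt_id.pow ε).meromorphicAt.inv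
  | some e => exact (analyticAt_const.add (analyticAt_id.pow ε)).meromorphicAt

end

end Pool.Agent.Lib.MP_5591bc_ag.Cu
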