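import Pool.Agent.Lib.MP_5591bc_ag.Cu.EisF
import Pool.Agent.Lib.MP_5591bc_ag.Cu.Einv
import Pool.Agent.Lib.MP_5591bc_ag.Cu.Geo

/-! Puiseux branches have Eisenstein denominators. -/

namespace Pool.Agent.Lib.MP_5591bc_ag.Cu

open Polynomial Set Filter Topology Matrix Complex Asymptotics G M
open scoped Polynomial.Bivariate

noncomputable section

variable {R : Subring ℂ} {o : Option ℂ} {ε : ℕ}

/-- a ring of functions with the algebraic constants is closed under polynomial evaluation -/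
lemma eis_ev {ι : Type*} {A : ℂ[X][Y]} (hA : ∀ i j, IsAlgebraic R ((A.coeff i).coeff j))
    (O : Subring (ι → ℂ)) (hc : ∀ c, IsAlgebraic R c → (fun _ => c) ∈ O) {x y : ι → ℂ}
    (hx : x ∈ O) (hy : y ∈ O) : (fun u => A.evalEval (x u) (y u)) ∈ O := by
  have e : (fun u => A.evalEval (x u) (y u)) = ∑ i ∈ A.support,
      (∑ j ∈ (A.coeff i).support, (fun _ => (A.coeff i).coeff j) * x ^ j) * y ^ i := by
    funext u
    rw [← eval₂_evalRingHom, eval₂_eq_sum, Polynomial.sum, Finset.sum_apply]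
    refine Finset.sum_congr rfl fun i _ => ?_
    rw [coe_evalRingHom, eval_eq_sum, Polynomial.sum]
    simp
  rw [e]
  exact sum_mem fun i _ =>
    mul_mem (sum_mem fun j _ => mul_mem (hc _ (hA i j)) (pow_mem hx _)) (pow_mem hy _)

/-- the functions whose germ has Eisenstein denominators -/
lemma eis_fun (R : Subring ℂ) : ∃ O : Subring (ℂ → ℂ), ∀ φ, φ ∈ O ↔ InE R (φ : Gm) := by
  obtain ⟨O, hO⟩ := ine_ex R
  exact ⟨O.comap (Germ.coeRingHom _), fun φ => hO _⟩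

lemma eis_inv : InE R (↑(fun u : ℂ => u⁻¹) : Gm) := by
  refine inE_id.inv ?_
  rw [← Germ.coe_mul, ← Germ.coe_one, Germ.coe_eq]
  filter_upwards [self_mem_nhdsWithin] with u hu
  exact mul_inv_cancel₀ hu

theorem xo_inE (ho : ∀ e, o = some e → IsAlgebraic R e) :
    InE R (↑(xo o ε) : Gm) ∧ InE R (↑(deriv (xo o ε)) : Gm) := by
  obtain ⟨O, hO⟩ := eis_fun R
  have h1 : (fun u : ℂ => u) ∈ O := (hO _).2 inE_id
  have h2 : (fun u : ℂ => u⁻¹) ∈ O := (hO _).2 eis_inv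
  have h3 : (fun u : ℂ => (ε : ℂ) * u ^ (ε - 1)) ∈ O :=
    mul_mem (natCast_mem O ε) (pow_mem h1 (ε - 1))
  rcases o with _ | e
  · have h4 : (fun u : ℂ => (u ^ ε)⁻¹) ∈ O := by
      have := pow_mem h2 ε
      convert this using 2
      simp
    refine ⟨(hO _).1 h4, ?_⟩
    have h5 := (hO _).1 (mul_mem (neg_mem h3) (pow_mem h4 2))
    convert h5 using 1
    rw [Germ.coe_eq]
    filter_upwards [self_mem_nhdsWithin] with u hu
    have := ((hasDerivAt_pow ε u).fun_inv (pow_ne_zero ε hu)).deriv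
    refine this.trans ?_
    simp [div_eq_mul_inv]
  · refine ⟨(hO _).1 (add_mem ((hO _).2 (inE_const (ho e rfl))) (pow_mem h1 ε)), ?_⟩
    have : deriv (xo (some e) ε) = fun u : ℂ => (ε : ℂ) * u ^ (ε - 1) :=
      funext fun u => ((hasDerivAt_pow ε u).const_add e).deriv
    rw [this]
    exact (hO _).1 h3

/-- polynomials with algebraic coefficients -/
lemma eis_alg (R : Subring ℂ) : ∃ L : Subring ℂ[X][Y],
    (∀ p ∈ L, ∀ i j, IsAlgebraic R ((p.coeff i).coeff j)) ∧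
      (∀ c, IsAlgebraic R c → C (C c) ∈ L) ∧ C X ∈ L ∧ X ∈ L := by
  let S : Subring ℂ := (Subalgebra.algebraicClosure R ℂ).toSubring
  let φ : S[X][Y] →+* ℂ[X][Y] := mapRingHom (mapRingHom S.subtype)
  let L : Subring ℂ[X][Y] := RingHom.range (R := S[X][Y]) φ
  refine ⟨L, ?_, fun c hc => ⟨C (C ⟨c, hc⟩), by simp [φ]⟩, ⟨C X, by simp [φ]⟩, ⟨X, by simp [φ]⟩⟩
  rintro _ ⟨p, rfl⟩ i j
  simp only [φ, coe_mapRingHom, coeff_map]
  exact ((p.coeff i).coeff j).2

/-- functions that are polynomial after multiplication by a power of the first variable -/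
lemma eis_pol (L : Subring ℂ[X][Y]) (hX : C X ∈ L) : ∃ O : Subring (ℂ × ℂ → ℂ), ∀ F, F ∈ O ↔
    ∃ M : ℕ, ∃ p ∈ L, ∀ u ≠ 0, ∀ v, p.evalEval u v = u ^ M * F (u, v) := by
  refine ⟨{
    carrier := {F : ℂ × ℂ → ℂ | ∃ M : ℕ, ∃ p ∈ L, ∀ u ≠ 0, ∀ v, p.evalEval u v = u ^ M * F (u, v)}
    mul_mem' := ?_, one_mem' := ?_, add_mem' := ?_, zero_mem' := ?_, neg_mem' := ?_ },
    fun F => Iff.rfl⟩
  · rintro F G ⟨M, p, hp, e⟩ ⟨N, q, hq, e'⟩
    refine ⟨M + N, p * q, mul_mem hp hq, fun u hu v => ?_⟩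
    rw [evalEval_mul, e u hu, e' u hu, Pi.mul_apply]
    ring
  · exact ⟨0, 1, one_mem L, fun u _ v => by simp⟩
  · rintro F G ⟨M, p, hp, e⟩ ⟨N, q, hq, e'⟩
    refine ⟨M + N, p * C X ^ N + q * C X ^ M,
      add_mem (mul_mem hp (pow_mem hX _)) (mul_mem hq (pow_mem hX _)), fun u hu v => ?_⟩
    rw [evalEval_add, evalEval_mul, evalEval_mul, evalEval_pow, evalEval_pow, evalEval_C, eval_X,
      e u hu, e' u hu, Pi.add_apply]
    ring
  · exact ⟨0, 0, zero_mem L, fun u _ v => by simp⟩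
  · rintro F ⟨M, p, hp, e⟩
    refine ⟨M, -p, neg_mem hp, fun u hu v => ?_⟩
    rw [evalEval_neg, e u hu, Pi.neg_apply]
    ring

/-- clearing the poles of the two coordinates -/
lemma eis_clear (ho : ∀ e, o = some e → IsAlgebraic R e) {f : ℂ[X][Y]}
    (hf : ∀ i j, IsAlgebraic R ((f.coeff i).coeff j)) (ε N : ℕ) : ∃ (M : ℕ) (p : ℂ[X][Y]),
    (∀ i j, IsAlgebraic R ((p.coeff i).coeff j)) ∧
      ∀ u ≠ 0, ∀ v, p.evalEval u v = u ^ M * f.evalEval (xo o ε u) ((u ^ N)⁻¹ * v) := by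
  obtain ⟨L, hL, hc, hX, hY⟩ := eis_alg R
  obtain ⟨O, hO⟩ := eis_pol L hX
  have h0 : ∀ c, IsAlgebraic R c → (fun _ => c) ∈ O := fun c h =>
    (hO _).2 ⟨0, C (C c), hc c h, fun u _ v => by simp [evalEval_C]⟩
  have h1 : (fun w => w.1) ∈ O := (hO _).2 ⟨0, C X, hX, fun u _ v => by simp [evalEval_C]⟩
  have h2 : (fun w => w.2) ∈ O := (hO _).2 ⟨0, X, hY, fun u _ v => by simp⟩
  have h3 : ∀ n : ℕ, (fun w => (w.1 ^ n)⁻¹) ∈ O := fun n =>
    (hO _).2 ⟨n, 1, one_mem L, fun u hu v => by simp [hu]⟩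
  have h4 : (fun w => xo o ε w.1) ∈ O := by
    rcases o with _ | e
    · exact h3 ε
    · exact add_mem (h0 e (ho e rfl)) (pow_mem h1 ε)
  obtain ⟨M, p, hp, e⟩ := (hO _).1 (eis_ev hf O h0 h4 (mul_mem (h3 N) h2))
  exact ⟨M, p, hL p hp, e⟩

lemma eis_der (p : ℂ[X][Y]) (u v : ℂ) :
    HasDerivAt (fun v => p.evalEval u v) ((derivative p).evalEval u v) v := by
  simpa only [derivative_map, map_evalRingHom_eval] using (p.map (evalRingHom u)).hasDerivAt v

lemma eis_tay {h : ℂ → ℂ} (hh : AnalyticAt ℂ h 0) (p : ℂ[X][Y]) :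
    AnalyticAt ℂ (fun u => p.evalEval u (h u)) 0 ∧
      tay (fun u => p.evalEval u (h u)) 0 = p.eval₂ coeToPowerSeries.ringHom (tay h 0) := by
  induction p using Polynomial.induction_on' with
  | add p q hp hq =>
    simp only [evalEval_add, eval₂_add]
    exact ⟨hp.1.fun_add hq.1, by rw [tay_add hp.1 hq.1, hp.2, hq.2]⟩
  | monomial n a =>
    have e : (fun u => (monomial n a).evalEval u (h u)) = fun u => a.eval u * h u ^ n := by
      funext u
      rw [← eval₂_evalRingHom, eval₂_monomial, coe_evalRingHom]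
    have ha : AnalyticAt ℂ (fun u => a.eval u) 0 := a.differentiable.analyticAt 0
    rw [e, tay_mul ha (hh.fun_pow n), tay_poly, tay_pow hh, taylor_zero, eval₂_monomial]
    exact ⟨ha.fun_mul (hh.fun_pow n), rfl⟩

theorem eis (ho : ∀ e, o = some e → IsAlgebraic R e) {f : ℂ[X][Y]}
    (hf : ∀ i j, IsAlgebraic R ((f.coeff i).coeff j)) {y : ℂ → ℂ} (hy : MeromorphicAt y 0)
    (h : ∀ᶠ u in 𝓝[≠] (0 : ℂ), f.evalEval (xo o ε u) (y u) = 0 ∧
      (derivative f).evalEval (xo o ε u) (y u) ≠ 0) : InE R (y : Gm) := by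
  obtain ⟨N, hN⟩ := hy
  simp only [sub_zero, smul_eq_mul] at hN
  obtain ⟨M, p, hp, e⟩ := eis_clear ho hf ε N
  have key : ∀ᶠ u in 𝓝[≠] (0 : ℂ), p.evalEval u (u ^ N * y u) = 0 ∧
      (derivative p).evalEval u (u ^ N * y u) ≠ 0 := by
    filter_upwards [h, self_mem_nhdsWithin] with u hu h0
    have h1 : u ^ N ≠ 0 := pow_ne_zero N h0
    have h2 : (u ^ N)⁻¹ * (u ^ N * y u) = y u := inv_mul_cancel_left₀ h1 _
    refine ⟨by rw [e u h0, h2, hu.1, mul_zero], ?_⟩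
    have h3 := ((eis_der f (xo o ε u) ((u ^ N)⁻¹ * (u ^ N * y u))).comp (u ^ N * y u)
      ((hasDerivAt_id (u ^ N * y u)).const_mul (u ^ N)⁻¹)).const_mul (u ^ M)
    have h4 := eis_der p u (u ^ N * y u)
    rw [funext (e u h0)] at h4
    rw [h4.unique h3, h2, mul_one]
    exact mul_ne_zero (pow_ne_zero M h0) (mul_ne_zero hu.2 (inv_ne_zero h1))
  obtain ⟨a1, t1⟩ := eis_tay hN p
  obtain ⟨a2, t2⟩ := eis_tay hN (derivative p)
  obtain ⟨b, hb, b0, hi⟩ := eisf hp (s := tay (fun u => u ^ N * y u) 0) (by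
    rw [← t1, tay_congr (h := fun _ => 0)
      (a1.frequently_zero_iff_eventually_zero.1 (key.mono fun u hu => hu.1).frequently),
      tay_const, map_zero]) (fun z => by
    obtain ⟨u, h1, h2⟩ := (key.and
      ((eventually_zero_of_tay a2 (t2.trans z)).filter_mono nhdsWithin_le_nhds)).exists
    exact h1.2 h2)
  have a3 : AnalyticAt ℂ (fun u => (u - 0) ^ 1 * (u ^ N * y u)) 0 :=
    AnalyticAt.fun_mul (by fun_prop) hN
  refine ⟨b, hb, b0, N + 1, fun u => b ^ (N + 1) * ((u - 0) ^ 1 * (u ^ N * y u)),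
    analyticAt_const.fun_mul a3, ?_, fun n => ?_⟩
  · rw [bu, ← Germ.coe_pow, ← Germ.coe_mul]
    congr 1
    funext u
    simp only [Pi.mul_apply, Pi.pow_apply]
    ring
  · rw [tay_cmul a3, tay_pow_mul hN, pow_one, PowerSeries.coeff_C_mul]
    rcases n with _ | n
    · simpa using isIntegral_zero
    · rw [PowerSeries.coeff_succ_X_mul, mul_left_comm]
      exact ((isIntegral_algebraMap (x := (⟨b, hb⟩ : R))).pow _).mul (hi n)

theorem inE_evalEval {A : ℂ[X][Y]} (hA : ∀ i j, IsAlgebraic R ((A.coeff i).coeff j))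
    {x y : ℂ → ℂ} (hx : InE R (x : Gm)) (hy : InE R (y : Gm)) :
    InE R (↑(fun u => A.evalEval (x u) (y u)) : Gm) := by
  obtain ⟨O, hO⟩ := eis_fun R
  exact (hO _).1 (eis_ev hA O (fun c hc => (hO _).2 (inE_const hc)) ((hO _).2 hx) ((hO _).2 hy))

end

end Pool.Agent.Lib.MP_5591bc_ag.Cu
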