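import Pool.Agent.Lib.MP_5591bc_ag.Cu.AlgF
import Pool.Agent.Lib.MP_5591bc_ag.J.EisA

/-! The theorem of Eisenstein over a subring. -/

namespace Pool.Agent.Lib.MP_5591bc_ag.Cu

open Polynomial Set Filter Topology Matrix Complex Asymptotics G M
open scoped Polynomial.Bivariate

noncomputable section

theorem eisf_int {R : Subring ℂ} {b : ℂ} (hb : b ∈ R) : IsIntegral R b :=
  isIntegral_algebraMap (x := (⟨b, hb⟩ : R))

/-- series with a common denominator -/
def eisfB (R : Subring ℂ) : Subring (PowerSeries ℂ) where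
  carrier := {f | ∃ b ∈ R, b ≠ 0 ∧ ∀ i, IsIntegral R (b * PowerSeries.coeff i f)}
  zero_mem' := ⟨1, one_mem _, one_ne_zero, fun i => by simpa using isIntegral_zero⟩
  one_mem' := ⟨1, one_mem _, one_ne_zero, fun i => by
    rw [PowerSeries.coeff_one]
    split_ifs
    · simpa using isIntegral_one
    · simpa using isIntegral_zero⟩
  add_mem' := by
    rintro f g ⟨a, ha, a0, hf⟩ ⟨b, hb, b0, hg⟩
    refine ⟨a * b, mul_mem ha hb, mul_ne_zero a0 b0, fun i => ?_⟩
    have := ((eisf_int hb).mul (hf i)).add ((eisf_int ha).mul (hg i))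
    rw [map_add, mul_add, mul_assoc a b (PowerSeries.coeff i g), mul_comm a b, mul_assoc]
    exact this
  neg_mem' := by
    rintro f ⟨a, ha, a0, hf⟩
    exact ⟨a, ha, a0, fun i => by rw [map_neg, mul_neg]; exact (hf i).neg⟩
  mul_mem' := by
    rintro f g ⟨a, ha, a0, hf⟩ ⟨b, hb, b0, hg⟩
    refine ⟨a * b, mul_mem ha hb, mul_ne_zero a0 b0, fun i => ?_⟩
    rw [PowerSeries.coeff_mul, Finset.mul_sum]
    refine IsIntegral.sum _ fun x _ => ?_
    rw [mul_mul_mul_comm]
    exact (hf _).mul (hg _)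

/-- series with geometric denominators up to a given order -/
def eisfT (R : Subring ℂ) (c : ℂ) (n : ℕ) : Subring (PowerSeries ℂ) where
  carrier := {f | ∀ i < n, IsIntegral R (c ^ i * PowerSeries.coeff i f)}
  zero_mem' := fun i _ => by simpa using isIntegral_zero
  one_mem' := fun i _ => by
    rw [PowerSeries.coeff_one]
    split_ifs with h
    · simpa [h] using isIntegral_one
    · simpa using isIntegral_zero
  add_mem' := fun ha hb i hi => by
    rw [map_add, mul_add]
    exact (ha i hi).add (hb i hi)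
  neg_mem' := fun ha i hi => by
    rw [map_neg, mul_neg]
    exact (ha i hi).neg
  mul_mem' := fun {a b} ha hb i hi => by
    rw [PowerSeries.coeff_mul, Finset.mul_sum]
    refine IsIntegral.sum _ fun x hx => ?_
    have e := Finset.HasAntidiagonal.mem_antidiagonal.1 hx
    rw [← e, pow_add, mul_mul_mul_comm]
    exact (ha _ (by omega)).mul (hb _ (by omega))

variable {R : Subring ℂ}

theorem eisf_C {a : ℂ} (h : IsAlgebraic R a) : PowerSeries.C a ∈ eisfB R := by
  obtain ⟨b, b0, hb⟩ := h.exists_integral_multiple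
  refine ⟨b, b.2, fun e => b0 (Subtype.ext e), fun i => ?_⟩
  rw [PowerSeries.coeff_C]
  split_ifs
  · exact hb
  · simpa using isIntegral_zero

theorem eisf_X : (PowerSeries.X : PowerSeries ℂ) ∈ eisfB R :=
  ⟨1, one_mem _, one_ne_zero, fun i => by
    rw [PowerSeries.coeff_X]
    split_ifs
    · simpa using isIntegral_one
    · simpa using isIntegral_zero⟩

theorem eisf_alg {f : PowerSeries ℂ} (h : f ∈ eisfB R) (i : ℕ) :
    IsAlgebraic R (PowerSeries.coeff i f) := by
  obtain ⟨b, hb, b0, h⟩ := h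
  exact IsAlgebraic.iff_exists_smul_integral.2
    ⟨⟨b, hb⟩, fun e => b0 (congrArg Subtype.val e), h i⟩

theorem eisf_shift {f : PowerSeries ℂ} {k : ℕ} (h : PowerSeries.X ^ k * f ∈ eisfB R) :
    f ∈ eisfB R := by
  obtain ⟨b, hb, b0, h⟩ := h
  exact ⟨b, hb, b0, fun i => by rw [← PowerSeries.coeff_X_pow_mul f k i]; exact h _⟩

theorem eisf_poly {q : ℂ[X]} (h : ∀ j, IsAlgebraic R (q.coeff j)) :
    (q : PowerSeries ℂ) ∈ eisfB R := by
  have e : (q : PowerSeries ℂ) = coeToPowerSeries.ringHom q := rfl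
  rw [e, q.as_sum_range_C_mul_X_pow, map_sum]
  refine sum_mem fun j _ => ?_
  rw [coeToPowerSeries.ringHom_apply, coe_mul, coe_pow, coe_C, coe_X]
  exact mul_mem (eisf_C (h j)) (pow_mem eisf_X _)

theorem eisf_common (g : ℕ → PowerSeries ℂ) (h : ∀ j, g j ∈ eisfB R) (N : ℕ) :
    ∃ b ∈ R, b ≠ 0 ∧ ∀ j < N, ∀ i, IsIntegral R (b * PowerSeries.coeff i (g j)) := by
  induction N with
  | zero => exact ⟨1, one_mem _, one_ne_zero, fun j hj => absurd hj (Nat.not_lt_zero j)⟩
  | succ N ih =>
    obtain ⟨a, ha, a0, h1⟩ := ih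
    obtain ⟨b, hb, b0, h2⟩ := h N
    refine ⟨a * b, mul_mem ha hb, mul_ne_zero a0 b0, fun j hj i => ?_⟩
    rcases Nat.lt_succ_iff_lt_or_eq.1 hj with hj | rfl
    · rw [mul_comm a b, mul_assoc]
      exact (eisf_int hb).mul (h1 j hj i)
    · rw [mul_assoc]
      exact (eisf_int ha).mul (h2 i)

theorem eisf_key {q w : PowerSeries ℂ} {g : ℕ → PowerSeries ℂ} (hq : q ∈ eisfB R)
    (hg : ∀ j, g j ∈ eisfB R) {N : ℕ}
    (e : w = q + PowerSeries.X * ∑ j ∈ Finset.range N, g j * w ^ j) :
    ∃ b ∈ R, b ≠ 0 ∧ ∀ n, IsIntegral R (b ^ (n + 1) * PowerSeries.coeff n w) := by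
  obtain ⟨a, ha, a0, h1⟩ := hq
  obtain ⟨a', ha', a0', h2⟩ := eisf_common g hg N
  set b := a * a' with hbd
  have hb : b ∈ R := mul_mem ha ha'
  have hc : IsIntegral R (b ^ (N + 1)) := (eisf_int hb).pow _
  have up : ∀ (f : PowerSeries ℂ) n, (∀ i, IsIntegral R (b * PowerSeries.coeff i f)) →
      PowerSeries.C b * f ∈ eisfT R (b ^ (N + 1)) n := fun f n hf i _ => by
    rw [PowerSeries.coeff_C_mul]
    exact (hc.pow _).mul (hf i)
  have cb : ∀ n, PowerSeries.C b ∈ eisfT R (b ^ (N + 1)) n := fun n => by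
    simpa using up 1 n fun i => by
      rw [PowerSeries.coeff_one]
      split_ifs
      · simpa using eisf_int hb
      · simpa using isIntegral_zero
  have key : ∀ n, PowerSeries.C b * w ∈ eisfT R (b ^ (N + 1)) n := by
    intro n
    induction n with
    | zero => exact fun i hi => absurd hi (Nat.not_lt_zero i)
    | succ n ih =>
      have s : PowerSeries.C b ^ (N + 1) * ∑ j ∈ Finset.range N, g j * w ^ j ∈
          eisfT R (b ^ (N + 1)) n := by
        rw [Finset.mul_sum]
        refine sum_mem fun j hj => ?_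
        obtain ⟨k, rfl⟩ := Nat.exists_eq_add_of_lt (Finset.mem_range.1 hj)
        have : PowerSeries.C b ^ (j + k + 1 + 1) * (g j * w ^ j) =
            PowerSeries.C b ^ (k + 1) * (PowerSeries.C b * g j) * (PowerSeries.C b * w) ^ j := by
          ring
        rw [this]
        refine mul_mem (mul_mem (pow_mem (cb n) _) (up _ n fun i => ?_)) (pow_mem ih _)
        rw [hbd, mul_assoc]
        exact (eisf_int ha).mul (h2 j (by omega) i)
      rw [e, mul_add]
      refine add_mem (up q _ fun i => ?_) (mul_mem (cb _) fun i hi => ?_)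
      · rw [hbd, mul_comm a a', mul_assoc]
        exact (eisf_int ha').mul (h1 i)
      · cases i with
        | zero => simpa using isIntegral_zero
        | succ i =>
          have := s i (by omega)
          rw [← map_pow, PowerSeries.coeff_C_mul, ← mul_assoc, ← pow_succ] at this
          rwa [PowerSeries.coeff_succ_X_mul]
  refine ⟨b ^ (N + 1), pow_mem hb _, pow_ne_zero _ (mul_ne_zero a0 a0'), fun n => ?_⟩
  have := ((eisf_int hb).pow N).mul (key (n + 1) n (by omega))
  rw [PowerSeries.coeff_C_mul] at this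
  rwa [show (b ^ (N + 1)) ^ (n + 1) * PowerSeries.coeff n w =
    b ^ N * ((b ^ (N + 1)) ^ n * (b * PowerSeries.coeff n w)) by ring]

theorem eisf {R : Subring ℂ} {p : ℂ[X][Y]} (hp : ∀ i j, IsAlgebraic R ((p.coeff i).coeff j))
    {s : PowerSeries ℂ} (h : p.eval₂ coeToPowerSeries.ringHom s = 0)
    (h' : (derivative p).eval₂ coeToPowerSeries.ringHom s ≠ 0) :
    ∃ b ∈ R, b ≠ 0 ∧ ∀ n, IsIntegral R (b ^ (n + 1) * PowerSeries.coeff n s) := by
  have p0 : p ≠ 0 := by rintro rfl; simp at h'
  have hs := algf hp p0 h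
  rw [eval₂_eq_eval_map] at h
  rw [eval₂_eq_eval_map, ← derivative_map] at h'
  have hP : ∀ j, (p.map coeToPowerSeries.ringHom).coeff j ∈ eisfB R := fun j => by
    rw [coeff_map]; exact eisf_poly (hp j)
  generalize p.map coeToPowerSeries.ringHom = P at h h' hP
  have e1 := PowerSeries.X_pow_order_mul_divXPowOrder (f := (derivative P).eval s)
  have u0 := mt PowerSeries.constantCoeff_divXPowOrder_eq_zero_iff.1 h'
  generalize ((derivative P).eval s).order.toNat = m at e1
  generalize ((derivative P).eval s).divXPowOrder = u at e1 u0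
  have e2 := s.eq_X_pow_mul_shift_add_trunc (m + 1)
  have ht : ((s.trunc (m + 1) : ℂ[X]) : PowerSeries ℂ) ∈ eisfB R := eisf_poly fun j => by
    rw [PowerSeries.coeff_trunc]
    split_ifs
    · exact hs j
    · exact isAlgebraic_zero
  generalize ((s.trunc (m + 1) : ℂ[X]) : PowerSeries ℂ) = t at e2 ht
  generalize (PowerSeries.mk fun i => PowerSeries.coeff (i + (m + 1)) s) = w at e2
  have hc : ∀ j, (taylor t P).coeff j ∈ eisfB R := fun j => by
    rw [taylor_coeff, eval_eq_sum_range]
    refine sum_mem fun i _ => mul_mem ?_ (pow_mem ht _)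
    rw [hasseDeriv_coeff]
    exact mul_mem (natCast_mem _ _) (hP _)
  obtain ⟨z, hz⟩ := sub_dvd_eval_sub s t (derivative P)
  have e3 : (taylor t P).coeff 1 = PowerSeries.X ^ m * (u - PowerSeries.X * (w * z)) := by
    rw [taylor_coeff_one]
    linear_combination -e1 - hz - z * e2
  have e4 := eval_eq_sum_range' (p := taylor t P) (n := (taylor t P).natDegree + 1 + 1)
    (by omega) (PowerSeries.X ^ (m + 1) * w)
  rw [taylor_eval, ← e2, h, Finset.sum_range_succ', Finset.sum_range_succ', zero_add, e3] at e4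
  have hu : u - PowerSeries.X * (w * z) ∈ eisfB R := eisf_shift (e3 ▸ hc 1)
  have e5 := (u - PowerSeries.X * (w * z)).eq_X_mul_shift_add_const
  have e6 : PowerSeries.constantCoeff (u - PowerSeries.X * (w * z)) =
      PowerSeries.constantCoeff u := by simp
  have ha : IsAlgebraic R (PowerSeries.constantCoeff u) := by
    rw [← e6, ← PowerSeries.coeff_zero_eq_constantCoeff_apply]
    exact eisf_alg hu 0
  rw [e6] at e5
  generalize (PowerSeries.mk fun i =>
    PowerSeries.coeff (i + 1) (u - PowerSeries.X * (w * z))) = v at e5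
  generalize u - PowerSeries.X * (w * z) = u' at e4 e5 hu
  generalize PowerSeries.constantCoeff u = a at u0 ha e5
  generalize (taylor t P).natDegree = N at e4
  have hv : v ∈ eisfB R := eisf_shift (k := 1) (by
    rw [pow_one, ← sub_eq_iff_eq_add.2 e5]
    exact sub_mem hu (eisf_C ha))
  have hi := eisf_C (R := R) (IsAlgebraic.inv_iff.2 ha)
  have e7 : PowerSeries.C a⁻¹ * PowerSeries.C a = 1 := by
    rw [← map_mul, inv_mul_cancel₀ u0, map_one]
  set S := ∑ j ∈ Finset.range N,
    (taylor t P).coeff (j + 1 + 1) * PowerSeries.X ^ ((m + 1) * j) * w ^ (j + 1 + 1) with hS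
  have e8 : ∑ j ∈ Finset.range N, (taylor t P).coeff (j + 1 + 1) *
      (PowerSeries.X ^ (m + 1) * w) ^ (j + 1 + 1) = PowerSeries.X ^ (2 * m + 2) * S := by
    rw [hS, Finset.mul_sum]
    exact Finset.sum_congr rfl fun j _ => by ring
  rw [e8] at e4
  have hr : u' * w + PowerSeries.X * S ∈ eisfB R := eisf_shift (k := 2 * m + 1) (by
    have : PowerSeries.X ^ (2 * m + 1) * (u' * w + PowerSeries.X * S) =
        -(taylor t P).coeff 0 := by linear_combination -e4
    rw [this]
    exact neg_mem (hc 0))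
  obtain ⟨b, hb, b0, hw⟩ := eisf_key (w := w) (N := N + 1 + 1) (mul_mem hi hr)
    (g := fun j => match j with
      | 0 => 0
      | 1 => -(PowerSeries.C a⁻¹ * v)
      | j + 2 => -(PowerSeries.C a⁻¹ *
          ((taylor t P).coeff (j + 1 + 1) * PowerSeries.X ^ ((m + 1) * j))))
    (fun j => match j with
      | 0 => zero_mem _
      | 1 => neg_mem (mul_mem hi hv)
      | j + 2 => neg_mem (mul_mem hi (mul_mem (hc _) (pow_mem eisf_X _)))) (by
      rw [Finset.sum_range_succ', Finset.sum_range_succ']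
      have : ∑ j ∈ Finset.range N, -(PowerSeries.C a⁻¹ * ((taylor t P).coeff (j + 1 + 1) *
          PowerSeries.X ^ ((m + 1) * j))) * w ^ (j + 1 + 1) = -(PowerSeries.C a⁻¹ * S) := by
        rw [hS, Finset.mul_sum, ← Finset.sum_neg_distrib]
        exact Finset.sum_congr rfl fun j _ => by ring
      simp only [this, e5]
      linear_combination -w * e7)
  obtain ⟨β, hβ, β0, ht⟩ := ht
  refine ⟨β * b, mul_mem hβ hb, mul_ne_zero β0 b0, fun n => ?_⟩
  rw [e2, map_add, mul_add, PowerSeries.coeff_X_pow_mul']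
  refine IsIntegral.add ?_ ?_
  · split_ifs with hn
    · obtain ⟨k, rfl⟩ := Nat.exists_eq_add_of_le hn
      rw [Nat.add_sub_cancel_left]
      convert (((eisf_int hβ).pow (m + 1 + k + 1)).mul ((eisf_int hb).pow (m + 1))).mul (hw k)
        using 1
      ring
    · simpa using isIntegral_zero
  · convert (((eisf_int hβ).pow n).mul ((eisf_int hb).pow (n + 1))).mul (ht n) using 1
    ring

end

end Pool.Agent.Lib.MP_5591bc_ag.Cu
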