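import Pool.Agent.Lib.MP_5591bc_ag.Cu.Tra

/-! The Taylor series of the forms along a parametrisation. -/

namespace Pool.Agent.Lib.MP_5591bc_ag.Cu

open Polynomial Set Filter Topology Matrix Complex Asymptotics G M
open scoped Polynomial.Bivariate

noncomputable section

variable {σ 𝓡 ν : Type*} [Fintype σ] [DecidableEq σ] [CommRing 𝓡] [Fintype ν] [DecidableEq ν]
  {φ : (σ → ℂ) → 𝓡 →+* ℂ} {f : 𝓡[X][Y]} {d : 𝓡[X]} {m : ℕ} {A : ν → 𝓡[X][Y]} {w : ν → ℕ}
  {Q : (σ → ℂ) → Matrix ν ν ℂ} {s : σ → ℂ} {D : Set (ℂ × ℂ)} {p : ℂ × ℂ} {Λ : Matrix ν ν ℂ}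
  {R : Subring ℂ}

omit [Fintype σ] [DecidableEq σ] in
/-- a simple root lies in a ring closed under fixed point equations -/
lemma eta_root {B : Type*} [CommRing B] {𝓣 : Subring (MvPowerSeries σ B)} (hT : HC 𝓣)
    (F : 𝓣[X]) {W : MvPowerSeries σ B} (hY : (F.map 𝓣.subtype).eval W = 0) {a i : B}
    (hYa : MvPowerSeries.constantCoeff W = a) (ha : MvPowerSeries.C a ∈ 𝓣)
    (hi : MvPowerSeries.C i ∈ 𝓣)
    (h1 : i * MvPowerSeries.constantCoeff
      ((F.map 𝓣.subtype).derivative.eval (MvPowerSeries.C a)) = 1) : W ∈ 𝓣 := by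
  have e : (X - C (⟨_, hi⟩ : 𝓣) * taylor (⟨_, ha⟩ : 𝓣) F).map 𝓣.subtype =
      X - C (MvPowerSeries.C i) * taylor (MvPowerSeries.C a) (F.map 𝓣.subtype) := by
    simp [Polynomial.map_sub, Polynomial.map_mul]
  have h0 : MvPowerSeries.constantCoeff ((F.map 𝓣.subtype).eval (MvPowerSeries.C a)) = 0 := by
    have := congrArg MvPowerSeries.constantCoeff hY
    rw [← eval_map_apply, hYa, map_zero] at this
    rw [← eval_map_apply, MvPowerSeries.constantCoeff_C, this]
  have hz := hT (X - C (MvPowerSeries.C i) * taylor (MvPowerSeries.C a) (F.map 𝓣.subtype))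
    (fun j => by rw [← e, coeff_map]; exact Subtype.property _)
    (by simp [h0]) (by simp [-derivative_map, h1]) (W - MvPowerSeries.C a) (by simp [hYa])
    (by simp [taylor_eval, hY])
  simpa using 𝓣.add_mem hz ha

section
variable {ι : Type*} {l : Filter ι}

omit [Fintype σ] [DecidableEq σ] in
lemma eta_coeff (S : ι → MvPowerSeries σ ℂ) (κ : σ →₀ ℕ) : MvPowerSeries.coeff κ (gs l S) =
    Germ.coeRingHom l fun u => MvPowerSeries.coeff κ (S u) := rfl

omit [Fintype σ] [DecidableEq σ] in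
lemma eta_congr {S S' : ι → MvPowerSeries σ ℂ} (e : ∀ᶠ u in l, S u = S' u) :
    gs l S = gs l S' := by
  ext κ
  rw [eta_coeff, eta_coeff]
  exact Germ.coe_eq.2 (e.mono fun u hu => by simp only [hu])

omit [Fintype σ] in
lemma eta_C (a : ι → ℂ) :
    gs l (fun u => (MvPowerSeries.C (a u) : MvPowerSeries σ ℂ)) =
      MvPowerSeries.C (a : Germ l ℂ) := by
  ext κ
  rw [eta_coeff]
  simp only [MvPowerSeries.coeff_C]
  split_ifs <;> rfl

omit [Fintype σ] [DecidableEq σ] in
lemma eta_add (S S' : ι → MvPowerSeries σ ℂ) :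
    gs l (fun u => S u + S' u) = gs l S + gs l S' := by
  ext κ
  rw [map_add, eta_coeff, eta_coeff, eta_coeff, ← map_add]
  rfl

omit [Fintype σ] in
lemma eta_mul (S S' : ι → MvPowerSeries σ ℂ) :
    gs l (fun u => S u * S' u) = gs l S * gs l S' := by
  ext κ
  rw [MvPowerSeries.coeff_mul, eta_coeff]
  simp only [eta_coeff, ← map_mul, ← map_sum]
  refine congrArg _ (funext fun u => ?_)
  simp [MvPowerSeries.coeff_mul, Finset.sum_apply]

/-- families of functions which are analytic at `s` for almost all values of the index -/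
def etaA (l : Filter ι) (s : σ → ℂ) : Subring (ι → (σ → ℂ) → ℂ) where
  carrier := {g | ∀ᶠ u in l, AnalyticAt ℂ (g u) s}
  mul_mem' ha hb := (ha.and hb).mono fun _ h => h.1.mul h.2
  add_mem' ha hb := (ha.and hb).mono fun _ h => h.1.add h.2
  one_mem' := Eventually.of_forall fun _ => analyticAt_const
  zero_mem' := Eventually.of_forall fun _ => analyticAt_const
  neg_mem' ha := ha.mono fun _ h => h.neg

/-- the Taylor series as a ring morphism -/
def etaT (l : Filter ι) (s : σ → ℂ) : etaA l s →+* MvPowerSeries σ (Germ l ℂ) where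
  toFun g := gs l fun u => tayS (g.1 u) s
  map_one' := by
    rw [← map_one MvPowerSeries.C, ← Germ.coe_one, ← eta_C]
    exact congrArg _ (funext fun _ => tayS_const 1)
  map_zero' := by
    rw [← map_zero MvPowerSeries.C, ← Germ.coe_zero, ← eta_C]
    exact congrArg _ (funext fun _ => tayS_const 0)
  map_mul' g h := by
    rw [← eta_mul]
    exact eta_congr ((g.2.and h.2).mono fun _ e => tayS_mul e.1 e.2)
  map_add' g h := by
    rw [← eta_add]
    exact eta_congr ((g.2.and h.2).mono fun _ e => tayS_add e.1 e.2)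

lemma etaT_congr {g h : etaA l s} (e : ∀ᶠ u in l, g.1 u =ᶠ[𝓝 s] h.1 u) :
    etaT l s g = etaT l s h := eta_congr (e.mono fun _ h => tayS_congr h)

lemma etaT_const (g : etaA l s) :
    MvPowerSeries.constantCoeff (etaT l s g) = (↑(fun u => g.1 u s) : Germ l ℂ) := by
  rw [← MvPowerSeries.coeff_zero_eq_constantCoeff_apply]
  exact congrArg (Germ.ofFun (l := l)) (funext fun _ => coeff_zero_tayS)

/-- constants in the parameters -/
def etaK (l : Filter ι) (s : σ → ℂ) (a : ι → ℂ) : etaA l s :=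
  ⟨fun u _ => a u, Eventually.of_forall fun _ => analyticAt_const⟩

lemma etaT_K (a : ι → ℂ) : etaT l s (etaK l s a) = MvPowerSeries.C (a : Germ l ℂ) := by
  rw [← eta_C]
  exact congrArg (gs l) (funext fun u => tayS_const (a u))

/-- the values -/
def etaE (l : Filter ι) (s : σ → ℂ) (u : ι) (t : σ → ℂ) : etaA l s →+* ℂ :=
  ((Pi.evalRingHom _ t).comp (Pi.evalRingHom _ u)).comp (etaA l s).subtype

/-- the coefficients -/
def etaP (l : Filter ι) (h : ∀ r, AnalyticAt ℂ (fun t => φ t r) s) : 𝓡 →+* etaA l s :=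
  (RingHom.pi fun _ => RingHom.pi φ).codRestrict _ fun r => Eventually.of_forall fun _ => h r

omit [DecidableEq σ] in
lemma eta_ev1 (h : ∀ r, AnalyticAt ℂ (fun t => φ t r) s) (q : 𝓡[X]) (a : etaA l s) (u : ι)
    (t : σ → ℂ) : ((q.map (etaP l h)).eval a).1 u t = (q.map (φ t)).eval (a.1 u t) := by
  have := eval_map_apply (p := q.map (etaP l h)) (etaE l s u t) a
  rw [Polynomial.map_map] at this
  exact this.symm

omit [DecidableEq σ] in
lemma eta_ev2 (h : ∀ r, AnalyticAt ℂ (fun t => φ t r) s) (q : 𝓡[X][Y]) (a b : etaA l s) (u : ι)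
    (t : σ → ℂ) : ((q.map (mapRingHom (etaP l h))).evalEval a b).1 u t =
      (sp (φ t) q).evalEval (a.1 u t) (b.1 u t) := by
  have := map_mapRingHom_evalEval (etaE l s u t) (q.map (mapRingHom (etaP l h))) a b
  rw [Polynomial.map_map, mapRingHom_comp] at this
  exact this.symm

end

theorem LF.eta (h : LF φ f d m A w Q s) {ι : Type*} {l : Filter ι} {x y : ι → ℂ}
    (hl : ∀ᶠ u in l, (x u, y u) ∈ Cur (sp (φ s) f) (d.map (φ s)))
    {𝓣 : Subring (MvPowerSeries σ (Germ l ℂ))} (hT : HC 𝓣)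
    (hx : MvPowerSeries.C (x : Germ l ℂ) ∈ 𝓣) (hy : MvPowerSeries.C (y : Germ l ℂ) ∈ 𝓣)
    (hi : MvPowerSeries.C (↑(fun u => ((derivative (sp (φ s) f)).evalEval (x u) (y u))⁻¹) :
      Germ l ℂ) ∈ 𝓣)
    (hd : MvPowerSeries.C (↑(fun u => ((d.map (φ s)).eval (x u))⁻¹) : Germ l ℂ) ∈ 𝓣)
    (hr : ∀ r, gs l (fun _ => tayS (fun t => φ t r) s) ∈ 𝓣) (A₀ : 𝓡[X][Y]) :
    gs l (fun u => et φ f d m A₀ s (x u, y u)) ∈ 𝓣 := by
  -- the ring of the families whose Taylor series lies in the ring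
  let ρ : 𝓡 →+* 𝓣 := ((etaT l s).comp (etaP l h.an)).codRestrict 𝓣 hr
  have hρ : 𝓣.subtype.comp ρ = (etaT l s).comp (etaP l h.an) := rfl
  let x' : 𝓣 := ⟨_, hx⟩
  have k1 : ∀ q : 𝓡[X], etaT l s ((q.map (etaP l h.an)).eval (etaK l s x)) =
      ((q.map ρ).eval x' : 𝓣) := fun q => by
    rw [← eval_map_apply, Polynomial.map_map, ← hρ, ← Polynomial.map_map, etaT_K]
    exact eval_map_apply 𝓣.subtype x'
  have k2 : ∀ (q : 𝓡[X][Y]) (b : etaA l s),
      etaT l s ((q.map (mapRingHom (etaP l h.an))).evalEval (etaK l s x) b) =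
        (((q.map (mapRingHom ρ)).map (evalRingHom x')).map 𝓣.subtype).eval (etaT l s b) := by
    intro q b
    rw [← map_evalRingHom_eval, ← eval_map_apply]
    simp only [Polynomial.map_map]
    exact congrArg (fun j => (q.map j).eval (etaT l s b)) (RingHom.ext k1)
  let W : etaA l s := ⟨fun u => yy φ f s (x u, y u), hl.mono fun u hu => (h.yy_spec hu).1⟩
  have hY : etaT l s W ∈ 𝓣 := by
    refine eta_root hT ((f.map (mapRingHom ρ)).map (evalRingHom x')) ?_ ?_ hy hi ?_
    · rw [← k2, ← map_zero (etaT l s)]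
      refine etaT_congr (hl.mono fun u hu => ?_)
      filter_upwards [(h.yy_spec hu).2.2.1] with t ht
      rw [eta_ev2]; exact ht
    · rw [etaT_const]
      exact Germ.coe_eq.2 (hl.mono fun u hu => (h.yy_spec hu).2.1)
    · rw [derivative_map _ 𝓣.subtype, derivative_map _ (evalRingHom x'),
        derivative_map f (mapRingHom ρ), ← etaT_K (s := s), ← k2, etaT_const, ← Germ.coe_mul,
        ← Germ.coe_one]
      refine Germ.coe_eq.2 (hl.mono fun u hu => ?_)
      have := (h.ev.self_of_nhds.fb.2.1 (x u) hu.2).eval₂_derivative_ne_zero (RingHom.id ℂ)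
        (x := y u) (by rw [eval₂_id, map_evalRingHom_eval]; exact hu.1)
      rw [eval₂_id, derivative_map, map_evalRingHom_eval] at this
      rw [Pi.mul_apply, eta_ev2, sp, sp, ← derivative_map f]
      exact inv_mul_cancel₀ this
  let E : etaA l s := (d.map (etaP l h.an)).eval (etaK l s x)
  have hE : ∀ u t, E.1 u t = (d.map (φ t)).eval (x u) := fun u t => eta_ev1 h.an d _ u t
  have hE0 : ∀ᶠ u in l, E.1 u s ≠ 0 := hl.mono fun u hu => by rw [hE]; exact hu.2
  let V : etaA l s := ⟨fun u t => (E.1 u t)⁻¹, (E.2.and hE0).mono fun u hu => hu.1.fun_inv hu.2⟩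
  have hV : etaT l s V ∈ 𝓣 := by
    refine eta_root hT (C ((d.map ρ).eval x') * X - 1) ?_ ?_ hd hd ?_
    · have : etaT l s (E * V) = etaT l s 1 := etaT_congr ((E.2.and hE0).mono fun u hu => by
        filter_upwards [hu.1.continuousAt.eventually_ne hu.2] with t ht
        exact mul_inv_cancel₀ ht)
      rw [map_mul, map_one, k1] at this
      simp [this]
    · rw [etaT_const]
      exact congrArg (Germ.ofFun (l := l)) (funext fun u => congrArg (·⁻¹) (hE u s))
    · have := etaT_const E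
      rw [k1] at this
      simp only [Polynomial.map_sub, Polynomial.map_mul, map_C, map_X, Polynomial.map_one,
        derivative_sub, derivative_C_mul_X, derivative_one, sub_zero, eval_C, Subring.subtype_apply]
      rw [this, ← Germ.coe_mul, ← Germ.coe_one]
      refine Germ.coe_eq.2 (hE0.mono fun u hu => ?_)
      simp only [Pi.mul_apply, Pi.one_apply, ← hE]
      exact inv_mul_cancel₀ hu
  have e : gs l (fun u => et φ f d m A₀ s (x u, y u)) =
      etaT l s ((A₀.map (mapRingHom (etaP l h.an))).evalEval (etaK l s x) W * V ^ m) := by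
    refine congrArg _ (funext fun u => congrArg (tayS · s) (funext fun t => ?_))
    change _ = ((A₀.map (mapRingHom (etaP l h.an))).evalEval (etaK l s x) W).1 u t *
      (E.1 u t)⁻¹ ^ m
    rw [eta_ev2, hE, frm, div_eq_mul_inv, inv_pow]
    rfl
  rw [e, map_mul, map_pow, k2]
  refine 𝓣.mul_mem ?_ (𝓣.pow_mem hV m)
  have := eval_map_apply (p := (A₀.map (mapRingHom ρ)).map (evalRingHom x')) 𝓣.subtype ⟨_, hY⟩
  exact this ▸ Subtype.property _

end

end Pool.Agent.Lib.MP_5591bc_ag.Cu
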