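import Pool.Agent.Lib.MP_5591bc_ag.Cu.Set
import Pool.Agent.Lib.MP_5591bc_ag.J.EisA

/-! Denominators of solutions of fixed point equations. -/

namespace Pool.Agent.Lib.MP_5591bc_ag.Cu

open Polynomial Set Filter Topology Matrix Complex Asymptotics G M
open scoped Polynomial.Bivariate

noncomputable section

section
variable {σ 𝒜 : Type*} [CommRing 𝒜]

theorem hens_up {O : Subring 𝒜} {q x : 𝒜} (hq : q ∈ O) {a b : ℕ} (h : a ≤ b) (hx : q ^ a * x ∈ O) :
    q ^ b * x ∈ O := by
  obtain ⟨m, rfl⟩ := Nat.exists_eq_add_of_le h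
  rw [add_comm, pow_add, mul_assoc]
  exact mul_mem (pow_mem hq _) hx

/-- series with geometric denominators -/
def hensE (σ : Type*) (O : Subring 𝒜) (q : 𝒜) (c : ℕ) : Subring (MvPowerSeries σ 𝒜) where
  carrier := {f | ∀ κ : σ →₀ ℕ, q ^ (c * κ.degree) * MvPowerSeries.coeff κ f ∈ O}
  zero_mem' := fun κ => by simp
  one_mem' := fun κ => by
    classical
    rw [MvPowerSeries.coeff_one]
    split_ifs with h
    · simp [h]
    · simp
  add_mem' := fun ha hb κ => by
    rw [map_add, mul_add]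
    exact add_mem (ha κ) (hb κ)
  neg_mem' := fun ha κ => by
    rw [map_neg, mul_neg]
    exact neg_mem (ha κ)
  mul_mem' := fun {a b} ha hb κ => by
    classical
    rw [MvPowerSeries.coeff_mul, Finset.mul_sum]
    refine sum_mem fun x hx => ?_
    rw [← Finset.HasAntidiagonal.mem_antidiagonal.1 hx, map_add, mul_add, pow_add, mul_mul_mul_comm]
    exact mul_mem (ha _) (hb _)

theorem hens_C {O : Subring 𝒜} {q x : 𝒜} {c : ℕ} (hx : x ∈ O) :
    MvPowerSeries.C x ∈ hensE σ O q c := fun κ => by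
  classical
  rw [MvPowerSeries.coeff_C]
  split_ifs with h
  · simpa [h] using hx
  · simp

theorem hens_it {O : Subring 𝒜} {q : 𝒜} (hq : q ∈ O) (hu : IsUnit q) {p : (MvPowerSeries σ 𝒜)[X]}
    (h0 : MvPowerSeries.constantCoeff (p.coeff 0) = 0)
    (h1 : MvPowerSeries.constantCoeff (p.coeff 1) = 0) {c : ℕ}
    (a : ∀ j (κ : σ →₀ ℕ), q ^ (c * (κ.degree + 1)) * MvPowerSeries.coeff κ (p.coeff j) ∈ O)
    (n : ℕ) : (fun u => p.eval u)^[n] 0 ∈ hensE σ O q (3 * c) := by
  obtain ⟨r, hr⟩ := (hu.pow c).exists_right_inv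
  set D : MvPowerSeries σ 𝒜 := MvPowerSeries.C (q ^ c) with hD
  have mD : D ∈ hensE σ O q (3 * c) := hens_C (pow_mem hq c)
  have b : ∀ j, D * p.coeff j ∈ hensE σ O q (3 * c) := fun j κ => by
    rw [hD, MvPowerSeries.coeff_C_mul, ← mul_assoc, ← pow_add]
    exact hens_up hq (by nlinarith) (a j κ)
  have d : ∀ j, MvPowerSeries.constantCoeff (p.coeff j) = 0 →
      MvPowerSeries.C r * p.coeff j ∈ hensE σ O q (3 * c) := fun j hj κ => by
    rw [MvPowerSeries.coeff_C_mul]
    by_cases hκ : κ = 0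
    · rw [hκ, MvPowerSeries.coeff_zero_eq_constantCoeff_apply, hj, mul_zero, mul_zero]
      exact zero_mem _
    · obtain ⟨m, hm⟩ := Nat.exists_eq_succ_of_ne_zero (mt (Finsupp.degree_eq_zero_iff κ).1 hκ)
      have e : q ^ (3 * c * κ.degree) * (r * MvPowerSeries.coeff κ (p.coeff j)) =
          q ^ (3 * c * m + 2 * c) * MvPowerSeries.coeff κ (p.coeff j) := by
        rw [hm, Nat.succ_eq_add_one]
        linear_combination q ^ (3 * c * m + 2 * c) * MvPowerSeries.coeff κ (p.coeff j) * hr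
      rw [e]
      exact hens_up hq (by rw [hm, Nat.succ_eq_add_one]; nlinarith) (a j κ)
  have i : D * MvPowerSeries.C r = 1 := by rw [hD, ← map_mul, hr, map_one]
  have key : ∃ v ∈ hensE σ O q (3 * c), (fun u => p.eval u)^[n] 0 = D * v := by
    induction n with
    | zero => exact ⟨0, zero_mem _, by simp⟩
    | succ n ih =>
      obtain ⟨v, hv, e⟩ := ih
      rw [Function.iterate_succ_apply', e]
      have t : ∀ j, ∃ y ∈ hensE σ O q (3 * c), p.coeff j * (D * v) ^ j = D * y := by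
        intro j
        match j with
        | 0 => exact ⟨_, d 0 h0, by rw [← mul_assoc, i]; ring⟩
        | 1 =>
          refine ⟨D * (MvPowerSeries.C r * p.coeff 1) * v, mul_mem (mul_mem mD (d 1 h1)) hv, ?_⟩
          rw [← mul_assoc D (MvPowerSeries.C _), i]
          ring
        | j + 2 =>
          exact ⟨D * p.coeff (j + 2) * (D ^ j * v ^ (j + 2)),
            mul_mem (b _) (mul_mem (pow_mem mD _) (pow_mem hv _)), by ring⟩
      choose y hy ey using t
      refine ⟨∑ j ∈ Finset.range (p.natDegree + 1), y j, sum_mem fun j _ => hy j, ?_⟩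
      rw [Polynomial.eval_eq_sum_range, Finset.mul_sum]
      exact Finset.sum_congr rfl fun j _ => ey j
  obtain ⟨v, hv, e⟩ := key
  rw [e]
  exact mul_mem mD hv

theorem hens_lim {p : (MvPowerSeries σ 𝒜)[X]} (h0 : MvPowerSeries.constantCoeff (p.coeff 0) = 0)
    (h1 : MvPowerSeries.constantCoeff (p.coeff 1) = 0) {z : MvPowerSeries σ 𝒜}
    (hz : MvPowerSeries.constantCoeff z = 0) (e : p.eval z = z) (κ : σ →₀ ℕ) :
    MvPowerSeries.coeff κ z = MvPowerSeries.coeff κ ((fun u => p.eval u)^[κ.degree + 1] 0) := by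
  have c : ∀ n, MvPowerSeries.constantCoeff ((fun u => p.eval u)^[n] 0) = 0 := by
    intro n
    induction n with
    | zero => simp
    | succ n ih => rw [Function.iterate_succ_apply']; exact J.eis_const h0 ih
  have o : ∀ n : ℕ, (n : ℕ∞) ≤ (z - (fun u => p.eval u)^[n] 0).order := by
    intro n
    induction n with
    | zero => simp
    | succ n ih =>
      rw [Function.iterate_succ_apply']
      simpa only [e] using J.eis_ord h1 hz (c n) ih
  rw [← sub_eq_zero, ← map_sub]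
  exact MvPowerSeries.coeff_of_lt_order (lt_of_lt_of_le (Nat.cast_lt.2 (Nat.lt_succ_self _)) (o _))

end

theorem ts_ex {σ 𝒜 : Type*} [Fintype σ] [DecidableEq σ] [CommRing 𝒜] (O : Subring 𝒜) {q : 𝒜}
    (hq : q ∈ O) (hu : IsUnit q) : ∃ 𝓣 : Subring (MvPowerSeries σ 𝒜), HC 𝓣 ∧ ∀ S, S ∈ 𝓣 ↔
      ∃ c : ℕ, ∀ κ : σ →₀ ℕ, q ^ (c * (κ.degree + 1)) * MvPowerSeries.coeff κ S ∈ O := by
  have up : ∀ {c S}, S ∈ hensE σ O q c →
      ∀ κ : σ →₀ ℕ, q ^ (c * (κ.degree + 1)) * MvPowerSeries.coeff κ S ∈ O :=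
    fun h κ => hens_up hq (Nat.mul_le_mul_left _ (Nat.le_succ _)) (h κ)
  let 𝓣 : Subring (MvPowerSeries σ 𝒜) :=
    { carrier := {S | ∃ c : ℕ, ∀ κ : σ →₀ ℕ,
        q ^ (c * (κ.degree + 1)) * MvPowerSeries.coeff κ S ∈ O}
      zero_mem' := ⟨0, up (zero_mem _)⟩
      one_mem' := ⟨0, up (one_mem _)⟩
      add_mem' := by
        rintro a b ⟨c, ha⟩ ⟨d, hb⟩
        refine ⟨c + d, fun κ => ?_⟩
        rw [map_add, mul_add (q ^ _)]
        exact add_mem (hens_up hq (by nlinarith) (ha κ)) (hens_up hq (by nlinarith) (hb κ))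
      neg_mem' := by
        rintro a ⟨c, ha⟩
        refine ⟨c, fun κ => ?_⟩
        rw [map_neg, mul_neg]
        exact neg_mem (ha κ)
      mul_mem' := by
        rintro a b ⟨c, ha⟩ ⟨d, hb⟩
        refine ⟨c + d, fun κ => ?_⟩
        rw [MvPowerSeries.coeff_mul, Finset.mul_sum]
        refine sum_mem fun x hx => ?_
        have := mul_mem (ha x.1) (hb x.2)
        rw [mul_mul_mul_comm, ← pow_add] at this
        refine hens_up hq ?_ this
        rw [← Finset.HasAntidiagonal.mem_antidiagonal.1 hx, map_add]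
        nlinarith [Nat.zero_le (c * x.2.degree), Nat.zero_le (d * x.1.degree)] }
  refine ⟨𝓣, fun p hp h0 h1 z hz e => ?_, fun S => Iff.rfl⟩
  choose c hc using hp
  refine ⟨3 * ∑ j ∈ p.support, c j, fun κ => ?_⟩
  rw [hens_lim h0 h1 hz e]
  refine up (hens_it hq hu h0 h1 (fun j κ => ?_) _) κ
  by_cases hj : j ∈ p.support
  · exact hens_up hq (Nat.mul_le_mul_right _
      (Finset.single_le_sum (fun _ _ => Nat.zero_le _) hj)) (hc j κ)
  · simp [notMem_support_iff.1 hj]

end

end Pool.Agent.Lib.MP_5591bc_ag.Cu
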