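import Pool.Agent.Lib.MP_5591bc_ag.Cu.Split

/-! Holomorphic functions on the curve, primitives, traces. -/

namespace Pool.Agent.Lib.MP_5591bc_ag.Cu

open Polynomial Set Filter Topology Matrix Complex Asymptotics G M
open scoped Polynomial.Bivariate

noncomputable section

variable {f : ℂ[X][Y]} {d : ℂ[X]} {S S1 : Set ℂ} {Z Z' : Finset ℂ} {x : ℂ} {β : ℂ → ℂ}
  {a a' b b' G H H' W W' Φ Φ' Γ η φ ψ : ℂ × ℂ → ℂ} {F F' Ψ : ℂ → ℂ} {s t u v r ρ : ℝ} {L : ℂ}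
  {μ : ℝ → ℝ → ℝ → ℝ → ℂ} {𝒞 : AddSubmonoid ℂ} {ν : Type*} [Fintype ν]


theorem trc_ev (A : ℂ[X][Y]) (h : AnalyticAt ℂ β x) :
    AnalyticAt ℂ (fun z => A.evalEval z (β z)) x := by
  induction A using Polynomial.induction_on' with
  | add p q hp hq => simpa only [evalEval_add] using hp.fun_add hq
  | monomial n c =>
    simpa [← C_mul_X_pow_eq_monomial, evalEval_C] using
      (c.differentiable.analyticAt x).fun_mul (h.fun_pow n)

theorem trc_const (h : ∀ᶠ z in 𝓝 x, HasDerivAt F 0 z) : ∀ᶠ z in 𝓝 x, F z = F x := by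
  obtain ⟨r, r0, hr⟩ := Metric.eventually_nhds_iff_ball.1 h
  filter_upwards [Metric.ball_mem_nhds x r0] with z hz
  exact Metric.isOpen_ball.is_const_of_deriv_eq_zero (convex_ball x r).isPreconnected
    (fun w hw => (hr w hw).differentiableAt.differentiableWithinAt) (fun w hw => (hr w hw).deriv)
    hz (Metric.mem_ball_self r0)

theorem trc_loc (hf : Sep f S) (hx : x ∈ S) : ∃ β : Fin f.natDegree → ℂ → ℂ,
    (∀ j, Br f (β j) x) ∧ ∀ᶠ z in 𝓝 x, ∀ φ, Tr f φ z = ∑ j, φ (z, β j z) := by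
  obtain ⟨β, hβ, k⟩ := split hf hx
  refine ⟨β, hβ, k.mono fun z hz φ => ?_⟩
  rw [Tr, hz.2, Multiset.map_map]
  rfl

theorem trc_dn (o : Option ℂ) (h0 : 0 < r) (h : r ≤ ρ) : Dn o r ⊆ Dn o ρ := by
  rcases o with _ | e
  · exact fun z hz => lt_of_le_of_lt (inv_anti₀ h0 h) hz
  · exact fun z hz => ⟨hz.1, hz.2.trans_le h⟩

theorem trc_cmb (q : ν → ℂ) (a : ν → ℂ × ℂ → ℂ) (p : ℂ × ℂ) {c : ℝ}
    (h : ∀ i, q i ≠ 0 → ‖a i p‖ ≤ c) : ‖cmb q a p‖ ≤ (∑ i, ‖q i‖) * c := by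
  rw [Finset.sum_mul]
  refine norm_sum_le_of_le _ fun i _ => ?_
  by_cases hi : q i = 0
  · simp [hi]
  · rw [norm_mul]
    exact mul_le_mul_of_nonneg_left (h i hi) (norm_nonneg _)

theorem Sep.mono (hf : Sep f S) (ho : IsOpen S1) (h : S1 ⊆ S) : Sep f S1 :=
  ⟨hf.mon, ho, fun x hx => hf.sep x (h hx)⟩

theorem HolC.mono (ha : HolC f a S) (h : S1 ⊆ S) : HolC f a S1 :=
  fun x hx => ha x (h hx)

theorem Pr.mono (ha : Pr f G a S) (h : S1 ⊆ S) : Pr f G a S1 :=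
  fun x hx => ha x (h hx)

theorem Pr2.mono (ha : Pr2 f Φ a a' S) (h : S1 ⊆ S) : Pr2 f Φ a a' S1 :=
  fun x hx => ha x (h hx)

theorem HolC.mul (ha : HolC f a S) (hb : HolC f b S) : HolC f (fun p => a p * b p) S :=
  fun x hx β hβ => (ha x hx β hβ).mul (hb x hx β hβ)

theorem HolC.sub (ha : HolC f a S) (hb : HolC f b S) : HolC f (fun p => a p - b p) S :=
  fun x hx β hβ => (ha x hx β hβ).sub (hb x hx β hβ)

theorem holC_cmb (q : ν → ℂ) {a : ν → ℂ × ℂ → ℂ} (ha : ∀ i, HolC f (a i) S) :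
    HolC f (cmb q a) S :=
  fun x hx β hβ => Finset.analyticAt_fun_sum _ fun i _ => analyticAt_const.mul (ha i x hx β hβ)

theorem pr_cmb (q : ν → ℂ) {G a : ν → ℂ × ℂ → ℂ} (ha : ∀ i, q i ≠ 0 → Pr f (G i) (a i) S) :
    Pr f (cmb q G) (cmb q a) S := by
  intro x hx β hβ
  refine HasDerivAt.fun_sum fun i _ => ?_
  by_cases h : q i = 0
  · simpa [h] using hasDerivAt_const x (0 : ℂ)
  · exact (ha i h x hx β hβ).const_mul _

theorem holC_frm (A : ℂ[X][Y]) (m : ℕ) (hd : d ≠ 0) :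
    HolC f (frm A d m) (rts d : Set ℂ)ᶜ := by
  intro x hx β hβ
  refine (trc_ev A hβ.1).div ((d.differentiable.analyticAt x).pow m) (pow_ne_zero _ fun h => hx ?_)
  simpa [hd] using h

theorem Pr.hol (ho : IsOpen S) (h : Pr f G a S) : HolC f G S ∧ HolC f a S := by
  have k : ∀ x ∈ S, ∀ β, Br f β x → ∀ᶠ z in 𝓝 x,
      HasDerivAt (fun z => G (z, β z)) (a (z, β z)) z := fun x hx β hβ => by
    filter_upwards [ho.mem_nhds hx, hβ.near] with z h1 h2 using h z h1 β h2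
  have g : HolC f G S := fun x hx β hβ => analyticAt_iff_eventually_differentiableAt.2
    ((k x hx β hβ).mono fun z hz => hz.differentiableAt)
  exact ⟨g, fun x hx β hβ => (g x hx β hβ).deriv.congr ((k x hx β hβ).mono fun z hz => hz.deriv)⟩

theorem Pr.mul (hG : Pr f G a S) (hH : Pr f H b S) :
    Pr f (fun p => G p * H p) (fun p => G p * b p + H p * a p) S := by
  intro x hx β hβ
  refine ((hG x hx β hβ).mul (hH x hx β hβ)).congr_deriv ?_
  ring

theorem Pr2.cont (hf : Sep f S) (h : Pr2 f Φ a a' S) : ContinuousOn Φ (Ov f S) := by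
  intro p hp
  obtain ⟨β, hβ, e⟩ := br_ex hf hp
  obtain ⟨H, W, k⟩ := h p.1 hp.2 β hβ
  have c : ContinuousAt (fun z => Φ (z, β z)) p.1 :=
    (k.self_of_nhds.1.continuousAt.sub k.self_of_nhds.2.1.continuousAt.star).congr
      (k.mono fun z hz => hz.2.2.symm)
  have u : ∀ᶠ q in 𝓝[Ov f S] p, (id q : ℂ × ℂ).2 = β (id q : ℂ × ℂ).1 :=
    br_uniq hf hp.2 hβ (by rw [e]; exact tendsto_nhdsWithin_of_tendsto_nhds tendsto_id)
      (eventually_nhdsWithin_of_forall fun q hq => hq.1)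
  refine (c.comp_continuousWithinAt (f := Prod.fst)
    continuousWithinAt_fst).congr_of_eventuallyEq (u.mono fun q hq => ?_) ?_
  · simp only [id] at hq
    simp only [Function.comp, ← hq]
  · simp only [Function.comp, e]

theorem cst (ho : IsOpen S) (hΦ : Pr2 f Φ b a S) (hH : Pr f H b S) (hW : Pr f W a S) :
    Pr f (fun p => Φ p - H p + star (W p)) (fun _ => 0) S := by
  intro x hx β hβ
  obtain ⟨H0, W0, k⟩ := hΦ x hx β hβ
  have k1 : ∀ᶠ z in 𝓝 x, HasDerivAt (fun z => H0 z - H (z, β z)) 0 z := by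
    filter_upwards [k, ho.mem_nhds hx, hβ.near] with z h0 h1 h2
    simpa using h0.1.fun_sub (hH z h1 β h2)
  have k2 : ∀ᶠ z in 𝓝 x, HasDerivAt (fun z => W (z, β z) - W0 z) 0 z := by
    filter_upwards [k, ho.mem_nhds hx, hβ.near] with z h0 h1 h2
    simpa using (hW z h1 β h2).fun_sub h0.2.1
  refine (hasDerivAt_const x (H0 x - H (x, β x) + star (W (x, β x) - W0 x))).congr_of_eventuallyEq ?_
  filter_upwards [k, trc_const k1, trc_const k2] with z h0 h1 h2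
  rw [← h1, ← h2, h0.2.2, star_sub]
  ring

theorem tr_congr (hf : f.Monic) (h : ∀ y, f.evalEval x y = 0 → φ (x, y) = ψ (x, y)) :
    Tr f φ x = Tr f ψ x :=
  congrArg Multiset.sum (Multiset.map_congr rfl fun y hy => h y ((mem_roots_fib hf).1 hy))

theorem tr_add : Tr f (fun p => φ p + ψ p) x = Tr f φ x + Tr f ψ x :=
  Multiset.sum_map_add

theorem tr_sum {ι : Type*} (I : Finset ι) (c : ι → ℂ) (φ : ι → ℂ × ℂ → ℂ) :
    Tr f (fun p => ∑ i ∈ I, c i * φ i p) x = ∑ i ∈ I, c i * Tr f (φ i) x := by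
  classical
  induction I using Finset.induction_on with
  | empty => simp [Tr]
  | insert i I hi ih =>
    simp only [Finset.sum_insert hi]
    rw [tr_add, ih]
    simp only [Tr, Multiset.sum_map_mul_left]

theorem tr_le (hf : f.Monic) {c : ℝ} (h : ∀ y, f.evalEval x y = 0 → ‖φ (x, y)‖ ≤ c) :
    ‖Tr f φ x‖ ≤ f.natDegree * c := by
  have e : (fib f x).roots.card = f.natDegree := by
    rw [← (IsAlgClosed.splits _).natDegree_eq_card_roots, hf.natDegree_map]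
  refine (norm_multiset_sum_le _).trans ((Multiset.sum_le_card_nsmul _ c fun t ht => ?_).trans ?_)
  · simp only [Multiset.map_map, Multiset.mem_map, Function.comp] at ht
    obtain ⟨y, hy, rfl⟩ := ht
    exact h y ((mem_roots_fib hf).1 hy)
  · simp [e]

theorem tr_der (hf : Sep f S) (h : Pr f G a S) (hx : x ∈ S) :
    HasDerivAt (Tr f G) (Tr f a x) x := by
  obtain ⟨β, hβ, k⟩ := trc_loc hf hx
  rw [k.self_of_nhds a]
  exact (HasDerivAt.fun_sum fun j _ => h x hx _ (hβ j)).congr_of_eventuallyEq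
    (k.mono fun z hz => hz G)

theorem tr_an (hf : Sep f S) (h : HolC f φ S) (hx : x ∈ S) : AnalyticAt ℂ (Tr f φ) x := by
  obtain ⟨β, hβ, k⟩ := trc_loc hf hx
  exact (Finset.analyticAt_fun_sum _ fun j _ => h x hx _ (hβ j)).congr
    (k.mono fun z hz => (hz φ).symm)

theorem tr_cont (hf : Sep f S) (h : ContinuousOn φ (Ov f S)) : ContinuousOn (Tr f φ) S := by
  intro x hx
  obtain ⟨β, hβ, k⟩ := trc_loc hf hx
  refine ContinuousAt.continuousWithinAt (ContinuousAt.congr (f := fun z => ∑ j, φ (z, β j z))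
    (tendsto_finsetSum _ fun j _ => ?_) (k.mono fun z hz => (hz φ).symm))
  refine (h (x, β j x) ⟨(hβ j).2.self_of_nhds, hx⟩).tendsto.comp
    (tendsto_nhdsWithin_iff.2 ⟨continuousAt_id.prodMk (hβ j).1.continuousAt, ?_⟩)
  filter_upwards [(hβ j).2, hf.op.mem_nhds hx] with z h1 h2 using ⟨h1, h2⟩

theorem tr_der2 (hf : Sep f S) (hW : Pr f W a S) (hH : Pr f H b S) (hx : x ∈ S) (w : ℂ) :
    HasDerivAt (fun τ : ℝ => Tr f (fun p => star (W p) * H p) (x + τ * w))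
      (Tr f (fun p => star (W p) * b p) x * w + star (Tr f (fun p => star (H p) * a p) x * w))
      0 := by
  obtain ⟨β, hβ, k⟩ := trc_loc hf hx
  have ln : ∀ {g : ℂ → ℂ} {g' : ℂ}, HasDerivAt g g' x →
      HasDerivAt (fun τ : ℝ => g (x + τ * w)) (g' * w) 0 := fun {g g'} hg => by
    have h1 : HasDerivAt (fun z : ℂ => x + z * w) w ((0 : ℝ) : ℂ) := by
      simpa using ((hasDerivAt_id ((0 : ℝ) : ℂ)).mul_const w).const_add x
    exact (hg.comp_of_eq _ h1 (by simp)).comp_ofReal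
  have tt : Tendsto (fun τ : ℝ => x + τ * w) (𝓝 0) (𝓝 x) := by
    have : Continuous fun τ : ℝ => x + τ * w := by fun_prop
    simpa using this.tendsto 0
  have h1 := HasDerivAt.fun_sum (u := Finset.univ) fun j _ =>
    (ln (hW x hx _ (hβ j))).star.fun_mul (ln (hH x hx _ (hβ j)))
  refine (h1.congr_of_eventuallyEq ((tt.eventually k).mono fun τ hτ => hτ _)).congr_deriv ?_
  rw [k.self_of_nhds, k.self_of_nhds, Finset.sum_mul, Finset.sum_mul, star_sum,
    ← Finset.sum_add_distrib]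
  refine Finset.sum_congr rfl fun j _ => ?_
  simp only [ofReal_zero, zero_mul, add_zero, star_mul', star_star]
  ring

theorem prb (hf : Sep f S) (h : HolC f a S) (hx : x ∈ S) :
    ∃ r > 0, Metric.ball x r ⊆ S ∧ ∃ G, Pr f G a (Metric.ball x r) := by
  classical
  obtain ⟨β, hβ, k⟩ := split hf hx
  obtain ⟨r, r0, hr⟩ := Metric.eventually_nhds_iff_ball.1
    ((k.and (eventually_all.2 fun j => (hβ j).near)).and (hf.op.mem_nhds hx))
  have ex : ∀ j, ∃ g : ℂ → ℂ, ∀ z ∈ Metric.ball x r, HasDerivAt g (a (z, β j z)) z := fun j =>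
    DifferentiableOn.isExactOn_ball fun z hz =>
      (h z (hr z hz).2 _ ((hr z hz).1.2 j)).differentiableAt.differentiableWithinAt
  choose g hg using ex
  refine ⟨r, r0, fun z hz => (hr z hz).2, fun p => ∑ j, if p.2 = β j p.1 then g j p.1 else 0,
    fun y hy γ hγ => ?_⟩
  have h1 := (mem_roots_fib hf.mon).2 hγ.2.self_of_nhds
  rw [(hr y hy).1.1.2] at h1
  obtain ⟨j, -, hj⟩ := Multiset.mem_map.1 h1
  have u : ∀ᶠ z in 𝓝 y, ((z, γ z) : ℂ × ℂ).2 = β j ((z, γ z) : ℂ × ℂ).1 :=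
    br_uniq hf (hr y hy).2 ((hr y hy).1.2 j) (γ := fun z => (z, γ z))
      (by rw [hj]; exact continuousAt_id.prodMk hγ.1.continuousAt) hγ.2
  rw [← hj]
  refine (hg j y hy).congr_of_eventuallyEq ?_
  filter_upwards [u, Metric.isOpen_ball.mem_nhds hy] with z h2 h3
  rw [Finset.sum_eq_single j (fun i _ hi => if_neg fun e => hi ((hr z h3).1.1.1 (e.symm.trans h2)))
    (by simp), if_pos h2]

theorem sm_cmb (q : ν → ℂ) {a : ν → ℂ × ℂ → ℂ} (ha : ∀ i, q i ≠ 0 → Sm f Z (a i)) :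
    Sm f Z (cmb q a) := by
  intro η η0
  have c0 : 0 < ∑ i, ‖q i‖ + 1 := by positivity
  have k : ∀ i, ∀ᶠ ρ in 𝓝[>] (0 : ℝ), q i ≠ 0 → ∀ p ∈ Ov f univ,
      (∀ e ∈ Z, p.1 ∈ Dn (some e) ρ → ‖p.1 - e‖ * ‖a i p‖ ≤ η / (∑ i, ‖q i‖ + 1)) ∧
      (p.1 ∈ Dn none ρ → ‖p.1‖ * ‖a i p‖ ≤ η / (∑ i, ‖q i‖ + 1)) := fun i => by
    by_cases h : q i = 0
    · exact Eventually.of_forall fun _ h1 => (h1 h).elim
    · obtain ⟨ρ, ρ0, hρ⟩ := ha i h _ (div_pos η0 c0)
      filter_upwards [Ioc_mem_nhdsGT ρ0] with r hr _ p hp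
      exact ⟨fun e he h1 => (hρ p hp).1 e he (trc_dn _ hr.1 hr.2 h1),
        fun h1 => (hρ p hp).2 (trc_dn _ hr.1 hr.2 h1)⟩
  obtain ⟨ρ, hρ, ρ0⟩ := ((eventually_all.2 k).and self_mem_nhdsWithin).exists
  have fin : ∀ (p : ℂ × ℂ) (t : ℝ), 0 ≤ t →
      (∀ i, q i ≠ 0 → t * ‖a i p‖ ≤ η / (∑ i, ‖q i‖ + 1)) → t * ‖cmb q a p‖ ≤ η :=
    fun p t t0 ht => by
      have h1 := trc_cmb q (fun i p => t * a i p) p (c := η / (∑ i, ‖q i‖ + 1)) fun i hi => by
        simpa [abs_of_nonneg t0] using ht i hi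
      have h2 : cmb q (fun i p => t * a i p) p = t * cmb q a p := by
        simp only [cmb, Finset.mul_sum]
        exact Finset.sum_congr rfl fun i _ => by ring
      rw [h2, norm_mul, norm_real, Real.norm_of_nonneg t0] at h1
      refine h1.trans ?_
      rw [← mul_div_assoc, div_le_iff₀ c0]
      nlinarith
  exact ⟨ρ, ρ0, fun p hp => ⟨fun e he h1 => fin p _ (norm_nonneg _) fun i hi =>
    (hρ i hi p hp).1 e he h1, fun h1 => fin p _ (norm_nonneg _) fun i hi => (hρ i hi p hp).2 h1⟩⟩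

theorem bd_cmb (q : ν → ℂ) {W : ν → ℂ × ℂ → ℂ} (ha : ∀ i, q i ≠ 0 → Bd f Z (W i)) :
    Bd f Z (cmb q W) := by
  have k : ∀ i, ∀ᶠ t in 𝓝[>] (0 : ℝ) ×ˢ (atTop : Filter ℝ), q i ≠ 0 →
      ∀ p ∈ Ov f (col Z t.1), ‖W i p‖ ≤ t.2 := fun i => by
    by_cases h : q i = 0
    · exact Eventually.of_forall fun _ h1 => (h1 h).elim
    · obtain ⟨ρ, ρ0, C, hρ⟩ := ha i h
      filter_upwards [prod_mem_prod (Ioc_mem_nhdsGT ρ0) (Ici_mem_atTop C)] with r hr _ p hp
      obtain ⟨o, ho, h1⟩ := hp.2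
      exact (hρ p ⟨hp.1, o, ho, trc_dn _ hr.1.1 hr.1.2 h1⟩).trans hr.2
  obtain ⟨t, ht, t0⟩ := ((eventually_all.2 k).and
    (tendsto_fst.eventually (self_mem_nhdsWithin (s := Ioi (0 : ℝ))))).exists
  exact ⟨t.1, t0, _, fun p hp => trc_cmb q W p fun i hi => ht i hi p hp⟩

end

end Pool.Agent.Lib.MP_5591bc_ag.Cu
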