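import Pool.Agent.Lib.MP_5591bc_ag.Cu.Eta
import Pool.Agent.Lib.MP_5591bc_ag.Cu.Hens
import Pool.Agent.Lib.MP_5591bc_ag.Cu.Trc

/-! The Taylor coefficients of the forms are holomorphic. -/

namespace Pool.Agent.Lib.MP_5591bc_ag.Cu

open Polynomial Set Filter Topology Matrix Complex Asymptotics G M
open scoped Polynomial.Bivariate

noncomputable section

variable {σ 𝓡 ν : Type*} [Fintype σ] [DecidableEq σ] [CommRing 𝓡] [Fintype ν] [DecidableEq ν]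
  {φ : (σ → ℂ) → 𝓡 →+* ℂ} {f : 𝓡[X][Y]} {d : 𝓡[X]} {m : ℕ} {A : ν → 𝓡[X][Y]} {w : ν → ℕ}
  {Q : (σ → ℂ) → Matrix ν ν ℂ} {s : σ → ℂ} {D : Set (ℂ × ℂ)} {p : ℂ × ℂ} {Λ : Matrix ν ν ℂ}
  {R : Subring ℂ}

lemma eth_an (P : ℂ[X][Y]) {β : ℂ → ℂ} {x : ℂ} (hβ : AnalyticAt ℂ β x) :
    AnalyticAt ℂ (fun z => P.evalEval z (β z)) x := by
  induction P using Polynomial.induction_on' with
  | add p q hp hq =>
    simp only [evalEval_add]
    exact hp.add hq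
  | monomial n a =>
    have e : (fun z => (monomial n a : ℂ[X][Y]).evalEval z (β z)) =
        fun z => a.eval z * β z ^ n := by
      funext z
      simp [evalEval]
    rw [e]
    exact (a.differentiable.analyticAt x).mul (hβ.pow n)

/-- the germs of holomorphic functions at `x` -/
def ethO (x : ℂ) : Subring (Germ (𝓝 x) ℂ) where
  carrier := {g | ∃ h : ℂ → ℂ, AnalyticAt ℂ h x ∧ g = (h : Germ (𝓝 x) ℂ)}
  mul_mem' := by
    rintro _ _ ⟨a, ha, rfl⟩ ⟨b, hb, rfl⟩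
    exact ⟨a * b, ha.mul hb, rfl⟩
  one_mem' := ⟨1, analyticAt_const, rfl⟩
  add_mem' := by
    rintro _ _ ⟨a, ha, rfl⟩ ⟨b, hb, rfl⟩
    exact ⟨a + b, ha.add hb, rfl⟩
  zero_mem' := ⟨0, analyticAt_const, rfl⟩
  neg_mem' := by
    rintro _ ⟨a, ha, rfl⟩
    exact ⟨-a, ha.neg, rfl⟩

lemma eth_mem {x : ℂ} {g : ℂ → ℂ} : (g : Germ (𝓝 x) ℂ) ∈ ethO x ↔ AnalyticAt ℂ g x := by
  refine ⟨?_, fun hg => ⟨g, hg, rfl⟩⟩
  rintro ⟨a, ha, e⟩
  exact ha.congr (Germ.coe_eq.1 e).symm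


theorem LF.etH (h : LF φ f d m A w Q s) (A₀ : 𝓡[X][Y]) (κ : σ →₀ ℕ) :
    HolC (sp (φ s) f) (fun p => MvPowerSeries.coeff κ (et φ f d m A₀ s p))
      (rts (d.map (φ s)) : Set ℂ)ᶜ := by
  intro x hx β hβ
  have hd0 : d.map (φ s) ≠ 0 := (h.md.map (φ s)).ne_zero
  have hdx : (d.map (φ s)).eval x ≠ 0 := by
    intro e
    exact hx (by simpa [rts, hd0] using e)
  have hda : AnalyticAt ℂ (fun z => (d.map (φ s)).eval z) x :=
    (d.map (φ s)).differentiable.analyticAt x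
  obtain ⟨𝓣, hT, hm⟩ := ts_ex (σ := σ) (ethO x) (ethO x).one_mem isUnit_one
  have hm' : ∀ S, S ∈ 𝓣 ↔ ∀ κ : σ →₀ ℕ, MvPowerSeries.coeff κ S ∈ ethO x := by
    intro S
    rw [hm]
    simp
  have hC : ∀ g : ℂ → ℂ, AnalyticAt ℂ g x → MvPowerSeries.C (g : Germ (𝓝 x) ℂ) ∈ 𝓣 := by
    intro g hg
    rw [hm']
    intro κ
    rw [MvPowerSeries.coeff_C]
    split_ifs
    · exact eth_mem.2 hg
    · exact (ethO x).zero_mem
  have hl : ∀ᶠ u in 𝓝 x, (id u, β u) ∈ Cur (sp (φ s) f) (d.map (φ s)) := by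
    filter_upwards [hβ.2, hda.continuousAt.eventually_ne hdx] with u h1 h2
    exact ⟨h1, h2⟩
  have hi : (derivative (sp (φ s) f)).evalEval x (β x) ≠ 0 := by
    have hs := h.ev.self_of_nhds.fb.2.1 x hdx
    have h0 : ((sp (φ s) f).map (evalRingHom x)).eval (β x) = 0 := by
      rw [map_evalRingHom_eval]
      exact hβ.2.self_of_nhds
    have := hs.eval₂_derivative_ne_zero (RingHom.id ℂ) (x := β x) h0
    rwa [eval₂_id, derivative_map, map_evalRingHom_eval] at this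
  have key := h.eta (l := 𝓝 x) (x := id) (y := β) hl hT (hC _ analyticAt_id) (hC _ hβ.1)
    (hC _ ((eth_an _ hβ.1).inv hi)) (hC _ (hda.inv hdx))
    (fun r => (hm' _).2 fun κ => eth_mem.2 analyticAt_const) A₀
  exact eth_mem.1 ((hm' _).1 key κ)

theorem LF.et0 (h : LF φ f d m A w Q s) (A₀ : 𝓡[X][Y])
    (hp : p ∈ Cur (sp (φ s) f) (d.map (φ s))) :
    MvPowerSeries.coeff 0 (et φ f d m A₀ s p) = frm (sp (φ s) A₀) (d.map (φ s)) m p := by
  rw [et, coeff_zero_tayS, (h.yy_spec hp).2.1]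

end

end Pool.Agent.Lib.MP_5591bc_ag.Cu
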