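import Pool.Agent.Lib.MP_5591bc_ag.Cu.Set
import Pool.Agent.Lib.MP_5591bc_ag.J.RootA

/-! Local branches. -/

namespace Pool.Agent.Lib.MP_5591bc_ag.Cu

open Polynomial Set Filter Topology Matrix Complex Asymptotics G M
open scoped Polynomial.Bivariate

noncomputable section

variable {f : ℂ[X][Y]} {d : ℂ[X]} {S S1 : Set ℂ} {Z Z' : Finset ℂ} {x : ℂ} {β : ℂ → ℂ}
  {a a' b b' G H H' W W' Φ Φ' Γ η φ ψ : ℂ × ℂ → ℂ} {F F' Ψ : ℂ → ℂ} {s t u v r ρ : ℝ} {L : ℂ}
  {μ : ℝ → ℝ → ℝ → ℝ → ℂ} {𝒞 : AddSubmonoid ℂ} {ν : Type*} [Fintype ν]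


theorem mem_roots_fib (hf : f.Monic) {y : ℂ} : y ∈ (fib f x).roots ↔ f.evalEval x y = 0 := by
  rw [mem_roots (hf.map _).ne_zero, IsRoot.def, map_evalRingHom_eval]

theorem Br.near (h : Br f β x) : ∀ᶠ z in 𝓝 x, Br f β z := by
  filter_upwards [h.1.eventually_analyticAt, h.2.eventually_nhds] with z h1 h2 using ⟨h1, h2⟩

theorem split (hf : Sep f S) (hx : x ∈ S) : ∃ β : Fin f.natDegree → ℂ → ℂ, (∀ j, Br f (β j) x) ∧
    ∀ᶠ z in 𝓝 x, Function.Injective (β · z) ∧
      (fib f z).roots = Finset.univ.val.map fun j => β j z := by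
  obtain ⟨R, R0, hR⟩ := Metric.isOpen_iff.1 hf.op x hx
  have hm : ∀ u ∈ Metric.ball (0 : ℂ) R, x + u ∈ S := fun u hu =>
    hR (by simpa [dist_eq_norm] using hu)
  obtain ⟨a, ha, h⟩ := J.rootA (g := fun u : ℂ => fib f (x + u)) (R := R) (n := f.natDegree)
    (fun i u _ => by
      simp only [coeff_map, coe_evalRingHom]
      exact ((f.coeff i).differentiable.analyticAt _).comp (f := fun u : ℂ => x + u) (by fun_prop))
    (fun u _ => hf.mon.natDegree_map _)
    fun u hu y hy => (hf.sep _ (hm u hu)).eval₂_derivative_ne_zero (RingHom.id ℂ) hy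
  have e : ∀ᶠ z in 𝓝 x, Function.Injective (fun j => a j (z - x)) ∧
      (fib f z).roots = Finset.univ.val.map fun j => a j (z - x) := by
    filter_upwards [Metric.ball_mem_nhds x R0] with z hz
    obtain ⟨h1, h2⟩ := h (z - x) (by simpa [dist_eq_norm] using hz)
    refine ⟨h1, ?_⟩
    simp only [add_sub_cancel] at h2
    rw [(hf.mon.map _).leadingCoeff, C_1, one_mul] at h2
    rw [h2, ← roots_multiset_prod_X_sub_C (Finset.univ.val.map fun j => a j (z - x)),
      Multiset.map_map]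
    rfl
  refine ⟨fun j z => a j (z - x), fun j => ⟨?_, ?_⟩, e⟩
  · exact AnalyticAt.comp (g := a j) (f := fun z : ℂ => z - x)
      (ha j _ (by simpa using R0)) (by fun_prop)
  · filter_upwards [e] with z hz
    rw [← mem_roots_fib hf.mon, hz.2]
    exact Multiset.mem_map_of_mem _ (Finset.mem_univ j)

theorem br_ex (hf : Sep f S) {p : ℂ × ℂ} (hp : p ∈ Ov f S) : ∃ β, Br f β p.1 ∧ β p.1 = p.2 := by
  obtain ⟨β, h1, h2⟩ := split hf hp.2
  have := (mem_roots_fib hf.mon).2 hp.1
  rw [h2.self_of_nhds.2] at this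
  obtain ⟨j, -, hj⟩ := Multiset.mem_map.1 this
  exact ⟨β j, h1 j, hj⟩

theorem br_uniq (hf : Sep f S) (hx : x ∈ S) (hβ : Br f β x) {α : Type*} {l : Filter α}
    {γ : α → ℂ × ℂ} (hγ : Tendsto γ l (𝓝 (x, β x)))
    (h : ∀ᶠ w in l, f.evalEval (γ w).1 (γ w).2 = 0) : ∀ᶠ w in l, (γ w).2 = β (γ w).1 := by
  obtain ⟨B, h1, h2⟩ := split hf hx
  have := (mem_roots_fib hf.mon).2 hβ.2.self_of_nhds
  rw [h2.self_of_nhds.2] at this
  obtain ⟨j, -, hj⟩ := Multiset.mem_map.1 this
  have g1 : Tendsto (fun w => (γ w).1) l (𝓝 x) := (continuous_fst.tendsto _).comp hγ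
  have key : ∀ δ : α → ℂ, Tendsto δ l (𝓝 (β x)) →
      (∀ᶠ w in l, f.evalEval (γ w).1 (δ w) = 0) → ∀ᶠ w in l, δ w = B j (γ w).1 := by
    intro δ hδ h0
    have hk : ∀ᶠ w in l, ∀ k, k ≠ j → δ w - B k (γ w).1 ≠ 0 := by
      refine eventually_all.2 fun k => ?_
      by_cases e : k = j
      · exact Eventually.of_forall fun _ h => absurd e h
      · have := (hδ.sub ((h1 k).1.continuousAt.tendsto.comp g1)).eventually_ne
          (b₂ := 0) (sub_ne_zero.2 fun e' => e (h2.self_of_nhds.1 (e'.symm.trans hj.symm)))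
        filter_upwards [this] with w hw _ using hw
    filter_upwards [hk, h0, g1.eventually h2] with w hw h3 h4
    have := (mem_roots_fib hf.mon).2 h3
    rw [h4.2] at this
    obtain ⟨k, -, e⟩ := Multiset.mem_map.1 this
    by_cases e' : k = j
    · rw [← e, e']
    · exact absurd (sub_eq_zero.2 e.symm) (hw k e')
  filter_upwards [key _ ((continuous_snd.tendsto _).comp hγ) h,
    key _ (hβ.1.continuousAt.tendsto.comp g1) (g1.eventually hβ.2)] with w e1 e2
  exact e1.trans e2.symm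

theorem HolC.cont (hf : Sep f S) (h : HolC f a S) : ContinuousOn a (Ov f S) := by
  intro p hp
  obtain ⟨β, h1, h2⟩ := br_ex hf hp
  have e := br_uniq hf hp.2 h1 (l := 𝓝[Ov f S] p) (γ := id)
    (by rw [h2]; exact nhdsWithin_le_nhds)
    (by filter_upwards [self_mem_nhdsWithin] with q hq using hq.1)
  have c : ContinuousAt (fun q : ℂ × ℂ => a (q.1, β q.1)) p :=
    ContinuousAt.comp (g := fun z => a (z, β z)) (f := Prod.fst) (h _ hp.2 β h1).continuousAt
      continuousAt_fst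
  refine c.continuousWithinAt.congr_of_eventuallyEq ?_ (by rw [h2])
  filter_upwards [e] with q hq
  rw [← show q.2 = β q.1 from hq]

theorem ov_cpt (hf : f.Monic) (h : IsCompact S) : IsCompact (Ov f S) := by
  have c : Continuous fun p : ℂ × ℂ => f.evalEval p.1 p.2 := by
    have e : (fun p : ℂ × ℂ => f.evalEval p.1 p.2) = fun p =>
        ∑ i ∈ Finset.range (f.natDegree + 1), (f.coeff i).eval p.1 * p.2 ^ i := by
      funext p
      rw [← map_evalRingHom_eval, eval_eq_sum_range, hf.natDegree_map]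
      simp only [coeff_map, coe_evalRingHom]
    rw [e]
    exact continuous_finsetSum _ fun i _ =>
      ((f.coeff i).continuous.comp continuous_fst).mul (continuous_snd.pow i)
  have hb : Continuous fun z : ℂ => 1 + ∑ i ∈ Finset.range f.natDegree, ‖(f.coeff i).eval z‖ :=
    continuous_const.add (continuous_finsetSum _ fun i _ => (f.coeff i).continuous.norm)
  obtain ⟨B, hB⟩ := (h.image hb).bddAbove
  refine (h.prod (isCompact_closedBall (0 : ℂ) B)).of_isClosed_subset
    ((isClosed_eq c continuous_const).inter (h.isClosed.preimage continuous_fst)) fun p hp =>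
      ⟨hp.2, mem_closedBall_zero_iff.2 (le_trans ?_ (hB ⟨_, hp.2, rfl⟩))⟩
  rcases Nat.eq_zero_or_pos f.natDegree with h0 | h0
  · have := hp.1
    rw [hf.natDegree_eq_zero.1 h0] at this
    simp at this
  · have := E.roots_bd (p := fib f p.1) h0 (hf.natDegree_map _) p.2
    rw [map_evalRingHom_eval, hp.1] at this
    simpa [coeff_map, hf.coeff_natDegree] using this

theorem cur_eq (hd : d ≠ 0) : Cur f d = Ov f (rts d : Set ℂ)ᶜ := by
  ext p
  simp [Cur, Ov, hd]

end

end Pool.Agent.Lib.MP_5591bc_ag.Cu
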