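import Pool.Agent.Lib.MP_5591bc_ag.Cu.Pui
import Pool.Agent.Lib.MP_5591bc_ag.Cu.Laur
import Pool.Agent.Lib.MP_5591bc_ag.Cu.Split

/-! Puiseux branches, and pull backs to them. -/

namespace Pool.Agent.Lib.MP_5591bc_ag.Cu

open Polynomial Set Filter Topology Matrix Complex Asymptotics G M
open scoped Polynomial.Bivariate

noncomputable section

variable {f : ℂ[X][Y]} {d : ℂ[X]} {S S1 : Set ℂ} {Z Z' : Finset ℂ} {x : ℂ} {β : ℂ → ℂ}
  {a a' b b' G H H' W W' Φ Φ' Γ η φ ψ : ℂ × ℂ → ℂ} {F F' Ψ : ℂ → ℂ} {s t u v r ρ : ℝ} {L : ℂ}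
  {μ : ℝ → ℝ → ℝ → ℝ → ℂ} {𝒞 : AddSubmonoid ℂ} {ν : Type*} [Fintype ν]

variable {o : Option ℂ} {ε N m : ℕ} {y : Fin N → ℂ → ℂ} {w : ℂ} {j : Fin N}

theorem mer_ev {ξ : ℂ → ℂ} (hX : MeromorphicAt ξ 0) (q : ℂ[X]) :
    MeromorphicAt (fun w => q.eval (ξ w)) 0 := by
  induction q using Polynomial.induction_on' with
  | add p q hp hq => simpa only [eval_add] using hp.fun_add hq
  | monomial n c =>
    simpa only [eval_monomial] using (MeromorphicAt.const c 0).fun_mul (hX.fun_pow n)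

theorem mer_evev {ξ ζ : ℂ → ℂ} (hX : MeromorphicAt ξ 0) (hY : MeromorphicAt ζ 0) (A : ℂ[X][Y]) :
    MeromorphicAt (fun w => A.evalEval (ξ w) (ζ w)) 0 := by
  induction A using Polynomial.induction_on' with
  | add p q hp hq => simpa only [evalEval_add] using hp.fun_add hq
  | monomial n c =>
    have : (fun w => (monomial n c : ℂ[X][Y]).evalEval (ξ w) (ζ w)) =
        fun w => c.eval (ξ w) * ζ w ^ n := by
      funext w
      simp [evalEval, eval_monomial]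
    rw [this]
    exact (mer_ev hX c).fun_mul (hY.fun_pow n)

theorem mer_pow_bd (k : ℕ) : (fun w : ℂ => w ^ k) =O[𝓝[≠] 0] fun _ => (1 : ℝ) :=
  ((continuous_pow k).continuousAt.tendsto.mono_left nhdsWithin_le_nhds).isBigO_one ℝ

theorem mer_bd (h : MeromorphicAt F 0) :
    ∃ k : ℕ, ∀ k', k ≤ k' → (fun w => w ^ k' * F w) =O[𝓝[≠] 0] fun _ => (1 : ℝ) := by
  obtain ⟨k, hk⟩ := h
  refine ⟨k, fun k' hk' => ?_⟩
  obtain ⟨l, rfl⟩ := Nat.exists_eq_add_of_le hk'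
  have h1 := (hk.continuousAt.tendsto.mono_left (nhdsWithin_le_nhds (s := {0}ᶜ))).isBigO_one ℝ
  refine ((mer_pow_bd l).mul h1).congr (fun w => ?_) (fun w => by simp)
  simp only [sub_zero, smul_eq_mul]
  ring

theorem mer_root_bd {p : ℂ[X]} (hp : p.Monic) {z : ℂ} (hz : z ∈ p.roots) :
    ‖z‖ ≤ ∑ i ∈ Finset.range p.natDegree, ‖p.coeff i‖ + 1 := by
  have h := ((mem_roots hp.ne_zero).1 hz).norm_lt_cauchyBound hp.ne_zero
  have h2 : p.cauchyBound ≤ ∑ i ∈ Finset.range p.natDegree, ‖p.coeff i‖₊ + 1 := by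
    simp only [cauchyBound, hp.leadingCoeff, nnnorm_one, div_one, add_le_add_iff_right]
    exact Finset.sup_le fun i hi =>
      Finset.single_le_sum (f := fun i => ‖p.coeff i‖₊) (fun _ _ => by positivity) hi
  have h3 := NNReal.coe_le_coe.2 (h.le.trans h2)
  simpa using h3

theorem mer_fib_coeff (f : ℂ[X][Y]) (x : ℂ) (i : ℕ) : (fib f x).coeff i = (f.coeff i).eval x := by
  simp [fib, coeff_map]

theorem pui (h0 : 0 < ρ) (hf : Sep f (Dn o ρ)) : ∃ ε y, Pu f o ρ ε f.natDegree y := by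
  have hx : ∀ v ∈ Wu 1 ρ, ξo o v ∈ Dn o ρ := fun v hv => by
    simpa only [xo, pow_one] using (xo_mem (o := o) one_pos h0).2 hv
  have hd : ∀ x, (fib f x).natDegree = f.natDegree := fun x => hf.mon.natDegree_map _
  have hξ : ξo o = xo o 1 := by funext v; simp only [xo, pow_one]
  obtain ⟨ε, hε, y, hy⟩ := pui0 (g := fun v => fib f (ξo o v)) (N := f.natDegree) h0
    (fun i v hv => by
      simp only [mer_fib_coeff, hξ]
      exact (((f.coeff i).differentiableAt).comp v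
        (xo_an hv.1).differentiableAt).differentiableWithinAt)
    (fun v hv => ⟨hf.mon.map _, hd _, hf.sep _ (hx v hv)⟩)
  refine ⟨ε, y, hε, fun j u hu => (hy u hu).1 j, fun u hu => (hy u hu).2, fun j => ?_⟩
  choose k hk using fun i => mer_bd (mer_ev (xo_mer o ε) (f.coeff i))
  set K := ∑ i ∈ Finset.range f.natDegree, k i
  refine mer_of_bd (k := K)
    ((wu_ev hε h0).mono fun u hu => ((hy u hu).1 j).differentiableAt) ?_
  have h1 : (fun w => ∑ i ∈ Finset.range f.natDegree,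
      ‖w ^ K * (f.coeff i).eval (xo o ε w)‖ + ‖w ^ K‖) =O[𝓝[≠] 0] fun _ => (1 : ℝ) :=
    (IsBigO.fun_sum fun i hi => (hk i K (Finset.single_le_sum (f := k)
      (fun _ _ => Nat.zero_le _) hi)).norm_left).add (mer_pow_bd K).norm_left
  refine (IsBigO.of_bound 1 ?_).trans h1
  filter_upwards [wu_ev hε h0] with u hu
  have h2 : y j u ∈ (fib f (xo o ε u)).roots := by
    rw [(hy u hu).2]
    exact Multiset.mem_map.2 ⟨j, Finset.mem_univ j, rfl⟩
  have h3 := mer_root_bd (hf.mon.map _) h2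
  rw [hd] at h3
  simp only [mer_fib_coeff] at h3
  rw [one_mul, norm_mul]
  refine (mul_le_mul_of_nonneg_left h3 (norm_nonneg _)).trans (le_trans (le_of_eq ?_) (le_abs_self _))
  simp only [norm_mul, mul_add, mul_one, Finset.mul_sum]

theorem Pu.mem (hf : f.Monic) (h0 : 0 < ρ) (hy : Pu f o ρ ε N y) (hw : w ∈ Wu ε ρ) (j : Fin N) :
    (xo o ε w, y j w) ∈ Ov f (Dn o ρ) := by
  refine ⟨(mem_roots_fib hf).1 ?_, (xo_mem hy.pos h0).2 hw⟩
  rw [hy.rt w hw]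
  exact Multiset.mem_map.2 ⟨j, Finset.mem_univ j, rfl⟩

theorem Pu.onto (hf : f.Monic) (h0 : 0 < ρ) (hy : Pu f o ρ ε N y) {p : ℂ × ℂ}
    (hp : p ∈ Ov f (Dn o ρ)) : ∃ w ∈ Wu ε ρ, ∃ j, p = (xo o ε w, y j w) := by
  obtain ⟨w, hw⟩ := xo_surj hy.pos o p.1
  have h1 : w ∈ Wu ε ρ := (xo_mem (o := o) hy.pos h0).1 (by rw [hw]; exact hp.2)
  have h2 := (mem_roots_fib hf).2 hp.1
  rw [← hw, hy.rt w h1] at h2
  obtain ⟨j, -, hj⟩ := Multiset.mem_map.1 h2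
  exact ⟨w, h1, j, Prod.ext hw.symm hj.symm⟩

theorem Pu.tr (hy : Pu f o ρ ε N y) (hw : w ∈ Wu ε ρ) (φ : ℂ × ℂ → ℂ) :
    Tr f φ (xo o ε w) = ∑ j, φ (xo o ε w, y j w) := by
  rw [Tr, hy.rt w hw, Multiset.map_map]
  rfl

theorem Pu.br (hf : Sep f (Dn o ρ)) (h0 : 0 < ρ) (hy : Pu f o ρ ε N y) (hw : w ∈ Wu ε ρ)
    (j : Fin N) : ∃ β, Br f β (xo o ε w) ∧ ∀ᶠ u in 𝓝 w, y j u = β (xo o ε u) := by
  obtain ⟨β, hβ, e⟩ := br_ex hf (hy.mem hf.mon h0 hw j)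
  refine ⟨β, hβ, br_uniq hf ((xo_mem hy.pos h0).2 hw) hβ
    (γ := fun u => (xo o ε u, y j u)) ?_ ?_⟩
  · rw [show β (xo o ε w) = y j w from e]
    exact ((xo_an hw.1).continuousAt.prodMk (hy.an j w hw).continuousAt).tendsto
  · filter_upwards [(wu_open ε ρ).mem_nhds hw] with u hu using (hy.mem hf.mon h0 hu j).1

theorem Pu.hol (hf : Sep f (Dn o ρ)) (h0 : 0 < ρ) (hy : Pu f o ρ ε N y) (ha : HolC f a (Dn o ρ))
    (hw : w ∈ Wu ε ρ) (j : Fin N) : AnalyticAt ℂ (fun w => a (xo o ε w, y j w)) w ∧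
      AnalyticAt ℂ (pb o ε (y j) a) w := by
  obtain ⟨β, hβ, e⟩ := hy.br hf h0 hw j
  have h1 : AnalyticAt ℂ (fun w => a (xo o ε w, y j w)) w :=
    ((ha _ ((xo_mem hy.pos h0).2 hw) β hβ).comp (xo_an hw.1)).congr
      (e.mono fun u hu => by simp only [Function.comp, hu])
  exact ⟨h1, h1.mul (xo_an hw.1).deriv⟩

theorem Pu.der (hf : Sep f (Dn o ρ)) (h0 : 0 < ρ) (hy : Pu f o ρ ε N y) (hG : Pr f G a (Dn o ρ))
    (hw : w ∈ Wu ε ρ) (j : Fin N) :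
    HasDerivAt (fun w => G (xo o ε w, y j w)) (pb o ε (y j) a w) w := by
  obtain ⟨β, hβ, e⟩ := hy.br hf h0 hw j
  have h1 := (hG _ ((xo_mem hy.pos h0).2 hw) β hβ).comp w
    (xo_an (o := o) (ε := ε) hw.1).differentiableAt.hasDerivAt
  rw [← e.self_of_nhds] at h1
  exact h1.congr_of_eventuallyEq (e.mono fun u hu => by simp only [Function.comp, hu])

theorem Pu.frm_mer (hy : Pu f o ρ ε N y) (A : ℂ[X][Y]) (d : ℂ[X]) (m : ℕ) (j : Fin N) :
    MeromorphicAt (pb o ε (y j) (frm A d m)) 0 := by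
  exact ((mer_evev (xo_mer o ε) (hy.mer j) A).fun_div
    ((mer_ev (xo_mer o ε) d).fun_pow m)).fun_mul (xo_mer o ε).deriv

end

end Pool.Agent.Lib.MP_5591bc_ag.Cu
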