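import Pool.Agent.Lib.MP_5591bc_ag.Cu.Eta
import Pool.Agent.Lib.MP_5591bc_ag.Cu.Eis
import Pool.Agent.Lib.MP_5591bc_ag.Cu.Mer

/-! Denominators of the Taylor coefficients at a puncture. -/

namespace Pool.Agent.Lib.MP_5591bc_ag.Cu

open Polynomial Set Filter Topology Matrix Complex Asymptotics G M
open scoped Polynomial.Bivariate

noncomputable section

variable {σ 𝓡 ν : Type*} [Fintype σ] [DecidableEq σ] [CommRing 𝓡] [Fintype ν] [DecidableEq ν]
  {φ : (σ → ℂ) → 𝓡 →+* ℂ} {f : 𝓡[X][Y]} {d : 𝓡[X]} {m : ℕ} {A : ν → 𝓡[X][Y]} {w : ν → ℕ}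
  {Q : (σ → ℂ) → Matrix ν ν ℂ} {s : σ → ℂ} {D : Set (ℂ × ℂ)} {p : ℂ × ℂ} {Λ : Matrix ν ν ℂ}
  {R : Subring ℂ}

omit [Fintype σ] [DecidableEq σ] in
/-- the constant coefficient of a tame series is algebraic -/
theorem etaT_alg {S : MvPowerSeries σ ℂ} (h : Tame R S) :
    IsAlgebraic R (MvPowerSeries.coeff 0 S) := by
  obtain ⟨b, hb, b0, hi⟩ := h
  have h0 := hi 0
  rw [map_zero, zero_add, pow_one] at h0
  exact IsAlgebraic.of_mul (mem_nonZeroDivisors_of_ne_zero b0)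
    (isAlgebraic_algebraMap (⟨b, hb⟩ : R)) h0.isAlgebraic

/-- a root of a nonzero polynomial with algebraic coefficients is algebraic -/
theorem etaT_root {q : ℂ[X]} (q0 : q ≠ 0) (hq : ∀ i, IsAlgebraic R (q.coeff i)) {e : ℂ}
    (he : q.eval e = 0) : IsAlgebraic R e := by
  obtain ⟨q', rfl⟩ := (mem_lifts q).1 ((lifts_iff_coeff_lifts
    (f := algebraMap (Subalgebra.algebraicClosure R ℂ) ℂ) q).2 fun i => ⟨⟨_, hq i⟩, rfl⟩)
  have : IsAlgebraic (Subalgebra.algebraicClosure R ℂ) e :=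
    ⟨q', fun h => q0 (by rw [h, Polynomial.map_zero]), by rwa [← eval_map_algebraMap]⟩
  exact this.restrictScalars R

/-- coefficients of the derivative in `y` -/
theorem etaT_der {F : ℂ[X][Y]} (hF : ∀ i j, IsAlgebraic R ((F.coeff i).coeff j)) (i j : ℕ) :
    IsAlgebraic R (((derivative F).coeff i).coeff j) := by
  have e : ((i : ℂ[X]) + 1) = C ((i + 1 : ℕ) : ℂ) := by simp
  rw [coeff_derivative, e, coeff_mul_C]
  exact (hF _ _).mul (isAlgebraic_natCast _)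

/-- a simple root of the fibre polynomial -/
theorem etaT_ne {F : ℂ[X][Y]} {x y : ℂ} (hs : (fib F x).Separable) (h : F.evalEval x y = 0) :
    (derivative F).evalEval x y ≠ 0 := by
  have h1 : (fib F x).eval y = 0 := by rw [fib, map_evalRingHom_eval, h]
  have h2 := hs.aeval_derivative_ne_zero (x := y) (by rwa [coe_aeval_eq_eval])
  rwa [coe_aeval_eq_eval, fib, derivative_map, map_evalRingHom_eval] at h2

/-- the inverse of a germ that does not vanish -/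
theorem etaT_inv {g : ℂ → ℂ} (h : InE R (g : Gm)) (h0 : ∀ᶠ u in 𝓝[≠] (0 : ℂ), g u ≠ 0) :
    InE R (↑(fun u => (g u)⁻¹) : Gm) := by
  refine h.inv ?_
  rw [← Germ.coe_mul, ← Germ.coe_one, Germ.coe_eq]
  filter_upwards [h0] with u hu
  exact mul_inv_cancel₀ hu

omit [Fintype σ] [DecidableEq σ] in
theorem etaT_gs {ι : Type*} {l : Filter ι} (g : ι → ℂ) (S : ι → MvPowerSeries σ ℂ) :
    gs l (fun u => MvPowerSeries.C (g u) * S u) = MvPowerSeries.C (g : Germ l ℂ) * gs l S := by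
  ext κ
  rw [MvPowerSeries.coeff_C_mul]
  change (↑(fun u => MvPowerSeries.coeff κ (MvPowerSeries.C (g u) * S u)) : Germ l ℂ) =
    (g : Germ l ℂ) * ↑(fun u => MvPowerSeries.coeff κ (S u))
  simp only [MvPowerSeries.coeff_C_mul]
  rfl

theorem LF.etT (h : LF φ f d m A w Q s) (hR : ∀ r, Tame R (tayS (fun t => φ t r) s)) {ρ : ℝ}
    (hρ : Adm (rts (d.map (φ s))) ρ) {o : Option ℂ} (ho : o ∈ Finset.insertNone (rts (d.map (φ s))))
    {ε N : ℕ} {y : Fin N → ℂ → ℂ} (hy : Pu (sp (φ s) f) o ρ ε N y) (j : Fin N) (A₀ : 𝓡[X][Y]) :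
    InT R (gs (𝓝[≠] 0) fun u => MvPowerSeries.C (deriv (xo o ε) u) *
      et φ f d m A₀ s (xo o ε u, y j u)) := by
  have hb := h.ev.self_of_nhds
  have d0 : d.map (φ s) ≠ 0 := hb.md.ne_zero
  have ha : ∀ r, IsAlgebraic R (φ s r) := fun r => by
    have := etaT_alg (hR r)
    rwa [coeff_zero_tayS] at this
  have hf : ∀ i k, IsAlgebraic R (((sp (φ s) f).coeff i).coeff k) := fun i k => by
    rw [sp, coeff_map, coe_mapRingHom, coeff_map]
    exact ha _
  have hd : ∀ i, IsAlgebraic R ((d.map (φ s)).coeff i) := fun i => by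
    rw [coeff_map]
    exact ha _
  have hC : ∀ i k, IsAlgebraic R (((C (d.map (φ s)) : ℂ[X][Y]).coeff i).coeff k) := fun i k => by
    rw [coeff_C]
    split_ifs
    · exact hd k
    · rw [coeff_zero]
      exact isAlgebraic_zero
  have he : ∀ e, o = some e → IsAlgebraic R e := by
    rintro e rfl
    rw [Finset.some_mem_insertNone, Multiset.mem_toFinset, mem_roots d0] at ho
    exact etaT_root d0 hd ho
  have hl : ∀ᶠ u in 𝓝[≠] (0 : ℂ), (xo o ε u, y j u) ∈ Cur (sp (φ s) f) (d.map (φ s)) := by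
    filter_upwards [wu_ev hy.pos hρ.1] with u hu
    have h1 := hy.mem hb.mf hρ.1 hu j
    rw [cur_eq d0]
    exact ⟨h1.1, hρ.sub (dn_col ho h1.2)⟩
  have hn : ∀ᶠ u in 𝓝[≠] (0 : ℂ), (derivative (sp (φ s) f)).evalEval (xo o ε u) (y j u) ≠ 0 :=
    hl.mono fun u hu => etaT_ne (hb.fb.2.1 _ hu.2) hu.1
  obtain ⟨hx, hx'⟩ := xo_inE (R := R) (ε := ε) he
  have hY : InE R (y j : Gm) := eis he hf (hy.mer j) ((hl.and hn).mono fun u hu => ⟨hu.1.1, hu.2⟩)
  have hi := etaT_inv (inE_evalEval (etaT_der hf) hx hY) hn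
  have hD := inE_evalEval hC hx hY
  simp only [evalEval_C] at hD
  have hD' := etaT_inv hD (hl.mono fun u hu => hu.2)
  obtain ⟨𝓣, hT, hm⟩ := int_ex σ R
  rw [etaT_gs, ← hm]
  exact mul_mem ((hm _).2 hx'.inT) (h.eta hl hT ((hm _).2 hx.inT) ((hm _).2 hY.inT)
    ((hm _).2 hi.inT) ((hm _).2 hD'.inT) (fun r => (hm _).2 (hR r).inT) A₀)

end

end Pool.Agent.Lib.MP_5591bc_ag.Cu
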