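import Pool.Agent.Lib.MP_5591bc_ag.Cu.Tra
import Pool.Agent.Lib.MP_5591bc_ag.Cu.Cyc

/-! Periods of the Taylor coefficients of the forms. -/

namespace Pool.Agent.Lib.MP_5591bc_ag.Cu

open Polynomial Set Filter Topology Matrix Complex Asymptotics G M
open scoped Polynomial.Bivariate

noncomputable section

variable {σ 𝓡 ν : Type*} [Fintype σ] [DecidableEq σ] [CommRing 𝓡] [Fintype ν] [DecidableEq ν]
  {φ : (σ → ℂ) → 𝓡 →+* ℂ} {f : 𝓡[X][Y]} {d : 𝓡[X]} {m : ℕ} {A : ν → 𝓡[X][Y]} {w : ν → ℕ}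
  {Q : (σ → ℂ) → Matrix ν ν ℂ} {s : σ → ℂ} {D : Set (ℂ × ℂ)} {p : ℂ × ℂ} {Λ : Matrix ν ν ℂ}
  {R : Subring ℂ}


/-- a cycle lies in a compact part of its ambient set -/
theorem etp_cpt {S : Set (ℂ × ℂ)} {c : (ℝ → ℂ × ℂ) →₀ ℤ} (hc : Cyc S c) :
    ∃ D, IsCompact D ∧ D ⊆ S ∧ Cyc D c := by
  refine ⟨⋃ γ ∈ c.support, γ '' Icc 0 1, c.support.isCompact_biUnion fun γ hγ =>
    isCompact_Icc.image_of_continuousOn (hc.1 γ hγ).2.1, ?_, fun γ hγ =>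
      ⟨(hc.1 γ hγ).1, (hc.1 γ hγ).2.1, fun u hu => ?_⟩, hc.2⟩
  · intro p hp
    obtain ⟨γ, hγ, u, hu, rfl⟩ := mem_iUnion₂.1 hp
    exact (hc.1 γ hγ).2.2 u hu
  · exact mem_iUnion₂.2 ⟨γ, hγ, u, hu, rfl⟩

/-- the series `et` through a transport -/
theorem LF.etp_pt (h : LF φ f d m A w Q s) [CompactSpace D] {y : (σ → ℂ) → C(D, ℂ)}
    {E : ν → (σ → ℂ) → C(D, ℂ)} (ht : Trn φ f d m A s D y E) (hp : p ∈ D) (i : ν) :
    et φ f d m (A i) s p = tayS (fun t => E i t ⟨p, hp⟩) s := by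
  have e : ∀ F : C(D, ℂ), ex F p = F ⟨p, hp⟩ := fun F => dif_pos hp
  have hy : (fun t => ex (y t) p) =ᶠ[𝓝 s] yy φ f s p := by
    refine (h.yy_spec (ht.sub hp)).2.2.2 _ ?_ (ht.base p hp) ?_
    · simp only [e]
      exact (continuous_eval_const (⟨p, hp⟩ : D)).continuousAt.comp ht.an.continuousAt
    · filter_upwards [ht.ev] with t h1 using (h1 p hp).1.1
  refine tayS_congr ?_
  filter_upwards [ht.ev, hy] with t h1 h2
  rw [← h2, ← (h1 p hp).2 i, e]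

theorem LF.etp (h : LF φ f d m A w Q s) {c : (ℝ → ℂ × ℂ) →₀ ℤ}
    (hc : Cyc (Cur (sp (φ s) f) (d.map (φ s))) c) (κ : σ →₀ ℕ) (i : ν) :
    per (fun p => MvPowerSeries.coeff κ (et φ f d m (A i) s p)) c =
      ∑ j, MvPowerSeries.coeff κ (tayS (fun t => (Q t * (Q s)⁻¹) i j) s) *
        per (frm (sp (φ s) (A j)) (d.map (φ s)) m) c := by
  obtain ⟨D, hk, hD, hc'⟩ := etp_cpt hc
  have : CompactSpace D := isCompact_iff_compactSpace.1 hk
  obtain ⟨y, E, ht⟩ := h.tra hD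
  obtain ⟨l, hl⟩ := per_clm hc'
  obtain ⟨g, hg⟩ := tayl (ht.anE i) κ
  have hU : ∀ j, AnalyticAt ℂ (fun t => (Q t * (Q s)⁻¹) i j) s := fun j => by
    simp only [Matrix.mul_apply]
    exact Finset.analyticAt_fun_sum _ fun k _ => (h.anQ i k).fun_mul analyticAt_const
  have e1 : per (fun p => MvPowerSeries.coeff κ (et φ f d m (A i) s p)) c = per (ex g) c := by
    refine per_congr hc' fun p hp => ?_
    have e : ex g p = g ⟨p, hp⟩ := dif_pos hp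
    rw [h.etp_pt ht hp i, e]
    exact hg (ContinuousMap.evalCLM ℂ ⟨p, hp⟩)
  have e2 : (fun t => l (E i t)) =ᶠ[𝓝 s] fun t => ∑ j,
      per (frm (sp (φ s) (A j)) (d.map (φ s)) m) c * (Q t * (Q s)⁻¹) i j := by
    filter_upwards [h.cyc ht] with t h1
    rw [hl, congrFun (h1 c hc') i]
    exact Finset.sum_congr rfl fun j _ => mul_comm _ _
  rw [e1, ← hl, ← hg, tayS_congr e2, tayS_sum _ fun j _ => analyticAt_const.fun_mul (hU j), map_sum]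
  refine Finset.sum_congr rfl fun j _ => ?_
  rw [tayS_cmul (hU j), MvPowerSeries.coeff_C_mul, mul_comm]

end

end Pool.Agent.Lib.MP_5591bc_ag.Cu
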