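import Pool.Agent.Lib.MP_5591bc_ag.Cu.Mer
import Pool.Agent.Lib.MP_5591bc_ag.Cu.Trc
import Pool.Agent.Lib.MP_5591bc_ag.Cu.Bx

/-! The integral over a small square is the residue on the branches. -/

namespace Pool.Agent.Lib.MP_5591bc_ag.Cu

open Polynomial Set Filter Topology Matrix Complex Asymptotics G M
open scoped Polynomial.Bivariate

noncomputable section

variable {f : ℂ[X][Y]} {d : ℂ[X]} {S S1 : Set ℂ} {Z Z' : Finset ℂ} {x : ℂ} {β : ℂ → ℂ}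
  {a a' b b' G H H' W W' Φ Φ' Γ η φ ψ : ℂ × ℂ → ℂ} {F F' Ψ : ℂ → ℂ} {s t u v r ρ : ℝ} {L : ℂ}
  {μ : ℝ → ℝ → ℝ → ℝ → ℂ} {𝒞 : AddSubmonoid ℂ} {ν : Type*} [Fintype ν]

variable {o : Option ℂ} {ε N m : ℕ} {y : Fin N → ℂ → ℂ} {w : ℂ} {j : Fin N}


theorem pow_ev26 (hε : 0 < ε) {P : ℂ → Prop} (h : ∀ᶠ u in 𝓝[≠] (0 : ℂ), P (u ^ ε)) :
    ∀ᶠ z in 𝓝[≠] (0 : ℂ), P z := by
  rw [eventually_nhdsWithin_iff, Metric.eventually_nhds_iff] at h ⊢
  obtain ⟨δ, hδ, h⟩ := h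
  refine ⟨δ ^ ε, by positivity, fun z hz z0 => ?_⟩
  obtain ⟨u, rfl⟩ := IsAlgClosed.exists_pow_nat_eq z hε
  rw [dist_zero_right, norm_pow] at hz
  refine h ?_ fun u0 => z0 ?_
  · rw [dist_zero_right]
    exact lt_of_pow_lt_pow_left₀ ε hδ.le hz
  · rw [mem_singleton_iff] at u0 ⊢
    rw [u0, zero_pow hε.ne']

theorem mer_pow26 (hε : 0 < ε) (h : ∀ᶠ z in 𝓝[≠] (0 : ℂ), DifferentiableAt ℂ F z)
    (hm : MeromorphicAt (fun u => F (u ^ ε) * (ε * u ^ (ε - 1))) 0) : MeromorphicAt F 0 := by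
  obtain ⟨n, hn⟩ := hm
  obtain ⟨e, rfl⟩ := Nat.exists_eq_succ_of_ne_zero hε.ne'
  have h1 : ContinuousAt (fun u : ℂ => u ^ (e * n + 1) / (e + 1 : ℕ) *
      ((u - 0) ^ n • (F (u ^ (e + 1)) * ((e + 1 : ℕ) * u ^ (e + 1 - 1))))) 0 :=
    ContinuousAt.mul (by fun_prop) hn.continuousAt
  obtain ⟨c, hc⟩ := (h1.tendsto.isBigO_one ℝ).bound
  refine mer_of_bd (k := n + 1) h (IsBigO.of_bound c (pow_ev26 hε ?_))
  filter_upwards [nhdsWithin_le_nhds hc] with u hu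
  have e0 : ((e + 1 : ℕ) : ℂ) ≠ 0 := Nat.cast_ne_zero.2 (Nat.succ_ne_zero e)
  refine le_of_eq_of_le (congrArg norm ?_) hu
  rw [sub_zero, smul_eq_mul, Nat.add_sub_cancel, Nat.succ_eq_add_one]
  field_simp
  ring

theorem sq_res26 {T Φ : ℂ → ℂ} {e κ : ℂ} (hr : 0 < r) (hS : sq frx e r ⊆ S) (he : e ∉ S)
    (hT : ContinuousOn T S) (h : ∀ x ∈ S, HasDerivAt Φ (T x - κ * (x - e)⁻¹) x) :
    sq (bx T) e r = 2 * Real.pi * I * κ := by
  have h1 : e.re - r ≤ e.re + r := by linarith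
  have h2 : e.im - r ≤ e.im + r := by linarith
  have hi : ContinuousOn (fun x => κ * (x - e)⁻¹) S :=
    continuousOn_const.mul ((continuousOn_id.sub continuousOn_const).inv₀ fun x hx h0 =>
      he ((sub_eq_zero.1 h0 : x = e) ▸ hx))
  have a := bx_der h1 h2 ((hT.sub hi).mono hS) fun z hz => h z (hS hz)
  have b := bx_add h1 h2 ((hT.sub hi).mono hS) (hi.mono hS)
  have c := bx_inv e hr
  rw [a, bx_cmul] at b
  simp only [Pi.sub_apply, sub_add_cancel] at b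
  simp only [sq] at c ⊢
  rw [c] at b
  rw [show bx T = bx fun z => T z from rfl, b]
  ring

theorem fr_norm26 {e z : ℂ} (hz : z ∈ sq frx e r) : r ≤ ‖z - e‖ ∧ ‖z - e‖ ≤ 2 * r := by
  obtain ⟨⟨⟨a1, a2⟩, a3, a4⟩, h⟩ := hz
  have b1 := abs_re_le_norm (z - e)
  have b2 := abs_im_le_norm (z - e)
  have b3 := norm_le_abs_re_add_abs_im (z - e)
  rw [sub_re] at b1 b3
  rw [sub_im] at b2 b3
  have c1 : |z.re - e.re| ≤ r := abs_le.2 ⟨by linarith, by linarith⟩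
  have c2 : |z.im - e.im| ≤ r := abs_le.2 ⟨by linarith, by linarith⟩
  refine ⟨?_, by linarith⟩
  have d1 := le_abs_self (z.re - e.re)
  have d2 := neg_abs_le (z.re - e.re)
  have d3 := le_abs_self (z.im - e.im)
  have d4 := neg_abs_le (z.im - e.im)
  rcases h with h | h | h | h <;> linarith

theorem sqo_res26 {T : ℂ → ℂ} {c : ℂ} (h0 : 0 < ρ) (hT : ContinuousOn T (Dn o ρ))
    (h : ∀ z ∈ Wu 1 ρ, HasDerivAt Ψ (T (xo o 1 z) * deriv (xo o 1) z - c / z) z) :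
    ∀ᶠ r in 𝓝[>] (0 : ℝ), sqo T o r = 2 * Real.pi * I * c := by
  filter_upwards [Ioo_mem_nhdsGT (half_pos h0)] with r hr
  cases o with
  | some e =>
    have hx : xo (some e) 1 = fun z => e + z := by
      funext z
      simp [xo, ξo]
    refine sq_res26 (Φ := fun x => Ψ (x - e)) hr.1 (fun z hz => ?_) (fun k => k.1 rfl) hT
      fun x hx' => ?_
    · obtain ⟨a, b⟩ := fr_norm26 hz
      refine ⟨fun k => ?_, by linarith [hr.2]⟩
      rw [k, sub_self, norm_zero] at a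
      linarith [hr.1]
    · have := h (x - e) ⟨sub_ne_zero.2 hx'.1, by simpa using hx'.2⟩
      rw [hx] at this
      have e1 : deriv (fun z : ℂ => e + z) (x - e) = 1 := ((hasDerivAt_id _).const_add e).deriv
      simp only [add_sub_cancel, e1, mul_one] at this
      rw [← div_eq_mul_inv]
      exact this.comp_sub_const x e
  | none =>
    have hx : xo none 1 = fun z => z⁻¹ := by
      funext z
      simp [xo, ξo]
    have hρ : 0 < ρ⁻¹ := inv_pos.2 h0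
    have key := sq_res26 (T := T) (e := 0) (κ := -c) (S := Dn none ρ) (Φ := fun x => Ψ x⁻¹)
      (inv_pos.2 hr.1) (fun z hz => ?_) (fun k => ?_) hT fun x hx' => ?_
    · simp only [sqo]
      rw [key]
      ring
    · have a := (fr_norm26 hz).1
      rw [sub_zero] at a
      exact lt_of_lt_of_le (inv_strictAnti₀ hr.1 (by linarith [hr.2])) a
    · have k' : ρ⁻¹ < ‖(0 : ℂ)‖ := k
      rw [norm_zero] at k'
      linarith
    · have k : ρ⁻¹ < ‖x‖ := hx'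
      have x0 : x ≠ 0 := norm_pos_iff.1 (hρ.trans k)
      have := h x⁻¹ ⟨inv_ne_zero x0, by
        rw [pow_one, norm_inv]
        exact inv_lt_of_inv_lt₀ h0 k⟩
      rw [hx] at this
      simp only [inv_inv, deriv_inv'] at this
      refine (this.comp x (hasDerivAt_inv x0)).congr_deriv ?_
      field_simp
      ring

theorem eval_o (hf : Sep f (Dn o ρ)) (h0 : 0 < ρ) (hy : Pu f o ρ ε N y) (hψ : HolC f ψ (Dn o ρ))
    {C : Fin N → ℂ} (h : ∀ j, IsRes (pb o ε (y j) ψ) (C j) ∧ MeromorphicAt (pb o ε (y j) ψ) 0) :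
    ∀ᶠ r in 𝓝[>] (0 : ℝ), sqo (Tr f ψ) o r = 2 * Real.pi * I * (∑ j, C j) / ε := by
  have hε := hy.pos
  have hT : ∀ x ∈ Dn o ρ, AnalyticAt ℂ (Tr f ψ) x := fun x hx => tr_an hf hψ hx
  have hF : ∀ z ∈ Wu 1 ρ, AnalyticAt ℂ (fun z => Tr f ψ (xo o 1 z) * deriv (xo o 1) z) z :=
    fun z hz => ((hT _ ((xo_mem one_pos h0).2 hz)).comp (xo_an hz.1)).mul (xo_an hz.1).deriv
  have hw : ∀ u ∈ Wu ε ρ, u ^ ε ∈ Wu 1 ρ := fun u hu =>
    ⟨pow_ne_zero _ hu.1, by rw [pow_one, norm_pow]; exact hu.2⟩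
  have hx : xo o ε = xo o 1 ∘ fun u => u ^ ε := by
    funext u
    simp [xo]
  have hG : (fun u => ∑ j, 1 * pb o ε (y j) ψ u) =ᶠ[𝓝[≠] 0] fun u =>
      Tr f ψ (xo o 1 (u ^ ε)) * deriv (xo o 1) (u ^ ε) * (ε * u ^ (ε - 1)) := by
    filter_upwards [wu_ev hε h0] with u hu
    have e1 : deriv (xo o ε) u = deriv (xo o 1) (u ^ ε) * (ε * u ^ (ε - 1)) := by
      rw [hx]
      exact ((xo_an (hw u hu).1).differentiableAt.hasDerivAt.comp u (hasDerivAt_pow ε u)).deriv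
    have e2 : xo o 1 (u ^ ε) = xo o ε u := (congrFun hx u).symm
    rw [e2, hy.tr hu, mul_assoc, ← e1, Finset.sum_mul]
    simp only [pb, one_mul]
  have hm : MeromorphicAt (fun u => ∑ j, 1 * pb o ε (y j) ψ u) 0 := by
    simp only [one_mul]
    exact MeromorphicAt.fun_sum fun j _ => (h j).2
  obtain ⟨c, Ψ, hΨ, -⟩ := laur one_pos h0 hF (mer_pow26 hε
    ((wu_ev one_pos h0).mono fun z hz => (hF z hz).differentiableAt) (hm.congr hG))
  have r1 := (isRes_sum Finset.univ (fun _ => 1) fun j _ => (h j).1).congr hG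
  have e0 : (ε : ℂ) ≠ 0 := Nat.cast_ne_zero.2 hε.ne'
  have r2 : IsRes (fun u => Tr f ψ (xo o 1 (u ^ ε)) * deriv (xo o 1) (u ^ ε) * (ε * u ^ (ε - 1)))
      (ε * c) := by
    refine ⟨fun u => Ψ (u ^ ε), ?_⟩
    filter_upwards [wu_ev hε h0] with u hu
    refine ((hΨ _ (hw u hu)).comp u (hasDerivAt_pow ε u)).congr_deriv ?_
    obtain ⟨e, rfl⟩ := Nat.exists_eq_succ_of_ne_zero hε.ne'
    have := hu.1
    rw [Nat.succ_sub_one, pow_succ]
    field_simp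
  have e := r1.uniq r2
  simp only [one_mul] at e
  filter_upwards [sqo_res26 h0 (fun x hx => (hT x hx).continuousAt.continuousWithinAt) hΨ] with r hr
  rw [hr, e]
  field_simp

end

end Pool.Agent.Lib.MP_5591bc_ag.Cu
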