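import Pool.Agent.Lib.MP_5591bc_ag.Cu.Rect

/-! Rectangles with several holes. -/

namespace Pool.Agent.Lib.MP_5591bc_ag.Cu

open Polynomial Set Filter Topology Matrix Complex Asymptotics G M
open scoped Polynomial.Bivariate

noncomputable section

variable {f : ℂ[X][Y]} {d : ℂ[X]} {S S1 : Set ℂ} {Z Z' : Finset ℂ} {x : ℂ} {β : ℂ → ℂ}
  {a a' b b' G H H' W W' Φ Φ' Γ η φ ψ : ℂ × ℂ → ℂ} {F F' Ψ : ℂ → ℂ} {s t u v r ρ : ℝ} {L : ℂ}
  {μ : ℝ → ℝ → ℝ → ℝ → ℂ} {𝒞 : AddSubmonoid ℂ} {ν : Type*} [Fintype ν]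


/-- distinct real parts and distinct imaginary parts of points of `Z` differ by `2 r` -/
def RgSep (Z : Finset ℂ) (r : ℝ) : Prop :=
  ∀ e ∈ Z, ∀ e' ∈ Z, (e.re < e'.re → e.re + 2 * r ≤ e'.re) ∧ (e.im < e'.im → e.im + 2 * r ≤ e'.im)

theorem rg_small {p q : ℝ} : ∀ᶠ r in 𝓝[>] (0 : ℝ), p < q → p + 2 * r ≤ q := by
  by_cases h : p < q
  · have h1 : ∀ᶠ r in 𝓝[>] (0 : ℝ), r ≤ (q - p) / 2 :=
      (eventually_le_nhds (by linarith)).filter_mono nhdsWithin_le_nhds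
    filter_upwards [h1] with r hr _
    linarith
  · exact Eventually.of_forall fun r h' => absurd h' h

theorem rg_sep (Z : Finset ℂ) : ∀ᶠ r in 𝓝[>] (0 : ℝ), RgSep Z r := by
  unfold RgSep
  rw [Filter.eventually_all_finset]
  intro e _
  rw [Filter.eventually_all_finset]
  intro e' _
  exact rg_small.and rg_small

theorem rg_fr {Z : Finset ℂ} {δ : ℂ → ℝ} {δ₀ : ℝ} (hδ : ∀ e ∈ Z, 0 < δ e ∧ δ e ≤ δ₀)
    (hm : ∀ e ∈ Z, s + δ₀ ≤ e.re ∧ e.re + δ₀ ≤ t ∧ u + δ₀ ≤ e.im ∧ e.im + δ₀ ≤ v)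
    (hS : ∀ z ∈ rc s t u v, (∀ e ∈ Z, δ e ≤ |z.re - e.re| ∨ δ e ≤ |z.im - e.im|) → z ∈ S) :
    frx s t u v ⊆ S := by
  rintro z ⟨hz, hb⟩
  refine hS z hz fun e he => ?_
  obtain ⟨h1, h2, h3, h4⟩ := hm e he
  have h5 := (hδ e he).2
  rcases hb with h | h | h | h
  · exact Or.inl (le_abs.2 (Or.inr (by linarith)))
  · exact Or.inl (le_abs.2 (Or.inl (by linarith)))
  · exact Or.inr (le_abs.2 (Or.inr (by linarith)))
  · exact Or.inr (le_abs.2 (Or.inl (by linarith)))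

theorem rg_ind {δ : ℂ → ℝ} {δ₀ : ℝ} (ha : Addv μ S) (hl : Locv μ 𝒞 S) (Z : Finset ℂ) :
    RgSep Z δ₀ → (∀ e ∈ Z, 0 < δ e ∧ δ e ≤ δ₀) → ∀ s t u v : ℝ, s ≤ t → u ≤ v →
      (∀ e ∈ Z, s + δ₀ ≤ e.re ∧ e.re + δ₀ ≤ t ∧ u + δ₀ ≤ e.im ∧ e.im + δ₀ ≤ v) →
      (∀ z ∈ rc s t u v, (∀ e ∈ Z, δ e ≤ |z.re - e.re| ∨ δ e ≤ |z.im - e.im|) → z ∈ S) →
      μ s t u v - ∑ e ∈ Z, sq μ e (δ e) ∈ 𝒞 := by
  classical
  induction Z using Finset.strongInduction with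
  | H Z ih =>
  intro hsep hδ s t u v hs hu hm hS
  have sub : ∀ (p : ℂ → Prop) [DecidablePred p], RgSep (Z.filter p) δ₀ ∧
      ∀ e ∈ Z.filter p, 0 < δ e ∧ δ e ≤ δ₀ := fun p _ =>
    ⟨fun e he e' he' => hsep e (Finset.mem_filter.1 he).1 e' (Finset.mem_filter.1 he').1,
      fun e he => hδ e (Finset.mem_filter.1 he).1⟩
  by_cases hre : ∃ e ∈ Z, ∃ e' ∈ Z, e.re < e'.re
  · obtain ⟨e, he, e', he', hlt⟩ := hre
    obtain ⟨g1, g2, -, -⟩ := hm e he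
    have h0 : 0 < δ₀ := (hδ e he).1.trans_le (hδ e he).2
    have m1 : ∀ w ∈ Z.filter (fun w => w.re ≤ e.re), s + δ₀ ≤ w.re ∧ w.re + δ₀ ≤ e.re + δ₀ ∧
        u + δ₀ ≤ w.im ∧ w.im + δ₀ ≤ v := fun w hw => by
      obtain ⟨k0, k1⟩ := Finset.mem_filter.1 hw
      obtain ⟨k2, -, k4, k5⟩ := hm w k0
      exact ⟨k2, by linarith, k4, k5⟩
    have m2 : ∀ w ∈ Z.filter (fun w => ¬ w.re ≤ e.re), e.re + δ₀ + δ₀ ≤ w.re ∧ w.re + δ₀ ≤ t ∧
        u + δ₀ ≤ w.im ∧ w.im + δ₀ ≤ v := fun w hw => by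
      obtain ⟨k0, k1⟩ := Finset.mem_filter.1 hw
      obtain ⟨-, k3, k4, k5⟩ := hm w k0
      have := (hsep e he w k0).1 (not_le.1 k1)
      exact ⟨by linarith, k3, k4, k5⟩
    have s1 : ∀ z ∈ rc s (e.re + δ₀) u v, (∀ w ∈ Z.filter (fun w => w.re ≤ e.re),
        δ w ≤ |z.re - w.re| ∨ δ w ≤ |z.im - w.im|) → z ∈ S := fun z hz hh => by
      refine hS z ⟨⟨hz.1.1, hz.1.2.trans g2⟩, hz.2⟩ fun w hw => ?_
      by_cases k : w.re ≤ e.re
      · exact hh w (Finset.mem_filter.2 ⟨hw, k⟩)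
      · have := (m2 w (Finset.mem_filter.2 ⟨hw, k⟩)).1
        have := (hδ w hw).2
        have := hz.1.2
        exact Or.inl (le_abs.2 (Or.inr (by linarith)))
    have s2 : ∀ z ∈ rc (e.re + δ₀) t u v, (∀ w ∈ Z.filter (fun w => ¬ w.re ≤ e.re),
        δ w ≤ |z.re - w.re| ∨ δ w ≤ |z.im - w.im|) → z ∈ S := fun z hz hh => by
      have := hz.1.1
      refine hS z ⟨⟨by linarith, hz.1.2⟩, hz.2⟩ fun w hw => ?_
      by_cases k : w.re ≤ e.re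
      · have := (hδ w hw).2
        exact Or.inl (le_abs.2 (Or.inl (by linarith)))
      · exact hh w (Finset.mem_filter.2 ⟨hw, k⟩)
    have l1 : s ≤ e.re + δ₀ := by linarith
    have i1 := ih (Z.filter fun w => w.re ≤ e.re)
      (Finset.filter_ssubset.2 ⟨e', he', not_le.2 hlt⟩) (sub _).1 (sub _).2
      s _ u v l1 hu m1 s1
    have i2 := ih (Z.filter fun w => ¬ w.re ≤ e.re)
      (Finset.filter_ssubset.2 ⟨e, he, not_not.2 le_rfl⟩) (sub _).1 (sub _).2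
      _ t u v g2 hu m2 s2
    rw [ha.1 s _ t u v l1 g2 hu (rg_fr (sub _).2 m1 s1) (rg_fr (sub _).2 m2 s2),
      ← Finset.sum_filter_add_sum_filter_not Z (fun w => w.re ≤ e.re)]
    convert 𝒞.add_mem i1 i2 using 1
    ring
  by_cases him : ∃ e ∈ Z, ∃ e' ∈ Z, e.im < e'.im
  · obtain ⟨e, he, e', he', hlt⟩ := him
    obtain ⟨-, -, g1, g2⟩ := hm e he
    have h0 : 0 < δ₀ := (hδ e he).1.trans_le (hδ e he).2
    have m1 : ∀ w ∈ Z.filter (fun w => w.im ≤ e.im), s + δ₀ ≤ w.re ∧ w.re + δ₀ ≤ t ∧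
        u + δ₀ ≤ w.im ∧ w.im + δ₀ ≤ e.im + δ₀ := fun w hw => by
      obtain ⟨k0, k1⟩ := Finset.mem_filter.1 hw
      obtain ⟨k2, k3, k4, -⟩ := hm w k0
      exact ⟨k2, k3, k4, by linarith⟩
    have m2 : ∀ w ∈ Z.filter (fun w => ¬ w.im ≤ e.im), s + δ₀ ≤ w.re ∧ w.re + δ₀ ≤ t ∧
        e.im + δ₀ + δ₀ ≤ w.im ∧ w.im + δ₀ ≤ v := fun w hw => by
      obtain ⟨k0, k1⟩ := Finset.mem_filter.1 hw
      obtain ⟨k2, k3, -, k5⟩ := hm w k0
      have := (hsep e he w k0).2 (not_le.1 k1)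
      exact ⟨k2, k3, by linarith, k5⟩
    have s1 : ∀ z ∈ rc s t u (e.im + δ₀), (∀ w ∈ Z.filter (fun w => w.im ≤ e.im),
        δ w ≤ |z.re - w.re| ∨ δ w ≤ |z.im - w.im|) → z ∈ S := fun z hz hh => by
      refine hS z ⟨hz.1, hz.2.1, hz.2.2.trans g2⟩ fun w hw => ?_
      by_cases k : w.im ≤ e.im
      · exact hh w (Finset.mem_filter.2 ⟨hw, k⟩)
      · have := (m2 w (Finset.mem_filter.2 ⟨hw, k⟩)).2.2.1
        have := (hδ w hw).2
        have := hz.2.2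
        exact Or.inr (le_abs.2 (Or.inr (by linarith)))
    have s2 : ∀ z ∈ rc s t (e.im + δ₀) v, (∀ w ∈ Z.filter (fun w => ¬ w.im ≤ e.im),
        δ w ≤ |z.re - w.re| ∨ δ w ≤ |z.im - w.im|) → z ∈ S := fun z hz hh => by
      have := hz.2.1
      refine hS z ⟨hz.1, by linarith, hz.2.2⟩ fun w hw => ?_
      by_cases k : w.im ≤ e.im
      · have := (hδ w hw).2
        exact Or.inr (le_abs.2 (Or.inl (by linarith)))
      · exact hh w (Finset.mem_filter.2 ⟨hw, k⟩)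
    have l1 : u ≤ e.im + δ₀ := by linarith
    have i1 := ih (Z.filter fun w => w.im ≤ e.im)
      (Finset.filter_ssubset.2 ⟨e', he', not_le.2 hlt⟩) (sub _).1 (sub _).2
      s t u _ hs l1 m1 s1
    have i2 := ih (Z.filter fun w => ¬ w.im ≤ e.im)
      (Finset.filter_ssubset.2 ⟨e, he, not_not.2 le_rfl⟩) (sub _).1 (sub _).2
      s t _ v hs g2 m2 s2
    rw [ha.2 s t u _ v hs l1 g2 (rg_fr (sub _).2 m1 s1) (rg_fr (sub _).2 m2 s2),
      ← Finset.sum_filter_add_sum_filter_not Z (fun w => w.im ≤ e.im)]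
    convert 𝒞.add_mem i1 i2 using 1
    ring
  rcases Z.eq_empty_or_nonempty with rfl | ⟨e, he⟩
  · rw [Finset.sum_empty, sub_zero]
    exact rect0 hs hu (fun z hz => hS z hz fun e he => absurd he (Finset.notMem_empty e)) ha hl
  · have hZ : Z = {e} := by
      refine Finset.eq_singleton_iff_unique_mem.2 ⟨he, fun w hw => Complex.ext ?_ ?_⟩
      · exact le_antisymm (not_lt.1 fun h => hre ⟨e, he, w, hw, h⟩)
          (not_lt.1 fun h => hre ⟨w, hw, e, he, h⟩)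
      · exact le_antisymm (not_lt.1 fun h => him ⟨e, he, w, hw, h⟩)
          (not_lt.1 fun h => him ⟨w, hw, e, he, h⟩)
    obtain ⟨g1, g2, g3, g4⟩ := hm e he
    obtain ⟨d1, d2⟩ := hδ e he
    subst hZ
    rw [Finset.sum_singleton]
    refine rect1 (by linarith) (by linarith) (by linarith) (by linarith) (by linarith)
      (by linarith) (fun z hz hn => hS z hz fun w hw => ?_) ha hl
    rw [Finset.mem_singleton.1 hw]
    by_contra hc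
    rw [not_or, not_le, not_le, abs_lt, abs_lt] at hc
    exact hn ⟨by linarith [hc.1.1], by linarith [hc.1.2], by linarith [hc.2.1],
      by linarith [hc.2.2]⟩

theorem rectG (Z : Finset ℂ) : ∃ δ₀ > (0 : ℝ), ∀ δ : ℂ → ℝ, (∀ e ∈ Z, 0 < δ e ∧ δ e ≤ δ₀) →
    ∀ (μ : ℝ → ℝ → ℝ → ℝ → ℂ) (𝒞 : AddSubmonoid ℂ) (S : Set ℂ) (s t u v : ℝ), s ≤ t → u ≤ v →
      (∀ e ∈ Z, s + δ₀ ≤ e.re ∧ e.re + δ₀ ≤ t ∧ u + δ₀ ≤ e.im ∧ e.im + δ₀ ≤ v) →
      (∀ z ∈ rc s t u v, (∀ e ∈ Z, δ e ≤ |z.re - e.re| ∨ δ e ≤ |z.im - e.im|) → z ∈ S) →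
      Addv μ S → Locv μ 𝒞 S → μ s t u v - ∑ e ∈ Z, sq μ e (δ e) ∈ 𝒞 := by
  obtain ⟨δ₀, h1, h2⟩ := ((rg_sep Z).and (self_mem_nhdsWithin : Ioi (0 : ℝ) ∈ 𝓝[>] 0)).exists
  exact ⟨δ₀, h2, fun δ hδ μ 𝒞 S s t u v hs hu hm hS ha hl =>
    rg_ind ha hl Z h1 hδ s t u v hs hu hm hS⟩

theorem rect (Z : Finset ℂ) : ∀ᶠ r in 𝓝[>] (0 : ℝ), Ok Z r := by
  have hb : ∀ᶠ r in 𝓝[>] (0 : ℝ), ∀ e ∈ Z, |e.re| + 1 ≤ r⁻¹ ∧ |e.im| + 1 ≤ r⁻¹ := by
    rw [Filter.eventually_all_finset]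
    intro e _
    exact (tendsto_inv_nhdsGT_zero.eventually_ge_atTop _).and
      (tendsto_inv_nhdsGT_zero.eventually_ge_atTop _)
  have h1 : ∀ᶠ r in 𝓝[>] (0 : ℝ), r ≤ 1 :=
    (eventually_le_nhds one_pos).filter_mono nhdsWithin_le_nhds
  filter_upwards [rg_sep Z, hb, h1, self_mem_nhdsWithin] with r hsep hbig hr1 hr0
  have hr : 0 < r := hr0
  have hi : 0 < r⁻¹ := inv_pos.2 hr
  have hm : ∀ e ∈ Z, (0 : ℂ).re - r⁻¹ + r ≤ e.re ∧ e.re + r ≤ (0 : ℂ).re + r⁻¹ ∧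
      (0 : ℂ).im - r⁻¹ + r ≤ e.im ∧ e.im + r ≤ (0 : ℂ).im + r⁻¹ := fun e he => by
    obtain ⟨k1, k2⟩ := hbig e he
    have := le_abs_self e.re
    have := neg_abs_le e.re
    have := le_abs_self e.im
    have := neg_abs_le e.im
    rw [zero_re, zero_im]
    exact ⟨by linarith, by linarith, by linarith, by linarith⟩
  have hδ : ∀ e ∈ Z, 0 < (fun _ : ℂ => r) e ∧ (fun _ : ℂ => r) e ≤ r := fun _ _ => ⟨hr, le_rfl⟩
  refine ⟨hr, ?_, fun μ 𝒞 S hS ha hl => ?_⟩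
  · rintro z (⟨e, he, ⟨⟨a1, a2⟩, a3, a4⟩, hb⟩ | hz)
    · obtain ⟨k1, k2, k3, k4⟩ := hm e he
      refine ⟨⟨⟨by linarith, by linarith⟩, by linarith, by linarith⟩, fun w hw => ?_⟩
      rcases lt_trichotomy e.re w.re with h | h | h
      · have := (hsep e he w hw).1 h
        exact Or.inl (le_abs.2 (Or.inr (by linarith)))
      · rcases lt_trichotomy e.im w.im with h' | h' | h'
        · have := (hsep e he w hw).2 h'
          exact Or.inr (le_abs.2 (Or.inr (by linarith)))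
        · rcases hb with g | g | g | g
          · exact Or.inl (le_abs.2 (Or.inr (by linarith)))
          · exact Or.inl (le_abs.2 (Or.inl (by linarith)))
          · exact Or.inr (le_abs.2 (Or.inr (by linarith)))
          · exact Or.inr (le_abs.2 (Or.inl (by linarith)))
        · have := (hsep w hw e he).2 h'
          exact Or.inr (le_abs.2 (Or.inl (by linarith)))
      · have := (hsep w hw e he).1 h
        exact Or.inl (le_abs.2 (Or.inl (by linarith)))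
    · exact rg_fr (S := Pf Z r) hδ hm (fun z hz h => ⟨hz, h⟩) hz
  · have := rg_ind ha hl Z hsep hδ _ _ _ _ (by linarith) (by linarith) hm
      fun z hz h => hS ⟨hz, h⟩
    rw [BM, neg_sub]
    exact this

end

end Pool.Agent.Lib.MP_5591bc_ag.Cu
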