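import Pool.Agent.Lib.MP_5591bc_ag.Cu.Pair
import Pool.Agent.Lib.MP_5591bc_ag.Cu.RectG

/-! The conjugate of the first relation of Riemann. -/

namespace Pool.Agent.Lib.MP_5591bc_ag.Cu

open Polynomial Set Filter Topology Matrix Complex Asymptotics G M
open scoped Polynomial.Bivariate

noncomputable section

variable {f : ℂ[X][Y]} {d : ℂ[X]} {S S1 : Set ℂ} {Z Z' : Finset ℂ} {x : ℂ} {β : ℂ → ℂ}
  {a a' b b' G H H' W W' Φ Φ' Γ η φ ψ : ℂ × ℂ → ℂ} {F F' Ψ : ℂ → ℂ} {s t u v r ρ : ℝ} {L : ℂ}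
  {μ : ℝ → ℝ → ℝ → ℝ → ℂ} {𝒞 : AddSubmonoid ℂ} {ν : Type*} [Fintype ν]

/-- the mixed pairing in terms of local primitives -/
theorem re3_mu (hf : Sep f S) (hs : s ≤ t) (hu : u ≤ v) (h : frx s t u v ⊆ S) (hW : Pr f W a S)
    (hH : Pr f H b S) (hW' : Pr f W' a' S) (hH' : Pr f H' b' S) (hΦ : Pr2 f Φ b a S)
    (hΦ' : Pr2 f Φ' b' a' S) : bx (Tr f fun p => Φ p * b' p) s t u v -
      star (bx (Tr f fun p => star (Φ' p) * a p) s t u v) =
    bx (Tr f fun p => H p * b' p) s t u v + star (bx (Tr f fun p => W' p * a p) s t u v) := by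
  rw [(bx_phi hf hs hu h hΦ hH hW hH').1, (bx_phi hf hs hu h hΦ' hH' hW' hW).2, star_sub]
  linear_combination (-1) * bx_parts2 hf hs hu h hW hH'

theorem re3_addv {μ' : ℝ → ℝ → ℝ → ℝ → ℂ} (h : Addv μ S) (h' : Addv μ' S) :
    Addv (fun s t u v => μ s t u v - star (μ' s t u v)) S := by
  refine ⟨fun s m t a b h1 h2 h3 h4 h5 => ?_, fun s t a m b h1 h2 h3 h4 h5 => ?_⟩
  · beta_reduce
    rw [h.1 s m t a b h1 h2 h3 h4 h5, h'.1 s m t a b h1 h2 h3 h4 h5, star_add]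
    ring
  · beta_reduce
    rw [h.2 s t a m b h1 h2 h3 h4 h5, h'.2 s t a m b h1 h2 h3 h4 h5, star_add]
    ring

theorem re3_locv (hf : Sep f S) (ha : HolC f a S) (hb : HolC f b S) (ha' : HolC f a' S)
    (hb' : HolC f b' S) (hΦ : Pr2 f Φ b a S) (hΦ' : Pr2 f Φ' b' a' S) :
    Locv (fun s t u v => bx (Tr f fun p => Φ p * b' p) s t u v -
      star (bx (Tr f fun p => star (Φ' p) * a p) s t u v)) ⊥ S := by
  intro x hx
  obtain ⟨r1, p1, q1, W, hW⟩ := prb hf ha hx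
  obtain ⟨r2, p2, -, H, hH⟩ := prb hf hb hx
  obtain ⟨r3, p3, -, W', hW'⟩ := prb hf ha' hx
  obtain ⟨r4, p4, -, H', hH'⟩ := prb hf hb' hx
  refine ⟨min (min r1 r2) (min r3 r4), lt_min (lt_min p1 p2) (lt_min p3 p4),
    fun s t u v hs hu h => ?_⟩
  set B := Metric.ball x (min (min r1 r2) (min r3 r4)) with hB
  have e1 : B ⊆ Metric.ball x r1 :=
    Metric.ball_subset_ball ((min_le_left _ _).trans (min_le_left _ _))
  have e2 : B ⊆ Metric.ball x r2 :=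
    Metric.ball_subset_ball ((min_le_left _ _).trans (min_le_right _ _))
  have e3 : B ⊆ Metric.ball x r3 :=
    Metric.ball_subset_ball ((min_le_right _ _).trans (min_le_left _ _))
  have e4 : B ⊆ Metric.ball x r4 :=
    Metric.ball_subset_ball ((min_le_right _ _).trans (min_le_right _ _))
  have ho : IsOpen B := Metric.isOpen_ball
  have hS : B ⊆ S := e1.trans q1
  have hf' : Sep f B := hf.mono ho hS
  have hfr : frx s t u v ⊆ B := fun z hz => h hz.1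
  have z1 : bx (Tr f fun p => H p * b' p) s t u v = 0 := bx_hol hs hu fun z hz =>
    (tr_an hf' ((Pr.hol ho (hH.mono e2)).1.mul (hb'.mono hS)) (h hz)).differentiableAt
  have z2 : bx (Tr f fun p => W' p * a p) s t u v = 0 := bx_hol hs hu fun z hz =>
    (tr_an hf' ((Pr.hol ho (hW'.mono e3)).1.mul (ha.mono hS)) (h hz)).differentiableAt
  rw [AddSubmonoid.mem_bot]
  beta_reduce
  rw [re3_mu hf' hs hu hfr (hW.mono e1) (hH.mono e2) (hW'.mono e3) (hH'.mono e4) (hΦ.mono hS)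
    (hΦ'.mono hS), z1, z2, star_zero, add_zero]

theorem re3_bm {μ1 μ2 : ℝ → ℝ → ℝ → ℝ → ℂ} (hr : 0 < r) (h : FR Z r ⊆ S)
    (he : ∀ s t u v, s ≤ t → u ≤ v → frx s t u v ⊆ S →
      μ s t u v = μ1 s t u v + star (μ2 s t u v)) :
    BM Z r μ = BM Z r μ1 + star (BM Z r μ2) := by
  have h1 : ∀ e ∈ Z, sq μ e r = sq μ1 e r + star (sq μ2 e r) := fun e he' =>
    he _ _ _ _ (by linarith) (by linarith) fun z hz => h (Or.inl ⟨e, he', hz⟩)
  have hr' : 0 < r⁻¹ := inv_pos.2 hr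
  have h2 : sq μ 0 r⁻¹ = sq μ1 0 r⁻¹ + star (sq μ2 0 r⁻¹) :=
    he _ _ _ _ (by linarith) (by linarith) fun z hz => h (Or.inr hz)
  unfold BM
  rw [Finset.sum_congr rfl h1, h2, Finset.sum_add_distrib, star_sub, star_sum]
  ring

theorem re3 (hf : Sep f (Z : Set ℂ)ᶜ) (hρ : Adm Z ρ) (ha : HolC f a (Z : Set ℂ)ᶜ)
    (hb : HolC f b (Z : Set ℂ)ᶜ) (ha' : HolC f a' (Z : Set ℂ)ᶜ) (hb' : HolC f b' (Z : Set ℂ)ᶜ)
    (hW : Pr f W a (col Z ρ)) (hH : Pr f H b (col Z ρ)) (hW' : Pr f W' a' (col Z ρ))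
    (hH' : Pr f H' b' (col Z ρ)) (bW : Bd f Z W') (sa : Sm f Z a)
    (hΦ : Pr2 f Φ b a (Z : Set ℂ)ᶜ) (hΦ' : Pr2 f Φ' b' a' (Z : Set ℂ)ᶜ)
    (hL : ∀ᶠ r in 𝓝[>] (0 : ℝ), BB Z r (Tr f fun p => H p * b' p) = L) : L = 0 := by
  have c1 : ContinuousOn (Tr f fun p => Φ p * b' p) (Z : Set ℂ)ᶜ :=
    tr_cont hf ((Pr2.cont hf hΦ).mul (HolC.cont hf hb'))
  have c2 : ContinuousOn (Tr f fun p => star (Φ' p) * a p) (Z : Set ℂ)ᶜ :=
    tr_cont hf ((Pr2.cont hf hΦ').star.mul (HolC.cont hf ha))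
  have hA := re3_addv (bx_addv c1) (bx_addv c2)
  have hl := re3_locv hf ha hb ha' hb' hΦ hΦ'
  have hc : Sep f (col Z ρ) := hf.mono (col_open Z ρ) hρ.sub
  have key : ∀ᶠ r in 𝓝[>] (0 : ℝ), -star (BB Z r (Tr f fun p => W' p * a p)) = L := by
    filter_upwards [rect Z, fr_col (Z := Z) hρ.1, hL] with r h1 h2 h3
    have h4 := h1.2.2 _ ⊥ _ (pf_sub h1.1) hA hl
    rw [AddSubmonoid.mem_bot, neg_eq_zero, re3_bm h1.1 h2 fun s t u v hs hu h =>
      re3_mu hc hs hu h hW hH hW' hH' (hΦ.mono hρ.sub) (hΦ'.mono hρ.sub)] at h4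
    rw [← h3]
    exact (eq_neg_of_add_eq_zero_left h4).symm
  have lim := (smb hf.mon sa bW).star.neg
  rw [star_zero, neg_zero] at lim
  exact tendsto_nhds_unique (tendsto_const_nhds.congr' (key.mono fun r h => h.symm)) lim

end

end Pool.Agent.Lib.MP_5591bc_ag.Cu
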