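import Pool.Agent.Lib.MP_5591bc_ag.Cu.FibX
import Pool.Agent.Lib.MP_5591bc_ag.Cu.Re3

/-! The period matrix of a fibre is a polarised Hodge structure. -/

namespace Pool.Agent.Lib.MP_5591bc_ag.Cu

open Polynomial Set Filter Topology Matrix Complex Asymptotics G M A B
open scoped Polynomial.Bivariate

noncomputable section

variable {ν : Type*} [Fintype ν] [DecidableEq ν] {w : ν → ℕ} {M Λ : Matrix ν ν ℂ}
  {f : ℂ[X][Y]} {d : ℂ[X]} {m : ℕ} {A : ν → ℂ[X][Y]} {ρ : ℝ}


theorem Fb.pol (h : Fb f d m A w M) (hΛ : IsLam f (rts d) (fun i => frm (A i) d m) Λ) :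
    ∃ J : Matrix ν ν ℝ, HS J 1 w M ∧ J.det ≠ 0 ∧ M * cx J * Mᵀ = -Λ := by
  obtain ⟨ρ, G, hρ, hG, hL⟩ := id hΛ
  have d0 : d ≠ 0 := h.md.ne_zero
  have hs : Sep f (col (rts d) ρ) := h.sep.mono (col_open _ _) hρ.sub
  have key : ∀ q r : ν → ℂ, ∀ᶠ t in 𝓝[>] (0 : ℝ), BB (rts d) t
      (Tr f fun p => cmb r G p * cmb q (fun i => frm (A i) d m) p) = q ⬝ᵥ Λ *ᵥ r := fun q r => by
    filter_upwards [eventually_all.2 fun i => eventually_all.2 (hL i), fr_col (Z := rts d) hρ.1,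
      self_mem_nhdsWithin] with t h1 h2 h3
    rw [bb_cmb hs h3 h2 q r (fun k => ((hG k).hol (col_open _ _)).1)
      fun k => ((hG k).hol (col_open _ _)).2]
    congr 2
    ext i k
    exact h1 i k
  have hol : ∀ q : ν → ℂ, HolC f (cmb q fun i => frm (A i) d m) (rts d : Set ℂ)ᶜ := fun q =>
    holC_cmb q fun i => holC_frm _ _ d0
  have prm : ∀ r : ν → ℂ, Pr f (cmb r G) (cmb r fun i => frm (A i) d m) (col (rts d) ρ) :=
    fun r => pr_cmb r fun i _ => hG i
  refine pola h.fb.2.2.2.1 h.w1 h.half (lam_anti h.sep hΛ) (fun i k wi wk => ?_)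
    (fun q r hq q0 e => ?_) fun q r q' r' hq hq' e e' => ?_
  · obtain ⟨-, W, hW, bW⟩ := loch d0 h.sep hρ (h.fb.2.2.1 k wk)
    have k1 := lam_any h.sep hΛ hρ (G := Function.update G k W) (fun j => by
      rcases eq_or_ne j k with rfl | hj
      · rwa [Function.update_self]
      · rw [Function.update_of_ne hj]
        exact hG j) i k
    rw [Function.update_self] at k1
    exact tendsto_nhds_unique (tendsto_const_nhds.congr' (k1.mono fun _ e => e.symm))
      (smb h.mf (loch d0 h.sep hρ (h.fb.2.2.1 i wi)).1 bW)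
  · obtain ⟨sa, W, hW, bW⟩ := h.first hρ hq
    exact pos h.sep hρ (hol q) (hol r) hW (prm r) bW sa (h.phi e).choose_spec (h.ne q0)
      (key q r)
  · obtain ⟨sa, W, hW, -⟩ := h.first hρ hq
    obtain ⟨-, W', hW', bW⟩ := h.first hρ hq'
    exact re3 h.sep hρ (hol q) (hol r) (hol q') (hol r') hW (prm r) hW' (prm r') bW sa
      (h.phi e).choose_spec (h.phi e').choose_spec (key r' r)

end

end Pool.Agent.Lib.MP_5591bc_ag.Cu
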