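import Pool.Agent.Lib.MP_5591bc_ag.Cu.Set

/-! From small rectangles to perforated rectangles. -/

namespace Pool.Agent.Lib.MP_5591bc_ag.Cu

open Polynomial Set Filter Topology Matrix Complex Asymptotics G M
open scoped Polynomial.Bivariate

noncomputable section

variable {f : ℂ[X][Y]} {d : ℂ[X]} {S S1 : Set ℂ} {Z Z' : Finset ℂ} {x : ℂ} {β : ℂ → ℂ}
  {a a' b b' G H H' W W' Φ Φ' Γ η φ ψ : ℂ × ℂ → ℂ} {F F' Ψ : ℂ → ℂ} {s t u v r ρ : ℝ} {L : ℂ}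
  {μ : ℝ → ℝ → ℝ → ℝ → ℂ} {𝒞 : AddSubmonoid ℂ} {ν : Type*} [Fintype ν]


theorem rect_line {P : ℝ → ℝ → Prop} {ε : ℝ} (ε0 : 0 < ε) (hs : s ≤ t)
    (h0 : ∀ a b, s ≤ a → a ≤ b → b ≤ t → b - a ≤ ε → P a b)
    (h1 : ∀ m b, s ≤ m → m ≤ b → b ≤ t → P s m → P m b → P s b) : P s t := by
  have k : ∀ n : ℕ, ∀ b, s ≤ b → b ≤ t → b - s ≤ n * ε → P s b := by
    intro n
    induction n with
    | zero => exact fun b h2 h3 h4 => h0 s b le_rfl h2 h3 (by simp at h4; linarith)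
    | succ n ih =>
      intro b h2 h3 h4
      rcases le_total (b - s) ε with h5 | h5
      · exact h0 s b le_rfl h2 h3 h5
      · push_cast at h4
        exact h1 (b - ε) b (by linarith) (by linarith) h3
          (ih _ (by linarith) (by linarith) (by linarith))
          (h0 _ _ (by linarith) (by linarith) h3 (by linarith))
  obtain ⟨n, hn⟩ := exists_nat_ge ((t - s) / ε)
  exact k n t hs le_rfl ((div_le_iff₀ ε0).1 hn)

theorem rect_sub {a b c e : ℝ} (h1 : s ≤ a) (h2 : b ≤ t) (h3 : u ≤ c) (h4 : e ≤ v) :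
    rc a b c e ⊆ rc s t u v := fun _ hz =>
  ⟨⟨h1.trans hz.1.1, hz.1.2.trans h2⟩, h3.trans hz.2.1, hz.2.2.trans h4⟩

theorem rect0 (hs : s ≤ t) (hu : u ≤ v) (h : rc s t u v ⊆ S) (ha : Addv μ S) (hl : Locv μ 𝒞 S) :
    μ s t u v ∈ 𝒞 := by
  choose! R R0 hR using hl
  have hK : IsCompact (rc s t u v) := IsCompact.reProdIm isCompact_Icc isCompact_Icc
  obtain ⟨δ, δ0, hδ⟩ := lebesgue_number_lemma_of_metric (c := fun x : S => Metric.ball x.1 (R x))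
    hK (fun _ => Metric.isOpen_ball) fun z hz =>
      mem_iUnion.2 ⟨⟨z, h hz⟩, Metric.mem_ball_self (R0 z (h hz))⟩
  have k : ∀ {a b c e : ℝ}, s ≤ a → b ≤ t → u ≤ c → e ≤ v → frx a b c e ⊆ S :=
    fun h1 h2 h3 h4 z hz => h (rect_sub h1 h2 h3 h4 hz.1)
  refine rect_line (P := fun a b => μ a b u v ∈ 𝒞) (ε := δ / 3) (by linarith) hs
    (fun a b a1 a2 a3 a4 => ?_) fun m b a1 a2 a3 p q => ?_
  · refine rect_line (P := fun c e => μ a b c e ∈ 𝒞) (ε := δ / 3) (by linarith) hu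
      (fun c e c1 c2 c3 c4 => ?_) fun m e c1 c2 c3 p q => ?_
    · obtain ⟨x, hx⟩ := hδ ⟨a, c⟩ ⟨⟨a1, a2.trans a3⟩, c1, c2.trans c3⟩
      refine hR x x.2 a b c e a2 c2 fun z hz => hx ?_
      obtain ⟨⟨z1, z2⟩, z3, z4⟩ := hz
      rw [Metric.mem_ball, dist_eq_norm]
      refine (norm_le_abs_re_add_abs_im _).trans_lt ?_
      rw [sub_re, sub_im, abs_of_nonneg (sub_nonneg.2 z1), abs_of_nonneg (sub_nonneg.2 z3)]
      linarith
    · rw [ha.2 a b u m e a2 c1 c2 (k a1 a3 le_rfl (c2.trans c3)) (k a1 a3 c1 c3)]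
      exact add_mem p q
  · rw [ha.1 s m b u v a1 a2 hu (k le_rfl (a2.trans a3) le_rfl le_rfl) (k a1 a3 le_rfl le_rfl)]
    exact add_mem p q

theorem rect1 {s' t' u' v' : ℝ} (h1 : s ≤ s') (h2 : s' ≤ t') (h3 : t' ≤ t) (h4 : u ≤ u')
    (h5 : u' ≤ v') (h6 : v' ≤ v) (h : ∀ z ∈ rc s t u v,
      ¬ (s' < z.re ∧ z.re < t' ∧ u' < z.im ∧ z.im < v') → z ∈ S) (ha : Addv μ S)
    (hl : Locv μ 𝒞 S) : μ s t u v - μ s' t' u' v' ∈ 𝒞 := by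
  have k1 : ∀ {a b c e : ℝ}, s ≤ a → b ≤ t → u ≤ c → e ≤ v → a ≤ s' → t' ≤ b → c ≤ u' → v' ≤ e →
      frx a b c e ⊆ S := fun a1 a2 a3 a4 b1 b2 b3 b4 z hz =>
    h z (rect_sub a1 a2 a3 a4 hz.1) fun ⟨c1, c2, c3, c4⟩ => by
      rcases hz.2 with e | e | e | e <;> linarith
  have k2 : ∀ {a b c e : ℝ}, s ≤ a → b ≤ t → u ≤ c → e ≤ v →
      (b ≤ s' ∨ t' ≤ a ∨ e ≤ u' ∨ v' ≤ c) → rc a b c e ⊆ S := fun a1 a2 a3 a4 o z hz =>
    h z (rect_sub a1 a2 a3 a4 hz) fun ⟨c1, c2, c3, c4⟩ => by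
      obtain ⟨⟨z1, z2⟩, z3, z4⟩ := hz
      rcases o with e | e | e | e <;> linarith
  have s1 := h1.trans h2
  have s2 := h2.trans h3
  have u1 := h4.trans h5
  have u2 := h5.trans h6
  have u3 := h4.trans u2
  have r1 := k2 le_rfl s2 le_rfl le_rfl (.inl le_rfl)
  have r2 := k2 s1 le_rfl le_rfl le_rfl (.inr (.inl le_rfl))
  have r3 := k2 h1 h3 le_rfl u2 (.inr (.inr (.inl le_rfl)))
  have r4 := k2 h1 h3 u1 le_rfl (.inr (.inr (.inr le_rfl)))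
  rw [ha.1 s s' t u v h1 s2 u3 (fun z hz => r1 hz.1)
      (k1 h1 le_rfl le_rfl le_rfl le_rfl h3 h4 h6),
    ha.1 s' t' t u v h2 h3 u3 (k1 h1 h3 le_rfl le_rfl le_rfl le_rfl h4 h6) (fun z hz => r2 hz.1),
    ha.2 s' t' u u' v h2 h4 u2 (fun z hz => r3 hz.1) (k1 h1 h3 h4 le_rfl le_rfl le_rfl le_rfl h6),
    ha.2 s' t' u' v' v h2 h5 h6 (k1 h1 h3 h4 h6 le_rfl le_rfl le_rfl le_rfl) (fun z hz => r4 hz.1)]
  convert add_mem (add_mem (rect0 h1 u3 r1 ha hl) (rect0 h3 u3 r2 ha hl))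
    (add_mem (rect0 h2 h4 r3 ha hl) (rect0 h2 h6 r4 ha hl)) using 1
  ring

end

end Pool.Agent.Lib.MP_5591bc_ag.Cu
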