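import Pool.Agent.Lib.MP_5591bc_ag.Cu.Pair
import Pool.Agent.Lib.MP_5591bc_ag.Cu.Rect

/-! The pairing does not depend on the squares and on the primitives. -/

namespace Pool.Agent.Lib.MP_5591bc_ag.Cu

open Polynomial Set Filter Topology Matrix Complex Asymptotics G M
open scoped Polynomial.Bivariate

noncomputable section

variable {f : ℂ[X][Y]} {d : ℂ[X]} {S S1 : Set ℂ} {Z Z' : Finset ℂ} {x : ℂ} {β : ℂ → ℂ}
  {a a' b b' G H H' W W' Φ Φ' Γ η φ ψ : ℂ × ℂ → ℂ} {F F' Ψ : ℂ → ℂ} {s t u v r ρ : ℝ} {L : ℂ}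
  {μ : ℝ → ℝ → ℝ → ℝ → ℂ} {𝒞 : AddSubmonoid ℂ} {ν : Type*} [Fintype ν]

theorem ind_ann {s' t' u' v' : ℝ} (ho : IsOpen S) (hF : ∀ x ∈ S, DifferentiableAt ℂ F x)
    (h1 : s ≤ s') (h2 : s' ≤ t') (h3 : t' ≤ t) (h4 : u ≤ u') (h5 : u' ≤ v') (h6 : v' ≤ v)
    (h : ∀ z ∈ rc s t u v, ¬ (s' < z.re ∧ z.re < t' ∧ u' < z.im ∧ z.im < v') → z ∈ S) :
    bx F s t u v = bx F s' t' u' v' :=
  sub_eq_zero.1 (AddSubmonoid.mem_bot.1 (rect1 h1 h2 h3 h4 h5 h6 h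
    (bx_addv fun x hx => (hF x hx).continuousAt.continuousWithinAt) fun x hx => by
      obtain ⟨r, r0, hr⟩ := Metric.isOpen_iff.1 ho x hx
      exact ⟨r, r0, fun s t a b hs ha k =>
        AddSubmonoid.mem_bot.2 (bx_hol hs ha fun z hz => hF z (hr (k hz)))⟩))

theorem ind_near {z e : ℂ} (h3 : 3 * r ≤ ρ) (hn : ‖e - z‖ < r) (he : e ∈ Z') (hx : x ∈ sq rc z r)
    (x0 : x ≠ e) : x ∈ col Z' ρ := by
  refine dn_col (o := some e) (Finset.some_mem_insertNone.2 he) ⟨x0, ?_⟩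
  have h1 : |(x - z).re| ≤ r := by
    rw [sub_re, abs_le]
    constructor <;> linarith [hx.1.1, hx.1.2]
  have h2 : |(x - z).im| ≤ r := by
    rw [sub_im, abs_le]
    constructor <;> linarith [hx.2.1, hx.2.2]
  have h4 := norm_sub_le (x - z) (e - z)
  rw [sub_sub_sub_cancel_right] at h4
  linarith [norm_le_abs_re_add_abs_im (x - z)]

theorem ind_far (hr : 0 < r) (h3 : 3 * r ≤ ρ) (hx : r⁻¹ ≤ |x.re| ∨ r⁻¹ ≤ |x.im|) :
    x ∈ col Z' ρ := by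
  refine dn_col (o := none) Finset.none_mem_insertNone ((inv_strictAnti₀ hr (by linarith)).trans_le ?_)
  exact hx.elim (·.trans (abs_re_le_norm x)) (·.trans (abs_im_le_norm x))

theorem ind_ev (h : Adm Z' ρ) (hF : ∀ x ∈ col Z' ρ, DifferentiableAt ℂ F x) (hr : 0 < r)
    (h3 : 3 * r ≤ ρ) {e : ℂ → ℂ} (he : BijOn e Z Z') (hn : ∀ z ∈ Z, ‖e z - z‖ < r) :
    ∀ᶠ r' in 𝓝[>] (0 : ℝ), BB Z r F = BB Z' r' F := by
  have k1 : ∀ᶠ r' in 𝓝[>] (0 : ℝ), ∀ z ∈ Z, r' < r - ‖e z - z‖ :=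
    (eventually_all_finset Z).2 fun z hz =>
      nhdsWithin_le_nhds (gt_mem_nhds (sub_pos.2 (hn z hz)))
  filter_upwards [k1, nhdsWithin_le_nhds (gt_mem_nhds hr), self_mem_nhdsWithin] with r' k k2 k0
  have k0 : 0 < r' := k0
  have k3 : r⁻¹ ≤ r'⁻¹ := inv_anti₀ k0 k2.le
  have k4 := inv_pos.2 hr
  refine congrArg₂ (· - ·) (Finset.sum_nbij e he.1 he.2.1 he.2.2 fun z hz => ?_) (Eq.symm ?_)
  · have a1 := abs_le.1 (abs_re_le_norm (e z - z))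
    have a2 := abs_le.1 (abs_im_le_norm (e z - z))
    rw [sub_re] at a1
    rw [sub_im] at a2
    have := k z hz
    refine ind_ann (col_open _ _) hF (by linarith) (by linarith) (by linarith) (by linarith)
      (by linarith) (by linarith) fun x hx c => ind_near h3 (hn z hz) (he.1 hz) hx ?_
    rintro rfl
    exact c ⟨by linarith, by linarith, by linarith, by linarith⟩
  · refine ind_ann (col_open _ _) hF (by linarith) (by linarith) (by linarith) (by linarith)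
      (by linarith) (by linarith) fun x _ c => ind_far hr h3 ?_
    by_contra c'
    rw [not_or, not_le, not_le, abs_lt, abs_lt] at c'
    simp only [zero_re, zero_im, zero_sub, zero_add] at c
    exact c ⟨c'.1.1, c'.1.2, c'.2.1, c'.2.2⟩

theorem lamx (h : Adm Z ρ) (hF : ∀ x ∈ col Z ρ, DifferentiableAt ℂ F x) :
    ∃ L, ∀ᶠ r in 𝓝[>] (0 : ℝ), BB Z r F = L := by
  have r0 : 0 < ρ / 3 := by linarith [h.1]
  exact ⟨_, (ind_ev h hF r0 (by linarith) (bijOn_id _) fun z _ => by simpa using r0).mono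
    fun _ e => e.symm⟩

theorem bbi (h : Adm Z' ρ) (hF : ∀ x ∈ col Z' ρ, DifferentiableAt ℂ F x) (hr : 0 < r)
    (h3 : 3 * r ≤ ρ) {e : ℂ → ℂ} (he : BijOn e Z Z') (hn : ∀ z ∈ Z, ‖e z - z‖ < r)
    (hL : ∀ᶠ r' in 𝓝[>] (0 : ℝ), BB Z' r' F = L) : FR Z r ⊆ col Z' ρ ∧ BB Z r F = L := by
  obtain ⟨r', e1, e2⟩ := ((ind_ev h hF hr h3 he hn).and hL).exists
  refine ⟨?_, e1.trans e2⟩
  rintro x (⟨z, hz, hx, c⟩ | ⟨-, c⟩)
  · refine ind_near h3 (hn z hz) (he.1 hz) hx ?_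
    rintro rfl
    have a1 := abs_lt.1 ((abs_re_le_norm (e z - z)).trans_lt (hn z hz))
    have a2 := abs_lt.1 ((abs_im_le_norm (e z - z)).trans_lt (hn z hz))
    rw [sub_re] at a1
    rw [sub_im] at a2
    rcases c with c | c | c | c <;> linarith [a1.1, a1.2, a2.1, a2.2]
  · refine ind_far hr h3 ?_
    simp only [zero_re, zero_im, zero_sub, zero_add] at c
    rcases c with c | c | c | c
    · exact .inl (le_abs.2 (.inr (by rw [c, neg_neg])))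
    · exact .inl (le_abs.2 (.inl c.ge))
    · exact .inr (le_abs.2 (.inr (by rw [c, neg_neg])))
    · exact .inr (le_abs.2 (.inl c.ge))

theorem lam_any (hf : Sep f (Z : Set ℂ)ᶜ) {a G : ν → ℂ × ℂ → ℂ} {Λ : Matrix ν ν ℂ}
    (h : IsLam f Z a Λ) (hρ : Adm Z ρ) (hG : ∀ k, Pr f (G k) (a k) (col Z ρ)) (i k : ν) :
    ∀ᶠ r in 𝓝[>] (0 : ℝ), BB Z r (Tr f fun p => G k p * a i p) = Λ i k := by
  obtain ⟨ρ', G', h1, h2, h3⟩ := h
  have m0 := lt_min hρ.1 h1.1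
  have s1 := col_mono (Z := Z) m0 (min_le_left ρ ρ')
  have s2 := col_mono (Z := Z) m0 (min_le_right ρ ρ')
  have hs := hf.mono (col_open _ _) (s1.trans hρ.sub)
  filter_upwards [h3 i k, fr_col (Z := Z) m0, self_mem_nhdsWithin] with r e c r0
  rw [bb_parts hs r0 c ((hG k).mono s1) ((h2 i).mono s2),
    ← bb_parts hs r0 c ((h2 k).mono s2) ((h2 i).mono s2), e]

theorem lam_anti (hf : Sep f (Z : Set ℂ)ᶜ) {a : ν → ℂ × ℂ → ℂ} {Λ : Matrix ν ν ℂ}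
    (h : IsLam f Z a Λ) : Λᵀ = -Λ := by
  obtain ⟨ρ, G, h1, h2, h3⟩ := h
  ext i k
  obtain ⟨r, ⟨e1, e2⟩, c, r0⟩ := (((h3 i k).and (h3 k i)).and ((fr_col (Z := Z) h1.1).and
    self_mem_nhdsWithin)).exists
  rw [transpose_apply, Matrix.neg_apply, ← e1, ← e2]
  exact bb_parts (hf.mono (col_open _ _) h1.sub) r0 c (h2 i) (h2 k)

theorem lam_ex (hf : Sep f (Z : Set ℂ)ᶜ) {a G : ν → ℂ × ℂ → ℂ} (hρ : Adm Z ρ)
    (hG : ∀ k, Pr f (G k) (a k) (col Z ρ)) : ∃ Λ, IsLam f Z a Λ := by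
  have o := col_open Z ρ
  choose Λ hΛ using fun i k => lamx hρ fun x hx => (tr_an (hf.mono o hρ.sub)
    (((hG k).hol o).1.mul ((hG i).hol o).2) hx).differentiableAt
  exact ⟨of Λ, ρ, G, hρ, hG, hΛ⟩

end

end Pool.Agent.Lib.MP_5591bc_ag.Cu
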