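import Pool.Agent.Lib.MP_5591bc_ag.Cu.Set
import Pool.Agent.Lib.MP_5591bc_ag.B.HsA

/-! The polarisation from the three relations. -/

namespace Pool.Agent.Lib.MP_5591bc_ag.Cu

open Polynomial Set Filter Topology Matrix Complex Asymptotics G M A B
open scoped Polynomial.Bivariate

noncomputable section

variable {ν : Type*} [Fintype ν] [DecidableEq ν] {w : ν → ℕ} {M Λ : Matrix ν ν ℂ}
  {f : ℂ[X][Y]} {d : ℂ[X]} {m : ℕ} {A : ν → ℂ[X][Y]} {ρ : ℝ}

theorem pa_fil (w1 : ∀ i, w i ≤ 1) {v : ν → ℂ} :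
    v ∈ Fil w M 1 ↔ ∃ q : ν → ℂ, (∀ i, q i ≠ 0 → w i = 1) ∧ v = q ᵥ* M := by
  rw [hsa_fil]
  constructor
  · rintro ⟨c, rfl⟩
    refine ⟨c ᵥ* Ew w 1, fun i hi => ?_, by rw [vecMul_vecMul]⟩
    by_contra k
    have := w1 i
    exact hi (by rw [Ew, vecMul_diagonal, if_neg (by omega), mul_zero])
  · rintro ⟨q, hq, rfl⟩
    refine ⟨q, ?_⟩
    rw [← vecMul_vecMul]
    congr 1
    ext i
    rw [Ew, vecMul_diagonal]
    split_ifs with k
    · rw [mul_one]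
    · rw [mul_zero]
      by_contra e
      exact k (hq i e).ge

theorem pa_sur (h0 : M.det ≠ 0) (v : ν → ℂ) : ∃ q, q ᵥ* M = v :=
  ⟨v ᵥ* M⁻¹, by rw [vecMul_vecMul, nonsing_inv_mul _ h0.isUnit, vecMul_one]⟩

theorem pa_top (h0 : M.det ≠ 0) (v : ν → ℂ) : v ∈ Fil w M 0 := by
  obtain ⟨q, rfl⟩ := pa_sur h0 v
  refine hsa_fil.2 ⟨q, ?_⟩
  simp [Ew]

theorem pa_dec (h0 : M.det ≠ 0) (w1 : ∀ i, w i ≤ 1) (half : 2 * ∑ i, w i = Fintype.card ν)
    (h : ∀ u ∈ Fil w M 1, star u ∈ Fil w M 1 → u = 0) (v : ν → ℂ) :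
    ∃ a ∈ Fil w M 1, ∃ b ∈ Fil w M 1, v = a + star b := by
  obtain ⟨N, hN⟩ : ∃ N : Matrix {i // w i = 1} ν ℂ, N = M.submatrix Subtype.val id := ⟨_, rfl⟩
  have mem : ∀ c, c ᵥ* N ∈ Fil w M 1 := fun c => by
    rw [vecMul_eq_sum]
    exact Submodule.sum_mem _ fun i _ => Submodule.smul_mem _ _
      (Submodule.subset_span ⟨i.1, i.2.ge, by rw [hN]; rfl⟩)
  have inj : ∀ c, c ᵥ* N = 0 → c = 0 := fun c e => by
    have li : LinearIndependent ℂ N.row := by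
      rw [hN]
      exact (linearIndependent_rows_iff_isUnit.2 ((isUnit_iff_isUnit_det _).2 h0.isUnit)).comp
        Subtype.val Subtype.val_injective
    exact vecMul_injective_iff.2 li (by simpa using e)
  have st : ∀ c, c ᵥ* N.map star = star (star c ᵥ* N) := fun c => by
    ext k
    simp [vecMul, dotProduct, star_sum]
  have hc : Fintype.card {i // w i = 1} = ∑ i, w i := by
    rw [Fintype.card_subtype, Finset.card_filter]
    refine Finset.sum_congr rfl fun i _ => ?_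
    have := w1 i
    split_ifs <;> omega
  have hi : Function.Injective (N.vecMulLinear.coprod (N.map star).vecMulLinear) := by
    rw [injective_iff_map_eq_zero]
    rintro ⟨c, c'⟩ e
    simp only [LinearMap.coprod_apply, vecMulLinear_apply, st] at e
    have e1 := h _ (mem (star c')) (by
      rw [eq_neg_of_add_eq_zero_right e]; exact Submodule.neg_mem _ (mem c))
    rw [e1, star_zero, add_zero] at e
    exact Prod.ext (inj c e) (star_eq_zero.1 (inj _ e1))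
  obtain ⟨⟨c, c'⟩, e⟩ := (LinearMap.injective_iff_surjective_of_finrank_eq_finrank (by
    simp only [Module.finrank_prod, Module.finrank_fintype_fun_eq_card, hc]; omega)).1 hi v
  simp only [LinearMap.coprod_apply, vecMulLinear_apply, st] at e
  exact ⟨_, mem c, _, mem _, e.symm⟩

theorem hda (h0 : M.det ≠ 0) (w1 : ∀ i, w i ≤ 1) (half : 2 * ∑ i, w i = Fintype.card ν)
    (h : ∀ q q' : ν → ℂ, (∀ i, q i ≠ 0 → w i = 1) → (∀ i, q' i ≠ 0 → w i = 1) →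
      q' ᵥ* M = star (q ᵥ* M) → q = 0) {k : ν → ℂ} (hk : star k = k)
    (e : ∀ i, w i = 1 → (M *ᵥ k) i = 0) : k = 0 := by
  have z : ∀ a ∈ Fil w M 1, a ⬝ᵥ k = 0 := fun a ha => by
    obtain ⟨q, hq, rfl⟩ := (pa_fil w1).1 ha
    rw [← dotProduct_mulVec]
    refine Finset.sum_eq_zero fun i _ => ?_
    by_cases c : q i = 0
    · rw [c, zero_mul]
    · rw [e i (hq i c), mul_zero]
  refine dotProduct_eq_zero_iff.1 fun v => ?_
  obtain ⟨a, ha, b, hb, rfl⟩ := pa_dec h0 w1 half (fun u hu hu' => by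
    obtain ⟨q, hq, rfl⟩ := (pa_fil w1).1 hu
    obtain ⟨q', hq', e'⟩ := (pa_fil w1).1 hu'
    rw [h q q' hq hq' e'.symm, zero_vecMul]) v
  have : star b ⬝ᵥ k = star (b ⬝ᵥ k) := by
    conv_lhs => rw [← hk]
    simp [dotProduct, star_sum]
  rw [dotProduct_comm, add_dotProduct, this, z a ha, z b hb, star_zero, add_zero]

omit [DecidableEq ν] in
theorem pa_anti {L : Matrix ν ν ℂ} (h : Lᵀ = -L) (u v : ν → ℂ) :
    u ⬝ᵥ L *ᵥ v = -(v ⬝ᵥ L *ᵥ u) := by
  rw [dotProduct_mulVec, ← mulVec_transpose, h, neg_mulVec, neg_dotProduct, dotProduct_comm]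

omit [DecidableEq ν] in
/-- an alternating form with the three relations is real -/
theorem pa_real {L : Matrix ν ν ℂ} {F : Submodule ℂ (ν → ℂ)} (h : Lᵀ = -L)
    (dec : ∀ v, ∃ a ∈ F, ∃ b ∈ F, v = a + star b)
    (s1 : ∀ a ∈ F, ∀ b ∈ F, a ⬝ᵥ L *ᵥ b = 0) (s2 : ∀ a ∈ F, (a ⬝ᵥ L *ᵥ star a).re = 0)
    (s3 : ∀ a ∈ F, ∀ b ∈ F, star a ⬝ᵥ L *ᵥ star b = 0) (u v : ν → ℂ) :
    star u ⬝ᵥ L *ᵥ star v = star (u ⬝ᵥ L *ᵥ v) := by
  have pol : ∀ a ∈ F, ∀ b ∈ F, b ⬝ᵥ L *ᵥ star a = -star (a ⬝ᵥ L *ᵥ star b) := by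
    intro a ha b hb
    have e1 := s2 _ (F.add_mem ha hb)
    have e2 := s2 _ (F.add_mem ha (F.smul_mem I hb))
    have e3 := s2 a ha
    have e4 := s2 b hb
    simp only [star_add, star_smul, mulVec_add, mulVec_smul, add_dotProduct, dotProduct_add,
      smul_dotProduct, dotProduct_smul, smul_eq_mul] at e1 e2
    simp only [Complex.star_def, conj_I, add_re, mul_re, neg_re, neg_im, I_re, I_im, mul_im, add_im,
      e3, e4] at e1 e2
    apply Complex.ext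
    · simp only [neg_re, Complex.star_def, conj_re]; linarith
    · simp only [neg_im, Complex.star_def, conj_im]; linarith
  obtain ⟨a, ha, b, hb, rfl⟩ := dec u
  obtain ⟨a', ha', b', hb', rfl⟩ := dec v
  simp only [star_add, star_star, mulVec_add, add_dotProduct, dotProduct_add, s1 a ha a' ha',
    s1 b hb b' hb', s3 a ha a' ha', s3 b hb b' hb', star_zero, zero_add, add_zero]
  rw [pa_anti h (star a), pa_anti h (star b), pol a ha b' hb', pol a' ha' b hb, star_neg]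
  ring

open scoped ComplexOrder in
theorem pola (h0 : M.det ≠ 0) (w1 : ∀ i, w i ≤ 1) (half : 2 * ∑ i, w i = Fintype.card ν)
    (anti : Λᵀ = -Λ) (r1 : ∀ i k, w i = 1 → w k = 1 → Λ i k = 0)
    (r2 : ∀ q r : ν → ℂ, (∀ i, q i ≠ 0 → w i = 1) → q ≠ 0 → r ᵥ* M = star (q ᵥ* M) →
      (q ⬝ᵥ Λ *ᵥ r).re = 0 ∧ 0 < (q ⬝ᵥ Λ *ᵥ r).im)
    (r3 : ∀ q r q' r' : ν → ℂ, (∀ i, q i ≠ 0 → w i = 1) → (∀ i, q' i ≠ 0 → w i = 1) →
      r ᵥ* M = star (q ᵥ* M) → r' ᵥ* M = star (q' ᵥ* M) → r' ⬝ᵥ Λ *ᵥ r = 0) :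
    ∃ J : Matrix ν ν ℝ, HS J 1 w M ∧ J.det ≠ 0 ∧ M * cx J * Mᵀ = -Λ := by
  obtain ⟨L, hL⟩ : ∃ L, L = -(M⁻¹ * Λ * M⁻¹ᵀ) := ⟨_, rfl⟩
  have e0 : M * L * Mᵀ = -Λ := by
    rw [hL, Matrix.mul_neg, Matrix.neg_mul, ← Matrix.mul_assoc, ← Matrix.mul_assoc,
      mul_nonsing_inv _ h0.isUnit, Matrix.one_mul, Matrix.mul_assoc, ← transpose_mul,
      mul_nonsing_inv _ h0.isUnit, transpose_one, Matrix.mul_one]
  have La : Lᵀ = -L := by
    rw [hL, transpose_neg, transpose_mul, transpose_mul, transpose_transpose, anti,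
      Matrix.neg_mul, Matrix.mul_neg, Matrix.mul_assoc]
  have frm : ∀ q r : ν → ℂ, (q ᵥ* M) ⬝ᵥ L *ᵥ (r ᵥ* M) = -(q ⬝ᵥ Λ *ᵥ r) := fun q r => by
    rw [← dotProduct_mulVec, ← mulVec_transpose M r, mulVec_mulVec, mulVec_mulVec, e0, neg_mulVec,
      dotProduct_neg]
  have s1 : ∀ a ∈ Fil w M 1, ∀ b ∈ Fil w M 1, a ⬝ᵥ L *ᵥ b = 0 := fun a ha b hb => by
    obtain ⟨q, hq, rfl⟩ := (pa_fil w1).1 ha
    obtain ⟨r, hr, rfl⟩ := (pa_fil w1).1 hb
    rw [frm, neg_eq_zero]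
    refine Finset.sum_eq_zero fun i _ => ?_
    by_cases c : q i = 0
    · rw [c, zero_mul]
    · refine mul_eq_zero_of_right _ (Finset.sum_eq_zero fun k _ => ?_)
      by_cases c' : r k = 0
      · rw [c', mul_zero]
      · exact mul_eq_zero_of_left (r1 i k (hq i c) (hr k c')) _
  have s2 : ∀ a ∈ Fil w M 1, a ≠ 0 → (a ⬝ᵥ L *ᵥ star a).re = 0 ∧ (a ⬝ᵥ L *ᵥ star a).im < 0 :=
    fun a ha a0 => by
      obtain ⟨q, hq, rfl⟩ := (pa_fil w1).1 ha
      obtain ⟨r, hr⟩ := pa_sur h0 (star (q ᵥ* M))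
      obtain ⟨x, y⟩ := r2 q r hq (fun e => a0 (by rw [e, zero_vecMul])) hr
      rw [← hr, frm, neg_re, neg_im, x]
      exact ⟨neg_zero, by linarith⟩
  have s3 : ∀ a ∈ Fil w M 1, ∀ b ∈ Fil w M 1, star a ⬝ᵥ L *ᵥ star b = 0 := fun a ha b hb => by
    obtain ⟨q, hq, rfl⟩ := (pa_fil w1).1 ha
    obtain ⟨q', hq', rfl⟩ := (pa_fil w1).1 hb
    obtain ⟨r, hr⟩ := pa_sur h0 (star (q ᵥ* M))
    obtain ⟨r', hr'⟩ := pa_sur h0 (star (q' ᵥ* M))
    rw [← hr, ← hr', frm, r3 q' r' q r hq' hq hr' hr, neg_zero]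
  have dec := pa_dec h0 w1 half fun u hu hu' => by
    by_contra u0
    have := (s2 u hu u0).2
    rw [s1 u hu _ hu'] at this
    exact lt_irrefl _ this
  have re := pa_real La dec s1 (fun a ha => by
    by_cases a0 : a = 0
    · simp [a0]
    · exact (s2 a ha a0).1) s3
  have cxJ : cx (rp L) = L := by
    ext i k
    have := re (Pi.single i 1) (Pi.single k 1)
    simp only [Pi.star_single, star_one, single_one_dotProduct, mulVec_single_one, col_apply]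
      at this
    exact Complex.conj_eq_iff_re.1 this.symm
  have pos : ∀ a ∈ Fil w M 1, a ≠ 0 → 0 < I * (a ⬝ᵥ L *ᵥ star a) := fun a ha a0 => by
    obtain ⟨x, y⟩ := s2 a ha a0
    rw [Complex.lt_def]
    simp [x, y]
  have hs : HS (rp L) 1 w M := by
    refine ⟨w1, ?_, ?_, fun i a hia => ?_, fun p hp v hv v0 => ?_⟩
    · ext i k
      have := congrArg Complex.re (congrFun (congrFun La i) k)
      simpa using this
    · refine eq_top_iff.2 fun v _ => ?_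
      obtain ⟨a, ha, b, hb, rfl⟩ := dec v
      refine Submodule.add_mem _ (Submodule.subset_span ?_) (Submodule.subset_span ?_)
      · exact mem_iUnion₂.2 ⟨1, le_rfl, ha, pa_top h0 _⟩
      · exact mem_iUnion₂.2 ⟨0, zero_le_one, pa_top h0 _, by rwa [star_star]⟩
    · have e1 := w1 i
      have e2 := w1 a
      change _ ⬝ᵥ cx (rp L) *ᵥ _ = 0
      rw [cxJ]
      exact s1 _ (Submodule.subset_span ⟨i, by omega, rfl⟩) _
        (Submodule.subset_span ⟨a, by omega, rfl⟩)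
    · change 0 < _ * (_ ⬝ᵥ cx (rp L) *ᵥ _)
      rw [cxJ]
      obtain rfl | rfl : p = 0 ∨ p = 1 := by omega
      · have := pos _ hv.2 (star_ne_zero.2 v0)
        rw [star_star, pa_anti La] at this
        simpa using this
      · simpa using pos _ hv.1 v0
  exact ⟨rp L, hs, hs_J hs, by rw [cxJ, e0]⟩

end

end Pool.Agent.Lib.MP_5591bc_ag.Cu
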