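import Pool.Agent.Lib.MP_5591bc_ag.Cu.Set

/-! Green on a rectangle. -/

namespace Pool.Agent.Lib.MP_5591bc_ag.Cu

open Polynomial Set Filter Topology Matrix Complex Asymptotics G M
open scoped Polynomial.Bivariate

noncomputable section

variable {f : ℂ[X][Y]} {d : ℂ[X]} {S S1 : Set ℂ} {Z Z' : Finset ℂ} {x : ℂ} {β : ℂ → ℂ}
  {a a' b b' G H H' W W' Φ Φ' Γ η φ ψ : ℂ × ℂ → ℂ} {F F' Ψ : ℂ → ℂ} {s t u v r ρ : ℝ} {L : ℂ}
  {μ : ℝ → ℝ → ℝ → ℝ → ℂ} {𝒞 : AddSubmonoid ℂ} {ν : Type*} [Fintype ν]


theorem grn_eq (hs : s ≤ t) (hu : u ≤ v) (h : ∀ z ∈ rc s t u v, AnalyticAt ℂ F z) :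
    bx (fun z => star (F z) * deriv F z) s t u v =
      I * ((∫ x in s..t, ∫ y in u..v, 2 * ‖deriv F (x + y * I)‖ ^ 2 : ℝ) : ℂ) := by
  have hR : (uIcc s t ×ℂ uIcc u v) = rc s t u v := by
    rw [uIcc_of_le hs, uIcc_of_le hu]; rfl
  let D : ℂ → ℂ →L[ℝ] ℂ := fun z =>
    star (F z) • ((ContinuousLinearMap.toSpanSingleton ℂ (deriv (deriv F) z)).restrictScalars ℝ) +
      deriv F z • ((conjCLE : ℂ →L[ℝ] ℂ).comp
        ((ContinuousLinearMap.toSpanSingleton ℂ (deriv F z)).restrictScalars ℝ))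
  have hD : ∀ z ∈ rc s t u v, HasFDerivAt (fun z => star (F z) * deriv F z) (D z) z := by
    intro z hz
    have h1 := ((h z hz).differentiableAt.hasDerivAt.hasFDerivAt.restrictScalars ℝ)
    have h2 := ((h z hz).deriv.differentiableAt.hasDerivAt.hasFDerivAt.restrictScalars ℝ)
    exact (((conjCLE : ℂ →L[ℝ] ℂ).hasFDerivAt.comp z h1).mul h2)
  have hv : ∀ z, I • D z 1 - D z I = I * ((2 * ‖deriv F z‖ ^ 2 : ℝ) : ℂ) := by
    intro z
    have := Complex.mul_conj' (deriv F z)
    simp only [D, _root_.add_apply, _root_.smul_apply,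
      ContinuousLinearMap.coe_restrictScalars', ContinuousLinearMap.toSpanSingleton_apply,
      ContinuousLinearMap.comp_apply, ContinuousLinearEquiv.coe_coe, conjCLE_apply, smul_eq_mul,
      map_mul, map_one, conj_I]
    push_cast
    linear_combination (2 * I) * this
  have hc : ContinuousOn (deriv F) (rc s t u v) := fun z hz =>
    (h z hz).deriv.continuousAt.continuousWithinAt
  have key := integral_boundary_rect_of_continuousOn_of_hasFDerivAt_real
    (fun z => star (F z) * deriv F z) D ⟨s, u⟩ ⟨t, v⟩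
    (by rw [hR]; exact fun z hz => (hD z hz).continuousAt.continuousWithinAt)
    (fun z hz => hD z (by
      simp only [min_eq_left hs, max_eq_right hs, min_eq_left hu, max_eq_right hu] at hz
      exact ⟨Ioo_subset_Icc_self hz.1, Ioo_subset_Icc_self hz.2⟩))
    (by
      simp only [hv]
      refine ContinuousOn.integrableOn_compact (isCompact_uIcc.reProdIm isCompact_uIcc) ?_
      rw [hR]
      exact continuousOn_const.mul (continuous_ofReal.comp_continuousOn
        (continuousOn_const.mul (hc.norm.pow 2))))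
  simp only [hv] at key
  refine key.trans ?_
  rw [← intervalIntegral.integral_ofReal, ← intervalIntegral.integral_const_mul]
  refine intervalIntegral.integral_congr fun x _ => ?_
  simp only [← intervalIntegral.integral_ofReal, ← intervalIntegral.integral_const_mul]

theorem grn (hs : s ≤ t) (hu : u ≤ v) (h : ∀ z ∈ rc s t u v, AnalyticAt ℂ F z) :
    (bx (fun z => star (F z) * deriv F z) s t u v).re = 0 ∧
      0 ≤ (bx (fun z => star (F z) * deriv F z) s t u v).im ∧
      (s < t → u < v → (∃ z ∈ rc s t u v, deriv F z ≠ 0) →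
        0 < (bx (fun z => star (F z) * deriv F z) s t u v).im) := by
  rw [grn_eq hs hu h]
  simp only [mul_re, I_re, ofReal_re, zero_mul, I_im, ofReal_im, mul_zero, sub_zero, mul_im,
    one_mul, zero_add, true_and]
  have nn : ∀ x : ℝ, 0 ≤ ∫ y in u..v, 2 * ‖deriv F (x + y * I)‖ ^ 2 := fun x =>
    intervalIntegral.integral_nonneg hu fun y _ => by positivity
  refine ⟨intervalIntegral.integral_nonneg hs fun x _ => nn x, fun h1 h2 ⟨z, hz, h3⟩ => ?_⟩
  have hc : ContinuousOn (deriv F) (rc s t u v) := fun z hz =>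
    (h z hz).deriv.continuousAt.continuousWithinAt
  have hK : Continuous (Function.uncurry fun x y : ℝ =>
      2 * ‖deriv F ((projIcc s t hs x : ℝ) + (projIcc u v hu y : ℝ) * I)‖ ^ 2) := by
    refine continuous_const.mul ((hc.comp_continuous (by fun_prop) fun p => ?_).norm.pow 2)
    exact ⟨by simp, by simp⟩
  have e : ∀ x ∈ Icc s t, (∫ y in u..v, 2 * ‖deriv F (x + y * I)‖ ^ 2) = ∫ y in u..v,
      2 * ‖deriv F ((projIcc s t hs x : ℝ) + (projIcc u v hu y : ℝ) * I)‖ ^ 2 := fun x hx =>
    intervalIntegral.integral_congr fun y hy => by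
      rw [uIcc_of_le hu] at hy
      simp only [projIcc_of_mem _ hx, projIcc_of_mem _ hy]
  refine intervalIntegral.integral_pos h1
    ((intervalIntegral.continuous_parametric_intervalIntegral_of_continuous' hK u v).continuousOn.congr
      e) (fun x _ => nn x) ⟨z.re, hz.1, intervalIntegral.integral_pos h2 ?_
      (fun y _ => by positivity) ⟨z.im, hz.2, ?_⟩⟩
  · refine continuousOn_const.mul ((hc.comp (by fun_prop) fun y hy => ?_).norm.pow 2)
    exact ⟨by simpa using hz.1, by simpa using hy⟩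
  · rw [re_add_im]; positivity

end

end Pool.Agent.Lib.MP_5591bc_ag.Cu
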