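import Pool.Agent.Lib.MP_5591bc_ag.Cu.Pair
import Pool.Agent.Lib.MP_5591bc_ag.Cu.RectG
import Pool.Agent.Lib.MP_5591bc_ag.Cu.Grn

/-! The second relation of Riemann. -/

namespace Pool.Agent.Lib.MP_5591bc_ag.Cu

open Polynomial Set Filter Topology Matrix Complex Asymptotics G M
open scoped Polynomial.Bivariate

noncomputable section

variable {f : ℂ[X][Y]} {d : ℂ[X]} {S S1 : Set ℂ} {Z Z' : Finset ℂ} {x : ℂ} {β : ℂ → ℂ}
  {a a' b b' G H H' W W' Φ Φ' Γ η φ ψ : ℂ × ℂ → ℂ} {F F' Ψ : ℂ → ℂ} {s t u v r ρ : ℝ} {L : ℂ}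
  {μ : ℝ → ℝ → ℝ → ℝ → ℂ} {𝒞 : AddSubmonoid ℂ} {ν : Type*} [Fintype ν]

/-- the nonnegative multiples of `i` -/
def posC : AddSubmonoid ℂ where
  carrier := {z | z.re = 0 ∧ 0 ≤ z.im}
  zero_mem' := ⟨rfl, le_rfl⟩
  add_mem' := fun {z w} hz hw => ⟨by rw [add_re, hz.1, hw.1, add_zero], by
    rw [add_im]; exact add_nonneg hz.2 hw.2⟩

theorem pos_loc (hf : Sep f S) (ha : HolC f a S) (hb : HolC f b S) (hΦ : Pr2 f Φ b a S)
    (hx : x ∈ S) : ∃ r > 0, ∀ s t u v, s ≤ t → u ≤ v → rc s t u v ⊆ Metric.ball x r →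
      (-bx (Tr f fun p => Φ p * a p) s t u v).re = 0 ∧
      0 ≤ (-bx (Tr f fun p => Φ p * a p) s t u v).im ∧
      (s < t → u < v → x ∈ rc s t u v → (∃ y, f.evalEval x y = 0 ∧ a (x, y) ≠ 0) →
        0 < (-bx (Tr f fun p => Φ p * a p) s t u v).im) := by
  obtain ⟨r1, h1, s1, H', hH'⟩ := prb hf hb hx
  obtain ⟨r2, h2, -, W', hW'⟩ := prb hf ha hx
  obtain ⟨β, hβ, hev⟩ := split hf hx
  obtain ⟨r3, h3, hb3⟩ := Metric.eventually_nhds_iff_ball.1
    ((Filter.eventually_all.2 fun j => (hβ j).near).and hev)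
  refine ⟨min r1 (min r2 r3), lt_min h1 (lt_min h2 h3), fun s t u v hs hu hrc => ?_⟩
  set B := Metric.ball x (min r1 (min r2 r3)) with hB
  have b1 : B ⊆ Metric.ball x r1 := Metric.ball_subset_ball (min_le_left _ _)
  have b2 : B ⊆ Metric.ball x r2 :=
    Metric.ball_subset_ball ((min_le_right _ _).trans (min_le_left _ _))
  have b3 : B ⊆ Metric.ball x r3 :=
    Metric.ball_subset_ball ((min_le_right _ _).trans (min_le_right _ _))
  have bS : B ⊆ S := b1.trans s1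
  have ho : IsOpen B := Metric.isOpen_ball
  have hfB : Sep f B := hf.mono ho bS
  have hH : Pr f H' b B := hH'.mono b1
  have hW : Pr f W' a B := hW'.mono b2
  have hfr : frx s t u v ⊆ B := fun z hz => hrc hz.1
  have e1 := (bx_phi hfB hs hu hfr (hΦ.mono bS) hH hW hW).1
  have e2 : bx (Tr f fun p => H' p * a p) s t u v = 0 :=
    bx_hol hs hu fun z hz =>
      (tr_an hfB ((hH.hol ho).1.mul (ha.mono bS)) (hrc hz)).differentiableAt
  have hbr : ∀ z ∈ B, ∀ j, Br f (β j) z := fun z hz => (hb3 z (b3 hz)).1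
  have han : ∀ j, ∀ z ∈ B, AnalyticAt ℂ (fun z => W' (z, β j z)) z := fun j z hz =>
    (hW.hol ho).1 z hz _ (hbr z hz j)
  have hde : ∀ j, ∀ z ∈ B, deriv (fun z => W' (z, β j z)) z = a (z, β j z) := fun j z hz =>
    (hW z hz _ (hbr z hz j)).deriv
  have e3 : bx (Tr f fun p => star (W' p) * a p) s t u v = ∑ j,
      bx (fun z => star (W' (z, β j z)) * deriv (fun z => W' (z, β j z)) z) s t u v := by
    rw [← bx_sum hs hu]
    · refine bx_congr hs hu fun z hz => ?_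
      rw [Tr, (hb3 z (b3 (hfr hz))).2.2, Multiset.map_map]
      exact Finset.sum_congr rfl fun j _ => by rw [hde j z (hfr hz)]; rfl
    · intro j _ z hz
      exact ((han j z (hfr hz)).continuousAt.star.mul
        (han j z (hfr hz)).deriv.continuousAt).continuousWithinAt
  have hg := fun j => grn hs hu (F := fun z => W' (z, β j z)) fun z hz => han j z (hrc hz)
  rw [e1, e2, zero_sub, neg_neg, e3, re_sum, im_sum]
  refine ⟨Finset.sum_eq_zero fun j _ => (hg j).1, Finset.sum_nonneg fun j _ => (hg j).2.1, ?_⟩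
  rintro hst huv hxr ⟨y, hy, hay⟩
  have hm := (mem_roots_fib hf.mon).2 hy
  rw [(hb3 x (b3 (hrc hxr))).2.2, Multiset.mem_map] at hm
  obtain ⟨j, -, hj⟩ := hm
  refine Finset.sum_pos' (fun j _ => (hg j).2.1) ⟨j, Finset.mem_univ _, ?_⟩
  refine (hg j).2.2 hst huv ⟨x, hxr, ?_⟩
  rw [hde j x (hrc hxr), hj]
  exact hay

theorem pos_addv (h : Addv μ S) : Addv (fun s t u v => -μ s t u v) S :=
  ⟨fun s m t u v h1 h2 h3 h4 h5 => by simp only [h.1 s m t u v h1 h2 h3 h4 h5, neg_add],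
    fun s t u m v h1 h2 h3 h4 h5 => by simp only [h.2 s t u m v h1 h2 h3 h4 h5, neg_add]⟩

theorem pos_big (Z : Finset ℂ) (δ : ℝ) : ∀ᶠ r in 𝓝[>] (0 : ℝ), ∀ e ∈ Z, ‖e‖ + δ ≤ r⁻¹ :=
  (Filter.eventually_all_finset Z).2 fun e _ =>
    tendsto_inv_nhdsGT_zero.eventually (eventually_ge_atTop (‖e‖ + δ))

theorem pos_hole (hf : Sep f (Z : Set ℂ)ᶜ) (ha : HolC f a (Z : Set ℂ)ᶜ)
    (hb : HolC f b (Z : Set ℂ)ᶜ) (hΦ : Pr2 f Φ b a (Z : Set ℂ)ᶜ)
    (h0 : ∃ p ∈ Ov f (Z : Set ℂ)ᶜ, a p ≠ 0) : ∃ c > (0 : ℝ), ∀ᶠ r in 𝓝[>] (0 : ℝ),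
      (BB Z r (Tr f fun p => Φ p * a p)).re = 0 ∧ c ≤ (BB Z r (Tr f fun p => Φ p * a p)).im := by
  classical
  obtain ⟨⟨x, y⟩, ⟨hy, hx⟩, hay⟩ := h0
  have hxZ : x ∉ Z := hx
  obtain ⟨δ₀, hδ₀, hG⟩ := rectG (insert x Z)
  obtain ⟨r0, hr0, hl⟩ := pos_loc hf ha hb hΦ hx
  have hd : 0 < min δ₀ (r0 / 3) := lt_min hδ₀ (by positivity)
  have hd1 : min δ₀ (r0 / 3) ≤ δ₀ := min_le_left _ _
  have hd2 : min δ₀ (r0 / 3) ≤ r0 / 3 := min_le_right _ _
  generalize min δ₀ (r0 / 3) = δ at hd hd1 hd2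
  obtain ⟨c1, -, c3⟩ := hl (x.re - δ) (x.re + δ) (x.im - δ) (x.im + δ) (by linarith) (by linarith)
    fun z hz => by
      rw [Metric.mem_ball, dist_eq_norm]
      refine (norm_le_abs_re_add_abs_im _).trans_lt ?_
      obtain ⟨⟨k1, k2⟩, k3, k4⟩ := hz
      have k5 : |(z - x).re| ≤ δ := by rw [sub_re, abs_le]; constructor <;> linarith
      have k6 : |(z - x).im| ≤ δ := by rw [sub_im, abs_le]; constructor <;> linarith
      linarith
  have c4 := c3 (by linarith) (by linarith)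
    ⟨⟨by linarith, by linarith⟩, by linarith, by linarith⟩ ⟨y, hy, hay⟩
  refine ⟨_, c4, ?_⟩
  have hA : Addv (bx (Tr f fun p => Φ p * a p)) (Z : Set ℂ)ᶜ :=
    bx_addv (tr_cont hf ((hΦ.cont hf).mul (ha.cont hf)))
  have hL : Locv (fun s t u v => -bx (Tr f fun p => Φ p * a p) s t u v) posC (Z : Set ℂ)ᶜ :=
    fun z hz => by
      obtain ⟨r, hr, h⟩ := pos_loc hf ha hb hΦ hz
      exact ⟨r, hr, fun s t u v hs hu hrc => ⟨(h s t u v hs hu hrc).1, (h s t u v hs hu hrc).2.1⟩⟩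
  filter_upwards [pos_big (insert x Z) δ₀, Ioc_mem_nhdsGT hδ₀] with r hbig hr
  have hi : 0 < r⁻¹ := inv_pos.2 hr.1
  have hp : ∀ e, 0 < (if e = x then δ else r) ∧ (if e = x then δ else r) ≤ δ₀ := fun e => by
    split_ifs
    exacts [⟨hd, hd1⟩, hr]
  have key := hG (fun e => if e = x then δ else r) (fun e _ => hp e) _ posC (Z : Set ℂ)ᶜ
    ((0 : ℂ).re - r⁻¹) ((0 : ℂ).re + r⁻¹) ((0 : ℂ).im - r⁻¹) ((0 : ℂ).im + r⁻¹) (by linarith)
    (by linarith) (fun e he => by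
      have k1 := abs_le.1 (abs_re_le_norm e)
      have k2 := abs_le.1 (abs_im_le_norm e)
      have k3 := hbig e he
      rw [zero_re, zero_im]
      exact ⟨by linarith [k1.1], by linarith [k1.2], by linarith [k2.1], by linarith [k2.2]⟩)
    (fun z _ hz hzZ => by
      have k := hz z (Finset.mem_insert_of_mem hzZ)
      rw [sub_self, sub_self, abs_zero, or_self] at k
      exact absurd (hp z).1 (not_lt.2 k)) (pos_addv hA) hL
  rw [Finset.sum_insert hxZ, if_pos rfl,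
    Finset.sum_congr rfl fun e he => by rw [if_neg (ne_of_mem_of_not_mem he hxZ)]] at key
  have e : BB Z r (Tr f fun p => Φ p * a p) = (-sq (bx (Tr f fun p => Φ p * a p)) 0 r⁻¹ -
      (-sq (bx (Tr f fun p => Φ p * a p)) x δ + ∑ e ∈ Z, -sq (bx (Tr f fun p => Φ p * a p)) e r)) +
      -sq (bx (Tr f fun p => Φ p * a p)) x δ := by
    rw [Finset.sum_neg_distrib, BB, BM]
    ring
  rw [e, add_re, add_im]
  exact ⟨by rw [key.1, c1, add_zero], le_add_of_nonneg_left key.2⟩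

theorem pos (hf : Sep f (Z : Set ℂ)ᶜ) (hρ : Adm Z ρ) (ha : HolC f a (Z : Set ℂ)ᶜ)
    (hb : HolC f b (Z : Set ℂ)ᶜ) (hW : Pr f W a (col Z ρ)) (hH : Pr f H b (col Z ρ))
    (bW : Bd f Z W) (sa : Sm f Z a) (hΦ : Pr2 f Φ b a (Z : Set ℂ)ᶜ)
    (h0 : ∃ p ∈ Ov f (Z : Set ℂ)ᶜ, a p ≠ 0)
    (hL : ∀ᶠ r in 𝓝[>] (0 : ℝ), BB Z r (Tr f fun p => H p * a p) = L) :
    L.re = 0 ∧ 0 < L.im := by
  obtain ⟨c, hc, hev⟩ := pos_hole hf ha hb hΦ h0
  have hfc : Sep f (col Z ρ) := hf.mono (col_open Z ρ) hρ.sub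
  have bW' : Bd f Z fun p => star (W p) := by
    obtain ⟨ρ', h1, C, h2⟩ := bW
    exact ⟨ρ', h1, C, fun p hp => by rw [norm_star]; exact h2 p hp⟩
  have ht : Tendsto (fun r => BB Z r (Tr f fun p => Φ p * a p)) (𝓝[>] 0) (𝓝 L) := by
    have h1 := (tendsto_const_nhds (x := L)).sub (smb hf.mon sa bW')
    rw [sub_zero] at h1
    refine h1.congr' ?_
    filter_upwards [hL, fr_col (Z := Z) hρ.1, self_mem_nhdsWithin] with r h2 h3 h4
    have h5 : (0 : ℝ) < r := h4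
    have h6 : 0 < r⁻¹ := inv_pos.2 h5
    have k := fun s t u v (hs : s ≤ t) (hu : u ≤ v) (h : frx s t u v ⊆ FR Z r) =>
      (bx_phi hfc hs hu (h.trans h3) (hΦ.mono hρ.sub) hH hW hW).1
    rw [← h2]
    simp only [BB, BM, sq]
    rw [k _ _ _ _ (by linarith) (by linarith) fun z hz => Or.inr hz,
      Finset.sum_congr rfl fun e he =>
        k _ _ _ _ (by linarith) (by linarith) fun z hz => Or.inl ⟨e, he, hz⟩,
      Finset.sum_sub_distrib]
    ring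
  refine ⟨?_, hc.trans_le (ge_of_tendsto ((continuous_im.tendsto L).comp ht)
    (hev.mono fun r h => h.2))⟩
  exact tendsto_nhds_unique ((continuous_re.tendsto L).comp ht)
    (tendsto_const_nhds.congr' (hev.mono fun r h => h.1.symm))

end

end Pool.Agent.Lib.MP_5591bc_ag.Cu
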