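import Pool.Agent.Lib.MP_5591bc_ag.Cu.Trc

/-! Forms without periods have primitives. -/

namespace Pool.Agent.Lib.MP_5591bc_ag.Cu

open Polynomial Set Filter Topology Matrix Complex Asymptotics G M
open scoped Polynomial.Bivariate

noncomputable section

variable {f : ℂ[X][Y]} {d : ℂ[X]} {S S1 : Set ℂ} {Z Z' : Finset ℂ} {x : ℂ} {β : ℂ → ℂ}
  {a a' b b' G H H' W W' Φ Φ' Γ η φ ψ : ℂ × ℂ → ℂ} {F F' Ψ : ℂ → ℂ} {s t u v r ρ : ℝ} {L : ℂ}
  {μ : ℝ → ℝ → ℝ → ℝ → ℂ} {𝒞 : AddSubmonoid ℂ} {ν : Type*} [Fintype ν]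


variable {c : (ℝ → ℂ × ℂ) →₀ ℤ} {D D' : Set (ℂ × ℂ)}

theorem Cyc.mono (h : Cyc D c) (hD : D ⊆ D') : Cyc D' c :=
  ⟨fun γ hγ => ⟨(h.1 γ hγ).1, (h.1 γ hγ).2.1, fun u hu => hD ((h.1 γ hγ).2.2 u hu)⟩, h.2⟩

theorem per_congr (h : Cyc D c) (e : ∀ p ∈ D, a p = b p) : per a c = per b c := by
  unfold per
  refine Finsupp.sum_congr fun γ hγ => ?_
  congr 1
  refine intervalIntegral.integral_congr fun u hu => ?_
  rw [uIcc_of_le zero_le_one] at hu
  simp only [e _ ((h.1 γ hγ).2.2 u hu)]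

theorem pm_int {γ : ℝ → ℂ × ℂ} (h : Arc D γ) (ha : ContinuousOn a D) :
    IntervalIntegrable (fun u => a (γ u) * deriv (fun u => (γ u).1) u) MeasureTheory.volume 0 1 := by
  refine ContinuousOn.intervalIntegrable ?_
  rw [uIcc_of_le zero_le_one]
  exact (ha.comp h.2.1 h.2.2).mul (h.1.continuous_deriv le_rfl).continuousOn

theorem per_cmb (h : Cyc D c) (q : ν → ℂ) {a : ν → ℂ × ℂ → ℂ} (ha : ∀ i, ContinuousOn (a i) D) :
    per (cmb q a) c = ∑ i, q i * per (a i) c := by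
  unfold per Finsupp.sum
  simp only [Finset.mul_sum]
  rw [Finset.sum_comm]
  refine Finset.sum_congr rfl fun γ hγ => ?_
  have e : (fun u => cmb q a (γ u) * deriv (fun u => (γ u).1) u) =
      fun u => ∑ i, q i * (a i (γ u) * deriv (fun u => (γ u).1) u) := by
    funext u
    simp only [cmb, Finset.sum_mul, mul_assoc]
  rw [e, intervalIntegral.integral_finsetSum
    (fun i _ => (pm_int (h.1 γ hγ) (ha i)).const_mul (q i)), Finset.mul_sum]
  refine Finset.sum_congr rfl fun i _ => ?_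
  rw [intervalIntegral.integral_const_mul]
  ring

theorem per_sub (h : Cyc D c) (ha : ContinuousOn a D) (hb : ContinuousOn b D) :
    per (fun p => a p - b p) c = per a c - per b c := by
  unfold per Finsupp.sum
  rw [← Finset.sum_sub_distrib]
  refine Finset.sum_congr rfl fun γ hγ => ?_
  simp only [sub_mul]
  rw [intervalIntegral.integral_sub (pm_int (h.1 γ hγ) ha) (pm_int (h.1 γ hγ) hb)]
  ring

/-- a weight on edges that vanishes on cycles is a coboundary -/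
theorem pm_pot {E V : Type*} (s t : E → V) (Q : E → Prop) (w : E → ℂ)
    (h : ∀ c : E →₀ ℤ, (∀ γ ∈ c.support, Q γ) → c.mapDomain s = c.mapDomain t →
      (c.sum fun γ k => k * w γ) = 0) : ∃ Φ : V → ℂ, ∀ γ, Q γ → w γ = Φ (t γ) - Φ (s γ) := by
  classical
  let A : Submodule ℤ (E →₀ ℤ) := Finsupp.supported ℤ ℤ {γ | Q γ}
  let B : (E →₀ ℤ) →ₗ[ℤ] (V →₀ ℤ) := Finsupp.lmapDomain ℤ ℤ t - Finsupp.lmapDomain ℤ ℤ s
  let P : (E →₀ ℤ) →ₗ[ℤ] ℂ := Finsupp.linearCombination ℤ w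
  have hP : ∀ c ∈ A, B c = 0 → P c = 0 := by
    intro c hc hB
    have h1 := h c (fun γ hγ => (Finsupp.mem_supported ℤ c).1 hc hγ) (by
      have : c.mapDomain t - c.mapDomain s = 0 := hB
      exact (sub_eq_zero.1 this).symm)
    simpa only [P, Finsupp.linearCombination_apply, zsmul_eq_mul] using h1
  let R : V → V → Prop := fun p q => ∃ c ∈ A, B c = Finsupp.single q 1 - Finsupp.single p 1
  have hr : ∀ p, R p p := fun p => ⟨0, A.zero_mem, by simp⟩
  have h1 : ∀ γ, Q γ → Finsupp.single γ (1 : ℤ) ∈ A := fun γ hγ =>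
    Finsupp.single_mem_supported ℤ 1 hγ
  have h2 : ∀ γ, B (Finsupp.single γ 1) = Finsupp.single (t γ) 1 - Finsupp.single (s γ) 1 := by
    intro γ
    simp [B]
  have hb : ∀ p, R (Classical.choose (⟨p, hr p⟩ : ∃ q, R q p)) p :=
    fun p => Classical.choose_spec (⟨p, hr p⟩ : ∃ q, R q p)
  choose ch hA hB using hb
  refine ⟨fun p => P (ch p), fun γ hγ => ?_⟩
  have e : (fun q => R q (s γ)) = fun q => R q (t γ) := by
    funext q
    refine propext ⟨fun ⟨c, hc, hc'⟩ => ⟨c + Finsupp.single γ 1, A.add_mem hc (h1 γ hγ), ?_⟩,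
      fun ⟨c, hc, hc'⟩ => ⟨c - Finsupp.single γ 1, A.sub_mem hc (h1 γ hγ), ?_⟩⟩
    · rw [map_add, hc', h2]; abel
    · rw [map_sub, hc', h2]; abel
  have e2 : Classical.choose (⟨s γ, hr _⟩ : ∃ q, R q (s γ)) =
      Classical.choose (⟨t γ, hr _⟩ : ∃ q, R q (t γ)) := by
    congr 1
  have h3 := hP (ch (s γ) + Finsupp.single γ 1 - ch (t γ))
    (A.sub_mem (A.add_mem (hA _) (h1 γ hγ)) (hA _)) (by
      rw [map_sub, map_add, hB, hB, h2, e2]; abel)
  rw [map_sub, map_add] at h3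
  have h4 : P (Finsupp.single γ 1) = w γ := by simp [P]
  rw [h4] at h3
  linear_combination h3

/-- the straight segment on a branch -/
def pmSeg (β : ℂ → ℂ) (x z : ℂ) (u : ℝ) : ℂ × ℂ := (x + u * (z - x), β (x + u * (z - x)))

theorem pm_der (x z : ℂ) (u : ℝ) : HasDerivAt (fun u : ℝ => x + u * (z - x)) (z - x) u := by
  simpa using ((Complex.ofRealCLM.hasDerivAt (x := u)).mul_const (z - x)).const_add x

theorem pm_loc (hf : Sep f S) (ha : HolC f a S) (hx : x ∈ S) (hβ : Br f β x) :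
    ∃ H : ℂ → ℂ, ∀ᶠ z in 𝓝 x, HasDerivAt H (a (z, β z)) z ∧ Arc (Ov f S) (pmSeg β x z) ∧
      ∫ u in (0 : ℝ)..1, a (pmSeg β x z u) * deriv (fun u => (pmSeg β x z u).1) u = H z - H x := by
  obtain ⟨r, hr, hb⟩ := Metric.eventually_nhds_iff_ball.1 (hβ.near.and (hf.op.mem_nhds hx))
  have hd : DifferentiableOn ℂ (fun z => a (z, β z)) (Metric.ball x r) := fun z hz =>
    (ha z (hb z hz).2 β (hb z hz).1).differentiableAt.differentiableWithinAt
  obtain ⟨H, hH⟩ := hd.isExactOn_ball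
  refine ⟨H, ?_⟩
  filter_upwards [Metric.ball_mem_nhds x hr] with z hz
  have hm : ∀ u ∈ Icc (0 : ℝ) 1, x + u * (z - x) ∈ Metric.ball x r := by
    intro u hu
    rw [mem_ball_iff_norm] at hz ⊢
    rw [add_sub_cancel_left, norm_mul, Complex.norm_real, Real.norm_eq_abs, abs_of_nonneg hu.1]
    exact (mul_le_of_le_one_left (norm_nonneg _) hu.2).trans_lt hz
  have hc : Continuous fun u : ℝ => x + u * (z - x) := by fun_prop
  have hA : Arc (Ov f S) (pmSeg β x z) := by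
    refine ⟨?_, ?_, fun u hu => ⟨(hb _ (hm u hu)).1.2.self_of_nhds, (hb _ (hm u hu)).2⟩⟩
    · exact contDiff_const.add (Complex.ofRealCLM.contDiff.mul contDiff_const)
    · refine hc.continuousOn.prodMk fun u hu => ?_
      exact ((hb _ (hm u hu)).1.1.continuousAt.comp (f := fun u : ℝ => x + u * (z - x))
        hc.continuousAt).continuousWithinAt
  refine ⟨hH z hz, hA, ?_⟩
  have h1 := intervalIntegral.integral_eq_sub_of_hasDerivAt
    (f := fun u : ℝ => H (x + u * (z - x)))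
    (f' := fun u => a (pmSeg β x z u) * deriv (fun u => (pmSeg β x z u).1) u) (a := 0) (b := 1)
    (fun u hu => by
      rw [uIcc_of_le zero_le_one] at hu
      have e : deriv (fun u => (pmSeg β x z u).1) u = z - x := (pm_der x z u).deriv
      rw [e]
      exact (hH _ (hm u hu)).comp_of_eq u (pm_der x z u) rfl)
    (pm_int hA (ha.cont hf))
  simpa using h1

theorem prim2 (hf : Sep f S) (ha : HolC f a S) (ha' : HolC f a' S)
    (h : ∀ c, Cyc (Ov f S) c → per a c = star (per a' c)) : ∃ Φ, Pr2 f Φ a a' S := by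
  obtain ⟨Φ, hΦ⟩ := pm_pot (fun γ : ℝ → ℂ × ℂ => γ 0) (fun γ => γ 1) (Arc (Ov f S))
    (fun γ => (∫ u in (0 : ℝ)..1, a (γ u) * deriv (fun u => (γ u).1) u) -
      star (∫ u in (0 : ℝ)..1, a' (γ u) * deriv (fun u => (γ u).1) u)) (by
      intro c h1 h2
      have h3 := h c ⟨h1, h2⟩
      unfold per Finsupp.sum at h3
      unfold Finsupp.sum
      simp only [mul_sub, Finset.sum_sub_distrib]
      rw [h3, star_sum, sub_eq_zero]
      refine Finset.sum_congr rfl fun γ _ => ?_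
      rw [star_mul', star_intCast])
  refine ⟨Φ, fun x hx β hβ => ?_⟩
  obtain ⟨H, hH⟩ := pm_loc hf ha hx hβ
  obtain ⟨W, hW⟩ := pm_loc hf ha' hx hβ
  refine ⟨fun z => H z + (Φ (x, β x) - H x + star (W x)), W, ?_⟩
  filter_upwards [hH, hW] with z h1 h2
  refine ⟨h1.1.add_const _, h2.1, ?_⟩
  have h3 := hΦ _ h1.2.1
  simp only [h1.2.2, h2.2.2] at h3
  have e0 : pmSeg β x z 0 = (x, β x) := by simp [pmSeg]
  have e1 : pmSeg β x z 1 = (z, β z) := by simp [pmSeg]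
  rw [e0, e1, star_sub] at h3
  linear_combination -h3

theorem prim (hf : Sep f S) (ha : HolC f a S) (h : ∀ c, Cyc (Ov f S) c → per a c = 0) :
    ∃ G, Pr f G a S := by
  obtain ⟨Φ, hΦ⟩ := pm_pot (fun γ : ℝ → ℂ × ℂ => γ 0) (fun γ => γ 1) (Arc (Ov f S))
    (fun γ => ∫ u in (0 : ℝ)..1, a (γ u) * deriv (fun u => (γ u).1) u)
    (fun c h1 h2 => h c ⟨h1, h2⟩)
  refine ⟨Φ, fun x hx β hβ => ?_⟩
  obtain ⟨H, hH⟩ := pm_loc hf ha hx hβ
  refine (hH.self_of_nhds.1.add_const (Φ (x, β x) - H x)).congr_of_eventuallyEq ?_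
  filter_upwards [hH] with z h1
  have h3 := hΦ _ h1.2.1
  simp only [h1.2.2] at h3
  have e0 : pmSeg β x z 0 = (x, β x) := by simp [pmSeg]
  have e1 : pmSeg β x z 1 = (z, β z) := by simp [pmSeg]
  rw [e0, e1] at h3
  linear_combination -h3

end

end Pool.Agent.Lib.MP_5591bc_ag.Cu
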