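import Pool.Agent.Lib.MP_5591bc_ag.Cu.Loch
import Pool.Agent.Lib.MP_5591bc_ag.Cu.Prim
import Pool.Agent.Lib.MP_5591bc_ag.Cu.Ind
import Pool.Agent.Lib.MP_5591bc_ag.Cu.Pos
import Pool.Agent.Lib.MP_5591bc_ag.Cu.PolA

/-! All forms of a fibre are of the second kind. -/

namespace Pool.Agent.Lib.MP_5591bc_ag.Cu

open Polynomial Set Filter Topology Matrix Complex Asymptotics G M A B
open scoped Polynomial.Bivariate

noncomputable section

variable {ν : Type*} [Fintype ν] [DecidableEq ν] {w : ν → ℕ} {M Λ : Matrix ν ν ℂ}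
  {f : ℂ[X][Y]} {d : ℂ[X]} {m : ℕ} {A : ν → ℂ[X][Y]} {ρ : ℝ}


theorem Fb.sep (h : Fb f d m A w M) : Sep f (rts d : Set ℂ)ᶜ := by
  refine ⟨h.mf, (rts d).finite_toSet.isClosed.isOpen_compl, fun x hx => h.fb.2.1 x fun e => hx ?_⟩
  exact Finset.mem_coe.2 (Multiset.mem_toFinset.2 ((mem_roots h.md.ne_zero).2 e))

theorem Fb.fx_cmb (h : Fb f d m A w M) {c : (ℝ → ℂ × ℂ) →₀ ℤ}
    (hc : Cyc (Ov f (rts d : Set ℂ)ᶜ) c) {v : ν → ℂ}
    (e : (fun i => per (frm (A i) d m) c) = M *ᵥ v) (q : ν → ℂ) :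
    per (cmb q fun i => frm (A i) d m) c = (q ᵥ* M) ⬝ᵥ v := by
  rw [per_cmb hc q fun i => (holC_frm (A i) m h.md.ne_zero).cont h.sep, ← dotProduct_mulVec, ← e]
  rfl

theorem Fb.fx_lat (h : Fb f d m A w M) {c : (ℝ → ℂ × ℂ) →₀ ℤ}
    (hc : Cyc (Ov f (rts d : Set ℂ)ᶜ) c) :
    ∃ k : ν → ℤ, (fun i => per (frm (A i) d m) c) = M *ᵥ fun j => (k j : ℂ) :=
  (h.fb.2.2.2.2 _).1 ⟨c, by rwa [cur_eq h.md.ne_zero], rfl⟩

theorem Fb.phi (h : Fb f d m A w M) {q r : ν → ℂ} (e : r ᵥ* M = star (q ᵥ* M)) :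
    ∃ Φ, Pr2 f Φ (cmb r fun i => frm (A i) d m) (cmb q fun i => frm (A i) d m)
      (rts d : Set ℂ)ᶜ := by
  have ha := fun i => holC_frm (f := f) (A i) m h.md.ne_zero
  refine prim2 h.sep (holC_cmb r ha) (holC_cmb q ha) fun c hc => ?_
  obtain ⟨k, hk⟩ := h.fx_lat hc
  rw [h.fx_cmb hc hk, h.fx_cmb hc hk, e]
  simp [dotProduct]

theorem Fb.ne (h : Fb f d m A w M) {q : ν → ℂ} (hq : q ≠ 0) :
    ∃ p ∈ Ov f (rts d : Set ℂ)ᶜ, cmb q (fun i => frm (A i) d m) p ≠ 0 := by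
  by_contra k
  push Not at k
  refine hq (eq_zero_of_vecMul_eq_zero h.fb.2.2.2.1 (funext fun j => ?_))
  obtain ⟨c, hc, e⟩ := (h.fb.2.2.2.2 _).2 ⟨Pi.single j 1, rfl⟩
  rw [cur_eq h.md.ne_zero] at hc
  have e1 := h.fx_cmb hc e.symm q
  rw [per_congr hc (b := fun _ => 0) k] at e1
  have e2 : (fun i => ((Pi.single j 1 : ν → ℤ) i : ℂ)) = Pi.single j 1 := funext fun i => by
    simp [Pi.single_apply]
  rw [e2, dotProduct_single, mul_one] at e1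
  rw [← e1]
  simp [per]

theorem Fb.first (h : Fb f d m A w M) (hρ : Adm (rts d) ρ) {q : ν → ℂ}
    (hq : ∀ i, q i ≠ 0 → w i = 1) : Sm f (rts d) (cmb q fun i => frm (A i) d m) ∧
      ∃ W, Pr f W (cmb q fun i => frm (A i) d m) (col (rts d) ρ) ∧ Bd f (rts d) W := by
  have k := fun i hi => loch h.md.ne_zero h.sep hρ (h.fb.2.2.1 i (hq i hi))
  have k1 : ∀ i, ∃ W, q i ≠ 0 → Pr f W (frm (A i) d m) (col (rts d) ρ) ∧ Bd f (rts d) W :=
    fun i => by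
      by_cases hi : q i = 0
      · exact ⟨0, fun e => absurd hi e⟩
      · obtain ⟨W, hW⟩ := (k i hi).2
        exact ⟨W, fun _ => hW⟩
  choose W hW using k1
  exact ⟨sm_cmb q fun i hi => (k i hi).1, cmb q W, pr_cmb q fun i hi => (hW i hi).1,
    bd_cmb q fun i hi => (hW i hi).2⟩

theorem Fb.hd (h : Fb f d m A w M) {k : ν → ℂ} (hk : star k = k)
    (e : ∀ i, w i = 1 → (M *ᵥ k) i = 0) : k = 0 := by
  refine hda h.fb.2.2.2.1 h.w1 h.half (fun q q' hq hq' e' => ?_) hk e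
  by_contra q0
  have ha := fun i => holC_frm (f := f) (A i) m h.md.ne_zero
  obtain ⟨ρ, hρ⟩ := (adm_ex (rts d)).exists
  obtain ⟨Φ, hΦ⟩ := h.phi e'
  obtain ⟨sa, W, hW, bW⟩ := h.first hρ hq
  obtain ⟨-, H, hH, bH⟩ := h.first hρ hq'
  obtain ⟨L, hL⟩ := lamx hρ fun x hx => (tr_an (h.sep.mono (col_open _ _) hρ.sub)
    ((hH.hol (col_open _ _)).1.mul (hW.hol (col_open _ _)).2) hx).differentiableAt
  have L0 : L = 0 := tendsto_nhds_unique (tendsto_const_nhds.congr' (EventuallyEq.symm hL))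
    (smb h.mf sa bH)
  have := (pos h.sep hρ (holC_cmb q ha) (holC_cmb q' ha) hW hH bW sa hΦ (h.ne q0) hL).2
  rw [L0] at this
  exact lt_irrefl _ this

theorem Fb.fx_loc (h : Fb f d m A w M) (hρ : Adm (rts d) ρ) {o : Option ℂ}
    (ho : o ∈ Finset.insertNone (rts d)) (i : ν) : ∃ G, Pr f G (frm (A i) d m) (Dn o ρ) := by
  have hs := (dn_col (ρ := ρ) ho).trans hρ.sub
  have hf := h.sep.mono (dn_open o ρ) hs
  have ha := fun i => (holC_frm (f := f) (A i) m h.md.ne_zero).mono hs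
  have hO : Ov f (Dn o ρ) ⊆ Ov f (rts d : Set ℂ)ᶜ := fun p hp => ⟨hp.1, hs hp.2⟩
  obtain ⟨ε, y, hy⟩ := pui hρ.1 hf
  have k := fun j i => laur hy.pos hρ.1 (fun u hu => (hy.hol hf hρ.1 (ha i) hu j).2)
    (hy.frm_mer (A i) d m j)
  choose C Ψ h1 h2 h3 using k
  have C0 : ∀ j, C j i = 0 := fun j => by
    obtain ⟨c, hc, e⟩ := resp hf hρ.1 hy j
    obtain ⟨k, hk⟩ := h.fx_lat (hc.mono hO)
    have k0 := h.hd (k := fun j => (k j : ℂ)) (funext fun l => by simp) fun l hl => by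
      rw [← congrFun hk l, e _ _ _ (ha l) (h1 j l), (h3 j l (h.fb.2.2.1 l hl (xo o ε) (y j) (xo_mer o ε)
        (hy.mer j) ((wu_ev hy.pos hρ.1).mono fun u hu => by
          rw [cur_eq h.md.ne_zero]
          exact hO (hy.mem h.mf hρ.1 hu j)))).1, mul_zero]
    have e1 := congrFun hk i
    rw [k0, mulVec_zero, e _ _ _ (ha i) (h1 j i)] at e1
    exact (mul_eq_zero.1 e1).resolve_left two_pi_I_ne_zero
  obtain ⟨G, hG, -⟩ := desc hf hρ.1 hy (a := frm (A i) d m) (g := fun j => Ψ j i) fun j u hu => by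
    simpa [C0 j] using h1 j i u hu
  exact ⟨G, hG⟩

theorem Fb.sec (h : Fb f d m A w M) (hρ : Adm (rts d) ρ) :
    ∃ G : ν → ℂ × ℂ → ℂ, ∀ k, Pr f (G k) (frm (A k) d m) (col (rts d) ρ) := by
  have k : ∀ i, ∃ G, Pr f G (frm (A i) d m) (col (rts d) ρ) := fun i => by
    have k1 : ∀ o, ∃ G, o ∈ Finset.insertNone (rts d) → Pr f G (frm (A i) d m) (Dn o ρ) :=
      fun o => by
        by_cases ho : o ∈ Finset.insertNone (rts d)
        · obtain ⟨G, hG⟩ := h.fx_loc hρ ho i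
          exact ⟨G, fun _ => hG⟩
        · exact ⟨0, fun e => absurd e ho⟩
    choose G hG using k1
    obtain ⟨G', h1, -⟩ := glue hρ hG
    exact ⟨G', h1⟩
  exact Classical.skolem.1 k

theorem Fb.lam (h : Fb f d m A w M) : ∃ Λ, IsLam f (rts d) (fun i => frm (A i) d m) Λ := by
  obtain ⟨ρ, hρ⟩ := (adm_ex (rts d)).exists
  obtain ⟨G, hG⟩ := h.sec hρ
  exact lam_ex h.sep hρ hG

end

end Pool.Agent.Lib.MP_5591bc_ag.Cu
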