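import Pool.Agent.Lib.MP_5591bc_ag.Cu.Vhs
import Pool.Agent.Lib.MP_5591bc_ag.Rg.Fin

/-! The count of the exceptional points for families of curves. -/

namespace Pool.Agent.Lib.MP_5591bc_ag.Cu

open Polynomial Set Filter Topology Matrix M N J B K Rg
open scoped Polynomial.Bivariate

theorem cont_ne {σ ν : Type*} [Fintype σ] {U U' : Set (σ → ℂ)} {P P' : (σ → ℂ) → Matrix ν ν ℂ}
    (k : ContM U P U' P') (h : U'.Nonempty) : U.Nonempty := by
  induction k with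
  | base => exact h
  | step _ _ _ _ s _ _ _ _ h1 _ _ ih => exact ih ⟨s, h1⟩

theorem cntC {σ K : Type} [Fintype σ] [DecidableEq σ] [Field K] [NumberField K] [Algebra K ℂ]
    {n m : ℕ} {T : MvPolynomial σ K} {B : σ → Matrix (Fin n) (Fin n) (MvPolynomial σ K)}
    {f : (MvPolynomial σ K)[X][Y]} {d : (MvPolynomial σ K)[X]}
    {A : Fin n → (MvPolynomial σ K)[X][Y]} {w : Fin n → ℕ} (h : Fam T B f d m A w) :
    ∃ C : ℕ, ∀ (δ : ℕ) (U : Set (σ → ℂ)) (P : (σ → ℂ) → Matrix (Fin n) (Fin n) ℂ),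
      IsOpen U → IsPreconnected U → PerM T B f d m A w U P → ConnM U P →
      ∀ (D : ℕ) (H : ℝ), 2 ≤ H → ∀ S : Finset (σ → ℂ),
        (∀ s ∈ S, MvPolynomial.aeval s T ≠ 0 ∧
          (∀ l, ∃ q : ℤ[X], q ≠ 0 ∧ (∀ i, |(q.coeff i : ℝ)| ≤ H) ∧ aeval (s l) q = 0) ∧
          ∃ U' P', ContM U P U' P' ∧ s ∈ U' ∧ HGen 1 w P' s ∧
            (∀ s' ∈ S, WS T U P 0 id 1 w P' s (s', 0) → s' = s) ∧
            ∃ (E : IntermediateField K ℂ) (x : σ → E), (∀ l, (x l : ℂ) = s l) ∧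
              FiniteDimensional ℚ E ∧ Module.finrank ℚ E ≤ D ∧ ¬ GoodV U' P' δ x) →
        (S.card : ℝ) ≤ (C * (δ + 2) * D * Real.log H) ^
          (C * (δ + 1) ^ (Fintype.card σ * n ^ 2)) := by
  classical
  obtain ⟨C, hC⟩ := cntH h.T0 h.gal
  refine ⟨C, fun δ U P ho hU hP hc D H H2 S hS => ?_⟩
  rcases S.eq_empty_or_nonempty with rfl | ⟨s₀, m₀⟩
  · have := Real.log_nonneg (one_le_two.trans H2)
    rw [Finset.card_empty, Nat.cast_zero]
    positivity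
  obtain ⟨J, hJ⟩ := h.vhs ho hU (by
    obtain ⟨-, -, _, _, k, hs, -⟩ := hS s₀ m₀
    exact cont_ne k ⟨_, hs⟩) hP hc
  have := hC δ 1 n 1 le_rfl w J U P 0 1 (by simp) ho hU hP.1 (connRM_zero ho hc)
    ⟨Matrix.mul_one _, 0, 1, fun t _ => by simp⟩ hJ D H H2 (S.image fun s => (s, 0)) fun _ hs' => by
      obtain ⟨s, hs, rfl⟩ := Finset.mem_image.1 hs'
      obtain ⟨e, b, U', P', k, hx, hG, hW, E, x, x1, x2, x3, x4⟩ := hS s hs
      refine ⟨e, b, U', P', k, hx, Matrix.mul_zero _, .inl hG, fun _ m' q => ?_, E, x, 0, x1,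
        fun _ _ => rfl, x2, x3, fun g => x4 g.goodV⟩
      obtain ⟨s', m, rfl⟩ := Finset.mem_image.1 m'
      rw [hW s' m q]
  rw [Finset.card_image_of_injective _ fun _ _ e => congrArg Prod.fst e] at this
  convert this using 4
  push_cast
  ring

theorem fam_of {σ K : Type} [Fintype σ] [DecidableEq σ] [Field K] [Algebra K ℂ] {g m : ℕ}
    {T : MvPolynomial σ K} (hT : T ≠ 0)
    {B : σ → Matrix (Fin (2 * g)) (Fin (2 * g)) (MvPolynomial σ K)}
    {f : (MvPolynomial σ K)[X][Y]} (hf : f.Monic) {d : (MvPolynomial σ K)[X]} (hd : d.Monic)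
    {A : Fin (2 * g) → (MvPolynomial σ K)[X][Y]} {w : Fin (2 * g) → ℕ}
    (hw : ∀ i, w i = if (i : ℕ) < g then 1 else 0)
    (h : ∀ t, MvPolynomial.aeval t T ≠ 0 → ∃ V ∈ 𝓝 t, ∃ Q, PerM T B f d m A w V Q) :
    Fam T B f d m A w := by
  refine ⟨hT, hf, hd, fun i => by rw [hw]; split_ifs <;> simp, ?_, h⟩
  simp only [hw, Fintype.card_fin]
  rw [Fin.sum_univ_eq_sum_range (fun i => if i < g then 1 else 0), ← Finset.card_filter]
  congr 1
  convert Finset.card_range g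
  ext i
  simp only [Finset.mem_filter, Finset.mem_range]
  omega

end Pool.Agent.Lib.MP_5591bc_ag.Cu
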