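import Pool.Agent.Lib.MP_5591bc_ag.Cu.Trc
import Pool.Agent.Lib.MP_5591bc_ag.J.RootA

/-! Moving punctures and moving fibres. -/

namespace Pool.Agent.Lib.MP_5591bc_ag.Cu

open Polynomial Set Filter Topology Matrix Complex Asymptotics G M
open scoped Polynomial.Bivariate

noncomputable section

theorem mov_rt {V : Type*} [NormedAddCommGroup V] [NormedSpace ℂ V] [FiniteDimensional ℂ V]
    {g : V → ℂ[X]} {n : ℕ} {s : V} (hc : ∀ i, AnalyticAt ℂ (fun t => (g t).coeff i) s)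
    (hn : ∀ t, (g t).natDegree = n) (hm : ∀ t, (g t).Monic) (hs : ∀ᶠ t in 𝓝 s, (g t).Separable) :
    ∃ a : Fin n → V → ℂ, (∀ j, ContinuousAt (a j) s) ∧ ∀ᶠ t in 𝓝 s,
      Function.Injective (a · t) ∧ (g t).roots = Finset.univ.val.map fun j => a j t := by
  have : CompleteSpace V := FiniteDimensional.complete ℂ V
  have h1 : ∀ᶠ t in 𝓝 s, ∀ i ∈ Finset.range (n + 1), AnalyticAt ℂ (fun t => (g t).coeff i) t :=
    (Finset.eventually_all _).2 fun i _ => (hc i).eventually_analyticAt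
  obtain ⟨R, hR, hb⟩ := Metric.eventually_nhds_iff_ball.1 (h1.and hs)
  have hmem : ∀ u ∈ Metric.ball (0 : V) R, s + u ∈ Metric.ball s R := fun u hu => by
    simpa [Metric.mem_ball, dist_eq_norm] using hu
  obtain ⟨a, ha, hg⟩ := J.rootA (g := fun u => g (s + u)) (n := n) (R := R) (fun i u hu => by
      by_cases hi : i ∈ Finset.range (n + 1)
      · exact AnalyticAt.comp (g := fun t => (g t).coeff i) (f := fun u => s + u)
          ((hb _ (hmem u hu)).1 i hi) (analyticAt_const.add analyticAt_id)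
      · have : (fun u => (g (s + u)).coeff i) = fun _ => 0 := funext fun u =>
          coeff_eq_zero_of_natDegree_lt (by rw [hn]; simpa using hi)
        rw [this]; exact analyticAt_const)
    (fun u _ => hn _) (fun u hu z hz => by
      have := (hb _ (hmem u hu)).2.aeval_derivative_ne_zero (x := z) (by simpa using hz)
      simpa using this)
  refine ⟨fun j t => a j (t - s), fun j => ?_, ?_⟩
  · have h0 : ContinuousAt (a j) (s - s) := by
      rw [sub_self]; exact (ha j 0 (Metric.mem_ball_self hR)).continuousAt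
    exact ContinuousAt.comp (f := fun t => t - s) h0 (continuousAt_id.sub continuousAt_const)
  · filter_upwards [Metric.ball_mem_nhds s hR] with t ht
    obtain ⟨h2, h3⟩ := hg (t - s) (by simpa [Metric.mem_ball, dist_eq_norm] using ht)
    refine ⟨h2, ?_⟩
    rw [add_sub_cancel, (hm t).leadingCoeff, C_1, one_mul] at h3
    rw [h3, ← roots_multiset_prod_X_sub_C (Finset.univ.val.map fun j => a j (t - s)),
      Multiset.map_map]
    rfl

theorem mov_sep {ν : Type*} [Fintype ν] [DecidableEq ν] {f : ℂ[X][Y]} {d : ℂ[X]} {m : ℕ}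
    {A : ν → ℂ[X][Y]} {w : ν → ℕ} {M : Matrix ν ν ℂ} (h : Fb f d m A w M) :
    Sep f {x | d.eval x ≠ 0} :=
  ⟨h.mf, isOpen_ne_fun d.continuous continuous_const, h.fb.2.1⟩

theorem mov_gap {f : ℂ[X][Y]} {S : Set ℂ} (hf : Sep f S) {D : Set (ℂ × ℂ)} (hD : IsCompact D)
    (h : D ⊆ Ov f S) : ∃ δ > 0, ∀ x z z', (x, z) ∈ D → (x, z') ∈ D → ‖z' - z‖ < δ → z' = z := by
  have h1 : ∀ᶠ w in 𝓝 (0 : ℂ), ∀ p ∈ D,
      f.evalEval p.1 p.2 = 0 ∧ f.evalEval p.1 (p.2 + w) = 0 → w = 0 := by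
    refine hD.eventually_forall_of_forall_eventually fun p hp => ?_
    obtain ⟨β, hβ, hp2⟩ := br_ex hf (h hp)
    have e : p = (p.1, β p.1) := by rw [hp2]
    refine (eventually_inf_principal (s := {z : ℂ × ℂ × ℂ | f.evalEval z.2.1 z.2.2 = 0 ∧
      f.evalEval z.2.1 (z.2.2 + z.1) = 0})).1 ?_
    set l := 𝓝 ((0 : ℂ), p) ⊓ 𝓟 {z : ℂ × ℂ × ℂ | f.evalEval z.2.1 z.2.2 = 0 ∧
      f.evalEval z.2.1 (z.2.2 + z.1) = 0} with hl
    have hz : ∀ᶠ z in l, f.evalEval z.2.1 z.2.2 = 0 ∧ f.evalEval z.2.1 (z.2.2 + z.1) = 0 :=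
      eventually_inf_principal.2 (Eventually.of_forall fun _ h => h)
    have t1 : Tendsto (fun z : ℂ × ℂ × ℂ => z.2) l (𝓝 (p.1, β p.1)) := by
      rw [← e]; exact (continuous_snd.tendsto _).mono_left inf_le_left
    have t2 : Tendsto (fun z : ℂ × ℂ × ℂ => (z.2.1, z.2.2 + z.1)) l (𝓝 (p.1, β p.1)) := by
      have : Continuous fun z : ℂ × ℂ × ℂ => (z.2.1, z.2.2 + z.1) := by fun_prop
      have h2 := (this.tendsto ((0 : ℂ), p)).mono_left (inf_le_left : l ≤ _)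
      simpa [hp2] using h2
    filter_upwards [br_uniq hf (h hp).2 hβ t1 (hz.mono fun _ h => h.1),
      br_uniq hf (h hp).2 hβ t2 (hz.mono fun _ h => h.2)] with z h1 h2
    linear_combination h2 - h1
  obtain ⟨δ, hδ, hb⟩ := Metric.eventually_nhds_iff_ball.1 h1
  refine ⟨δ, hδ, fun x z z' hz hz' hlt => sub_eq_zero.1 (hb (z' - z) (by simpa using hlt) _ hz
    ⟨(h hz).1, ?_⟩)⟩
  simpa using (h hz').1

theorem mov_cont {D : Set (ℂ × ℂ)} (F : C(D, ℂ)) : ContinuousOn (ex F) D := by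
  rw [continuousOn_iff_continuous_domRestrict]
  convert F.continuous using 1
  funext p
  simp [ex, p.2]

theorem mov_card {f : ℂ[X][Y]} (hf : f.Monic) (x : ℂ) :
    Multiset.card (fib f x).roots = f.natDegree := by
  rw [← hf.natDegree_map (evalRingHom x)]
  exact IsAlgClosed.card_roots_eq_natDegree

variable {σ 𝓡 ν : Type*} [Fintype σ] [DecidableEq σ] [CommRing 𝓡] [Fintype ν] [DecidableEq ν]
  {φ : (σ → ℂ) → 𝓡 →+* ℂ} {f : 𝓡[X][Y]} {d : 𝓡[X]} {m : ℕ} {A : ν → 𝓡[X][Y]} {w : ν → ℕ}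
  {Q : (σ → ℂ) → Matrix ν ν ℂ} {s : σ → ℂ} {D : Set (ℂ × ℂ)} {p : ℂ × ℂ} {Λ : Matrix ν ν ℂ}
  {R : Subring ℂ}


theorem LF.roots (h : LF φ f d m A w Q s) {η : ℝ} (hη : 0 < η) : ∀ᶠ t in 𝓝 s, ∃ e : ℂ → ℂ,
    BijOn e (rts (d.map (φ s))) (rts (d.map (φ t))) ∧
      ∀ z ∈ rts (d.map (φ s)), ‖e z - z‖ < η := by
  obtain ⟨a, ha, hg⟩ := mov_rt (g := fun t => d.map (φ t)) (n := d.natDegree) (s := s)
    (fun i => by simpa only [coeff_map] using h.an _) (fun t => h.md.natDegree_map _)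
    (fun t => h.md.map _) (h.ev.mono fun t ht => ht.fb.1)
  obtain ⟨hi, hr⟩ := hg.self_of_nhds
  have h1 : ∀ᶠ t in 𝓝 s, ∀ j, ‖a j t - a j s‖ < η := eventually_all.2 fun j => by
    simpa only [dist_eq_norm] using Metric.tendsto_nhds.1 (ha j) η hη
  filter_upwards [hg, h1] with t ⟨hi', hr'⟩ ht
  have m1 : ∀ z, z ∈ rts (d.map (φ s)) ↔ ∃ j, a j s = z := fun z => by simp [rts, hr]
  have m2 : ∀ z, z ∈ rts (d.map (φ t)) ↔ ∃ j, a j t = z := fun z => by simp [rts, hr']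
  have he : ∀ j, Function.extend (a · s) (a · t) id (a j s) = a j t := fun j =>
    hi.extend_apply _ _ j
  refine ⟨Function.extend (a · s) (a · t) id, ⟨fun z hz => ?_, fun z hz z' hz' e => ?_,
    fun z hz => ?_⟩, fun z hz => ?_⟩
  · obtain ⟨j, rfl⟩ := (m1 z).1 hz
    exact (m2 _).2 ⟨j, (he j).symm⟩
  · obtain ⟨j, rfl⟩ := (m1 z).1 hz
    obtain ⟨k, rfl⟩ := (m1 z').1 hz'
    rw [he, he] at e
    rw [hi' e]
  · obtain ⟨j, rfl⟩ := (m2 z).1 hz
    exact ⟨a j s, (m1 _).2 ⟨j, rfl⟩, he j⟩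
  · obtain ⟨j, rfl⟩ := (m1 z).1 hz
    rw [he]; exact ht j

variable [CompactSpace D] {y : (σ → ℂ) → C(D, ℂ)} {E : ν → (σ → ℂ) → C(D, ℂ)}


theorem LF.fibre (h : LF φ f d m A w Q s) (ht : Trn φ f d m A s D y E) {S : Set ℂ} (ho : IsOpen S)
    (hS : Ov (sp (φ s) f) S ⊆ D) : ∀ᶠ t in 𝓝 s, ∀ x ∈ S,
      (fib (sp (φ t) f) x).roots = (fib (sp (φ s) f) x).roots.map (fun z => ex (y t) (x, z)) ∧
      ∀ β, Br (sp (φ s) f) β x → Br (sp (φ t) f) (fun z => ex (y t) (z, β z)) x := by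
  have hs := mov_sep h.ev.self_of_nhds
  obtain ⟨δ, hδ, hg⟩ := mov_gap hs (isCompact_iff_compactSpace.2 ‹_›) ht.sub
  have h1 : ∀ᶠ t in 𝓝 s, ‖y t - y s‖ < δ / 2 := by
    simpa only [dist_eq_norm] using Metric.tendsto_nhds.1 ht.an.continuousAt _ (half_pos hδ)
  filter_upwards [h1, ht.ev, h.ev] with t h1 h2 h3 x hx
  have hn : ∀ p ∈ D, ‖ex (y t) p - p.2‖ < δ / 2 := fun p hp => by
    rw [← ht.base p hp]
    simp only [ex, hp, dif_pos]
    exact (((y t - y s).norm_coe_le_norm ⟨p, hp⟩).trans_lt h1)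
  have hD : ∀ z ∈ (fib (sp (φ s) f) x).roots, (x, z) ∈ D := fun z hz =>
    hS ⟨(mem_roots_fib hs.mon).1 hz, hx⟩
  refine ⟨(Multiset.eq_of_le_of_card_le ((Multiset.le_iff_subset ?_).2 fun z hz => ?_) ?_).symm,
    fun β hβ => ?_⟩
  · refine Multiset.Nodup.map_on (fun z hz z' hz' e => hg x z' z (hD _ hz') (hD _ hz) ?_) ?_
    · have e1 := hn _ (hD _ hz)
      have e2 := hn _ (hD _ hz')
      have : z - z' = (ex (y t) (x, z') - z') - (ex (y t) (x, z) - z) := by rw [e]; ring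
      rw [this]
      exact (norm_sub_le _ _).trans_lt (by simp only at e1 e2; linarith)
    · rcases Multiset.empty_or_exists_mem (fib (sp (φ s) f) x).roots with h0 | ⟨z, hz⟩
      · rw [h0]; exact Multiset.nodup_zero
      · exact nodup_roots (hs.sep x (ht.sub (hD z hz)).2)
  · obtain ⟨z', hz', rfl⟩ := Multiset.mem_map.1 hz
    exact (mem_roots_fib h3.mf).2 (h2 _ (hD _ hz')).1.1
  · rw [Multiset.card_map, mov_card h3.mf, mov_card hs.mon, h.mf.natDegree_map,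
      h.mf.natDegree_map]
  · have e1 : ∀ᶠ z in 𝓝 x, (z, β z) ∈ D := by
      filter_upwards [hβ.2, ho.mem_nhds hx] with z h1 h2 using hS ⟨h1, h2⟩
    have e2 : ∀ᶠ z in 𝓝 x, (sp (φ t) f).evalEval z (ex (y t) (z, β z)) = 0 :=
      e1.mono fun z hz => (h2 _ hz).1.1
    have hp := (h2 _ e1.self_of_nhds).1
    obtain ⟨β', hβ', e3⟩ := br_ex (mov_sep h3) hp
    simp only at hβ' e3
    have t1 : Tendsto (fun z => (z, β z)) (𝓝 x) (𝓝[D] (x, β x)) :=
      tendsto_nhdsWithin_iff.2 ⟨continuousAt_id.prodMk hβ.1.continuousAt, e1⟩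
    have t2 : Tendsto (fun z => (z, ex (y t) (z, β z))) (𝓝 x) (𝓝 (x, β' x)) := by
      rw [e3]
      exact tendsto_id.prodMk_nhds ((mov_cont (y t) _ e1.self_of_nhds).tendsto.comp t1)
    exact ⟨hβ'.1.congr ((br_uniq (mov_sep h3) hp.2 hβ' t2 e2).mono fun _ h => h.symm), e2⟩

end

end Pool.Agent.Lib.MP_5591bc_ag.Cu
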