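import Pool.Agent.Lib.MP_5591bc_ag.Cu.Tra
import Pool.Agent.Lib.MP_5591bc_ag.Cu.Cyc
import Pool.Agent.Lib.MP_5591bc_ag.Cu.Mov
import Pool.Agent.Lib.MP_5591bc_ag.Cu.Ind
import Pool.Agent.Lib.MP_5591bc_ag.Cu.RectG
import Pool.Agent.Lib.MP_5591bc_ag.Cu.FibX

/-! The residue pairing is flat. -/

namespace Pool.Agent.Lib.MP_5591bc_ag.Cu

open Polynomial Set Filter Topology Matrix Complex Asymptotics G M
open scoped Polynomial.Bivariate

noncomputable section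

variable {σ 𝓡 ν : Type*} [Fintype σ] [DecidableEq σ] [CommRing 𝓡] [Fintype ν] [DecidableEq ν]
  {φ : (σ → ℂ) → 𝓡 →+* ℂ} {f : 𝓡[X][Y]} {d : 𝓡[X]} {m : ℕ} {A : ν → 𝓡[X][Y]} {w : ν → ℕ}
  {Q : (σ → ℂ) → Matrix ν ν ℂ} {s : σ → ℂ} {D : Set (ℂ × ℂ)} {p : ℂ × ℂ} {Λ : Matrix ν ν ℂ}
  {R : Subring ℂ}


theorem LF.flat (h : LF φ f d m A w Q s) (hΛ : IsLam (sp (φ s) f) (rts (d.map (φ s)))
    (fun i => frm (sp (φ s) (A i)) (d.map (φ s)) m) Λ) : ∀ᶠ t in 𝓝 s, ∀ Λ',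
      IsLam (sp (φ t) f) (rts (d.map (φ t))) (fun i => frm (sp (φ t) (A i)) (d.map (φ t)) m) Λ' →
        Λ' = Q t * (Q s)⁻¹ * Λ * (Q t * (Q s)⁻¹)ᵀ := by
  obtain ⟨ρ, G, hρ, hG, hL⟩ := hΛ
  have hb := h.ev.self_of_nhds
  have hs := hb.sep
  have e1 : ∀ᶠ r in 𝓝[>] (0 : ℝ), r ≤ ρ / 6 :=
    nhdsWithin_le_nhds (eventually_le_nhds (by linarith [hρ.1]))
  obtain ⟨r, hr, hF, r6, hΛ⟩ := ((rect (rts (d.map (φ s)))).and ((fr_col hρ.1).and (e1.and
    (eventually_all.2 fun i => eventually_all.2 fun k => hL i k)))).exists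
  obtain ⟨K, hK, k1, k2⟩ := exists_compact_between (pf_cpt _ r) hs.op (pf_sub hr.1)
  have : CompactSpace (Ov (sp (φ s) f) K) := isCompact_iff_compactSpace.1 (ov_cpt hb.mf hK)
  have hD : Ov (sp (φ s) f) K ⊆ Ov (sp (φ s) f) (rts (d.map (φ s)) : Set ℂ)ᶜ :=
    fun p hp => ⟨hp.1, k2 hp.2⟩
  obtain ⟨y, E, ht⟩ := h.tra (D := Ov (sp (φ s) f) K) (by rwa [cur_eq hb.md.ne_zero])
  have hS : Ov (sp (φ s) f) (interior K) ⊆ Ov (sp (φ s) f) K :=
    fun p hp => ⟨hp.1, interior_subset hp.2⟩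
  have k3 := interior_subset.trans k2
  have hs' := hs.mono isOpen_interior k3
  have ha := fun j => holC_frm (f := sp (φ s) f) (sp (φ s) (A j)) m hb.md.ne_zero
  filter_upwards [h.ev, h.roots hr.1, h.fibre ht isOpen_interior hS, h.cyc ht, ht.ev]
    with t hb' ⟨e, he, hn⟩ hfi hc hev Λ' hΛ'
  have hρ' := mov_adm hρ he fun z hz => (hn z hz).le.trans (by linarith [hρ.1])
  obtain ⟨G', hG'⟩ := hb'.sec hρ'
  have hbb := fun i k => bbi hρ' (fun x hx => (tr_an (hb'.sep.mono (col_open _ _) hρ'.sub)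
    (((hG' k).hol (col_open _ _)).1.mul ((hG' i).hol (col_open _ _)).2) hx).differentiableAt) hr.1
    (by linarith) he hn (lam_any hb'.sep hΛ' hρ' hG' i k)
  have hΓ : ∀ i, ∃ Γ, Pr (sp (φ s) f) Γ (fun p =>
      frm (sp (φ t) (A i)) (d.map (φ t)) m (p.1, ex (y t) p) - cmb ((Q t * (Q s)⁻¹) i)
        (fun j => frm (sp (φ s) (A j)) (d.map (φ s)) m) p) (interior K) := fun i => by
    refine prim hs' (HolC.sub (fun x hx β hβ => ?_) (holC_cmb _ fun j => (ha j).mono k3))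
      fun c hc' => ?_
    · refine holC_frm _ m hb'.md.ne_zero x ?_ _ ((hfi x hx).2 β hβ)
      have := (hev (x, β x) ⟨hβ.2.self_of_nhds, interior_subset hx⟩).1
      rw [cur_eq hb'.md.ne_zero] at this
      exact this.2
    · have h1 := hc'.mono hS
      rw [per_congr h1 (b := fun p => ex (E i t) p - cmb ((Q t * (Q s)⁻¹) i)
        (fun j => frm (sp (φ s) (A j)) (d.map (φ s)) m) p) fun p hp => by rw [(hev p hp).2 i],
        per_sub h1 (ex_cont _) (((holC_cmb _ ha).cont hs).mono hD),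
        per_cmb h1 _ fun j => ((ha j).cont hs).mono hD, congrFun (hc c h1) i]
      exact sub_self _
  choose Γ hΓ using hΓ
  ext i k
  have hp := pair2 (S1 := interior K ∩ (col (rts (d.map (φ s))) ρ ∩
    col (rts (d.map (φ t))) (ρ / 2))) (G' := fun k p => G' k (p.1, ex (y t) p)) hs' hr k1
    (isOpen_interior.inter ((col_open _ _).inter (col_open _ _)))
    (fun z hz => ⟨k1 (hr.2.1 hz), hF hz, (hbb i k).1 hz⟩) inter_subset_left
    (fun j => (ha j).mono k3) (fun k => (hG k).mono fun z hz => hz.2.1)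
    (fun k x hx β hβ => hG' k x hx.2.2 _ ((hfi x hx.1).2 β hβ)) _ hΓ
  simp only [hΛ] at hp
  rw [← (hbb i k).2]
  refine Eq.trans (bb_congr hr.1 fun z hz => ?_) (congrFun (congrFun hp i) k)
  rw [Tr, Tr, (hfi z (k1 (hr.2.1 hz))).1, Multiset.map_map]
  rfl

end

end Pool.Agent.Lib.MP_5591bc_ag.Cu
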