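import Pool.Agent.Lib.MP_5591bc_ag.Cu.Gauss
import Pool.Agent.Lib.MP_5591bc_ag.E.Loc
import Pool.Agent.Lib.MP_5591bc_ag.F.Num

/-! The condition of Galochkin from one generic point. -/

namespace Pool.Agent.Lib.MP_5591bc_ag.Cu

open Polynomial Set Filter Topology Matrix Complex Asymptotics G M
open scoped Polynomial.Bivariate

noncomputable section

variable {σ K ν : Type*} [Fintype σ] [DecidableEq σ] [Field K] [NumberField K] [Algebra K ℂ]
  [Fintype ν] [DecidableEq ν] {T : MvPolynomial σ K} {B : σ → Matrix ν ν (MvPolynomial σ K)}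
  {U U' V : Set (σ → ℂ)} {P P' Q : (σ → ℂ) → Matrix ν ν ℂ} {s t : σ → ℂ}

omit [NumberField K] in
theorem Gal_coeff (ho : IsOpen V) (hQ : FundM T B V Q) (hV : t ∈ V)
    (hT : MvPolynomial.aeval t T ≠ 0) (w : List σ) (i j : ν) :
    MvPolynomial.aeval t T ^ w.length * MvPowerSeries.coeff (Multiset.toFinsupp (w : Multiset σ))
      (tayS (fun z => (Q z * (Q t)⁻¹) i j) t) =
      MvPolynomial.aeval t (iterM T B w i j) / ∏ l, ((w.count l).factorial : ℂ) := by
  have hQ' : FundM (TM ℂ T) (M.BM ℂ B) V Q := by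
    simpa only [FundM, map_apply, MvPolynomial.aeval_map_algebraMap] using hQ
  have ev : ∀ q : MvPolynomial σ K, MvPolynomial.eval t (TM ℂ q) = MvPolynomial.aeval t q :=
    fun q => by simp only [TM, MvPolynomial.eval_map, MvPolynomial.aeval_def]
  have h1 := congrFun₂ (tayX_G (K := ℂ) (x := t) ho hQ' hV (by rwa [ev])) i j
  have an : AnalyticAt ℂ (fun z => (Q z * (Q t)⁻¹) i j) t := by
    simp only [mul_apply]
    exact Finset.analyticAt_fun_sum _ fun a _ => ((hQ t hV).2 i a).1.fun_mul analyticAt_const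
  have h2 : tayS (fun z => (Q z * (Q t)⁻¹) i j) t = mpM ℂ (GbM (TM ℂ T) (M.BM ℂ B) t i j) := by
    rw [← tayM_eq an]
    exact h1
  have hp : (Multiset.toFinsupp (w : Multiset σ)).toMultiset.toList.Perm w := by
    rw [Multiset.toFinsupp_toMultiset, ← Multiset.coe_eq_coe, Multiset.coe_toList]
  have hd : (Multiset.toFinsupp (w : Multiset σ)).degree = w.length := by
    rw [← hp.length_eq, Multiset.length_toList, Finsupp.card_toMultiset]
    rfl
  have h3 : ∀ w : List σ, iterM (TM ℂ T) (M.BM ℂ B) w =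
      (iterM T B w).map (MvPolynomial.map (algebraMap K ℂ)) := by
    intro w
    induction w with
    | nil => simp [iterM, Matrix.map_one]
    | cons l w ih =>
      ext1 i j
      simp [iterM, ih, Matrix.mul_apply, MvPolynomial.pderiv_map]
  have h4 : ∏ l, ((w.count l).factorial : ℂ) ≠ 0 :=
    Finset.prod_ne_zero_iff.2 fun l _ => Nat.cast_ne_zero.2 (Nat.factorial_ne_zero _)
  rw [h2, MvPowerSeries.coeff_map, coeff_GbM, E.loc_perm ho ⟨t, hV⟩ hQ' hp, h3, map_apply, ev, ev,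
    hd]
  simp only [Multiset.toFinsupp_apply, Multiset.coe_count, Algebra.algebraMap_self, RingHom.id_apply]
  field_simp

theorem Gal_lcm {a b : ℕ} (h : a ≤ b) : Nat.lcmUpto a ∣ Nat.lcmUpto b :=
  Finset.lcm_mono (Finset.Icc_subset_Icc_right h)

theorem gal_of (T0 : T ≠ 0) (ho : IsOpen V) (hQ : FundM T B V Q) (hV : t ∈ V) (ht : Gen K t)
    (h : ∀ i j, GT (Rt t) (tayS (fun z => (Q z * (Q t)⁻¹) i j) t)) : GalM T B := by
  have hT : MvPolynomial.aeval t T ≠ 0 := fun h0 => T0 (ht T h0)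
  choose b hb b0 c hc using h
  obtain ⟨a, ha, a0, hA⟩ := tame_poly t T
  have hA0 : IsIntegral (Rt t) (a * MvPolynomial.aeval t T) := by simpa using hA 0
  have hm : a * ∏ p : ν × ν, b p.1 p.2 ∈ Rt t :=
    mul_mem ha (prod_mem fun p _ => hb p.1 p.2)
  obtain ⟨β, β0, hβ⟩ := gauss ht hm
    (mul_ne_zero a0 (Finset.prod_ne_zero_iff.2 fun p _ => b0 p.1 p.2))
  obtain ⟨C, C1, hC⟩ := F.num_lcm (∑ p : ν × ν, c p.1 p.2)
  have mem : ∀ {x : ℂ}, x ∈ Rt t → IsIntegral (Rt t) x := fun {x} hx =>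
    isIntegral_algebraMap (x := (⟨x, hx⟩ : Rt t))
  refine ⟨β * C, fun m => ⟨β ^ (m + 1) * Nat.lcmUpto ((∑ p : ν × ν, c p.1 p.2) * (m + 1)),
    Nat.mul_pos (pow_pos β0 _) (Nat.lcmUpto_pos _), ?_, fun w hw i j κ => ?_⟩⟩
  · rw [mul_pow]
    push_cast
    exact mul_le_mul_of_nonneg_left (hC (m + 1)) (by positivity)
  obtain ⟨L, hL⟩ : ∃ L, L = Nat.lcmUpto ((∑ p : ν × ν, c p.1 p.2) * (m + 1)) := ⟨_, rfl⟩
  rw [← hL]
  have hd : (Multiset.toFinsupp (w : Multiset σ)).degree = w.length := by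
    rw [← Multiset.coe_card, ← Multiset.toFinsupp_toMultiset (w : Multiset σ),
      Finsupp.card_toMultiset, Finsupp.toMultiset_toFinsupp]
    rfl
  have h1 := hc i j (Multiset.toFinsupp (w : Multiset σ))
  rw [hd] at h1
  obtain ⟨e, he⟩ : Nat.lcmUpto (c i j * (w.length + 1)) ∣ L := by
    rw [hL]
    exact Gal_lcm (Nat.mul_le_mul (Finset.single_le_sum (f := fun p : ν × ν => c p.1 p.2)
      (fun _ _ => Nat.zero_le _) (Finset.mem_univ (i, j))) (by omega))
  have h2 := Gal_coeff ho hQ hV hT w i j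
  have h3 : IsIntegral (Rt t) ((a * ∏ p : ν × ν, b p.1 p.2) ^ (w.length + 1) *
      MvPolynomial.aeval t (MvPolynomial.C ((L : K) / ∏ l, ((w.count l).factorial : K)) *
        iterM T B w i j)) := by
    have h4 := (((mem (natCast_mem _ e)).mul (mem ha)).mul ((mem (prod_mem
      (t := Finset.univ.erase (i, j)) fun p _ => hb p.1 p.2)).pow (w.length + 1))).mul
        ((hA0.pow w.length).mul h1)
    refine (congrArg (IsIntegral (Rt t)) ?_).mpr h4
    rw [map_mul, MvPolynomial.aeval_C, map_div₀, map_natCast, map_prod,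
      ← Finset.mul_prod_erase _ _ (Finset.mem_univ (i, j)), he]
    simp only [map_natCast]
    push_cast
    linear_combination (-(a ^ (w.length + 1) * b i j ^ (w.length + 1) *
      (∏ p ∈ Finset.univ.erase (i, j), b p.1 p.2) ^ (w.length + 1) * e *
        Nat.lcmUpto (c i j * (w.length + 1)) : ℂ)) * h2
  have h5 := (isIntegral_algebraMap (R := ℤ) (A := K) (x := (β : ℤ) ^ (m - w.length))).mul
    (hβ _ _ h3 κ)
  refine (congrArg (IsIntegral ℤ) ?_).mpr h5
  obtain ⟨k, rfl⟩ := Nat.exists_eq_add_of_le hw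
  rw [MvPolynomial.coeff_C_mul, Nat.add_sub_cancel_left]
  simp only [map_pow, map_natCast, Nat.cast_mul, Nat.cast_pow]
  ring

end

end Pool.Agent.Lib.MP_5591bc_ag.Cu
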