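import Pool.Agent.Lib.MP_5591bc_ag.Cu.Trc
import Pool.Agent.Lib.MP_5591bc_ag.Cu.Bx
import Pool.Agent.Lib.MP_5591bc_ag.Cu.Geo

/-! The residue pairing. -/

namespace Pool.Agent.Lib.MP_5591bc_ag.Cu

open Polynomial Set Filter Topology Matrix Complex Asymptotics G M
open scoped Polynomial.Bivariate

noncomputable section

variable {f : ℂ[X][Y]} {d : ℂ[X]} {S S1 : Set ℂ} {Z Z' : Finset ℂ} {x : ℂ} {β : ℂ → ℂ}
  {a a' b b' G H H' W W' Φ Φ' Γ η φ ψ : ℂ × ℂ → ℂ} {F F' Ψ : ℂ → ℂ} {s t u v r ρ : ℝ} {L : ℂ}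
  {μ : ℝ → ℝ → ℝ → ℝ → ℂ} {𝒞 : AddSubmonoid ℂ} {ν : Type*} [Fintype ν]


theorem pa_c (hf : Sep f S) (h : HolC f φ S) : ContinuousOn (Tr f φ) S := tr_cont hf (h.cont hf)

theorem pa_add (hf : Sep f S) (hs : s ≤ t) (hu : u ≤ v) (h : frx s t u v ⊆ S)
    (h1 : ContinuousOn φ (Ov f S)) (h2 : ContinuousOn ψ (Ov f S)) :
    bx (Tr f fun p => φ p + ψ p) s t u v = bx (Tr f φ) s t u v + bx (Tr f ψ) s t u v := by
  rw [← bx_add hs hu ((tr_cont hf h1).mono h) ((tr_cont hf h2).mono h)]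
  exact congrArg (bx · s t u v) (funext fun _ => tr_add)

theorem pa_zero : bx (Tr f fun p => φ p * 0) s t u v = 0 := by
  simp [bx, Tr]

theorem pa_bm (hr : 0 < r) {μ' : ℝ → ℝ → ℝ → ℝ → ℂ}
    (h : ∀ s t u v, s ≤ t → u ≤ v → frx s t u v ⊆ FR Z r → μ s t u v = μ' s t u v) :
    BM Z r μ = BM Z r μ' := by
  have hr' := inv_pos.2 hr
  unfold BM
  congr 1
  · exact Finset.sum_congr rfl fun e he => h _ _ _ _ (by linarith) (by linarith)
      fun z hz => Or.inl ⟨e, he, hz⟩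
  · exact h _ _ _ _ (by linarith) (by linarith) fun z hz => Or.inr hz

theorem pa_sum (hf : Sep f S) (hr : 0 < r) (h : FR Z r ⊆ S) {ι : Type*} (I : Finset ι) (c : ι → ℂ)
    {φ : ι → ℂ × ℂ → ℂ} (hφ : ∀ i, HolC f (φ i) S) :
    BB Z r (Tr f fun p => ∑ i ∈ I, c i * φ i p) = ∑ i ∈ I, c i * BB Z r (Tr f (φ i)) := by
  rw [show (Tr f fun p => ∑ i ∈ I, c i * φ i p) = fun z => ∑ i ∈ I, c i * Tr f (φ i) z from
    funext fun _ => tr_sum I c φ]
  refine (pa_bm hr (μ' := fun s t u v => ∑ i ∈ I, c i * bx (Tr f (φ i)) s t u v)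
    fun s t u v hs hu k => ?_).trans ?_
  · rw [bx_sum hs hu I fun i _ => continuousOn_const.fun_mul ((pa_c hf (hφ i)).mono (k.trans h))]
    exact Finset.sum_congr rfl fun i _ => bx_cmul _
  · simp only [BM, mul_sub, Finset.mul_sum, Finset.sum_sub_distrib]
    rw [Finset.sum_comm]

theorem pa_addB (hf : Sep f S) (hr : 0 < r) (h : FR Z r ⊆ S) (h1 : HolC f φ S) (h2 : HolC f ψ S) :
    BB Z r (Tr f fun p => φ p + ψ p) = BB Z r (Tr f φ) + BB Z r (Tr f ψ) := by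
  refine (pa_bm hr (μ' := fun s t u v => bx (Tr f φ) s t u v + bx (Tr f ψ) s t u v)
    fun s t u v hs hu k => pa_add hf hs hu (k.trans h) (h1.cont hf) (h2.cont hf)).trans ?_
  simp only [BM, Finset.sum_add_distrib]
  ring

theorem pa_fr {e z : ℂ} (hz : z ∈ sq frx e r) : r ≤ ‖z - e‖ ∧ ‖z - e‖ ≤ 2 * r := by
  obtain ⟨⟨⟨k1, k2⟩, k3, k4⟩, k⟩ := hz
  have a1 := abs_le.1 (abs_re_le_norm (z - e))
  have a2 := abs_le.1 (abs_im_le_norm (z - e))
  have a3 := norm_le_abs_re_add_abs_im (z - e)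
  have a4 : |(z - e).re| ≤ r := abs_le.2 ⟨by rw [sub_re]; linarith, by rw [sub_re]; linarith⟩
  have a5 : |(z - e).im| ≤ r := abs_le.2 ⟨by rw [sub_im]; linarith, by rw [sub_im]; linarith⟩
  rw [sub_re] at a1
  rw [sub_im] at a2
  refine ⟨?_, by linarith⟩
  rcases k with k | k | k | k <;> linarith [a1.1, a1.2, a2.1, a2.2]

theorem pa_sq (hf : f.Monic) (hr : 0 < r) {e : ℂ} {C c : ℝ}
    (h : ∀ z ∈ sq frx e r, ∀ y, f.evalEval z y = 0 →
      ‖W (z, y)‖ ≤ C ∧ ‖z - e‖ * ‖a (z, y)‖ ≤ c) :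
    ‖sq (bx (Tr f fun p => W p * a p)) e r‖ ≤ 8 * f.natDegree * |C| * c := by
  refine (bx_le (c := f.natDegree * (|C| * (c / r))) (by linarith) (by linarith)
    fun z hz => tr_le hf fun y hy => ?_).trans (le_of_eq ?_)
  · obtain ⟨k1, k2⟩ := h z hz y hy
    rw [norm_mul]
    refine mul_le_mul (k1.trans (le_abs_self C)) ((le_div_iff₀' hr).2 ?_) (norm_nonneg _)
      (abs_nonneg C)
    exact (mul_le_mul_of_nonneg_right (pa_fr hz).1 (norm_nonneg _)).trans k2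
  · field_simp
    ring

theorem bx_parts (hf : Sep f S) (hs : s ≤ t) (hu : u ≤ v) (h : frx s t u v ⊆ S) (hG : Pr f G a S)
    (hH : Pr f H b S) : bx (Tr f fun p => G p * b p) s t u v =
      -bx (Tr f fun p => H p * a p) s t u v := by
  have k1 := hG.hol hf.op
  have k2 := hH.hol hf.op
  have c1 := (k1.1.mul k2.2).cont hf
  have c2 := (k2.1.mul k1.2).cont hf
  rw [eq_neg_iff_add_eq_zero, ← pa_add hf hs hu h c1 c2]
  exact bx_der hs hu ((tr_cont hf (c1.add c2)).mono h) fun z hz => tr_der hf (hG.mul hH) (h hz)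

theorem bx_parts2 (hf : Sep f S) (hs : s ≤ t) (hu : u ≤ v) (h : frx s t u v ⊆ S)
    (hW : Pr f W a S) (hH : Pr f H b S) : bx (Tr f fun p => star (W p) * b p) s t u v +
      star (bx (Tr f fun p => star (H p) * a p) s t u v) = 0 := by
  have k1 := hW.hol hf.op
  have k2 := hH.hol hf.op
  exact bx_der2 hs hu ((tr_cont hf ((k1.1.cont hf).star.mul (k2.2.cont hf))).mono h)
    ((tr_cont hf ((k2.1.cont hf).star.mul (k1.2.cont hf))).mono h)
    fun z hz w => tr_der2 hf hW hH (h hz) w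

/-- the function `Φ` may be replaced by `H - conj W` -/
theorem bx_phi (hf : Sep f S) (hs : s ≤ t) (hu : u ≤ v) (h : frx s t u v ⊆ S)
    (hΦ : Pr2 f Φ b a S) (hH : Pr f H b S) (hW : Pr f W a S) (hG : Pr f G η S) :
    bx (Tr f fun p => Φ p * η p) s t u v = bx (Tr f fun p => H p * η p) s t u v -
      bx (Tr f fun p => star (W p) * η p) s t u v ∧
    bx (Tr f fun p => star (Φ p) * η p) s t u v = bx (Tr f fun p => star (H p) * η p) s t u v -
      bx (Tr f fun p => W p * η p) s t u v := by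
  have hC := cst hf.op hΦ hH hW
  have cC := (hC.hol hf.op).1.cont hf
  have cH := (hH.hol hf.op).1.cont hf
  have cW := (hW.hol hf.op).1.cont hf
  have cη := (hG.hol hf.op).2.cont hf
  have cΦ := hΦ.cont hf
  have e1 := bx_parts hf hs hu h hC hG
  have e2 := bx_parts2 hf hs hu h hC hG
  rw [pa_zero, neg_zero] at e1
  rw [pa_zero, star_zero, add_zero] at e2
  constructor
  · rw [eq_sub_iff_add_eq, ← pa_add hf hs hu h (cΦ.fun_mul cη) (cW.star.fun_mul cη),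
      ← zero_add (bx (Tr f fun p => H p * η p) s t u v), ← e1,
      ← pa_add hf hs hu h (cC.fun_mul cη) (cH.fun_mul cη)]
    congr 2
    funext p
    ring
  · rw [eq_sub_iff_add_eq, ← pa_add hf hs hu h (cΦ.star.fun_mul cη) (cW.fun_mul cη),
      ← zero_add (bx (Tr f fun p => star (H p) * η p) s t u v), ← e2,
      ← pa_add hf hs hu h (cC.star.fun_mul cη) (cH.star.fun_mul cη)]
    congr 2
    funext p
    simp only [star_add, star_sub, star_star]
    ring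

theorem bb_parts (hf : Sep f S) (hr : 0 < r) (h : FR Z r ⊆ S) (hG : Pr f G a S)
    (hH : Pr f H b S) : BB Z r (Tr f fun p => G p * b p) = -BB Z r (Tr f fun p => H p * a p) := by
  refine (pa_bm hr (μ' := fun s t u v => -bx (Tr f fun p => H p * a p) s t u v)
    fun s t u v hs hu k => bx_parts hf hs hu (k.trans h) hG hH).trans ?_
  simp only [BM, Finset.sum_neg_distrib]
  ring

theorem bb_res (hf : Sep f S) (hr : Ok Z r) (h : Pf Z r ⊆ S) (hφ : HolC f φ S) :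
    BB Z r (Tr f φ) = 0 := by
  have := hr.2.2 (bx (Tr f φ)) ⊥ S h (bx_addv (pa_c hf hφ)) fun x hx => by
    obtain ⟨δ, h0, k⟩ := Metric.isOpen_iff.1 hf.op x hx
    exact ⟨δ, h0, fun s t u v hs hu k' => AddSubmonoid.mem_bot.2
      (bx_hol hs hu fun z hz => (tr_an hf hφ (k (k' hz))).differentiableAt)⟩
  exact neg_eq_zero.1 (AddSubmonoid.mem_bot.1 this)

theorem bb_congr (hr : 0 < r) (h : ∀ z ∈ FR Z r, F z = F' z) : BB Z r F = BB Z r F' := by
  exact pa_bm hr fun s t u v hs hu k => bx_congr hs hu fun z hz => h z (k hz)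

theorem bb_cmb (hf : Sep f S) (hr : 0 < r) (h : FR Z r ⊆ S) (q q' : ν → ℂ)
    {G a : ν → ℂ × ℂ → ℂ} (hG : ∀ k, HolC f (G k) S) (ha : ∀ i, HolC f (a i) S) :
    BB Z r (Tr f fun p => cmb q' G p * cmb q a p) =
      q ⬝ᵥ (of fun i k => BB Z r (Tr f fun p => G k p * a i p)) *ᵥ q' := by
  have := pa_sum hf hr h (Finset.univ : Finset (ν × ν)) (fun i => q i.1 * q' i.2)
    (φ := fun i p => G i.2 p * a i.1 p) fun i => (hG i.2).mul (ha i.1)
  simp only [Fintype.sum_prod_type] at this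
  simp only [dotProduct, mulVec, of_apply, Finset.mul_sum]
  refine Eq.trans ?_ (this.trans ?_)
  · congr 2
    funext p
    rw [cmb, cmb, mul_comm, Finset.sum_mul_sum]
    exact Finset.sum_congr rfl fun i _ => Finset.sum_congr rfl fun k _ => by ring
  · exact Finset.sum_congr rfl fun i _ => Finset.sum_congr rfl fun k _ => by ring

theorem pair1 (hf : Sep f S) (hr : Ok Z r) (h : Pf Z r ⊆ S) (ho : IsOpen S1) (h1 : FR Z r ⊆ S1)
    (h2 : S1 ⊆ S) (hb : HolC f b S) (hG : Pr f G b S1) {a : ν → ℂ × ℂ → ℂ}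
    (ha : ∀ j, HolC f (a j) S) (q : ν → ℂ) (hΓ : Pr f Γ (fun p => η p - cmb q a p) S) :
    BB Z r (Tr f fun p => G p * η p) = ∑ j, q j * BB Z r (Tr f fun p => G p * a j p) := by
  have f1 := hf.mono ho h2
  have kG := (hG.hol ho).1
  have kΓ := hΓ.hol hf.op
  have e := bb_parts f1 hr.1 h1 hG (hΓ.mono h2)
  rw [bb_res hf hr h (kΓ.1.mul hb), neg_zero] at e
  rw [← pa_sum f1 hr.1 h1 Finset.univ q fun j => kG.mul ((ha j).mono h2),
    ← zero_add (BB Z r (Tr f fun p => ∑ j, q j * (G p * a j p))), ← e,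
    ← pa_addB f1 hr.1 h1 (kG.mul (kΓ.2.mono h2)) (ψ := fun p => ∑ j, q j * (G p * a j p))
      (holC_cmb q (a := fun j p => G p * a j p) fun j => kG.mul ((ha j).mono h2))]
  congr 2
  funext p
  simp only [cmb, mul_sub, Finset.mul_sum, mul_left_comm (G p), sub_add_cancel]

theorem pair2 (hf : Sep f S) (hr : Ok Z r) (h : Pf Z r ⊆ S) (ho : IsOpen S1) (h1 : FR Z r ⊆ S1)
    (h2 : S1 ⊆ S) {a a' G G' Γ : ν → ℂ × ℂ → ℂ} (ha : ∀ j, HolC f (a j) S)
    (hG : ∀ k, Pr f (G k) (a k) S1) (hG' : ∀ k, Pr f (G' k) (a' k) S1) (U : Matrix ν ν ℂ)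
    (hΓ : ∀ i, Pr f (Γ i) (fun p => a' i p - cmb (U i) a p) S) :
    (of fun i k => BB Z r (Tr f fun p => G' k p * a' i p)) =
      U * (of fun i k => BB Z r (Tr f fun p => G k p * a i p)) * Uᵀ := by
  have f1 := hf.mono ho h2
  have ha' : ∀ k, HolC f (a' k) S := fun k x hx β hβ => by
    have := (((hΓ k).hol hf.op).2 x hx β hβ).add (holC_cmb (U k) ha x hx β hβ)
    exact this.congr (Eventually.of_forall fun z => sub_add_cancel _ _)
  ext i k
  rw [of_apply, pair1 hf hr h ho h1 h2 (ha' k) (hG' k) ha (U i) (hΓ i), Matrix.mul_assoc,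
    Matrix.mul_apply]
  refine Finset.sum_congr rfl fun j _ => ?_
  rw [bb_parts f1 hr.1 h1 (hG' k) (hG j), pair1 hf hr h ho h1 h2 (ha j) (hG j) ha (U k) (hΓ k),
    Matrix.mul_apply, ← Finset.sum_neg_distrib]
  congr 1
  refine Finset.sum_congr rfl fun l _ => ?_
  rw [bb_parts f1 hr.1 h1 (hG j) (hG l), of_apply, transpose_apply]
  ring

theorem smb (hf : f.Monic) (ha : Sm f Z a) (hW : Bd f Z W) :
    Tendsto (fun r => BB Z r (Tr f fun p => W p * a p)) (𝓝[>] 0) (𝓝 0) := by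
  obtain ⟨ρ', h0, C, hC⟩ := hW
  refine Metric.tendsto_nhds.2 fun ε hε => ?_
  have hK : (0 : ℝ) ≤ (Z.card + 1) * (8 * f.natDegree * |C|) := by positivity
  obtain ⟨ρ, h1, hρ⟩ := ha (ε / ((Z.card + 1) * (8 * f.natDegree * |C|) + 1)) (by positivity)
  filter_upwards [fr_col (Z := Z) h0, Ioo_mem_nhdsGT (half_pos h1)] with r k1 k2
  have k3 := inv_pos.2 k2.1
  have b1 : ∀ e ∈ Z, ‖sq (bx (Tr f fun p => W p * a p)) e r‖ ≤ _ := fun e he =>
    pa_sq hf k2.1 fun z hz y hy => ⟨hC (z, y) ⟨hy, k1 (Or.inl ⟨e, he, hz⟩)⟩,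
      (hρ (z, y) ⟨hy, trivial⟩).1 e he ⟨fun k => by
        have := (pa_fr hz).1
        rw [show z = e from k, sub_self, norm_zero] at this
        linarith [k2.1], by linarith [(pa_fr hz).2, k2.2]⟩⟩
  have b2 : ‖sq (bx (Tr f fun p => W p * a p)) 0 r⁻¹‖ ≤ _ :=
    pa_sq hf k3 fun z hz y hy => ⟨hC (z, y) ⟨hy, k1 (Or.inr hz)⟩, by
      have := (pa_fr hz).1
      rw [sub_zero] at this ⊢
      exact (hρ (z, y) ⟨hy, trivial⟩).2
        (lt_of_lt_of_le (inv_strictAnti₀ k2.1 (by linarith [k2.2])) this)⟩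
  rw [dist_zero_right]
  refine lt_of_le_of_lt ((norm_sub_le _ _).trans (add_le_add ((norm_sum_le _ _).trans
    (Finset.sum_le_card_nsmul _ _ _ b1)) b2)) ?_
  rw [nsmul_eq_mul, ← add_one_mul, ← mul_assoc, ← mul_div_assoc, div_lt_iff₀ (by positivity)]
  nlinarith

end

end Pool.Agent.Lib.MP_5591bc_ag.Cu
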