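import Pool.Agent.Lib.MP_5591bc_ag.Cu.EtaT
import Pool.Agent.Lib.MP_5591bc_ag.Cu.EtaH
import Pool.Agent.Lib.MP_5591bc_ag.Cu.Etp
import Pool.Agent.Lib.MP_5591bc_ag.Cu.Ari
import Pool.Agent.Lib.MP_5591bc_ag.Cu.Eval
import Pool.Agent.Lib.MP_5591bc_ag.Cu.RectG
import Pool.Agent.Lib.MP_5591bc_ag.Cu.Pair

/-! Denominators of the Taylor coefficients of periods. -/

namespace Pool.Agent.Lib.MP_5591bc_ag.Cu

open Polynomial Set Filter Topology Matrix Complex Asymptotics G M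
open scoped Polynomial.Bivariate

noncomputable section

variable {σ 𝓡 ν : Type*} [Fintype σ] [DecidableEq σ] [CommRing 𝓡] [Fintype ν] [DecidableEq ν]
  {φ : (σ → ℂ) → 𝓡 →+* ℂ} {f : 𝓡[X][Y]} {d : 𝓡[X]} {m : ℕ} {A : ν → 𝓡[X][Y]} {w : ν → ℕ}
  {Q : (σ → ℂ) → Matrix ν ν ℂ} {s : σ → ℂ} {D : Set (ℂ × ℂ)} {p : ℂ × ℂ} {Λ : Matrix ν ν ℂ}
  {R : Subring ℂ}


/-- clearing the denominators of one residue -/
theorem galc_ar {b C : ℂ} (hb : b ∈ R) {c n e ε : ℕ} (he : ε ∣ e) (ε0 : 0 < ε)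
    (h : IsIntegral R ((Nat.lcmUpto (c + c * (n + 1)) : ℂ) * b ^ (2 * (c + c * (n + 1))) * C)) :
    IsIntegral R ((Nat.lcmUpto (2 * c * (n + 1)) : ℂ) * (b ^ (4 * c) * e) ^ (n + 1) * (C / ε)) := by
  obtain ⟨u, hu⟩ : Nat.lcmUpto (c + c * (n + 1)) ∣ Nat.lcmUpto (2 * c * (n + 1)) :=
    Finset.lcm_mono (Finset.Icc_subset_Icc_right (by nlinarith [Nat.zero_le (c * n)]))
  obtain ⟨v, rfl⟩ := he
  have h0 : (ε : ℂ) ≠ 0 := by exact_mod_cast ε0.ne'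
  have e1 : (Nat.lcmUpto (2 * c * (n + 1)) : ℂ) * (b ^ (4 * c) * (ε * v : ℕ)) ^ (n + 1) * (C / ε) =
      ((u * v * (ε * v) ^ n : ℕ) * b ^ (2 * c * n)) *
        ((Nat.lcmUpto (c + c * (n + 1)) : ℂ) * b ^ (2 * (c + c * (n + 1))) * C) := by
    rw [hu]; push_cast; field_simp; ring
  rw [e1]
  exact IsIntegral.mul (isIntegral_algebraMap (x := (⟨_, R.mul_mem (natCast_mem R _)
    (R.pow_mem hb _)⟩ : R))) h

omit [DecidableEq ν] in
/-- the pairing of a primitive with a form cohomologous to a combination of the basis, as a sum of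
residues -/
theorem galc_res {F : ℂ[X][Y]} {Z : Finset ℂ} {ρ : ℝ} (hF : Sep F (Z : Set ℂ)ᶜ) (hρ : Adm Z ρ)
    {a G : ν → ℂ × ℂ → ℂ} (ha : ∀ j, HolC F (a j) (Z : Set ℂ)ᶜ)
    (hG : ∀ j, Pr F (G j) (a j) (col Z ρ)) (k : ν)
    (hL : ∀ j, ∀ᶠ r in 𝓝[>] (0 : ℝ), BB Z r (Tr F fun p => G k p * a j p) = Λ j k)
    {η Γ : ℂ × ℂ → ℂ} (hη : HolC F η (Z : Set ℂ)ᶜ) (q : ν → ℂ)
    (hΓ : Pr F Γ (fun p => η p - cmb q a p) (Z : Set ℂ)ᶜ) {N : ℕ}
    {ε : Finset.insertNone Z → ℕ} {y : Finset.insertNone Z → Fin N → ℂ → ℂ}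
    (hy : ∀ o, Pu F o.1 ρ (ε o) N (y o)) {C : Finset.insertNone Z → Fin N → ℂ}
    (hC : ∀ o j, IsRes (pb o.1 (ε o) (y o j) fun p => G k p * η p) (C o j) ∧
      MeromorphicAt (pb o.1 (ε o) (y o j) fun p => G k p * η p) 0) :
    ∑ j, q j * (Λ j k / (2 * Real.pi * I)) = ∑ o, ∑ j, C o j / ε o := by
  have hs : ∀ o : Finset.insertNone Z, Dn o.1 ρ ⊆ (Z : Set ℂ)ᶜ := fun o =>
    (dn_col o.2).trans hρ.sub
  have h1 : ∀ o : Finset.insertNone Z, ∀ᶠ r in 𝓝[>] (0 : ℝ),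
      sqo (Tr F fun p => G k p * η p) o.1 r = 2 * Real.pi * I * (∑ j, C o j) / ε o := fun o =>
    eval_o (hF.mono (dn_open _ _) (hs o)) hρ.1 (hy o)
      ((((hG k).hol (col_open _ _)).1.mono (dn_col o.2)).mul (hη.mono (hs o))) (hC o)
  obtain ⟨r, ⟨r1, r2⟩, r3, r4⟩ := (((rect Z).and (fr_col (Z := Z) hρ.1)).and
    ((eventually_all.2 hL).and (eventually_all.2 h1))).exists
  have h2 := pair1 hF r1 (pf_sub r1.1) (col_open Z ρ) r2 hρ.sub (ha k) (hG k) ha q hΓ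
  rw [bb_eq, ← Finset.sum_coe_sort] at h2
  simp only [r3, r4] at h2
  have h0 : (2 * Real.pi * I : ℂ) ≠ 0 := Complex.two_pi_I_ne_zero
  apply mul_left_cancel₀ h0
  rw [Finset.mul_sum, Finset.mul_sum,
    Finset.sum_congr rfl (g := fun j => q j * Λ j k) fun j _ => by field_simp, ← h2]
  exact Finset.sum_congr rfl fun o _ => by rw [← Finset.sum_div, mul_div_assoc]

theorem LF.galc0 (h : LF φ f d m A w Q s) (hR : ∀ r, Tame R (tayS (fun t => φ t r) s))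
    (hΛ : IsLam (sp (φ s) f) (rts (d.map (φ s)))
      (fun i => frm (sp (φ s) (A i)) (d.map (φ s)) m) Λ) (i k : ν) :
    GT R (∑ j, tayS (fun t => (Q t * (Q s)⁻¹) i j) s *
      MvPowerSeries.C (Λ j k / (2 * Real.pi * I))) := by
  have hb := h.ev.self_of_nhds
  have d0 : d.map (φ s) ≠ 0 := hb.md.ne_zero
  have hF : Sep (sp (φ s) f) (rts (d.map (φ s)) : Set ℂ)ᶜ :=
    ⟨hb.mf, (Finset.finite_toSet _).isClosed.isOpen_compl, fun x hx => hb.fb.2.1 x fun e =>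
      hx (Multiset.mem_toFinset.2 ((mem_roots d0).2 e))⟩
  obtain ⟨ρ, G, hρ, hG, hL⟩ := hΛ
  have hs : ∀ o : Finset.insertNone (rts (d.map (φ s))),
      Dn o.1 ρ ⊆ (rts (d.map (φ s)) : Set ℂ)ᶜ := fun o => (dn_col o.2).trans hρ.sub
  have hS : ∀ o : Finset.insertNone (rts (d.map (φ s))), Sep (sp (φ s) f) (Dn o.1 ρ) := fun o =>
    hF.mono (dn_open _ _) (hs o)
  choose ε y hy using fun o => pui hρ.1 (hS o)
  obtain ⟨b, bR, b0, c, hc⟩ := inT_fin (ι := Finset.insertNone (rts (d.map (φ s))) ×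
    Fin (sp (φ s) f).natDegree × ν) fun z => h.etT hR hρ z.1.2 (hy z.1) z.2.1 (A z.2.2)
  have ha : ∀ j, HolC (sp (φ s) f) (frm (sp (φ s) (A j)) (d.map (φ s)) m)
      (rts (d.map (φ s)) : Set ℂ)ᶜ := fun j => holC_frm _ _ d0
  refine ⟨b ^ (4 * c) * (∏ o, ε o : ℕ), R.mul_mem (R.pow_mem bR _) (natCast_mem R _),
    mul_ne_zero (pow_ne_zero _ b0) (Nat.cast_ne_zero.2 (Finset.prod_ne_zero_iff.2 fun o _ =>
      (hy o).pos.ne')), 2 * c, fun κ => ?_⟩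
  set η : ℂ × ℂ → ℂ := fun p => MvPowerSeries.coeff κ (et φ f d m (A i) s p) with hη
  set q : ν → ℂ := fun j => MvPowerSeries.coeff κ (tayS (fun t => (Q t * (Q s)⁻¹) i j) s) with hq
  have hηh : HolC (sp (φ s) f) η (rts (d.map (φ s)) : Set ℂ)ᶜ := h.etH (A i) κ
  obtain ⟨Γ, hΓ⟩ := prim hF (hηh.sub (holC_cmb q ha)) fun z hz => by
    rw [per_sub hz (hηh.cont hF) ((holC_cmb q ha).cont hF), per_cmb hz q fun j => (ha j).cont hF,
      h.etp (cur_eq d0 ▸ hz) κ i, sub_self]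
  have hP : Pr (sp (φ s) f) (fun p => Γ p + cmb q G p) η (col (rts (d.map (φ s))) ρ) := by
    intro x hx β hβ
    have := (hΓ x (hρ.sub hx) β hβ).fun_add (pr_cmb q (fun j _ => hG j) x hx β hβ)
    simpa using this
  have key : ∀ o j, ∃ C, (IsRes (pb o.1 (ε o) (y o j) fun p => G k p * η p) C ∧
      MeromorphicAt (pb o.1 (ε o) (y o j) fun p => G k p * η p) 0) ∧
      IsIntegral R ((Nat.lcmUpto (c + c * (κ.degree + 1)) : ℂ) *
        b ^ (2 * (c + c * (κ.degree + 1))) * C) := by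
    intro o j
    have hw := wu_ev (hy o).pos hρ.1
    have e1 : MvPowerSeries.coeff 0 (gs (𝓝[≠] 0) fun u =>
        MvPowerSeries.C (deriv (xo o.1 (ε o)) u) * et φ f d m (A k) s (xo o.1 (ε o) u, y o j u)) =
        (↑(pb o.1 (ε o) (y o j) (frm (sp (φ s) (A k)) (d.map (φ s)) m)) : Gm) := by
      refine Germ.coe_eq.2 ?_
      filter_upwards [hw] with u hu
      have hm := (hy o).mem hb.mf hρ.1 hu j
      rw [MvPowerSeries.coeff_C_mul, h.et0 _ (cur_eq d0 ▸ ⟨hm.1, hs o hm.2⟩), mul_comm]; rfl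
    have e2 : MvPowerSeries.coeff κ (gs (𝓝[≠] 0) fun u =>
        MvPowerSeries.C (deriv (xo o.1 (ε o)) u) * et φ f d m (A i) s (xo o.1 (ε o) u, y o j u)) =
        (↑(pb o.1 (ε o) (y o j) η) : Gm) := by
      refine Germ.coe_eq.2 (Eventually.of_forall fun u => ?_)
      simp only [MvPowerSeries.coeff_C_mul]
      exact mul_comm _ _
    have h1 := hc (o, j, k) 0
    have h2 := hc (o, j, i) κ
    simp only [e1, map_zero, zero_add, mul_one] at h1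
    simp only [e2] at h2
    obtain ⟨C, c1, c2, c3⟩ := ari bR b0 h1 h2 (Ψ := fun u => G k (xo o.1 (ε o) u, y o j u))
      (hw.mono fun u hu => (hy o).der (hS o) hρ.1 ((hG k).mono (dn_col o.2)) hu j)
      ⟨_, hw.mono fun u hu => by
        simpa using (hy o).der (hS o) hρ.1 (hP.mono (dn_col o.2)) hu j⟩
    have e3 : (pb o.1 (ε o) (y o j) fun p => G k p * η p) =
        fun u => G k (xo o.1 (ε o) u, y o j u) * pb o.1 (ε o) (y o j) η u :=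
      funext fun u => mul_assoc _ _ _
    exact ⟨C, e3 ▸ ⟨c1, c2⟩, c3⟩
  choose C hC hI using key
  have e := galc_res hF hρ ha hG k (fun j => hL j k) hηh q hΓ hy hC
  simp only [map_sum, MvPowerSeries.coeff_mul_C]
  rw [e]
  simp only [Finset.mul_sum]
  exact IsIntegral.sum _ fun o _ => IsIntegral.sum _ fun j _ =>
    galc_ar bR (Finset.dvd_prod_of_mem _ (Finset.mem_univ o)) (hy o).pos (hI o j)

end

end Pool.Agent.Lib.MP_5591bc_ag.Cu
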