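import Pool.Agent.Lib.MP_5591bc_ag.Cu.GalC
import Pool.Agent.Lib.MP_5591bc_ag.Cu.FibP

/-! Inverting the residue pairing. -/

namespace Pool.Agent.Lib.MP_5591bc_ag.Cu

open Polynomial Set Filter Topology Matrix Complex Asymptotics G M
open scoped Polynomial.Bivariate

noncomputable section

variable {σ 𝓡 ν : Type*} [Fintype σ] [DecidableEq σ] [CommRing 𝓡] [Fintype ν] [DecidableEq ν]
  {φ : (σ → ℂ) → 𝓡 →+* ℂ} {f : 𝓡[X][Y]} {d : 𝓡[X]} {m : ℕ} {A : ν → 𝓡[X][Y]} {w : ν → ℕ}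
  {Q : (σ → ℂ) → Matrix ν ν ℂ} {s : σ → ℂ} {D : Set (ℂ × ℂ)} {p : ℂ × ℂ} {Λ : Matrix ν ν ℂ}
  {R : Subring ℂ}

theorem gd_mem {b : ℂ} (hb : b ∈ R) : IsIntegral R b := isIntegral_algebraMap (x := (⟨b, hb⟩ : R))

theorem gd_lcm {n n' : ℕ} (h : n ≤ n') : Nat.lcmUpto n ∣ Nat.lcmUpto n' :=
  Finset.lcm_mono (Finset.Icc_subset_Icc_right h)

/-- larger denominators -/
theorem gd_up {b b' x : ℂ} (hb : b ∈ R) (hb' : b' ∈ R) {n n' k k' : ℕ} (hn : n ≤ n') (hk : k ≤ k')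
    (h : IsIntegral R ((Nat.lcmUpto n : ℂ) * b ^ k * x)) :
    IsIntegral R ((Nat.lcmUpto n' : ℂ) * (b * b') ^ k' * x) := by
  obtain ⟨q, hq⟩ := gd_lcm hn
  obtain ⟨j, rfl⟩ := Nat.exists_eq_add_of_le hk
  have e : (Nat.lcmUpto n' : ℂ) * (b * b') ^ (k + j) * x =
      ((q : ℂ) * b ^ j * b' ^ (k + j)) * ((Nat.lcmUpto n : ℂ) * b ^ k * x) := by
    rw [hq]; push_cast; ring
  rw [e]
  exact (gd_mem (mul_mem (mul_mem (natCast_mem R q) (pow_mem hb _)) (pow_mem hb' _))).mul h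

theorem gt_ex (σ : Type*) [Fintype σ] [DecidableEq σ] (R : Subring ℂ) :
    ∃ 𝓖 : AddSubgroup (MvPowerSeries σ ℂ), (∀ S, S ∈ 𝓖 ↔ GT R S) ∧
      ∀ S ∈ 𝓖, ∀ S', Tame R S' → S * S' ∈ 𝓖 := by
  refine ⟨⟨⟨⟨{S | GT R S}, ?_⟩, ?_⟩, ?_⟩, fun _ => Iff.rfl, ?_⟩
  · rintro S S' ⟨b, hb, b0, c, h⟩ ⟨b', hb', b0', c', h'⟩
    refine ⟨b * b', mul_mem hb hb', mul_ne_zero b0 b0', c + c', fun κ => ?_⟩
    rw [map_add, mul_add]
    refine (gd_up hb hb' (by nlinarith) le_rfl (h κ)).add ?_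
    rw [mul_comm b]
    exact gd_up hb' hb (by nlinarith) le_rfl (h' κ)
  · exact ⟨1, one_mem _, one_ne_zero, 0, fun κ => by simpa using isIntegral_zero⟩
  · rintro S ⟨b, hb, b0, c, h⟩
    exact ⟨b, hb, b0, c, fun κ => by simpa using (h κ).neg⟩
  · rintro S ⟨b, hb, b0, c, h⟩ S' ⟨b', hb', b0', h'⟩
    refine ⟨b * b', mul_mem hb hb', mul_ne_zero b0 b0', c, fun κ => ?_⟩
    rw [MvPowerSeries.coeff_mul, Finset.mul_sum]
    refine IsIntegral.sum _ fun x hx => ?_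
    have hκ : κ.degree = x.1.degree + x.2.degree := by
      rw [← Finset.HasAntidiagonal.mem_antidiagonal.1 hx, map_add]
    obtain ⟨q, hq⟩ := gd_lcm (n := c * (x.1.degree + 1)) (n' := c * (κ.degree + 1))
      (Nat.mul_le_mul_left _ (by omega))
    have e : (Nat.lcmUpto (c * (κ.degree + 1)) : ℂ) * (b * b') ^ (κ.degree + 1) *
        (MvPowerSeries.coeff x.1 S * MvPowerSeries.coeff x.2 S') =
        ((q : ℂ) * b ^ x.2.degree * b' ^ x.1.degree) *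
          (((Nat.lcmUpto (c * (x.1.degree + 1)) : ℂ) * b ^ (x.1.degree + 1) *
            MvPowerSeries.coeff x.1 S) * (b' ^ (x.2.degree + 1) * MvPowerSeries.coeff x.2 S')) := by
      rw [hq, hκ]; push_cast; ring
    rw [e]
    exact (gd_mem (mul_mem (mul_mem (natCast_mem R q) (pow_mem hb _)) (pow_mem hb' _))).mul
      ((h _).mul (h' _))

theorem tame_C {c : ℂ} (hc : IsAlgebraic R c) :
    Tame R (MvPowerSeries.C c : MvPowerSeries σ ℂ) := by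
  obtain ⟨b, b0, hb⟩ := hc.exists_integral_multiple
  refine ⟨b, b.2, fun e => b0 (Subtype.ext e), fun κ => ?_⟩
  rw [MvPowerSeries.coeff_C]
  split_ifs with h
  · rw [pow_succ, mul_assoc]
    exact (gd_mem (pow_mem b.2 _)).mul hb
  · simpa using isIntegral_zero

omit [DecidableEq σ] in
theorem gd_det (h : LF φ f d m A w Q s) : (Q s).det ≠ 0 := h.ev.self_of_nhds.fb.2.2.2.1

theorem LF.lamA (h : LF φ f d m A w Q s) (hR : ∀ r, Tame R (tayS (fun t => φ t r) s))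
    (hΛ : IsLam (sp (φ s) f) (rts (d.map (φ s)))
      (fun i => frm (sp (φ s) (A i)) (d.map (φ s)) m) Λ) (i k : ν) :
    IsAlgebraic R (Λ i k / (2 * Real.pi * I)) := by
  obtain ⟨b, hb, b0, c, hi⟩ := h.galc0 hR hΛ i k
  have h0 := hi 0
  simp only [map_sum, MvPowerSeries.coeff_mul_C, coeff_zero_tayS,
    Matrix.mul_nonsing_inv _ (gd_det h).isUnit, Matrix.one_apply, ite_mul, one_mul, zero_mul,
    Finset.sum_ite_eq, Finset.mem_univ, if_true] at h0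
  refine IsAlgebraic.of_mul (mem_nonZeroDivisors_of_ne_zero (mul_ne_zero ?_ (pow_ne_zero _ b0)))
    (gd_mem (mul_mem (natCast_mem R _) (pow_mem hb _))).isAlgebraic h0.isAlgebraic
  exact_mod_cast Nat.lcmUpto_ne_zero _

theorem LF.galc (h : LF φ f d m A w Q s) (hR : ∀ r, Tame R (tayS (fun t => φ t r) s)) (i j : ν) :
    GT R (tayS (fun t => (Q t * (Q s)⁻¹) i j) s) := by
  have hb := h.ev.self_of_nhds
  obtain ⟨Λ, hΛ⟩ := hb.lam
  obtain ⟨J, -, J0, hJ⟩ := hb.pol hΛ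
  obtain ⟨𝓖, hG, hm⟩ := gt_ex σ R
  let L : Matrix ν ν (Subalgebra.algebraicClosure R ℂ) := fun i k => ⟨_, h.lamA hR hΛ i k⟩
  let v := (Subalgebra.algebraicClosure R ℂ).val.toRingHom
  have hπ : (2 * Real.pi * I : ℂ) ≠ 0 := Complex.two_pi_I_ne_zero
  have eL : v.mapMatrix L = (2 * Real.pi * I : ℂ)⁻¹ • Λ := by
    ext a b
    exact div_eq_inv_mul _ _
  have d0 : (v.mapMatrix L).det ≠ 0 := by
    have h1 : (MP_5591bc_ag.A.cx J).det ≠ 0 :=
      (Complex.ofRealHom.map_det J).symm.trans_ne (by simpa using J0)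
    rw [eL, Matrix.det_smul, ← neg_neg Λ, ← hJ, Matrix.det_neg, Matrix.det_mul, Matrix.det_mul,
      Matrix.det_transpose]
    have h2 := gd_det h
    exact mul_ne_zero (pow_ne_zero _ (inv_ne_zero hπ)) (mul_ne_zero (pow_ne_zero _ (by norm_num))
      (mul_ne_zero (mul_ne_zero h2 h1) h2))
  have hI : ∀ a b, IsAlgebraic R ((v.mapMatrix L)⁻¹ a b) := fun a b => by
    rw [Matrix.inv_def, Matrix.smul_apply, Ring.inverse_eq_inv', ← RingHom.map_det,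
      ← RingHom.map_adjugate]
    exact (L.det.2.inv).mul (L.adjugate a b).2
  have e : tayS (fun t => (Q t * (Q s)⁻¹) i j) s = ∑ k, (∑ a, tayS (fun t => (Q t * (Q s)⁻¹) i a) s *
      MvPowerSeries.C (Λ a k / (2 * Real.pi * I))) * MvPowerSeries.C ((v.mapMatrix L)⁻¹ k j) := by
    have h1 : ∀ a, ∑ k, Λ a k / (2 * Real.pi * I) * (v.mapMatrix L)⁻¹ k j =
        if a = j then 1 else 0 := fun a => by
      rw [← Matrix.one_apply, ← Matrix.mul_nonsing_inv _ d0.isUnit, Matrix.mul_apply]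
      rfl
    generalize (v.mapMatrix L)⁻¹ = N at h1 ⊢
    generalize (2 * Real.pi * I : ℂ) = z at h1 ⊢
    simp only [Finset.sum_mul, mul_assoc, ← map_mul]
    rw [Finset.sum_comm]
    simp only [← Finset.mul_sum, ← map_sum, h1, apply_ite MvPowerSeries.C, map_one, map_zero,
      mul_ite, mul_one, mul_zero, Finset.sum_ite_eq', Finset.mem_univ, if_true]
  rw [e, ← hG]
  exact sum_mem fun k _ => hm _ ((hG _).2 (h.galc0 hR hΛ i k)) _ (tame_C (hI k j))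

end

end Pool.Agent.Lib.MP_5591bc_ag.Cu
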