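import Pool.Agent.Lib.MP_5591bc_ag.Cu.Hens

/-! Generic points and the lemma of Gauss. -/

namespace Pool.Agent.Lib.MP_5591bc_ag.Cu

open Polynomial Set Filter Topology Matrix Complex Asymptotics G M
open scoped Polynomial.Bivariate

noncomputable section

variable {σ K ν : Type*} [Fintype σ] [DecidableEq σ] [Field K] [NumberField K] [Algebra K ℂ]
  [Fintype ν] [DecidableEq ν] {T : MvPolynomial σ K} {B : σ → Matrix ν ν (MvPolynomial σ K)}
  {U U' V : Set (σ → ℂ)} {P P' Q : (σ → ℂ) → Matrix ν ν ℂ} {s t : σ → ℂ}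


theorem gen_ex (K : Type*) [Field K] [NumberField K] [Algebra K ℂ] (ho : IsOpen V)
    (hV : V.Nonempty) : ∃ t ∈ V, Gen K t := by
  have : Countable K := Countable.of_equiv _ (Module.finBasis ℚ K).equivFun.toEquiv.symm
  have : Countable (MvPolynomial σ K) := Cardinal.mk_le_aleph0_iff.1
    (MvPolynomial.cardinalMk_le_max_lift.trans (by simp))
  have : Dense (⋂ q : {q : MvPolynomial σ K // q ≠ 0},
      {v : σ → ℂ | MvPolynomial.aeval v q.1 ≠ 0}) := by
    refine dense_iInter_of_isOpen (fun q => ?_) fun q v => ?_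
    · exact isOpen_ne_fun (continuous_iff_continuousAt.2 fun _ => (aeval_ana q.1).continuousAt)
        continuous_const
    · by_contra hv
      have e : ∀ᶠ z in 𝓝 v, MvPolynomial.aeval z q.1 = 0 := by
        filter_upwards [isClosed_closure.isOpen_compl.mem_nhds hv] with z hz
        by_contra h'
        exact hz (subset_closure h')
      have hA : AnalyticOnNhd ℂ (fun z : σ → ℂ => MvPolynomial.aeval z q.1) Set.univ :=
        fun z _ => aeval_ana q.1
      have := hA.eqOn_zero_of_preconnected_of_eventuallyEq_zero isPreconnected_univ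
        (Set.mem_univ v) e
      refine q.2 (MvPolynomial.map_injective (algebraMap K ℂ) (algebraMap K ℂ).injective
        (MvPolynomial.funext fun z => ?_))
      simpa [MvPolynomial.eval_map, MvPolynomial.aeval_def] using this (Set.mem_univ z)
  obtain ⟨v, hv, h⟩ := this.inter_open_nonempty V ho hV
  exact ⟨v, hv, fun q e => by_contra fun k => Set.mem_iInter.1 h ⟨q, k⟩ e⟩

omit [Fintype σ] [NumberField K] [Algebra K ℂ] in
theorem gau_prim (W : ValuationSubring K) {f : MvPolynomial σ K} (f0 : f ≠ 0) :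
    ∃ (a : K) (g : MvPolynomial σ W), f = MvPolynomial.C a * g.map W.subtype ∧
      g.map (IsLocalRing.residue W) ≠ 0 := by
  obtain ⟨κ, hκ, hm⟩ := f.support.exists_max_image (fun κ => W.valuation (f.coeff κ))
    (MvPolynomial.support_nonempty.2 f0)
  have a0 : f.coeff κ ≠ 0 := MvPolynomial.mem_support_iff.1 hκ
  have m : ∀ l, f.coeff l / f.coeff κ ∈ W := fun l => by
    by_cases hl : l ∈ f.support
    · rw [← W.valuation_le_one_iff, map_div₀]
      exact div_le_one_of_le₀ (hm l hl) zero_le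
    · simp [MvPolynomial.notMem_support_iff.1 hl]
  let g : MvPolynomial σ W := ∑ l ∈ f.support, MvPolynomial.monomial l ⟨_, m l⟩
  have cg : ∀ l, g.coeff l = ⟨_, m l⟩ := fun l => by
    simp only [g, MvPolynomial.coeff_sum, MvPolynomial.coeff_monomial, Finset.sum_ite_eq']
    split_ifs with hl
    · rfl
    · exact Subtype.ext (by simp [MvPolynomial.notMem_support_iff.1 hl])
  refine ⟨f.coeff κ, g, MvPolynomial.ext _ _ fun l => ?_, fun e => ?_⟩
  · rw [MvPolynomial.coeff_C_mul, MvPolynomial.coeff_map, cg]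
    exact (mul_div_cancel₀ _ a0).symm
  · have := congrArg (MvPolynomial.coeff κ) e
    rw [MvPolynomial.coeff_map, cg, show (⟨_, m κ⟩ : W) = 1 from Subtype.ext (div_self a0)] at this
    simp at this

omit [Fintype σ] [NumberField K] [Algebra K ℂ] in
theorem gau_val (W : ValuationSubring K) {f H : MvPolynomial σ K} {n : ℕ}
    (h : ∀ κ, (f ^ n * H).coeff κ ∈ W) (κ l : σ →₀ ℕ) : f.coeff κ ^ n * H.coeff l ∈ W := by
  by_cases H0 : H = 0
  · simp [H0]
  by_cases f0 : f = 0
  · rcases n with _ | n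
    · simpa using h l
    · simp [f0]
  obtain ⟨a, g, rfl, g0⟩ := gau_prim W f0
  obtain ⟨a', g', rfl, g0'⟩ := gau_prim W H0
  have e : (g ^ n * g').map (IsLocalRing.residue W) ≠ 0 := by
    rw [map_mul, map_pow]
    exact mul_ne_zero (pow_ne_zero _ g0) g0'
  obtain ⟨μ, hμ⟩ := MvPolynomial.ne_zero_iff.1 e
  rw [MvPolynomial.coeff_map, ne_eq, IsLocalRing.residue_eq_zero_iff,
    IsLocalRing.notMem_maximalIdeal] at hμ
  obtain ⟨w, hw⟩ := hμ.exists_right_inv
  have k := h μ
  rw [show (MvPolynomial.C a * g.map W.subtype) ^ n * (MvPolynomial.C a' * g'.map W.subtype) =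
    MvPolynomial.C (a ^ n * a') * (g ^ n * g').map W.subtype by
      simp only [map_mul, map_pow]; ring, MvPolynomial.coeff_C_mul, MvPolynomial.coeff_map] at k
  have k' := mul_mem k w.2
  rw [mul_assoc, show W.subtype ((g ^ n * g').coeff μ) * (w : K) = 1 from
    congrArg W.subtype hw, mul_one] at k'
  rw [MvPolynomial.coeff_C_mul, MvPolynomial.coeff_C_mul, MvPolynomial.coeff_map,
    MvPolynomial.coeff_map, mul_pow, mul_mul_mul_comm]
  exact mul_mem k' (mul_mem (pow_mem (g.coeff κ).2 n) (g'.coeff l).2)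

omit [NumberField K] [Algebra K ℂ] in
theorem gau_int {x : K} (h : ∀ W : ValuationSubring K, x ∈ W) : IsIntegral ℤ x := by
  have e := iInf_valuationSubring_superset (K := K) (s := ∅)
  have : x ∈ (integralClosure (Subring.closure (∅ : Set K)) K).toSubring := by
    rw [← e, Subring.mem_iInf]
    exact fun W => h W.1
  have i : Algebra.IsIntegral ℤ (Subring.closure (∅ : Set K)) := ⟨fun y => by
    obtain ⟨n, hn⟩ := Subring.mem_bot.1 ((Subring.closure_empty (R := K)).le y.2)
    rw [show y = (n : Subring.closure (∅ : Set K)) from Subtype.ext (by simpa using hn.symm)]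
    exact isIntegral_algebraMap (x := n)⟩
  exact isIntegral_trans x this

attribute [local instance] MvPolynomial.algebraMvPolynomial in
theorem gauss (ht : Gen K t) {b : ℂ} (hb : b ∈ Rt t) (b0 : b ≠ 0) : ∃ β : ℕ, 0 < β ∧
    ∀ (n : ℕ) (H : MvPolynomial σ K), IsIntegral (Rt t) (b ^ n * MvPolynomial.aeval t H) →
      ∀ κ, IsIntegral ℤ ((β : K) ^ n * MvPolynomial.coeff κ H) := by
  obtain ⟨c, rfl⟩ := hb
  have c0 : c ≠ 0 := fun e => b0 (by rw [e, map_zero])
  obtain ⟨μ, hμ⟩ := MvPolynomial.ne_zero_iff.1 c0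
  refine ⟨(c.coeff μ).natAbs, Int.natAbs_pos.2 hμ, fun n H h κ => ?_⟩
  let ψ : MvPolynomial σ K →+* ℂ := (MvPolynomial.aeval t : MvPolynomial σ K →ₐ[K] ℂ)
  have inj : Function.Injective ψ := (injective_iff_map_eq_zero ψ).2 ht
  have cm : ψ.comp (algebraMap (MvPolynomial σ ℤ) (MvPolynomial σ K)) =
      MvPolynomial.eval₂Hom (Int.castRingHom ℂ) t :=
    MvPolynomial.ringHom_ext (fun r => by simp) fun i => by
      change ψ ((MvPolynomial.X i : MvPolynomial σ ℤ).map (algebraMap ℤ K)) = _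
      simp [ψ]
  have i : IsIntegral (MvPolynomial σ ℤ) (c.map (algebraMap ℤ K) ^ n * H) := by
    obtain ⟨p, pm, hp⟩ := h
    let ρ : MvPolynomial σ ℤ →+* Rt t :=
      (MvPolynomial.eval₂Hom (Int.castRingHom ℂ) t).codRestrict (Rt t) fun x => ⟨x, rfl⟩
    obtain ⟨p', e, -, pm'⟩ := lifts_and_degree_eq_and_monic ((mem_lifts _).2 (map_surjective ρ
      (fun ⟨_, x, e⟩ => ⟨x, Subtype.ext e⟩) p)) pm
    refine ⟨p', pm', inj ?_⟩
    rw [hom_eval₂, cm, map_zero, map_mul, map_pow, ← hp, ← e, eval₂_map]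
    congr 3
    exact RingHom.congr_fun cm c
  rw [MvPolynomial.isIntegral_iff_isIntegral_coeff] at i
  have k : IsIntegral ℤ (((c.coeff μ : ℤ) : K) ^ n * H.coeff κ) := gau_int fun W => by
    have := gau_val W (f := c.map (algebraMap ℤ K)) (H := H) (n := n) (fun l =>
      by
        obtain ⟨y, hy⟩ := IsIntegrallyClosed.isIntegral_iff.1 ((i l).tower_top (A := W))
        exact hy ▸ y.2) μ κ
    simpa [MvPolynomial.coeff_map] using this
  rcases Int.natAbs_eq (c.coeff μ) with e | e
  · rw [e] at k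
    simpa using k
  · rw [e, Int.cast_neg, neg_pow, mul_assoc] at k
    have := ((isIntegral_one (R := ℤ) (B := K)).neg.pow n).mul k
    rw [← mul_assoc, ← mul_pow] at this
    simpa using this

theorem tame_poly (t : σ → ℂ) (r : MvPolynomial σ K) :
    Tame (Rt t) (tayS (fun z => evt z r) t) := by
  let E := hensE σ (integralClosure (Rt t) ℂ).toSubring (1 : ℂ) 0
  have key : ∃ β : ℤ, β ≠ 0 ∧ (β : MvPowerSeries σ ℂ) * MvPolynomial.aeval
      (fun m => (MvPowerSeries.X m + MvPowerSeries.C (t m) : MvPowerSeries σ ℂ)) r ∈ E := by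
    induction r using MvPolynomial.induction_on with
    | C a =>
      obtain ⟨β, b0, hβ⟩ := (IsFractionRing.isAlgebraic_iff ℤ ℚ K).2
        (Algebra.IsAlgebraic.isAlgebraic a) |>.exists_integral_multiple
      refine ⟨β, b0, ?_⟩
      rw [MvPolynomial.aeval_C, MvPowerSeries.algebraMap_apply,
        ← map_intCast (MvPowerSeries.C : ℂ →+* MvPowerSeries σ ℂ), ← map_mul]
      refine hens_C ?_
      have := (hβ.map (algebraMap K ℂ).toIntAlgHom).tower_top (A := Rt t)
      simpa [mem_integralClosure_iff] using this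
    | add a b ha hb =>
      obtain ⟨β, b0, hβ⟩ := ha
      obtain ⟨γ, c0, hγ⟩ := hb
      refine ⟨β * γ, mul_ne_zero b0 c0, ?_⟩
      have := add_mem (mul_mem (intCast_mem E γ) hβ) (mul_mem (intCast_mem E β) hγ)
      convert this using 1
      simp only [map_add, Int.cast_mul]
      ring
    | mul_X a m ha =>
      obtain ⟨β, b0, hβ⟩ := ha
      refine ⟨β, b0, ?_⟩
      rw [map_mul, MvPolynomial.aeval_X, ← mul_assoc]
      refine mul_mem hβ (add_mem (fun κ => ?_) (hens_C ?_))
      · rw [MvPowerSeries.coeff_X]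
        split_ifs <;> simp
      · exact isIntegral_algebraMap (x := (⟨t m, MvPolynomial.X m, by simp⟩ : Rt t))
  obtain ⟨β, b0, hβ⟩ := key
  refine ⟨β, intCast_mem _ β, Int.cast_ne_zero.2 b0, fun κ => ?_⟩
  have k := hβ κ
  rw [← map_intCast (MvPowerSeries.C : ℂ →+* MvPowerSeries σ ℂ), MvPowerSeries.coeff_C_mul,
    one_pow, one_mul, ← tayS_aeval] at k
  rw [pow_succ, mul_assoc]
  exact ((isIntegral_algebraMap (x := (β : Rt t))).pow _).mul k

end

end Pool.Agent.Lib.MP_5591bc_ag.Cu
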