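import Pool.Agent.Lib.MP_5591bc_ag.Cu.Set

/-! Implicit functions in a Banach algebra. -/

namespace Pool.Agent.Lib.MP_5591bc_ag.Cu

open Polynomial Set Filter Topology Matrix Complex Asymptotics G M
open scoped Polynomial.Bivariate

noncomputable section

theorem ift_der {𝒜 : Type*} [NormedCommRing 𝒜] [NormedAlgebra ℂ 𝒜] (q : 𝒜[X]) (y : 𝒜) :
    HasFDerivAt (fun z => q.eval z) (ContinuousLinearMap.mul ℂ 𝒜 (q.derivative.eval y)) y := by
  induction q using Polynomial.induction_on' with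
  | add a b ha hb => simpa only [eval_add, derivative_add, map_add] using ha.fun_add hb
  | monomial n a =>
    simp only [eval_monomial, derivative_monomial]
    refine ((hasFDerivAt_pow (𝕜 := ℂ) n (x := y)).const_mul a).congr_fderiv ?_
    ext v
    simp
    ring

theorem ift {V 𝒜 : Type*} [NormedAddCommGroup V] [NormedSpace ℂ V] [CompleteSpace V]
    [NormedCommRing 𝒜] [NormedAlgebra ℂ 𝒜] [CompleteSpace 𝒜] {g : V → 𝒜[X]} {n : ℕ} {s : V}
    {y₀ : 𝒜} (hc : ∀ i, AnalyticAt ℂ (fun t => (g t).coeff i) s)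
    (hn : ∀ t, (g t).natDegree ≤ n) (h0 : (g s).eval y₀ = 0)
    (hu : IsUnit ((g s).derivative.eval y₀)) :
    ∃ y : V → 𝒜, AnalyticAt ℂ y s ∧ y s = y₀ ∧ (∀ᶠ t in 𝓝 s, (g t).eval (y t) = 0) ∧
      ∀ y' : V → 𝒜, ContinuousAt y' s → y' s = y₀ → (∀ᶠ t in 𝓝 s, (g t).eval (y' t) = 0) →
        y' =ᶠ[𝓝 s] y := by
  have h1 : AnalyticAt ℂ (fun z : V × 𝒜 => (g z.1).eval z.2) (s, y₀) := by
    have : (fun z : V × 𝒜 => (g z.1).eval z.2) =
        fun z => ∑ i ∈ Finset.range (n + 1), (g z.1).coeff i * z.2 ^ i :=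
      funext fun z => eval_eq_sum_range' (Nat.lt_succ_of_le (hn _)) _
    rw [this]
    exact Finset.analyticAt_fun_sum _ fun i _ =>
      ((hc i).comp (f := Prod.fst) (x := (s, y₀)) analyticAt_fst).fun_mul (analyticAt_snd.fun_pow i)
  have h2 : ContDiffAt ℂ ⊤ (fun z : V × 𝒜 => (g z.1).eval z.2) (s, y₀) := h1.contDiffAt
  have h3 : fderiv ℂ (fun z : V × 𝒜 => (g z.1).eval z.2) (s, y₀) ∘L .inr ℂ V 𝒜 =
      ContinuousLinearMap.mul ℂ 𝒜 ((g s).derivative.eval y₀) :=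
    (h1.differentiableAt.hasFDerivAt.comp (f := fun z : 𝒜 => (s, z)) y₀
      (hasFDerivAt_prodMk_right s y₀)).unique (ift_der (g s) y₀)
  have h4 : (fderiv ℂ (fun z : V × 𝒜 => (g z.1).eval z.2) (s, y₀) ∘L
      .inr ℂ V 𝒜).IsInvertible := by
    rw [h3]
    obtain ⟨u, hu⟩ := hu
    rw [← hu]
    refine ContinuousLinearMap.IsInvertible.of_inverse
      (g := ContinuousLinearMap.mul ℂ 𝒜 (↑u⁻¹ : 𝒜)) ?_ ?_ <;> ext v <;> simp
  refine ⟨h2.implicitFunction (by simp) h4, (h2.contDiffAt_implicitFunction _ h4).analyticAt,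
    h2.implicitFunction_apply_self _ h4, ?_, fun y' a b c => ?_⟩
  · simpa only [h0] using h2.eventually_apply_implicitFunction (by simp) h4
  · have k : Tendsto (fun t => (t, y' t)) (𝓝 s) (𝓝 (s, y₀)) := by
      rw [← b]
      exact continuousAt_id.prodMk a
    filter_upwards [k.eventually (h2.eventually_apply_eq_iff_implicitFunction (by simp) h4), c]
      with t k1 k2
    exact (k1.1 (k2.trans h0.symm)).symm

theorem ift_dw {σ 𝒜 : Type*} [Fintype σ] [DecidableEq σ] [NormedAddCommGroup 𝒜] [NormedSpace ℂ 𝒜]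
    [CompleteSpace 𝒜] {F : (σ → ℂ) → 𝒜} {s : σ → ℂ} (hF : AnalyticAt ℂ F s) (w : List σ) :
    ∃ H : (σ → ℂ) → 𝒜, AnalyticAt ℂ H s ∧
      ∀ l : 𝒜 →L[ℂ] ℂ, dw w (fun t => l (F t)) =ᶠ[𝓝 s] fun t => l (H t) := by
  induction w with
  | nil => exact ⟨F, hF, fun _ => EventuallyEq.rfl⟩
  | cons j w ih =>
    obtain ⟨H, h1, h2⟩ := ih
    refine ⟨fun t => fderiv ℂ H t (Pi.single j 1),
      ((ContinuousLinearMap.apply ℂ 𝒜 (Pi.single j (1 : ℂ) : σ → ℂ)).analyticAt _).comp h1.fderiv,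
      fun l => (pd_congr (h2 l) j).trans ?_⟩
    filter_upwards [h1.eventually_analyticAt] with t ht
    exact congrArg (fun L => L (Pi.single j 1))
      (l.hasFDerivAt.comp t ht.differentiableAt.hasFDerivAt).fderiv

theorem tayl {σ 𝒜 : Type*} [Fintype σ] [DecidableEq σ] [NormedAddCommGroup 𝒜] [NormedSpace ℂ 𝒜]
    [CompleteSpace 𝒜] {F : (σ → ℂ) → 𝒜} {s : σ → ℂ} (hF : AnalyticAt ℂ F s) (κ : σ →₀ ℕ) :
    ∃ g : 𝒜, ∀ l : 𝒜 →L[ℂ] ℂ, MvPowerSeries.coeff κ (tayS (fun t => l (F t)) s) = l g := by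
  obtain ⟨H, -, h⟩ := ift_dw hF κ.toMultiset.toList
  refine ⟨(∏ j, ((κ j).factorial : ℂ))⁻¹ • H s, fun l => ?_⟩
  rw [coeff_tayS, (h l).eq_of_nhds, map_smul, smul_eq_mul, div_eq_inv_mul]

end

end Pool.Agent.Lib.MP_5591bc_ag.Cu
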