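import Pool.Agent.Lib.MP_5591bc_ag.Cu.Mer
import Pool.Agent.Lib.MP_5591bc_ag.Cu.Trc

/-! Residues are periods; gluing of local primitives. -/

namespace Pool.Agent.Lib.MP_5591bc_ag.Cu

open Polynomial Set Filter Topology Matrix Complex Asymptotics G M
open scoped Polynomial.Bivariate

noncomputable section

variable {f : ℂ[X][Y]} {d : ℂ[X]} {S S1 : Set ℂ} {Z Z' : Finset ℂ} {x : ℂ} {β : ℂ → ℂ}
  {a a' b b' G H H' W W' Φ Φ' Γ η φ ψ : ℂ × ℂ → ℂ} {F F' Ψ : ℂ → ℂ} {s t u v r ρ : ℝ} {L : ℂ}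
  {μ : ℝ → ℝ → ℝ → ℝ → ℂ} {𝒞 : AddSubmonoid ℂ} {ν : Type*} [Fintype ν]

variable {o : Option ℂ} {ε N m : ℕ} {y : Fin N → ℂ → ℂ} {w : ℂ} {j : Fin N}


theorem resp_der (r u : ℝ) : HasDerivAt (fun u : ℝ => circleMap 0 r (2 * Real.pi * u))
    (2 * Real.pi * I * circleMap 0 r (2 * Real.pi * u)) u := by
  have h1 : HasDerivAt (fun u : ℝ => 2 * Real.pi * u) (2 * Real.pi) u := by
    simpa using (hasDerivAt_id u).const_mul (2 * Real.pi)
  have h2 := (hasDerivAt_circleMap 0 r (2 * Real.pi * u)).scomp u h1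
  refine HasDerivAt.congr_deriv h2 ?_
  rw [real_smul]
  push_cast
  ring

theorem resp (hf : Sep f (Dn o ρ)) (h0 : 0 < ρ) (hy : Pu f o ρ ε N y) (j : Fin N) :
    ∃ c, Cyc (Ov f (Dn o ρ)) c ∧ ∀ (a : ℂ × ℂ → ℂ) (Ψ : ℂ → ℂ) (C : ℂ), HolC f a (Dn o ρ) →
      (∀ w ∈ Wu ε ρ, HasDerivAt Ψ (pb o ε (y j) a w - C / w) w) →
        per a c = 2 * Real.pi * I * C := by
  obtain ⟨R, hR, hW⟩ := wu_eq (ε := ε) hy.pos h0
  set ω : ℝ → ℂ := fun u => circleMap 0 (R / 2) (2 * Real.pi * u) with hω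
  have hne : ∀ u, ω u ≠ 0 := fun u => circleMap_ne_center (by positivity)
  have hmem : ∀ u, ω u ∈ Wu ε ρ := by
    intro u
    rw [hW]
    refine ⟨?_, hne u⟩
    rw [mem_ball_zero_iff, hω]
    simp only [norm_circleMap_zero]
    rw [abs_of_pos (by positivity)]
    linarith
  have hd : ∀ u, HasDerivAt ω (2 * Real.pi * I * ω u) u := fun u => resp_der _ u
  have hc : Continuous ω := continuous_iff_continuousAt.2 fun u => (hd u).continuousAt
  have hcd : ContDiff ℝ 1 ω :=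
    (contDiff_circleMap 0 (R / 2)).comp (contDiff_const.mul contDiff_id)
  have h01 : ω 0 = ω 1 := by
    have := periodic_circleMap 0 (R / 2) 0
    simp only [hω, mul_zero, mul_one]
    rw [← this, zero_add]
  set γ : ℝ → ℂ × ℂ := fun u => (xo o ε (ω u), y j (ω u)) with hγ
  have hx : ∀ u, HasDerivAt (fun u => (γ u).1)
      (deriv (xo o ε) (ω u) * (2 * Real.pi * I * ω u)) u := fun u =>
    (xo_an (o := o) (ε := ε) (hne u)).differentiableAt.hasDerivAt.comp_of_eq u (hd u) rfl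
  refine ⟨Finsupp.single γ 1, ⟨?_, ?_⟩, ?_⟩
  · intro δ hδ
    obtain rfl : δ = γ := Finset.mem_singleton.1 (Finsupp.support_single_subset hδ)
    refine ⟨?_, ?_, fun u _ => hy.mem hf.mon h0 (hmem u) j⟩
    · rw [contDiff_iff_contDiffAt]
      intro u
      exact (((xo_an (o := o) (ε := ε) (hne u)).contDiffAt (n := 1)).restrict_scalars ℝ).comp u
        hcd.contDiffAt
    · refine Continuous.continuousOn (Continuous.prodMk ?_ ?_)
      · exact continuous_iff_continuousAt.2 fun u => (hx u).continuousAt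
      · exact continuous_iff_continuousAt.2 fun u =>
          ContinuousAt.comp (f := ω) (hy.an j _ (hmem u)).continuousAt hc.continuousAt
  · rw [Finsupp.mapDomain_single, Finsupp.mapDomain_single]
    simp only [hγ, h01]
  · intro a Ψ C ha hΨ
    have e : ∀ u, a (γ u) * deriv (fun u => (γ u).1) u =
        pb o ε (y j) a (ω u) * (2 * Real.pi * I * ω u) := by
      intro u
      rw [(hx u).deriv, pb, ← mul_assoc]
    have hpc : Continuous fun u => pb o ε (y j) a (ω u) :=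
      continuous_iff_continuousAt.2 fun u =>
        ContinuousAt.comp (f := ω) (hy.hol hf h0 ha (hmem u) j).2.continuousAt hc.continuousAt
    have hD : ∀ u ∈ uIcc (0 : ℝ) 1,
        HasDerivAt (fun u : ℝ => Ψ (ω u) + 2 * Real.pi * I * C * u)
          (pb o ε (y j) a (ω u) * (2 * Real.pi * I * ω u)) u := by
      intro u _
      have h1 : HasDerivAt (fun u : ℝ => Ψ (ω u))
          ((pb o ε (y j) a (ω u) - C / ω u) * (2 * Real.pi * I * ω u)) u :=
        (hΨ _ (hmem u)).comp_of_eq u (hd u) rfl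
      have h2 : HasDerivAt (fun u : ℝ => 2 * Real.pi * I * C * (u : ℂ))
          (2 * Real.pi * I * C * 1) u := (Complex.ofRealCLM.hasDerivAt (x := u)).const_mul _
      refine HasDerivAt.congr_deriv (h1.add h2) ?_
      have := hne u
      field_simp
      ring
    rw [per, Finsupp.sum_single_index (by simp)]
    simp only [e]
    rw [intervalIntegral.integral_eq_sub_of_hasDerivAt hD
      ((hpc.mul (continuous_const.mul hc)).intervalIntegrable _ _), h01]
    simp

theorem glue (h : Adm Z ρ) {G : Option ℂ → ℂ × ℂ → ℂ}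
    (hG : ∀ o ∈ Finset.insertNone Z, Pr f (G o) a (Dn o ρ)) : ∃ G', Pr f G' a (col Z ρ) ∧
      ∀ o ∈ Finset.insertNone Z, ∀ p : ℂ × ℂ, p.1 ∈ Dn o ρ → G' p = G o p := by
  classical
  have key : ∀ o ∈ Finset.insertNone Z, ∀ p : ℂ × ℂ, p.1 ∈ Dn o ρ →
      ∑ o' ∈ Finset.insertNone Z, (if p.1 ∈ Dn o' ρ then G o' p else 0) = G o p := by
    intro o ho p hp
    rw [Finset.sum_eq_single_of_mem o ho, if_pos hp]
    intro o' ho' hne
    exact if_neg fun hp' => hne (h.disj ho' ho hp' hp)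
  refine ⟨fun p => ∑ o' ∈ Finset.insertNone Z, if p.1 ∈ Dn o' ρ then G o' p else 0, ?_, key⟩
  rintro x ⟨o, ho, hx⟩ β hβ
  refine (hG o ho x hx β hβ).congr_of_eventuallyEq ?_
  filter_upwards [(dn_open o ρ).mem_nhds hx] with z hz
  exact key o ho (z, β z) hz

end

end Pool.Agent.Lib.MP_5591bc_ag.Cu
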