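import Pool.Agent.Lib.MP_5591bc_ag.Cu.Desc
import Pool.Agent.Lib.MP_5591bc_ag.Cu.Resp

/-! Forms of the first kind near the punctures. -/

namespace Pool.Agent.Lib.MP_5591bc_ag.Cu

open Polynomial Set Filter Topology Matrix Complex Asymptotics G M
open scoped Polynomial.Bivariate

noncomputable section

variable {f : ℂ[X][Y]} {d : ℂ[X]} {S S1 : Set ℂ} {Z Z' : Finset ℂ} {x : ℂ} {β : ℂ → ℂ}
  {a a' b b' G H H' W W' Φ Φ' Γ η φ ψ : ℂ × ℂ → ℂ} {F F' Ψ : ℂ → ℂ} {s t u v r ρ : ℝ} {L : ℂ}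
  {μ : ℝ → ℝ → ℝ → ℝ → ℂ} {𝒞 : AddSubmonoid ℂ} {ν : Type*} [Fintype ν]

variable {o : Option ℂ} {ε N m : ℕ} {y : Fin N → ℂ → ℂ} {w : ℂ} {j : Fin N}


/-- the weight of a simple pole at a puncture -/
def loN : Option ℂ → ℂ → ℝ
  | some e, x => ‖x - e‖
  | none, x => ‖x‖

theorem lo_le (hε : 0 < ε) (hw : w ≠ 0) : loN o (xo o ε w) ≤ ‖w‖ * ‖deriv (xo o ε) w‖ := by
  obtain ⟨k, rfl⟩ := Nat.exists_eq_add_one_of_ne_zero hε.ne'
  have h1 : (1 : ℝ) ≤ ‖((k + 1 : ℕ) : ℂ)‖ := by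
    rw [Complex.norm_natCast]
    exact_mod_cast hε
  have h0 := norm_pos_iff.2 hw
  cases o with
  | some e =>
    have : deriv (xo (some e) (k + 1)) w = _ := ((hasDerivAt_pow (k + 1) w).const_add e).deriv
    rw [this]
    simp only [loN, ξo, add_sub_cancel_left, norm_mul, norm_pow, Nat.add_sub_cancel]
    rw [pow_succ', mul_left_comm]
    exact le_mul_of_one_le_left (by positivity) h1
  | none =>
    have : deriv (xo none (k + 1)) w = _ :=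
      ((hasDerivAt_pow (k + 1) w).inv (pow_ne_zero _ hw)).deriv
    rw [this]
    simp only [loN, ξo, norm_inv, norm_div, norm_neg, norm_mul, norm_pow, Nat.add_sub_cancel]
    refine (le_mul_of_one_le_left (by positivity) h1).trans (le_of_eq ?_)
    field_simp
    ring

theorem lo_wu (hε : 0 < ε) {P : ℂ → Prop} (h : ∀ᶠ w in 𝓝[≠] (0 : ℂ), P w) :
    ∀ᶠ ρ in 𝓝[>] (0 : ℝ), ∀ w ∈ Wu ε ρ, P w := by
  obtain ⟨δ, h0, k⟩ := Metric.eventually_nhds_iff.1 (eventually_nhdsWithin_iff.1 h)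
  filter_upwards [Ioo_mem_nhdsGT (pow_pos h0 ε)] with ρ hρ w hw
  refine k ?_ hw.1
  rw [dist_zero_right]
  exact lt_of_pow_lt_pow_left₀ ε h0.le (hw.2.trans hρ.2)

theorem lo_unif {l : Filter ℂ} {F : Fin N → ℂ → ℂ} (h : ∀ j, F j =O[l] fun _ => (1 : ℝ)) :
    ∃ C > (0 : ℝ), ∀ᶠ w in l, ∀ j, ‖F j w‖ ≤ C := by
  choose C hC using fun j => (h j).bound
  refine ⟨∑ j, |C j| + 1, by positivity, eventually_all.2 fun j => (hC j).mono fun w hw => ?_⟩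
  have := Finset.single_le_sum (f := fun j => |C j|) (fun _ _ => abs_nonneg _) (Finset.mem_univ j)
  rw [norm_one, mul_one] at hw
  linarith [le_abs_self (C j)]

theorem lo_one (hd : d ≠ 0) (hf : Sep f (rts d : Set ℂ)ᶜ) (hρ : Adm (rts d) ρ) {A : ℂ[X][Y]}
    (h : Hol (Cur f d) (frm A d m)) (ho : o ∈ Finset.insertNone (rts d)) :
    (∀ η > 0, ∀ᶠ r in 𝓝[>] (0 : ℝ), ∀ p ∈ Ov f (Dn o r), loN o p.1 * ‖frm A d m p‖ ≤ η) ∧
    ∃ G, Pr f G (frm A d m) (Dn o ρ) ∧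
      ∃ C : ℝ, ∀ᶠ r in 𝓝[>] (0 : ℝ), ∀ p ∈ Ov f (Dn o r), ‖G p‖ ≤ C := by
  have sub := (dn_col ho).trans hρ.sub
  have fo := hf.mono (dn_open o ρ) sub
  obtain ⟨ε, y, hy⟩ := pui hρ.1 fo
  have ha := (holC_frm (f := f) A m hd).mono sub
  have bd : ∀ j, pb o ε (y j) (frm A d m) =O[𝓝[≠] 0] fun _ => (1 : ℝ) := fun j => by
    refine h (xo o ε) (y j) (xo_mer o ε) (hy.mer j) ?_
    filter_upwards [wu_ev hy.pos hρ.1] with w hw
    rw [cur_eq hd]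
    exact ⟨(hy.mem hf.mon hρ.1 hw j).1, sub (hy.mem hf.mon hρ.1 hw j).2⟩
  constructor
  · intro η hη
    obtain ⟨C, h0, hC⟩ := lo_unif bd
    have sm : ∀ᶠ w in 𝓝[≠] (0 : ℂ), ‖w‖ < η / C :=
      nhdsWithin_le_nhds (continuous_norm.continuousAt.eventually_lt continuousAt_const
        (by rw [norm_zero]; positivity))
    filter_upwards [lo_wu hy.pos (hC.and sm), Ioo_mem_nhdsGT hρ.1] with r k1 k2 p hp
    obtain ⟨w, -, j, rfl⟩ := hy.onto hf.mon hρ.1 (p := p) ⟨hp.1, dn_mono o k2.1 k2.2.le hp.2⟩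
    have hw := (xo_mem hy.pos k2.1).1 hp.2
    have k3 := (k1 w hw).1 j
    have k4 := (lt_div_iff₀ h0).1 (k1 w hw).2
    rw [pb, norm_mul] at k3
    refine (mul_le_mul_of_nonneg_right (lo_le hy.pos hw.1) (norm_nonneg _)).trans ?_
    rw [mul_assoc, mul_comm ‖deriv (xo o ε) w‖]
    exact (mul_le_mul_of_nonneg_left k3 (norm_nonneg _)).trans k4.le
  · choose c Ψ h1 _ h3 using fun j => laur hy.pos hρ.1
      (fun w hw => (hy.hol fo hρ.1 ha hw j).2) (hy.frm_mer A d m j)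
    obtain ⟨G, hG, hb⟩ := desc fo hρ.1 hy (g := Ψ) (a := frm A d m) fun j w hw => by
      simpa [(h3 j (bd j)).1] using h1 j w hw
    obtain ⟨C, -, hC⟩ := lo_unif fun j => (h3 j (bd j)).2
    refine ⟨G, hG, C, ?_⟩
    filter_upwards [lo_wu hy.pos hC, Ioo_mem_nhdsGT hρ.1] with r k1 k2
    exact hb r k2.1 k2.2.le C fun j w hw => k1 w hw j

theorem loch (hd : d ≠ 0) (hf : Sep f (rts d : Set ℂ)ᶜ) (hρ : Adm (rts d) ρ) {A : ℂ[X][Y]}
    (h : Hol (Cur f d) (frm A d m)) : Sm f (rts d) (frm A d m) ∧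
      ∃ W, Pr f W (frm A d m) (col (rts d) ρ) ∧ Bd f (rts d) W := by
  constructor
  · intro η hη
    obtain ⟨r, k1, k2⟩ := (((Finset.eventually_all _).2 fun o ho =>
      (lo_one hd hf hρ h ho).1 η hη).and self_mem_nhdsWithin).exists
    exact ⟨r, k2, fun p hp => ⟨fun e he k => k1 (some e) (Finset.some_mem_insertNone.2 he) p
      ⟨hp.1, k⟩, fun k => k1 none Finset.none_mem_insertNone p ⟨hp.1, k⟩⟩⟩
  · choose! G hG C hC using fun o ho => (lo_one (o := o) hd hf hρ h ho).2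
    obtain ⟨W, hW, e⟩ := glue hρ hG
    obtain ⟨r, k1, k2⟩ := (((Finset.eventually_all _).2 hC).and (Ioo_mem_nhdsGT hρ.1)).exists
    refine ⟨W, hW, r, k2.1, ∑ o ∈ Finset.insertNone (rts d), |C o|, fun p hp => ?_⟩
    obtain ⟨o, ho, k⟩ := hp.2
    rw [e o ho p (dn_mono o k2.1 k2.2.le k)]
    exact (k1 o ho p ⟨hp.1, k⟩).trans ((le_abs_self _).trans
      (Finset.single_le_sum (f := fun o => |C o|) (fun _ _ => abs_nonneg _) ho))

end

end Pool.Agent.Lib.MP_5591bc_ag.Cu
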