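import Pool.Agent.Lib.MP_5591bc_ag.Cu.Geo
import Pool.Agent.Lib.MP_5591bc_ag.E.Roots

/-! Roots over a punctured disc. -/

namespace Pool.Agent.Lib.MP_5591bc_ag.Cu

open Polynomial Set Filter Topology Matrix Complex Asymptotics G M
open scoped Polynomial.Bivariate

noncomputable section

variable {f : ℂ[X][Y]} {d : ℂ[X]} {S S1 : Set ℂ} {Z Z' : Finset ℂ} {x : ℂ} {β : ℂ → ℂ}
  {a a' b b' G H H' W W' Φ Φ' Γ η φ ψ : ℂ × ℂ → ℂ} {F F' Ψ : ℂ → ℂ} {s t u v r ρ : ℝ} {L : ℂ}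
  {μ : ℝ → ℝ → ℝ → ℝ → ℂ} {𝒞 : AddSubmonoid ℂ} {ν : Type*} [Fintype ν]

variable {o : Option ℂ} {ε N m : ℕ} {y : Fin N → ℂ → ℂ} {w : ℂ} {j : Fin N}


/-- roots on a half plane, by the Cayley map -/
theorem pui_half {g : ℂ → ℂ[X]} {c : ℝ}
    (hc : ∀ i, ∀ ζ : ℂ, ζ.re < c → DifferentiableAt ℂ (fun v => (g v).coeff i) ζ)
    (hn : ∀ ζ : ℂ, ζ.re < c → (g ζ).Monic ∧ (g ζ).natDegree = N ∧ (g ζ).Separable) :
    ∃ A : Fin N → ℂ → ℂ, ∀ ζ : ℂ, ζ.re < c → (∀ j, AnalyticAt ℂ (A j) ζ) ∧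
      Function.Injective (A · ζ) ∧ (g ζ).roots = Finset.univ.val.map fun j => A j ζ := by
  have h1 : ∀ u ∈ Metric.ball (0 : ℂ) 1, 1 - u ≠ 0 := fun u hu e => by
    rw [← sub_eq_zero.1 e] at hu
    simp at hu
  have h2 : ∀ u ∈ Metric.ball (0 : ℂ) 1, ((c : ℂ) - (1 + u) / (1 - u)).re < c := fun u hu => by
    have k := normSq_pos.2 (h1 u hu)
    have k2 : normSq u < 1 := by
      rw [normSq_eq_norm_sq]
      have := mem_ball_zero_iff.1 hu
      nlinarith [norm_nonneg u]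
    have : 0 < ((1 + u) / (1 - u)).re := by
      rw [div_re, ← add_div]
      refine div_pos ?_ k
      rw [normSq_apply] at k2
      simp only [add_re, one_re, sub_re, add_im, one_im, sub_im]
      nlinarith
    simpa using this
  obtain ⟨a, ha, h⟩ := E.roots (g := fun u => g ((c : ℂ) - (1 + u) / (1 - u))) (R := 1) (n := N)
    (fun i u hu => (DifferentiableAt.comp (g := fun v => (g v).coeff i)
      (f := fun u : ℂ => (c : ℂ) - (1 + u) / (1 - u)) u (hc i _ (h2 u hu))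
      (by have := h1 u hu; fun_prop (disch := assumption))).differentiableWithinAt)
    (fun u hu => (hn _ (h2 u hu)).2.1)
    fun u hu y hy => (hn _ (h2 u hu)).2.2.eval₂_derivative_ne_zero (RingHom.id ℂ) hy
  refine ⟨fun j ζ => a j (((c : ℂ) - ζ - 1) / ((c : ℂ) - ζ + 1)), fun ζ hζ => ?_⟩
  have h3 : (c : ℂ) - ζ + 1 ≠ 0 := fun e => by
    have := congrArg re e
    simp at this
    linarith
  have h4 : ((c : ℂ) - ζ - 1) / ((c : ℂ) - ζ + 1) ∈ Metric.ball (0 : ℂ) 1 := by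
    rw [mem_ball_zero_iff, norm_div, div_lt_one (norm_pos_iff.2 h3),
      ← sq_lt_sq₀ (norm_nonneg _) (norm_nonneg _), ← normSq_eq_norm_sq, ← normSq_eq_norm_sq,
      normSq_apply, normSq_apply]
    simp only [add_re, one_re, sub_re, add_im, one_im, sub_im, ofReal_re, ofReal_im]
    nlinarith
  have h5 : (c : ℂ) - (1 + ((c : ℂ) - ζ - 1) / ((c : ℂ) - ζ + 1)) /
      (1 - ((c : ℂ) - ζ - 1) / ((c : ℂ) - ζ + 1)) = ζ := by
    have e1 : 1 - ((c : ℂ) - ζ - 1) / ((c : ℂ) - ζ + 1) = 2 / ((c : ℂ) - ζ + 1) := by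
      field_simp
      ring
    rw [e1]
    field_simp
    ring
  obtain ⟨i1, i2⟩ := h _ h4
  simp only [h5] at i2
  rw [(hn ζ hζ).1.leadingCoeff, C_1, one_mul] at i2
  refine ⟨fun j => AnalyticAt.comp (g := a j)
    (f := fun ζ : ℂ => ((c : ℂ) - ζ - 1) / ((c : ℂ) - ζ + 1))
    ((ha j).analyticAt (Metric.isOpen_ball.mem_nhds h4)) (by fun_prop (disch := assumption)), i1, ?_⟩
  rw [i2, ← roots_multiset_prod_X_sub_C (Finset.univ.val.map fun j =>
    a j (((c : ℂ) - ζ - 1) / ((c : ℂ) - ζ + 1))), Multiset.map_map]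
  rfl

/-- the translation permutes the roots, so a multiple of it fixes them -/
theorem pui_per {g : ℂ → Multiset ℂ} {c : ℝ} {τ : ℂ} (hτ : τ.re = 0) (hg : ∀ ζ, g (ζ + τ) = g ζ)
    {A : Fin N → ℂ → ℂ} (h : ∀ ζ : ℂ, ζ.re < c → (∀ j, AnalyticAt ℂ (A j) ζ) ∧
      Function.Injective (A · ζ) ∧ g ζ = Finset.univ.val.map fun j => A j ζ) :
    ∃ ε : ℕ, 0 < ε ∧ ∀ (n : ℤ) (j : Fin N) (ζ : ℂ), ζ.re < c → A j (ζ + n * (ε * τ)) = A j ζ := by
  have hH : ∀ (x : ℂ) (ζ : ℂ), x.im = 0 → ζ.re < c → (ζ + x * τ).re < c := fun x ζ hx hζ => by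
    simpa [hτ, hx] using hζ
  have h1 : ∀ ζ : ℂ, ζ.re < c → (ζ + τ).re < c := fun ζ hζ => by simpa [hτ] using hζ
  have ho : IsOpen {ζ : ℂ | ζ.re < c} := isOpen_lt continuous_re continuous_const
  have h0 : ((c - 1 : ℝ) : ℂ) ∈ {ζ : ℂ | ζ.re < c} := by simp
  have key : ∀ j, ∃ k, ∀ ζ : ℂ, ζ.re < c → A j (ζ + τ) = A k ζ := by
    intro j
    have : ∃ k, ∃ᶠ ζ in 𝓝[≠] ((c - 1 : ℝ) : ℂ), A j (ζ + τ) = A k ζ := by
      by_contra hn
      simp only [not_exists, not_frequently] at hn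
      obtain ⟨ζ, i1, i2⟩ := ((eventually_all.2 hn).and
        (mem_nhdsWithin_of_mem_nhds (ho.mem_nhds h0))).exists
      have : A j (ζ + τ) ∈ g (ζ + τ) := by
        rw [(h _ (h1 ζ i2)).2.2]
        exact Multiset.mem_map_of_mem _ (Finset.mem_univ j)
      rw [hg, (h ζ i2).2.2] at this
      obtain ⟨k, -, e⟩ := Multiset.mem_map.1 this
      exact i1 k e.symm
    obtain ⟨k, hk⟩ := this
    have a1 : AnalyticOnNhd ℂ (fun ζ => A j (ζ + τ)) {ζ : ℂ | ζ.re < c} := fun ζ hζ =>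
      AnalyticAt.comp (g := A j) (f := fun ζ : ℂ => ζ + τ) ((h _ (h1 ζ hζ)).1 j) (by fun_prop)
    exact ⟨k, fun ζ hζ => a1.eqOn_of_preconnected_of_frequently_eq (fun ζ hζ => (h ζ hζ).1 k)
      (convex_halfSpace_re_lt c).isPreconnected h0 hk hζ⟩
  choose π hπ using key
  have hi : Function.Injective π := fun i j e => (h _ (h1 _ h0)).2.1 (by
    simp only [hπ _ _ h0, e])
  let P : Equiv.Perm (Fin N) := Equiv.ofBijective π (Finite.injective_iff_bijective.1 hi)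
  have h2 : ∀ (m : ℕ) (j : Fin N) (ζ : ℂ), ζ.re < c → A j (ζ + m * τ) = A ((P ^ m) j) ζ := by
    intro m
    induction m with
    | zero => intro j ζ _; simp
    | succ m ih =>
      intro j ζ hζ
      rw [pow_succ, Equiv.Perm.mul_apply, ← ih _ ζ hζ, Nat.cast_succ, add_mul, one_mul,
        ← add_assoc, hπ _ _ (hH m ζ (by simp) hζ)]
      rfl
  have h3 : ∀ (m : ℕ) (j : Fin N) (ζ : ℂ), ζ.re < c →
      A j (ζ + m * (orderOf P * τ)) = A j ζ := fun m j ζ hζ => by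
    rw [← mul_assoc, ← Nat.cast_mul, h2 _ _ _ hζ, mul_comm m, pow_mul, pow_orderOf_eq_one,
      one_pow, Equiv.Perm.one_apply]
  refine ⟨orderOf P, orderOf_pos P, fun n j ζ hζ => ?_⟩
  obtain ⟨m, rfl | rfl⟩ := Int.eq_nat_or_neg n
  · simpa using h3 m j ζ hζ
  · have := h3 m j (ζ + (-(m * orderOf P)) * τ) (hH _ ζ (by simp) hζ)
    rw [show ζ + (-(m * orderOf P : ℂ)) * τ + m * (orderOf P * τ) = ζ by ring] at this
    rw [this]
    congr 1
    push_cast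
    ring

theorem pui0 {g : ℂ → ℂ[X]} (h0 : 0 < ρ)
    (hc : ∀ i, DifferentiableOn ℂ (fun v => (g v).coeff i) (Wu 1 ρ))
    (hn : ∀ v ∈ Wu 1 ρ, (g v).Monic ∧ (g v).natDegree = N ∧ (g v).Separable) :
    ∃ ε > 0, ∃ y : Fin N → ℂ → ℂ, ∀ w ∈ Wu ε ρ, (∀ j, AnalyticAt ℂ (y j) w) ∧
      (g (w ^ ε)).roots = Finset.univ.val.map fun j => y j w := by
  have hm : ∀ ζ : ℂ, ζ.re < Real.log ρ → exp ζ ∈ Wu 1 ρ := fun ζ hζ =>
    ⟨exp_ne_zero ζ, by rw [pow_one, norm_exp]; exact (Real.lt_log_iff_exp_lt h0).1 hζ⟩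
  have ho : IsOpen (Wu 1 ρ) :=
    isOpen_ne.inter (isOpen_lt (continuous_norm.pow 1) continuous_const)
  obtain ⟨A, hA⟩ := pui_half (g := fun ζ => g (exp ζ)) (c := Real.log ρ) (N := N)
    (fun i ζ hζ => DifferentiableAt.comp (g := fun v => (g v).coeff i) (f := exp) ζ
      ((hc i).differentiableAt (ho.mem_nhds (hm ζ hζ))) differentiableAt_exp)
    fun ζ hζ => hn _ (hm ζ hζ)
  obtain ⟨ε, ε0, hε⟩ := pui_per (g := fun ζ => (g (exp ζ)).roots) (τ := 2 * Real.pi * I) (by simp)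
    (fun ζ => by simp only [exp_add, exp_two_pi_mul_I, mul_one]) hA
  have ho' : IsOpen (Wu ε ρ) :=
    isOpen_ne.inter (isOpen_lt (continuous_norm.pow ε) continuous_const)
  have h1 : ∀ z ∈ Wu ε ρ, ∀ l : ℂ, exp l = z → ((ε : ℂ) * l).re < Real.log ρ := fun z hz l e => by
    rw [Real.lt_log_iff_exp_lt h0, ← norm_exp, exp_nat_mul, e, norm_pow]
    exact hz.2
  refine ⟨ε, ε0, fun j z => A j (ε * log z), fun w hw => ⟨fun j => ?_, ?_⟩⟩
  · have a1 : AnalyticAt ℂ (fun z : ℂ => (ε : ℂ) * (log w + log (z / w))) w :=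
      analyticAt_const.mul (analyticAt_const.add ((analyticAt_id.div_const (c := w)).clog
        (by simp [hw.1])))
    have a2 := AnalyticAt.comp (g := A j) (f := fun z : ℂ => (ε : ℂ) * (log w + log (z / w)))
      ((hA _ (h1 w hw _ (by simp [hw.1, exp_log hw.1]))).1 j) a1
    refine a2.congr ?_
    filter_upwards [ho'.mem_nhds hw] with z hz
    have e : exp (log w + log (z / w)) = exp (log z) := by
      rw [exp_add, exp_log hw.1, exp_log (div_ne_zero hz.1 hw.1), exp_log hz.1,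
        mul_div_cancel₀ _ hw.1]
    obtain ⟨n, hn⟩ := exp_eq_exp_iff_exists_int.1 e
    rw [← hε n j _ (h1 z hz _ (exp_log hz.1))]
    simp only [Function.comp, hn]
    congr 1
    ring
  · have := (hA _ (h1 w hw _ (exp_log hw.1))).2.2
    rwa [exp_nat_mul, exp_log hw.1] at this

end

end Pool.Agent.Lib.MP_5591bc_ag.Cu
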