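import Pool.Agent.Lib.MP_5591bc_ag.Cu.Defs
import Pool.Agent.Lib.MP_5591bc_ag.M.TayA

/-! Shared definitions for families of plane curves. -/

namespace Pool.Agent.Lib.MP_5591bc_ag.Cu

open Polynomial Set Filter Topology Matrix Complex G M
open scoped Polynomial.Bivariate

noncomputable section

/-- the part of the curve over `S` -/
def Ov (f : ℂ[X][Y]) (S : Set ℂ) : Set (ℂ × ℂ) := {p | f.evalEval p.1 p.2 = 0 ∧ p.1 ∈ S}

/-- the fibre polynomial -/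
abbrev fib (f : ℂ[X][Y]) (x : ℂ) : ℂ[X] := f.map (evalRingHom x)

/-- `f` is monic and unramified over the open set `S` -/
structure Sep (f : ℂ[X][Y]) (S : Set ℂ) : Prop where
  mon : f.Monic
  op : IsOpen S
  sep : ∀ x ∈ S, (fib f x).Separable

/-- a branch of the curve at `x` -/
def Br (f : ℂ[X][Y]) (β : ℂ → ℂ) (x : ℂ) : Prop :=
  AnalyticAt ℂ β x ∧ ∀ᶠ z in 𝓝 x, f.evalEval z (β z) = 0

/-- holomorphic on the curve over `S` -/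
def HolC (f : ℂ[X][Y]) (a : ℂ × ℂ → ℂ) (S : Set ℂ) : Prop :=
  ∀ x ∈ S, ∀ β, Br f β x → AnalyticAt ℂ (fun z => a (z, β z)) x

/-- `d G = a dx` over `S` -/
def Pr (f : ℂ[X][Y]) (G a : ℂ × ℂ → ℂ) (S : Set ℂ) : Prop :=
  ∀ x ∈ S, ∀ β, Br f β x → HasDerivAt (fun z => G (z, β z)) (a (x, β x)) x

/-- `d Φ = a dx - conj (a' dx)` over `S` -/
def Pr2 (f : ℂ[X][Y]) (Φ a a' : ℂ × ℂ → ℂ) (S : Set ℂ) : Prop :=
  ∀ x ∈ S, ∀ β, Br f β x → ∃ H W : ℂ → ℂ, ∀ᶠ z in 𝓝 x, HasDerivAt H (a (z, β z)) z ∧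
    HasDerivAt W (a' (z, β z)) z ∧ Φ (z, β z) = H z - star (W z)

/-- the trace -/
def Tr (f : ℂ[X][Y]) (φ : ℂ × ℂ → ℂ) (x : ℂ) : ℂ := ((fib f x).roots.map fun y => φ (x, y)).sum

/-- the closed rectangle -/
def rc (s t a b : ℝ) : Set ℂ := {z | z.re ∈ Icc s t ∧ z.im ∈ Icc a b}

/-- its boundary -/
def frx (s t a b : ℝ) : Set ℂ :=
  {z | z ∈ rc s t a b ∧ (z.re = s ∨ z.re = t ∨ z.im = a ∨ z.im = b)}

/-- the integral of `F dz` over the boundary of the rectangle -/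
def bx (F : ℂ → ℂ) (s t a b : ℝ) : ℂ :=
  (∫ x : ℝ in s..t, F (x + a * I)) - (∫ x : ℝ in s..t, F (x + b * I)) +
    I * (∫ y : ℝ in a..b, F (t + y * I)) - I * ∫ y : ℝ in a..b, F (s + y * I)

/-- a function of rectangles at the square with centre `e` and half side `r` -/
abbrev sq {α : Type*} (μ : ℝ → ℝ → ℝ → ℝ → α) (e : ℂ) (r : ℝ) : α :=
  μ (e.re - r) (e.re + r) (e.im - r) (e.im + r)

/-- small squares around `Z` minus the large square -/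
def BM (Z : Finset ℂ) (r : ℝ) (μ : ℝ → ℝ → ℝ → ℝ → ℂ) : ℂ := ∑ e ∈ Z, sq μ e r - sq μ 0 r⁻¹

/-- the same for the integrals of `F dz` -/
abbrev BB (Z : Finset ℂ) (r : ℝ) (F : ℂ → ℂ) : ℂ := BM Z r (bx F)

/-- the boundaries of these squares -/
def FR (Z : Finset ℂ) (r : ℝ) : Set ℂ := {z | (∃ e ∈ Z, z ∈ sq frx e r) ∨ z ∈ sq frx 0 r⁻¹}

/-- the large closed square without the small open squares -/
def Pf (Z : Finset ℂ) (r : ℝ) : Set ℂ :=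
  {z | z ∈ sq rc 0 r⁻¹ ∧ ∀ e ∈ Z, r ≤ |z.re - e.re| ∨ r ≤ |z.im - e.im|}

/-- `μ` is additive on the rectangles whose boundaries lie in `S` -/
def Addv (μ : ℝ → ℝ → ℝ → ℝ → ℂ) (S : Set ℂ) : Prop :=
  (∀ s m t a b, s ≤ m → m ≤ t → a ≤ b → frx s m a b ⊆ S → frx m t a b ⊆ S →
    μ s t a b = μ s m a b + μ m t a b) ∧
  ∀ s t a m b, s ≤ t → a ≤ m → m ≤ b → frx s t a m ⊆ S → frx s t m b ⊆ S →
    μ s t a b = μ s t a m + μ s t m b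

/-- `μ` takes values in `𝒞` on the small rectangles in `S` -/
def Locv (μ : ℝ → ℝ → ℝ → ℝ → ℂ) (𝒞 : AddSubmonoid ℂ) (S : Set ℂ) : Prop :=
  ∀ x ∈ S, ∃ r > 0, ∀ s t a b, s ≤ t → a ≤ b → rc s t a b ⊆ Metric.ball x r → μ s t a b ∈ 𝒞

/-- the squares of size `r` are well separated: the theorem on rectangles holds for them, and the
boundaries lie in the perforated square -/
def Ok (Z : Finset ℂ) (r : ℝ) : Prop :=
  0 < r ∧ FR Z r ⊆ Pf Z r ∧ ∀ (μ : ℝ → ℝ → ℝ → ℝ → ℂ) (𝒞 : AddSubmonoid ℂ) (S : Set ℂ),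
    Pf Z r ⊆ S → Addv μ S → Locv μ 𝒞 S → -BM Z r μ ∈ 𝒞

/-- the parameter at a puncture, `none` is the point at infinity -/
def ξo : Option ℂ → ℂ → ℂ
  | some e, v => e + v
  | none, v => v⁻¹

/-- the punctured disc at a puncture -/
def Dn : Option ℂ → ℝ → Set ℂ
  | some e, ρ => {x | x ≠ e ∧ ‖x - e‖ < ρ}
  | none, ρ => {x | ρ⁻¹ < ‖x‖}

/-- the signed integral over the square at a puncture -/
def sqo (F : ℂ → ℂ) : Option ℂ → ℝ → ℂ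
  | some e, r => sq (bx F) e r
  | none, r => -sq (bx F) 0 r⁻¹

/-- the union of the punctured discs -/
def col (Z : Finset ℂ) (ρ : ℝ) : Set ℂ := {x | ∃ o ∈ Finset.insertNone Z, x ∈ Dn o ρ}

/-- the discs of radius `ρ` are disjoint -/
def Adm (Z : Finset ℂ) (ρ : ℝ) : Prop :=
  0 < ρ ∧ (∀ e ∈ Z, ∀ e' ∈ Z, e ≠ e' → 2 * ρ ≤ ‖e - e'‖) ∧ ∀ e ∈ Z, ‖e‖ + ρ ≤ ρ⁻¹

/-- `a dx` has less than a simple pole at all punctures -/
def Sm (f : ℂ[X][Y]) (Z : Finset ℂ) (a : ℂ × ℂ → ℂ) : Prop :=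
  ∀ η > 0, ∃ ρ > 0, ∀ p ∈ Ov f univ, (∀ e ∈ Z, p.1 ∈ Dn (some e) ρ → ‖p.1 - e‖ * ‖a p‖ ≤ η) ∧
    (p.1 ∈ Dn none ρ → ‖p.1‖ * ‖a p‖ ≤ η)

/-- `W` is bounded near the punctures -/
def Bd (f : ℂ[X][Y]) (Z : Finset ℂ) (W : ℂ × ℂ → ℂ) : Prop :=
  ∃ ρ > 0, ∃ C : ℝ, ∀ p ∈ Ov f (col Z ρ), ‖W p‖ ≤ C

/-- the punctured disc in the uniformising parameter -/
def Wu (ε : ℕ) (ρ : ℝ) : Set ℂ := {u | u ≠ 0 ∧ ‖u‖ ^ ε < ρ}

/-- the abscissa in the uniformising parameter -/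
abbrev xo (o : Option ℂ) (ε : ℕ) (u : ℂ) : ℂ := ξo o (u ^ ε)

/-- Puiseux branches at the puncture `o` -/
structure Pu (f : ℂ[X][Y]) (o : Option ℂ) (ρ : ℝ) (ε N : ℕ) (y : Fin N → ℂ → ℂ) : Prop where
  pos : 0 < ε
  an : ∀ j, ∀ u ∈ Wu ε ρ, AnalyticAt ℂ (y j) u
  rt : ∀ u ∈ Wu ε ρ, (fib f (xo o ε u)).roots = Finset.univ.val.map fun j => y j u
  mer : ∀ j, MeromorphicAt (y j) 0

/-- the pull back of the form `a dx` to a branch -/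
def pb (o : Option ℂ) (ε : ℕ) (y : ℂ → ℂ) (a : ℂ × ℂ → ℂ) (u : ℂ) : ℂ :=
  a (xo o ε u, y u) * deriv (xo o ε) u

/-- `c` is the residue of `φ` at the origin -/
def IsRes (φ : ℂ → ℂ) (c : ℂ) : Prop :=
  ∃ ψ : ℂ → ℂ, ∀ᶠ u in 𝓝[≠] 0, HasDerivAt ψ (φ u - c / u) u

/-- a linear combination of forms -/
def cmb {ν : Type*} [Fintype ν] (q : ν → ℂ) (a : ν → ℂ × ℂ → ℂ) (p : ℂ × ℂ) : ℂ := ∑ i, q i * a i p

/-- `Λ` is the matrix of the residue pairing of the forms `a i dx` -/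
def IsLam {ν : Type*} (f : ℂ[X][Y]) (Z : Finset ℂ) (a : ν → ℂ × ℂ → ℂ) (Λ : Matrix ν ν ℂ) : Prop :=
  ∃ (ρ : ℝ) (G : ν → ℂ × ℂ → ℂ), Adm Z ρ ∧ (∀ k, Pr f (G k) (a k) (col Z ρ)) ∧
    ∀ i k, ∀ᶠ r in 𝓝[>] (0 : ℝ), BB Z r (Tr f fun p => G k p * a i p) = Λ i k

/-- the punctures -/
abbrev rts (d : ℂ[X]) : Finset ℂ := d.roots.toFinset

/-- a fibre with all its data -/
structure Fb {ν : Type*} [Fintype ν] [DecidableEq ν] (f : ℂ[X][Y]) (d : ℂ[X]) (m : ℕ)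
    (A : ν → ℂ[X][Y]) (w : ν → ℕ) (M : Matrix ν ν ℂ) : Prop where
  mf : f.Monic
  md : d.Monic
  w1 : ∀ i, w i ≤ 1
  half : 2 * ∑ i, w i = Fintype.card ν
  fb : Fib f d m A w M

variable {σ 𝓡 : Type*} [Fintype σ] [DecidableEq σ] [CommRing 𝓡]

/-- specialisation of the coefficients -/
abbrev sp (ψ : 𝓡 →+* ℂ) (A : 𝓡[X][Y]) : ℂ[X][Y] := A.map (mapRingHom ψ)

/-- a family of fibres near `s` with a branch `Q` of the period matrix -/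
structure LF {ν : Type*} [Fintype ν] [DecidableEq ν] (φ : (σ → ℂ) → 𝓡 →+* ℂ) (f : 𝓡[X][Y])
    (d : 𝓡[X]) (m : ℕ) (A : ν → 𝓡[X][Y]) (w : ν → ℕ) (Q : (σ → ℂ) → Matrix ν ν ℂ)
    (s : σ → ℂ) : Prop where
  an : ∀ r, AnalyticAt ℂ (fun t => φ t r) s
  anQ : ∀ i j, AnalyticAt ℂ (fun t => Q t i j) s
  mf : f.Monic
  md : d.Monic
  ev : ∀ᶠ t in 𝓝 s, Fb (sp (φ t) f) (d.map (φ t)) m (fun i => sp (φ t) (A i)) w (Q t)

open Classical in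
/-- extension by zero -/
def ex {S : Set (ℂ × ℂ)} (E : C(S, ℂ)) (p : ℂ × ℂ) : ℂ := if h : p ∈ S then E ⟨p, h⟩ else 0

/-- transport of the compact part `S` of the fibre at `s` to the fibres near `s` -/
structure Trn {ν : Type*} (φ : (σ → ℂ) → 𝓡 →+* ℂ) (f : 𝓡[X][Y]) (d : 𝓡[X]) (m : ℕ)
    (A : ν → 𝓡[X][Y]) (s : σ → ℂ) (S : Set (ℂ × ℂ)) [CompactSpace S] (y : (σ → ℂ) → C(S, ℂ))
    (E : ν → (σ → ℂ) → C(S, ℂ)) : Prop where
  sub : S ⊆ Cur (sp (φ s) f) (d.map (φ s))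
  an : AnalyticAt ℂ y s
  anE : ∀ i, AnalyticAt ℂ (E i) s
  base : ∀ p ∈ S, ex (y s) p = p.2
  ev : ∀ᶠ t in 𝓝 s, ∀ p ∈ S, (p.1, ex (y t) p) ∈ Cur (sp (φ t) f) (d.map (φ t)) ∧
    ∀ i, ex (E i t) p = frm (sp (φ t) (A i)) (d.map (φ t)) m (p.1, ex (y t) p)

/-- the germ at `s` of the ordinate of the point `p` moving with fixed abscissa -/
def yy (φ : (σ → ℂ) → 𝓡 →+* ℂ) (f : 𝓡[X][Y]) (s : σ → ℂ) (p : ℂ × ℂ) : (σ → ℂ) → ℂ :=
  Classical.epsilon fun y => AnalyticAt ℂ y s ∧ y s = p.2 ∧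
    ∀ᶠ t in 𝓝 s, (sp (φ t) f).evalEval p.1 (y t) = 0

/-- the Taylor series in the parameters of the coefficient of a form -/
def et (φ : (σ → ℂ) → 𝓡 →+* ℂ) (f : 𝓡[X][Y]) (d : 𝓡[X]) (m : ℕ) (A : 𝓡[X][Y]) (s : σ → ℂ)
    (p : ℂ × ℂ) : MvPowerSeries σ ℂ :=
  tayS (fun t => frm (sp (φ t) A) (d.map (φ t)) m (p.1, yy φ f s p t)) s

/-- a family of series as a series of germs -/
def gs {ι : Type*} (l : Filter ι) (S : ι → MvPowerSeries σ ℂ) : MvPowerSeries σ (Germ l ℂ) :=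
  fun κ => (↑(fun u => MvPowerSeries.coeff κ (S u)) : Germ l ℂ)

/-- closed under solving fixed point equations -/
def HC {A : Type*} [CommRing A] (𝓣 : Subring (MvPowerSeries σ A)) : Prop :=
  ∀ p : (MvPowerSeries σ A)[X], (∀ j, p.coeff j ∈ 𝓣) → MvPowerSeries.constantCoeff (p.coeff 0) = 0 →
    MvPowerSeries.constantCoeff (p.coeff 1) = 0 → ∀ z, MvPowerSeries.constantCoeff z = 0 →
      p.eval z = z → z ∈ 𝓣

/-- germs at the punctured origin -/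
abbrev Gm := Germ (𝓝[≠] (0 : ℂ)) ℂ

/-- the germ is holomorphic, with Taylor coefficients integral over `R` after scaling by `b` -/
def InO (R : Subring ℂ) (b : ℂ) (g : Gm) : Prop :=
  ∃ h : ℂ → ℂ, AnalyticAt ℂ h 0 ∧ g = (h : Gm) ∧
    ∀ n, IsIntegral R (b ^ n * PowerSeries.coeff n (tay h 0))

/-- the germ of `b u` -/
def bu (b : ℂ) : Gm := ((fun u => b * u : ℂ → ℂ) : Gm)

/-- series of germs with linear growth of the order of pole and of the denominators -/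
def InT (R : Subring ℂ) (S : MvPowerSeries σ Gm) : Prop :=
  ∃ b ∈ R, b ≠ 0 ∧ ∃ c : ℕ, ∀ κ : σ →₀ ℕ,
    InO R b (bu b ^ (c * (κ.degree + 1)) * MvPowerSeries.coeff κ S)

/-- meromorphic germs with Eisenstein denominators -/
def InE (R : Subring ℂ) (g : Gm) : Prop := ∃ b ∈ R, b ≠ 0 ∧ ∃ c : ℕ, InO R b (bu b ^ c * g)

/-- complex series with Eisenstein denominators -/
def Tame (R : Subring ℂ) (S : MvPowerSeries σ ℂ) : Prop :=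
  ∃ b ∈ R, b ≠ 0 ∧ ∀ κ : σ →₀ ℕ, IsIntegral R (b ^ (κ.degree + 1) * MvPowerSeries.coeff κ S)

/-- complex series with the denominators of a `G`-function -/
def GT (R : Subring ℂ) (S : MvPowerSeries σ ℂ) : Prop :=
  ∃ b ∈ R, b ≠ 0 ∧ ∃ c : ℕ, ∀ κ : σ →₀ ℕ, IsIntegral R
    ((Nat.lcmUpto (c * (κ.degree + 1)) : ℂ) * b ^ (κ.degree + 1) * MvPowerSeries.coeff κ S)

/-- the ring generated by the coordinates of `t` -/
def Rt (t : σ → ℂ) : Subring ℂ := (MvPolynomial.eval₂Hom (Int.castRingHom ℂ) t).range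

/-- the coordinates of `t` are algebraically independent over `K` -/
def Gen (K : Type*) [Field K] [Algebra K ℂ] (t : σ → ℂ) : Prop :=
  ∀ q : MvPolynomial σ K, MvPolynomial.aeval t q = 0 → q = 0

end

end Pool.Agent.Lib.MP_5591bc_ag.Cu
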