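import Pool.Agent.Lib.MP_5591bc_ag.Cu.Ift
import Pool.Agent.Lib.MP_5591bc_ag.Cu.Split

/-! Transport of compact parts of a fibre. -/

namespace Pool.Agent.Lib.MP_5591bc_ag.Cu

open Polynomial Set Filter Topology Matrix Complex Asymptotics G M
open scoped Polynomial.Bivariate

noncomputable section

variable {σ 𝓡 ν : Type*} [Fintype σ] [DecidableEq σ] [CommRing 𝓡] [Fintype ν] [DecidableEq ν]
  {φ : (σ → ℂ) → 𝓡 →+* ℂ} {f : 𝓡[X][Y]} {d : 𝓡[X]} {m : ℕ} {A : ν → 𝓡[X][Y]} {w : ν → ℕ}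
  {Q : (σ → ℂ) → Matrix ν ν ℂ} {s : σ → ℂ} {D : Set (ℂ × ℂ)} {p : ℂ × ℂ} {Λ : Matrix ν ν ℂ}
  {R : Subring ℂ}

/-- specialisation of the coefficients and evaluation at an element of an algebra -/
def traH {𝒜 : Type*} [CommRing 𝒜] [Algebra ℂ 𝒜] (ψ : 𝓡 →+* ℂ) (x : 𝒜) : 𝓡[X] →+* 𝒜 :=
  eval₂RingHom ((algebraMap ℂ 𝒜).comp ψ) x

theorem tra_comp {𝒜 : Type*} [CommRing 𝒜] [Algebra ℂ 𝒜] (ψ : 𝓡 →+* ℂ) (x : 𝒜)
    (e : 𝒜 →ₐ[ℂ] ℂ) :
    (e : 𝒜 →+* ℂ).comp (traH ψ x) = (evalRingHom (e x)).comp (mapRingHom ψ) := by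
  refine Polynomial.ringHom_ext (fun a => ?_) ?_ <;> simp [traH]

theorem tra_ev1 {𝒜 : Type*} [CommRing 𝒜] [Algebra ℂ 𝒜] (ψ : 𝓡 →+* ℂ) (x : 𝒜)
    (e : 𝒜 →ₐ[ℂ] ℂ) (q : 𝓡[X]) : e (traH ψ x q) = (q.map ψ).eval (e x) :=
  RingHom.congr_fun (tra_comp ψ x e) q

theorem tra_ev2 {𝒜 : Type*} [CommRing 𝒜] [Algebra ℂ 𝒜] (ψ : 𝓡 →+* ℂ) (x y : 𝒜)
    (e : 𝒜 →ₐ[ℂ] ℂ) (B : 𝓡[X][Y]) :
    e ((B.map (traH ψ x)).eval y) = (sp ψ B).evalEval (e x) (e y) := by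
  induction B using Polynomial.induction_on' with
  | add a b ha hb => simp only [sp, Polynomial.map_add, eval_add, map_add, ha, hb, evalEval_add]
  | monomial n a =>
    simp only [sp, ← C_mul_X_pow_eq_monomial, Polynomial.map_mul, Polynomial.map_pow, map_C, map_X,
      eval_mul, eval_C, eval_pow, eval_X, map_mul, map_pow, tra_ev1, evalEval_mul, evalEval_pow,
      evalEval_C, evalEval_X, coe_mapRingHom]

section

variable {𝒜 : Type*} [NormedCommRing 𝒜] [NormedAlgebra ℂ 𝒜]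

omit [DecidableEq σ] in
theorem tra_an1 (h : ∀ r, AnalyticAt ℂ (fun t => φ t r) s) (x : 𝒜) (q : 𝓡[X]) :
    AnalyticAt ℂ (fun t => traH (φ t) x q) s := by
  induction q using Polynomial.induction_on' with
  | add a b ha hb => simpa only [map_add] using ha.fun_add hb
  | monomial n a =>
    have : (fun t => traH (φ t) x (monomial n a)) = fun t => φ t a • x ^ n := by
      ext t
      simp [traH, Algebra.smul_def]
    rw [this]
    exact (h a).fun_smul analyticAt_const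

omit [DecidableEq σ] in
theorem tra_an2 (h : ∀ r, AnalyticAt ℂ (fun t => φ t r) s) (x : 𝒜) {y : (σ → ℂ) → 𝒜}
    (hy : AnalyticAt ℂ y s) (B : 𝓡[X][Y]) :
    AnalyticAt ℂ (fun t => (B.map (traH (φ t) x)).eval (y t)) s := by
  induction B using Polynomial.induction_on' with
  | add a b ha hb => simpa only [Polynomial.map_add, eval_add] using ha.fun_add hb
  | monomial n a =>
    simpa only [Polynomial.map_monomial, eval_monomial] using (tra_an1 h x a).fun_mul (hy.fun_pow n)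

omit [DecidableEq σ] in
theorem tra_ift [CompleteSpace 𝒜] (h : ∀ r, AnalyticAt ℂ (fun t => φ t r) s) (x y₀ : 𝒜)
    (h0 : (f.map (traH (φ s) x)).eval y₀ = 0)
    (hu : IsUnit ((f.derivative.map (traH (φ s) x)).eval y₀)) :
    ∃ y : (σ → ℂ) → 𝒜, AnalyticAt ℂ y s ∧ y s = y₀ ∧
      (∀ᶠ t in 𝓝 s, (f.map (traH (φ t) x)).eval (y t) = 0) ∧
      ∀ y' : (σ → ℂ) → 𝒜, ContinuousAt y' s → y' s = y₀ →
        (∀ᶠ t in 𝓝 s, (f.map (traH (φ t) x)).eval (y' t) = 0) → y' =ᶠ[𝓝 s] y :=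
  ift (g := fun t => f.map (traH (φ t) x)) (n := f.natDegree)
    (fun i => by simpa only [coeff_map] using tra_an1 h x (f.coeff i))
    (fun _ => natDegree_map_le) h0 (by rwa [derivative_map])

end

theorem tra_der (h : LF φ f d m A w Q s) (hp : p ∈ Cur (sp (φ s) f) (d.map (φ s))) :
    (sp (φ s) f.derivative).evalEval p.1 p.2 ≠ 0 := by
  have h1 := h.ev.self_of_nhds.fb.2.1 p.1 hp.2
  have h2 : ((sp (φ s) f).map (evalRingHom p.1)).eval p.2 = 0 := by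
    rw [map_evalRingHom_eval]
    exact hp.1
  have h3 := h1.aeval_derivative_ne_zero (x := p.2) (by simpa [aeval_def] using h2)
  rw [coe_aeval_eq_eval, derivative_map, map_evalRingHom_eval, derivative_map] at h3
  exact h3

theorem LF.yy_spec (h : LF φ f d m A w Q s) (hp : p ∈ Cur (sp (φ s) f) (d.map (φ s))) :
    AnalyticAt ℂ (yy φ f s p) s ∧ yy φ f s p s = p.2 ∧
      (∀ᶠ t in 𝓝 s, (sp (φ t) f).evalEval p.1 (yy φ f s p t) = 0) ∧
      ∀ y' : (σ → ℂ) → ℂ, ContinuousAt y' s → y' s = p.2 →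
        (∀ᶠ t in 𝓝 s, (sp (φ t) f).evalEval p.1 (y' t) = 0) → y' =ᶠ[𝓝 s] yy φ f s p := by
  have e : ∀ (ψ : 𝓡 →+* ℂ) (y : ℂ) (B : 𝓡[X][Y]),
      (B.map (traH ψ p.1)).eval y = (sp ψ B).evalEval p.1 y := fun ψ y B =>
    tra_ev2 ψ p.1 y (AlgHom.id ℂ ℂ) B
  obtain ⟨y, h1, h2, h3, h4⟩ := tra_ift (f := f) h.an p.1 p.2 (by rw [e]; exact hp.1)
    (by rw [e]; exact (tra_der h hp).isUnit)
  simp only [e] at h3 h4
  obtain ⟨k1, k2, k3⟩ : AnalyticAt ℂ (yy φ f s p) s ∧ yy φ f s p s = p.2 ∧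
      ∀ᶠ t in 𝓝 s, (sp (φ t) f).evalEval p.1 (yy φ f s p t) = 0 :=
    Classical.epsilon_spec (p := fun y => AnalyticAt ℂ y s ∧ y s = p.2 ∧
      ∀ᶠ t in 𝓝 s, (sp (φ t) f).evalEval p.1 (y t) = 0) ⟨y, h1, h2, h3⟩
  exact ⟨k1, k2, k3, fun y' a b c =>
    (h4 y' a b c).trans (h4 _ k1.continuousAt k2 k3).symm⟩

theorem LF.tra (h : LF φ f d m A w Q s) [CompactSpace D]
    (hD : D ⊆ Cur (sp (φ s) f) (d.map (φ s))) : ∃ y E, Trn φ f d m A s D y E := by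
  let x : C(D, ℂ) := ⟨fun q => q.1.1, by fun_prop⟩
  let y₀ : C(D, ℂ) := ⟨fun q => q.1.2, by fun_prop⟩
  have e1 : ∀ (ψ : 𝓡 →+* ℂ) (c : 𝓡[X]) (q : D), traH ψ x c q = (c.map ψ).eval q.1.1 :=
    fun ψ c q => tra_ev1 ψ x (ContinuousMap.evalAlgHom ℂ ℂ q) c
  have e2 : ∀ (ψ : 𝓡 →+* ℂ) (y : C(D, ℂ)) (B : 𝓡[X][Y]) (q : D),
      (B.map (traH ψ x)).eval y q = (sp ψ B).evalEval q.1.1 (y q) := fun ψ y B q =>
    tra_ev2 ψ x y (ContinuousMap.evalAlgHom ℂ ℂ q) B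
  obtain ⟨y, h1, h2, h3, -⟩ := tra_ift (f := f) h.an x y₀
    (by ext q; rw [e2]; exact (hD q.2).1)
    (by rw [ContinuousMap.isUnit_iff_forall_ne_zero]; intro q; rw [e2]; exact tra_der h (hD q.2))
  have hu : IsUnit (traH (φ s) x d) := by
    rw [ContinuousMap.isUnit_iff_forall_ne_zero]; intro q; rw [e1]; exact (hD q.2).2
  have ha := tra_an1 h.an x d
  have hev : ∀ᶠ t in 𝓝 s, IsUnit (traH (φ t) x d) :=
    ha.continuousAt.eventually (Units.isOpen.mem_nhds hu)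
  have hi : AnalyticAt ℂ (fun t => Ring.inverse (traH (φ t) x d)) s := by
    obtain ⟨u, hu'⟩ := hu
    have := analyticAt_inverse (𝕜 := ℂ) u
    rw [hu'] at this
    exact this.comp (f := fun t => traH (φ t) x d) ha
  refine ⟨y, fun i t => ((A i).map (traH (φ t) x)).eval (y t) *
    Ring.inverse (traH (φ t) x d) ^ m, hD, h1,
    fun i => (tra_an2 h.an x h1 _).fun_mul (hi.fun_pow m), fun q hq => ?_, ?_⟩
  · simp [ex, hq, h2, y₀]
  · filter_upwards [h3, hev] with t k1 k2 q hq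
    have k3 : (d.map (φ t)).eval q.1 ≠ 0 := by
      have := (ContinuousMap.isUnit_iff_forall_ne_zero _).1 k2 ⟨q, hq⟩
      rwa [e1] at this
    have k4 : Ring.inverse (traH (φ t) x d) ⟨q, hq⟩ = ((d.map (φ t)).eval q.1)⁻¹ := by
      have := DFunLike.congr_fun (Ring.mul_inverse_cancel _ k2) ⟨q, hq⟩
      rw [ContinuousMap.mul_apply, e1] at this
      exact eq_inv_of_mul_eq_one_right this
    refine ⟨⟨?_, k3⟩, fun i => ?_⟩
    · have := DFunLike.congr_fun k1 ⟨q, hq⟩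
      rw [e2] at this
      simpa [ex, hq] using this
    · simp only [ex, hq, dif_pos, frm, ContinuousMap.mul_apply, ContinuousMap.pow_apply, e2, k4,
        div_eq_mul_inv, inv_pow]

end

end Pool.Agent.Lib.MP_5591bc_ag.Cu
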