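import Pool.Agent.Lib.MP_5591bc_ag.Cu.Flat
import Pool.Agent.Lib.MP_5591bc_ag.Cu.GalD
import Pool.Agent.Lib.MP_5591bc_ag.Cu.Gal
import Pool.Agent.Lib.MP_5591bc_ag.Cu.Det

/-! The period matrices of a family of curves form a polarised variation of Hodge structure. -/

namespace Pool.Agent.Lib.MP_5591bc_ag.Cu

open Polynomial Set Filter Topology Matrix Complex G M A B
open scoped Polynomial.Bivariate

noncomputable section

/-- `C` maps the standard lattice onto itself -/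
def Uni {ν : Type*} [Fintype ν] [DecidableEq ν] (C : Matrix ν ν ℂ) : Prop :=
  C.det ≠ 0 ∧ ∀ v : ν → ℂ, (∃ k : ν → ℤ, v = fun j => (k j : ℂ)) ↔
    ∃ k : ν → ℤ, v = C *ᵥ fun j => (k j : ℂ)

theorem lat_mul {ν : Type*} [Fintype ν] [DecidableEq ν] {S : Set (ℂ × ℂ)} {a : ν → ℂ × ℂ → ℂ}
    {M C : Matrix ν ν ℂ} (h : Lat S a M) : Lat S a (M * C) ↔ Uni C := by
  have e : ∀ v, M⁻¹ *ᵥ M *ᵥ v = v := fun v => by
    rw [mulVec_mulVec, nonsing_inv_mul _ h.1.isUnit, one_mulVec]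
  have e' : ∀ v, M *ᵥ M⁻¹ *ᵥ v = v := fun v => by
    rw [mulVec_mulVec, mul_nonsing_inv _ h.1.isUnit, one_mulVec]
  refine and_congr (by simp [det_mul, h.1]) ⟨fun H v => ?_, fun H v => ?_⟩
  · have := (h.2 (M *ᵥ v)).symm.trans (H _)
    simp only [← mulVec_mulVec] at this
    exact ⟨fun ⟨k, hk⟩ => (this.1 ⟨k, by rw [hk]⟩).imp fun k hk => by rw [← e v, hk, e],
      fun ⟨k, hk⟩ => (this.2 ⟨k, by rw [hk]⟩).imp fun k hk => by rw [← e v, hk, e]⟩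
  · refine (h.2 v).trans ⟨fun ⟨k, hk⟩ => ((H _).1 ⟨k, rfl⟩).imp fun k' hk' => ?_,
      fun ⟨k, hk⟩ => ((H _).2 ⟨k, rfl⟩).imp fun k' hk' => ?_⟩
    · rw [hk, hk', mulVec_mulVec]
    · rw [hk, ← hk', mulVec_mulVec]

theorem Uni.int {ν : Type*} [Fintype ν] [DecidableEq ν] {C : Matrix ν ν ℂ} (h : Uni C) :
    ∃ γ : Matrix ν ν ℤ, C = γ.map Int.cast := by
  choose k hk using fun j => (h.2 _).2 ⟨Pi.single j 1, rfl⟩
  refine ⟨of fun i j => k j i, Matrix.ext fun i j => ?_⟩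
  have := congrFun (hk j) i
  simp only [mulVec, dotProduct, Pi.single_apply, Int.cast_ite, Int.cast_one, Int.cast_zero,
    mul_ite, mul_one, mul_zero, Finset.sum_ite_eq', Finset.mem_univ, if_true] at this
  simpa using this

theorem vhs_canc {ν : Type*} [Fintype ν] [DecidableEq ν] {M N N' : Matrix ν ν ℂ} (h : M.det ≠ 0)
    (e : M * N * Mᵀ = M * N' * Mᵀ) : N = N' := by
  have h' : IsUnit Mᵀ.det := by rw [det_transpose]; exact h.isUnit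
  have := congrArg (fun Z => M⁻¹ * Z * Mᵀ⁻¹) e
  simpa only [← Matrix.mul_assoc, nonsing_inv_mul _ h.isUnit, Matrix.one_mul,
    mul_nonsing_inv_cancel_right _ _ h'] using this

variable {σ K ν : Type} [Fintype σ] [DecidableEq σ] [Field K] [NumberField K] [Algebra K ℂ]
  [Fintype ν] [DecidableEq ν] {T : MvPolynomial σ K} {B : σ → Matrix ν ν (MvPolynomial σ K)}
  {f : (MvPolynomial σ K)[X][Y]} {d : (MvPolynomial σ K)[X]} {m : ℕ}
  {A : ν → (MvPolynomial σ K)[X][Y]} {w : ν → ℕ} {U U' V : Set (σ → ℂ)}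
  {P P' Q : (σ → ℂ) → Matrix ν ν ℂ} {s t : σ → ℂ} {J : Matrix ν ν ℝ} {M : Matrix ν ν ℂ}

/-- the hypotheses on the family -/
structure Fam (T : MvPolynomial σ K) (B : σ → Matrix ν ν (MvPolynomial σ K))
    (f : (MvPolynomial σ K)[X][Y]) (d : (MvPolynomial σ K)[X]) (m : ℕ)
    (A : ν → (MvPolynomial σ K)[X][Y]) (w : ν → ℕ) : Prop where
  T0 : T ≠ 0
  mf : f.Monic
  md : d.Monic
  w1 : ∀ i, w i ≤ 1
  half : 2 * ∑ i, w i = Fintype.card ν
  cov : ∀ t, MvPolynomial.aeval t T ≠ 0 → ∃ V ∈ 𝓝 t, ∃ Q, PerM T B f d m A w V Q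

/-- `M` is a period matrix at `t` in which the residue pairing is `J` -/
def Inv (f : (MvPolynomial σ K)[X][Y]) (d : (MvPolynomial σ K)[X]) (m : ℕ)
    (A : ν → (MvPolynomial σ K)[X][Y]) (w : ν → ℕ) (J : Matrix ν ν ℝ) (t : σ → ℂ)
    (M : Matrix ν ν ℂ) : Prop :=
  Fb (sp (evt t) f) (d.map (evt t)) m (fun i => sp (evt t) (A i)) w M ∧
    ∃ Λ, IsLam (sp (evt t) f) (rts (d.map (evt t)))
      (fun i => frm (sp (evt t) (A i)) (d.map (evt t)) m) Λ ∧ M * cx J * Mᵀ = -Λ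

theorem Fam.fb (h : Fam T B f d m A w) (hQ : PerM T B f d m A w V Q) (ht : t ∈ V) :
    Fb (sp (evt t) f) (d.map (evt t)) m (fun i => sp (evt t) (A i)) w (Q t) :=
  ⟨h.mf.map _, h.md.map _, h.w1, h.half, hQ.2 t ht⟩

theorem Fam.lf (h : Fam T B f d m A w) (hQ : PerM T B f d m A w V Q) (ht : V ∈ 𝓝 t) :
    LF (fun t => evt t) f d m A w Q t :=
  ⟨fun r => aeval_ana r, fun i j => ((hQ.1 t (mem_of_mem_nhds ht)).2 i j).1, h.mf, h.md,
    mem_of_superset ht fun _ hz => h.fb hQ hz⟩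

theorem Fam.gal (h : Fam T B f d m A w) : GalM T B := by
  obtain ⟨t, -, ht⟩ := gen_ex (σ := σ) K isOpen_univ univ_nonempty
  obtain ⟨V, hV, Q, hQ⟩ := h.cov t fun e => h.T0 (ht _ e)
  exact gal_of h.T0 isOpen_interior (fun z hz => hQ.1 z (interior_subset hz))
    (mem_interior_iff_mem_nhds.2 hV) ht ((h.lf hQ hV).galc (tame_poly t))

theorem Fam.loc (h : Fam T B f d m A w) (hQ : PerM T B f d m A w V Q) (ht : V ∈ 𝓝 t)
    (J : Matrix ν ν ℝ) : ∃ N, ∀ᶠ z in 𝓝 t, ∀ C,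
      Inv f d m A w J z (Q z * C) ↔ Uni C ∧ C * cx J * Cᵀ = -N := by
  obtain ⟨Λ, hΛ⟩ := (h.fb hQ (mem_of_mem_nhds ht)).lam
  refine ⟨(Q t)⁻¹ * Λ * ((Q t)⁻¹)ᵀ, ?_⟩
  filter_upwards [(h.lf hQ ht).flat hΛ, ht] with z h1 h2 C
  have k := h.fb hQ h2
  have e : ∀ Λ', IsLam _ _ _ Λ' → (Q z * C * cx J * (Q z * C)ᵀ = -Λ' ↔
      C * cx J * Cᵀ = -((Q t)⁻¹ * Λ * ((Q t)⁻¹)ᵀ)) := fun Λ' h' => by
    rw [h1 Λ' h']
    refine ⟨fun e => vhs_canc k.fb.2.2.2.1 ?_, fun e => ?_⟩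
    · simpa only [transpose_mul, Matrix.mul_assoc, Matrix.mul_neg, Matrix.neg_mul] using e
    · simpa only [transpose_mul, Matrix.mul_assoc, Matrix.mul_neg, Matrix.neg_mul] using
        congrArg (fun X => Q z * X * (Q z)ᵀ) e
  refine ⟨fun ⟨a, Λ', b, c⟩ => ⟨(lat_mul k.fb.2.2.2).1 a.fb.2.2.2, (e _ b).1 c⟩, fun ⟨a, b⟩ => ?_⟩
  obtain ⟨Λ', h'⟩ := k.lam
  exact ⟨⟨k.mf, k.md, k.w1, k.half, k.fb.1, k.fb.2.1, k.fb.2.2.1, (lat_mul k.fb.2.2.2).2 a⟩,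
    Λ', h', (e _ h').2 b⟩

theorem Inv.hs (h : Inv f d m A w J t M) : HS J 1 w M := by
  obtain ⟨k, Λ, h1, h2⟩ := h
  obtain ⟨J', a, -, b⟩ := k.pol h1
  obtain rfl : J = J' := Matrix.map_injective Complex.ofReal_injective
    (vhs_canc k.fb.2.2.2.1 (h2.trans b.symm))
  exact a

theorem Fam.two (h : Fam T B f d m A w) (t0 : MvPolynomial.aeval t T ≠ 0) {M' : Matrix ν ν ℂ}
    (h1 : Inv f d m A w J t M) (h2 : Inv f d m A w J t M') : ∃ γ : Matrix ν ν ℤ,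
      γ.map Int.cast * J * (γ.map Int.cast)ᵀ = J ∧ M' = M * γ.map Int.cast := by
  obtain ⟨V, hV, Q, hQ⟩ := h.cov t t0
  obtain ⟨N, hN⟩ := h.loc hQ hV J
  have q := (hQ.1 t (mem_of_mem_nhds hV)).1
  have m0 := h1.1.fb.2.2.2.1
  have e : ∀ X, Q t * ((Q t)⁻¹ * X) = X := fun X => mul_nonsing_inv_cancel_left _ _ q.isUnit
  have e' : M * (M⁻¹ * M') = M' := mul_nonsing_inv_cancel_left _ _ m0.isUnit
  obtain ⟨γ, hγ⟩ := ((lat_mul h1.1.fb.2.2.2).1 (e'.symm ▸ h2.1.fb.2.2.2)).int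
  have a := ((hN.self_of_nhds _).1 ((e M).symm ▸ h1)).2
  have b := ((hN.self_of_nhds _).1 ((e M').symm ▸ h2)).2
  have c : M' * cx J * M'ᵀ = M * cx J * Mᵀ := by
    have := congrArg (fun X => Q t * X * (Q t)ᵀ) (b.trans a.symm)
    simp only [← Matrix.mul_assoc, mul_nonsing_inv _ q.isUnit, Matrix.one_mul] at this
    simpa only [Matrix.mul_assoc, ← transpose_mul, e] using this
  refine ⟨γ, Matrix.map_injective Complex.ofReal_injective (vhs_canc m0 ?_), by rw [← hγ, e']⟩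
  have x : (γ.map Int.cast * J * (γ.map Int.cast)ᵀ).map Complex.ofReal =
      γ.map Int.cast * cx J * (γ.map Int.cast)ᵀ := by
    ext i j
    simp [mul_apply]
  simp only []
  rw [x, ← hγ, ← c]
  conv_rhs => rw [← e']
  simp only [transpose_mul, Matrix.mul_assoc]

theorem Fam.det (h : Fam T B f d m A w) (hP : PerM T B f d m A w U P) (ho : IsOpen U) (ht : t ∈ U)
    (hI : Inv f d m A w J t (P t)) :
    IsAlgebraic (Rt t) ((-(2 * Real.pi * I)⁻¹ • cx J).det * (P t).det ^ 2) := by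
  obtain ⟨-, Λ, h1, h2⟩ := hI
  have a := (h.lf hP (ho.mem_nhds ht)).lamA (tame_poly t) h1
  have e : (-(2 * Real.pi * I)⁻¹ • cx J).det * (P t).det ^ 2 =
      (of fun i k => Λ i k / (2 * Real.pi * I)).det := by
    have : (of fun i k => Λ i k / (2 * Real.pi * I)) =
        P t * (-(2 * Real.pi * I)⁻¹ • cx J) * (P t)ᵀ := by
      rw [Matrix.mul_smul, Matrix.smul_mul, h2]
      ext i k
      simp [div_eq_inv_mul]
    rw [this, det_mul, det_mul, det_transpose]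
    ring
  rw [e, det_apply']
  refine (Subalgebra.algebraicClosure (Rt t) ℂ).sum_mem fun π _ =>
    Subalgebra.mul_mem _ (Subalgebra.intCast_mem _ _) (Subalgebra.prod_mem _ fun i _ => a _ _)

theorem Fam.vhs (h : Fam T B f d m A w) (ho : IsOpen U) (hU : IsPreconnected U) (hne : U.Nonempty)
    (hP : PerM T B f d m A w U P) (hC : ConnM U P) : ∃ J, VHS T U P 0 id J 1 w 1 := by
  obtain ⟨s, hs, hg⟩ := gen_ex (σ := σ) K ho hne
  have s0 : MvPolynomial.aeval s T ≠ 0 := fun e => h.T0 (hg _ e)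
  obtain ⟨Λ, hΛ⟩ := (h.fb hP hs).lam
  obtain ⟨J, -, J0, hJ⟩ := (h.fb hP hs).pol hΛ
  have I' : ∀ U' P', ContM U P U' P' → ∀ t ∈ U', MvPolynomial.aeval t T ≠ 0 →
      Inv f d m A w J t (P' t) := fun U' P' k t ht t0 =>
    mono_inv h.T0 ho hU hP.1 (fun t t0 => by
      obtain ⟨V, hV, Q, hQ⟩ := h.cov t t0
      obtain ⟨N, hN⟩ := h.loc hQ hV J
      exact ⟨_, Q, isOpen_interior, mem_interior_iff_mem_nhds.2 hV,
        fun z hz => hQ.1 z (interior_subset hz),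
        fun C => hN.mono fun z hz => (hz C).trans (hN.self_of_nhds C).symm⟩) hs s0
      ⟨h.fb hP hs, Λ, hΛ, hJ⟩ k ht t0
  refine ⟨J, ?_, fun U' P' k t ht t0 => ⟨(I' _ _ k t ht t0).hs, fun l i => ?_⟩,
    fun t V Q _ => ⟨0, 1, zero_ne_one, .of_forall fun z => by simp⟩,
    fun U₁ P₁ U₂ P₂ k₁ k₂ t t1 t2 _ => ?_⟩
  · have c0 : (-(2 * Real.pi * I)⁻¹ • cx J).det ≠ 0 := by
      have e : (cx J).det = ((J.det : ℝ) : ℂ) := (Complex.ofRealHom.map_det J).symm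
      rw [det_smul, e]
      exact mul_ne_zero (pow_ne_zero _ (by simp [Real.pi_ne_zero])) (ofReal_ne_zero.2 J0)
    obtain ⟨N, q, hq⟩ := det_pol h.T0 ho hU hP.1 hC c0
      fun t ht hg => h.det hP ho ht (I' _ _ .base t ht fun e => h.T0 (hg _ e))
    exact ⟨N, MvPolynomial.rename Sum.inl q, fun t ht => by
      rw [hq t ht, MvPolynomial.eval_rename]; rfl⟩
  · have d0 := (I' _ _ k t ht t0).1.fb.2.2.2.1
    generalize (fun k => fderiv ℂ (fun z => P' z (id i) (id k)) t (Pi.single l 1)) = v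
    have e : v = ∑ a, (v ᵥ* (P' t)⁻¹) a • P' t a := by
      rw [← vecMul_eq_sum, vecMul_vecMul, nonsing_inv_mul _ d0.isUnit, vecMul_one]
    rw [e]
    exact Submodule.sum_mem _ fun a _ => Submodule.smul_mem _ _
      (Submodule.subset_span ⟨a, by have := h.w1 i; omega, rfl⟩)
  · obtain ⟨_, ⟨γ, g1, rfl⟩, g2⟩ := mono_two h.T0 ho hU hP.1 (𝒢 := {C | ∃ γ : Matrix ν ν ℤ,
      γ.map Int.cast * J * (γ.map Int.cast)ᵀ = J ∧ C = γ.map Int.cast}) k₁ k₂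
      (fun z z1 z2 z0 => by
        obtain ⟨γ, g1, g2⟩ := h.two z0 (I' _ _ k₁ z z1 z0) (I' _ _ k₂ z z2 z0)
        exact ⟨_, ⟨γ, g1, rfl⟩, g2⟩) t1 t2
    exact ⟨γ, g1, g2⟩

end

end Pool.Agent.Lib.MP_5591bc_ag.Cu
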